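import Mathlib

set_option autoImplicit false

namespace Pool.Agent.Lib.Bil

open Complex MeasureTheory Set Filter
open scoped ComplexConjugate Topology ENNReal Real

instance fact2pi : Fact (0 < 2 * π) := ⟨by positivity⟩

/-- A cone in the plane is null iff its trace on the circle is null. -/
theorem cone_null {B : Set ℂ} (hB : MeasurableSet B)
    (hcone : ∀ z : ℂ, ∀ r : ℝ, 0 < r → (z ∈ B ↔ (r : ℂ) * z ∈ B)) :
    volume B = 0 ↔ ∀ᵐ θ : AddCircle (2 * π), ((AddCircle.toCircle θ : Circle) : ℂ) ∉ B := by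
  set g : ℝ → ℝ≥0∞ := fun θ => B.indicator 1 (cexp ((θ : ℂ) * I)) with hg
  have hgm : Measurable g := by
    have h1 : Measurable (fun θ : ℝ => cexp ((θ : ℂ) * I)) :=
      Continuous.measurable (by fun_prop)
    exact (measurable_one.indicator hB).comp h1
  have h1 : volume B = (∫⁻ r in Ioi (0 : ℝ), ENNReal.ofReal r) * ∫⁻ θ in Ioo (-π) π, g θ := by
    have e1 : volume B = ∫⁻ z, B.indicator (1 : ℂ → ℝ≥0∞) z := (lintegral_indicator_one hB).symm
    rw [e1, ← Complex.lintegral_comp_polarCoord_symm]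
    have e2 : ∫⁻ p in _root_.polarCoord.target, ENNReal.ofReal p.1 •
        B.indicator (1 : ℂ → ℝ≥0∞) (Complex.polarCoord.symm p) =
        ∫⁻ p in _root_.polarCoord.target, ENNReal.ofReal p.1 * g p.2 := by
      apply setLIntegral_congr_fun
      · exact _root_.polarCoord.open_target.measurableSet
      · intro p hp
        rw [polarCoord_target] at hp
        have hp1 : 0 < p.1 := hp.1
        simp only [smul_eq_mul]
        congr 1
        have e3 : Complex.polarCoord.symm p = (p.1 : ℂ) * cexp ((p.2 : ℂ) * I) := by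
          rw [Complex.polarCoord_symm_apply, Complex.exp_mul_I, ofReal_cos, ofReal_sin]
        rw [e3, hg]
        simp only [indicator]
        congr 1
        exact propext (hcone _ _ hp1).symm
    rw [e2, polarCoord_target, Measure.volume_eq_prod, ← Measure.prod_restrict]
    exact lintegral_prod_mul (f := fun r => ENNReal.ofReal r) (g := g)
      (ENNReal.measurable_ofReal.aemeasurable) hgm.aemeasurable
  have h2 : (∫⁻ r in Ioi (0 : ℝ), ENNReal.ofReal r) ≠ 0 := by
    intro h
    rw [lintegral_eq_zero_iff ENNReal.measurable_ofReal] at h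
    rw [Filter.EventuallyEq, ae_restrict_iff' measurableSet_Ioi] at h
    have h3 : volume (Ioi (0 : ℝ)) = 0 := by
      rw [measure_eq_zero_iff_ae_notMem]
      filter_upwards [h] with r hr hr0
      have := hr hr0
      rw [Pi.zero_apply, ENNReal.ofReal_eq_zero] at this
      exact absurd this (not_le.2 hr0)
    rw [Real.volume_Ioi] at h3
    exact ENNReal.top_ne_zero h3
  have h3 : volume B = 0 ↔ ∀ᵐ θ : ℝ ∂((volume : Measure ℝ).restrict (Ioo (-π) π)),
      cexp ((θ : ℂ) * I) ∉ B := by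
    rw [h1, mul_eq_zero, or_iff_right h2, lintegral_eq_zero_iff hgm]
    apply Filter.eventually_congr
    refine Eventually.of_forall (fun θ => ?_)
    simp only [hg, Pi.zero_apply]
    by_cases hmem : cexp ((θ : ℂ) * I) ∈ B
    · simp [hmem]
    · simp [hmem]
  rw [h3]
  have h4 := AddCircle.measurePreserving_mk (2 * π) (-π)
  have h5 : -π + 2 * π = π := by ring
  rw [h5] at h4
  have hm : MeasurableSet {θ : AddCircle (2 * π) | ((AddCircle.toCircle θ : Circle) : ℂ) ∉ B} := by
    have : Measurable (fun θ : AddCircle (2 * π) => ((AddCircle.toCircle θ : Circle) : ℂ)) :=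
      (continuous_subtype_val.comp AddCircle.continuous_toCircle).measurable
    exact this hB.compl
  rw [← h4.map_eq, ae_map_iff h4.measurable.aemeasurable hm, Measure.restrict_congr_set Ioo_ae_eq_Ioc]
  apply Filter.eventually_congr
  refine Eventually.of_forall (fun θ => ?_)
  have h6 : (AddCircle.toCircle ((θ : ℝ) : AddCircle (2 * π)) : ℂ) = cexp ((θ : ℂ) * I) := by
    rw [AddCircle.toCircle_apply_mk, Circle.coe_exp]
    congr 2
    have : (2 * π) / (2 * π) = 1 := by
      field_simp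
    rw [this, one_mul]
  rw [← h6]

theorem rot_ergodic {Φ : Set ℂ} (hΦ : MeasurableSet Φ)
    (hcone : ∀ z : ℂ, ∀ r : ℝ, 0 < r → (z ∈ Φ ↔ (r : ℂ) * z ∈ Φ)) {c : ℂ} (hc : ‖c‖ = 1)
    (hord : ∀ m : ℕ, 0 < m → c ^ m ≠ 1) (hinv : ∀ᵐ w : ℂ, (w ∈ Φ ↔ c * w ∈ Φ)) :
    volume Φ = 0 ∨ volume Φᶜ = 0 := by
  have hmul : Measurable (fun w : ℂ => c * w) := Continuous.measurable (by fun_prop)
  set D : Set ℂ := {w | ¬ (w ∈ Φ ↔ c * w ∈ Φ)} with hD
  have hDm : MeasurableSet D := by
    have : D = (Φ \ (fun w => c * w) ⁻¹' Φ) ∪ ((fun w => c * w) ⁻¹' Φ \ Φ) := by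
      ext w
      simp only [hD, mem_union, Set.mem_sdiff, mem_ofPred_eq, mem_preimage]
      tauto
    rw [this]
    exact (hΦ.diff (hmul hΦ)).union ((hmul hΦ).diff hΦ)
  have hDcone : ∀ z : ℂ, ∀ r : ℝ, 0 < r → (z ∈ D ↔ (r : ℂ) * z ∈ D) := by
    intro z r hr
    simp only [hD, mem_ofPred_eq]
    rw [← hcone z r hr, hcone (c * z) r hr]
    have : (r : ℂ) * (c * z) = c * ((r : ℂ) * z) := by ring
    rw [this]
  have hD0 : volume D = 0 := hinv
  have hD1 := (cone_null hDm hDcone).1 hD0
  set α : AddCircle (2 * π) := ((Complex.arg c : ℝ) : AddCircle (2 * π)) with hα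
  have hαc : ((AddCircle.toCircle α : Circle) : ℂ) = c := by
    rw [hα, AddCircle.toCircle_apply_mk, Circle.coe_exp]
    have : (2 * π) / (2 * π) = 1 := by
      field_simp
    rw [this, one_mul]
    have := Complex.norm_mul_exp_arg_mul_I c
    rw [hc, ofReal_one, one_mul] at this
    exact this
  have hord' : addOrderOf α = 0 := by
    rw [addOrderOf_eq_zero_iff']
    intro m hm h
    apply hord m hm
    have h1 : AddCircle.toCircle (m • α) = AddCircle.toCircle α ^ m := AddCircle.toCircle_nsmul α m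
    rw [h, AddCircle.toCircle_zero] at h1
    have h2 := congrArg (fun z : Circle => (z : ℂ)) h1
    simp only [Circle.coe_one, Circle.coe_pow, hαc] at h2
    exact h2.symm
  have herg : Ergodic (α + ·) (volume : Measure (AddCircle (2 * π))) :=
    AddCircle.ergodic_add_left.2 hord'
  set s : Set (AddCircle (2 * π)) := {θ | ((AddCircle.toCircle θ : Circle) : ℂ) ∈ Φ} with hs
  have hsm : MeasurableSet s := by
    have : Measurable (fun θ : AddCircle (2 * π) => ((AddCircle.toCircle θ : Circle) : ℂ)) :=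
      (continuous_subtype_val.comp AddCircle.continuous_toCircle).measurable
    exact this hΦ
  have hpre : (α + ·) ⁻¹' s =ᵐ[volume] s := by
    rw [Filter.eventuallyEq_set]
    filter_upwards [hD1] with θ hθ
    simp only [hD, mem_ofPred_eq, not_not] at hθ
    simp only [hs, mem_preimage, mem_ofPred_eq]
    rw [AddCircle.toCircle_add, Circle.coe_mul, hαc]
    exact hθ.symm
  rcases herg.quasiErgodic.ae_empty_or_univ₀ hsm.nullMeasurableSet hpre with h | h
  · left
    rw [cone_null hΦ hcone]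
    rw [Filter.eventuallyEq_set] at h
    filter_upwards [h] with θ hθ hmem
    exact (hθ.1 hmem)
  · right
    rw [cone_null hΦ.compl (fun z r hr => not_congr (hcone z r hr))]
    rw [Filter.eventuallyEq_set] at h
    filter_upwards [h] with θ hθ hmem
    exact hmem (hθ.2 (mem_univ _))

/-- Scaling a property known in the unit ball. -/
theorem ae_of_ae_ball {D : ℂ → Prop} (hD : ∀ z : ℂ, ∀ r : ℝ, 0 < r → (D z ↔ D ((r : ℂ) * z)))
    (h : ∀ᵐ w : ℂ, ‖w‖ < 1 → D w) : ∀ᵐ w : ℂ, D w := by
  have h1 : ∀ N : ℕ, ∀ᵐ w : ℂ, ‖w‖ < (N : ℝ) + 1 → D w := by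
    intro N
    have hN : (0 : ℝ) < (N : ℝ) + 1 := by positivity
    have hr : (((N : ℝ) + 1)⁻¹ : ℝ) ≠ 0 := by positivity
    have h2 := Measure.addHaar_preimage_smul (volume : Measure ℂ) hr
      {w : ℂ | ¬ (‖w‖ < 1 → D w)}
    have h3 : volume {w : ℂ | ¬ (‖w‖ < 1 → D w)} = 0 := h
    rw [h3, mul_zero] at h2
    have h4 : ∀ᵐ w : ℂ, ‖(((N : ℝ) + 1)⁻¹ : ℝ) • w‖ < 1 → D ((((N : ℝ) + 1)⁻¹ : ℝ) • w) := h2
    filter_upwards [h4] with w hw hwN
    have h5 := hw (by
      rw [norm_smul, Real.norm_eq_abs, abs_of_pos (by positivity), inv_mul_lt_iff₀ hN, mul_one]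
      exact hwN)
    rw [real_smul] at h5
    exact (hD w _ (by positivity)).2 h5
  rw [← ae_all_iff] at h1
  filter_upwards [h1] with w hw
  obtain ⟨N, hN⟩ := exists_nat_gt ‖w‖
  exact hw N (by linarith)

end Pool.Agent.Lib.Bil
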