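import Pool.Agent.Lib.MP_7bc51d_an.Hyp
import Pool.Agent.Lib.MP_7bc51d_an.Rot

set_option autoImplicit false

namespace Pool.Agent.Lib.Bil

open Complex MeasureTheory Set Filter
open scoped ComplexConjugate Topology ENNReal

variable {n : ℕ} {v : Fin n → ℂ}

/-- Directions whose slice is almost everywhere in `A`. -/
def Phi (v : Fin n → ℂ) (A : Set (ℂ × ℂ)) : Set ℂ := {w | volume {x | x ∈ PP v ∧ (x, w) ∉ A} = 0}

theorem measurableSet_Phi {A : Set (ℂ × ℂ)} (hA : MeasurableSet A) : MeasurableSet (Phi v A) := by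
  have h1 : MeasurableSet {p : ℂ × ℂ | p.1 ∈ PP v ∧ p ∉ A} :=
    (isOpen_PP.measurableSet.preimage measurable_fst).inter hA.compl
  have h2 : Measurable (fun w : ℂ => volume ((fun x : ℂ => (x, w)) ⁻¹'
      {p : ℂ × ℂ | p.1 ∈ PP v ∧ p ∉ A})) := measurable_measure_prodMk_right h1
  exact h2 (measurableSet_singleton 0)

theorem exists_step (hn : 3 ≤ n) (hv : ConvexIndependent ℝ v) {i j : Fin n} (hij : IsSide v i j)
    {w : ℂ} (hw : cr (v j - v i) w < 0) :
    ∃ N : ℕ, ∃ x : ℂ, (x, w) ∈ stepSet v (1 / ((N : ℝ) + 1)) (some (i, j)) := by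
  have hne := v_sub_ne hv hij.1
  have hin : 0 < cr (v j - v i) (rl (v j - v i) w) := by
    have := cr_rl hne (v j - v i) w
    rw [rl_self hne] at this
    rw [this]; linarith
  have hin2 : 0 < cr (v j - v i) (-w) := by rw [cr_neg_right]; linarith
  have half0 : (0 : ℝ) < 1 / 2 := by norm_num
  have half1 : (1 : ℝ) / 2 < 1 := by norm_num
  obtain ⟨ε, hε, h1⟩ := inward hn hv hij half0 half1 hin
  obtain ⟨ε', hε', h2⟩ := inward hn hv hij half0 half1 hin2
  obtain ⟨N, hN⟩ := exists_nat_one_div_lt (lt_min hε hε')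
  set h : ℝ := 1 / ((N : ℝ) + 1) with hh
  have hh0 : 0 < h := by positivity
  have e1 : h / 2 ≤ ε := by
    have := hN.le.trans (min_le_left _ _); linarith
  have e2 : h / 2 ≤ ε' := by
    have := hN.le.trans (min_le_right _ _); linarith
  set b := v i + ((1 / 2 : ℝ) : ℂ) * (v j - v i) with hb
  refine ⟨N, b + ((h / 2 : ℝ) : ℂ) * (-w), ?_⟩
  rw [mem_stepSet_some]
  simp only
  have hcw : cr w (v j - v i) = - cr (v j - v i) w := cr_swap _ _
  refine ⟨hij, h2 _ (by positivity) e2, ?_, ?_, ?_⟩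
  · have : v i - (b + ((h / 2 : ℝ) : ℂ) * (-w)) =
        ((h / 2 : ℝ) : ℂ) * w - ((1 / 2 : ℝ) : ℂ) * (v j - v i) := by rw [hb]; ring
    rw [this, cr_sub_right, cr_smul_right, cr_smul_right, cr_self, hcw]
    linarith
  · have : v j - (b + ((h / 2 : ℝ) : ℂ) * (-w)) =
        ((h / 2 : ℝ) : ℂ) * w + ((1 / 2 : ℝ) : ℂ) * (v j - v i) := by rw [hb]; push_cast; ring
    rw [this, cr_add_right, cr_smul_right, cr_smul_right, cr_self, hcw]
    linarith
  · have : b + ((h / 2 : ℝ) : ℂ) * (-w) + (h : ℂ) * w = b + ((h / 2 : ℝ) : ℂ) * w := by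
      push_cast; ring
    rw [this, RR_add, hb, RR_line hne, rl_smul]
    exact h1 _ (by positivity) e1

theorem Phi_refl_half (hn : 3 ≤ n) (hv : ConvexIndependent ℝ v) {A : Set (ℂ × ℂ)}
    (hI : Inv v A)
    (hd : ∀ᵐ w : ℂ, w ∈ Phi v A ∨ volume {x | x ∈ PP v ∧ (x, w) ∈ A} = 0)
    {i j : Fin n} (hij : IsSide v i j) :
    ∀ᵐ w : ℂ, cr (v j - v i) w < 0 → (w ∈ Phi v A ↔ rl (v j - v i) w ∈ Phi v A) := by
  have hne := v_sub_ne hv hij.1
  have h1 : ∀ᵐ p ∂((volume : Measure ℂ).prod (volume : Measure ℂ)), ∀ N : ℕ,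
      (p.2, p.1) ∈ stepSet v (1 / ((N : ℝ) + 1)) (some (i, j)) →
      ((p.2, p.1) ∈ A ↔ stepMap v (1 / ((N : ℝ) + 1)) (some (i, j)) (p.2, p.1) ∈ A) := by
    rw [ae_all_iff]
    intro N
    have h0 : MeasurePreserving (Prod.swap : ℂ × ℂ → ℂ × ℂ)
      ((volume : Measure ℂ).prod volume) ((volume : Measure ℂ).prod volume) :=
      Measure.measurePreserving_swap
    have h2 := h0.quasiMeasurePreserving.ae (hI (1 / ((N : ℝ) + 1)) (by positivity))
    filter_upwards [h2] with p hp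
    exact hp (some (i, j))
  have h2 := Measure.ae_ae_of_ae_prod h1
  have h3 := (mp_rl hne).quasiMeasurePreserving.ae hd
  filter_upwards [h2, hd, h3] with w g1 g2 g3 hw
  obtain ⟨N, x₀, hx₀⟩ := exists_step hn hv hij hw
  set h : ℝ := 1 / ((N : ℝ) + 1) with hh
  set V : Set ℂ := {x | (x, w) ∈ stepSet v h (some (i, j))} with hV
  have hVo : IsOpen V := (isOpen_stepSet h (some (i, j))).preimage
    (by fun_prop : Continuous (fun x : ℂ => (x, w)))
  have hVpos : volume V ≠ 0 := (hVo.measure_pos volume ⟨x₀, hx₀⟩).ne'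
  have hf : MeasurePreserving (fun x : ℂ => RR v i j (x + (h : ℂ) * w)) volume volume :=
    (mp_RR hne).comp (measurePreserving_add_right volume ((h : ℂ) * w))
  -- consequences of the dichotomies, pushed to the point `x`
  have k1 : ∀ᵐ x : ℂ, x ∈ V → ((x, w) ∈ A ↔ (RR v i j (x + (h : ℂ) * w), rl (v j - v i) w) ∈ A) := by
    filter_upwards [g1] with x hx hxV
    exact hx N hxV
  constructor
  · intro hwΦ
    rcases g3 with g3 | g3
    · exact g3
    · exfalso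
      apply hVpos
      rw [measure_eq_zero_iff_ae_notMem]
      have a1 : ∀ᵐ x : ℂ, ¬ (x ∈ PP v ∧ (x, w) ∉ A) := measure_eq_zero_iff_ae_notMem.1 hwΦ
      have a2 : ∀ᵐ x : ℂ, ¬ (x ∈ PP v ∧ (x, rl (v j - v i) w) ∈ A) :=
        measure_eq_zero_iff_ae_notMem.1 g3
      have a3 := hf.quasiMeasurePreserving.ae a2
      filter_upwards [k1, a1, a3] with x b1 b2 b3 hxV
      apply b3
      refine ⟨hxV.2.2.2.2, ?_⟩
      rw [← b1 hxV]
      by_contra hcon
      exact b2 ⟨hxV.2.1, hcon⟩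
  · intro hwΦ
    rcases g2 with g2 | g2
    · exact g2
    · exfalso
      apply hVpos
      rw [measure_eq_zero_iff_ae_notMem]
      have a1 : ∀ᵐ x : ℂ, ¬ (x ∈ PP v ∧ (x, w) ∈ A) := measure_eq_zero_iff_ae_notMem.1 g2
      have a2 : ∀ᵐ x : ℂ, ¬ (x ∈ PP v ∧ (x, rl (v j - v i) w) ∉ A) :=
        measure_eq_zero_iff_ae_notMem.1 hwΦ
      have a3 := hf.quasiMeasurePreserving.ae a2
      filter_upwards [k1, a1, a3] with x b1 b2 b3 hxV
      apply b3
      refine ⟨hxV.2.2.2.2, ?_⟩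
      rw [← b1 hxV]
      intro hcon
      exact b2 ⟨hxV.2.1, hcon⟩

theorem Phi_refl (hn : 3 ≤ n) (hv : ConvexIndependent ℝ v) {A : Set (ℂ × ℂ)}
    (hI : Inv v A)
    (hd : ∀ᵐ w : ℂ, w ∈ Phi v A ∨ volume {x | x ∈ PP v ∧ (x, w) ∈ A} = 0)
    {i j : Fin n} (hij : IsSide v i j) :
    ∀ᵐ w : ℂ, (w ∈ Phi v A ↔ rl (v j - v i) w ∈ Phi v A) := by
  have hne := v_sub_ne hv hij.1
  have h1 := Phi_refl_half hn hv hI hd hij
  have h2 := (mp_rl hne).quasiMeasurePreserving.ae h1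
  filter_upwards [h1, h2, ae_not_mem_line (v j - v i)] with w g1 g2 g3
  rcases lt_trichotomy (cr (v j - v i) w) 0 with h | h | h
  · exact g1 h
  · exfalso
    apply g3
    obtain ⟨t, ht⟩ := (cr_eq_zero_iff hne).1 h
    rw [Submodule.mem_span_singleton]
    exact ⟨t, by rw [real_smul]; exact ht.symm⟩
  · have h3 := cr_rl hne (v j - v i) w
    rw [rl_self hne] at h3
    have h4 := g2 (by rw [h3]; linarith)
    rw [rl_rl hne] at h4
    exact h4.symm

theorem null_of_slices {S : Set (ℂ × ℂ)} (hS : MeasurableSet S)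
    (h : ∀ᵐ w : ℂ, volume ((fun x : ℂ => (x, w)) ⁻¹' S) = 0) : volume S = 0 := by
  rw [Measure.volume_eq_prod, Measure.prod_apply_symm hS, lintegral_congr_ae h]
  simp

theorem final (hn : 3 ≤ n) (hv : ConvexIndependent ℝ v) {A : Set (ℂ × ℂ)}
    (hA : MeasurableSet A)
    (hcone : ∀ x w : ℂ, ∀ c : ℝ, 0 < c → ((x, w) ∈ A ↔ (x, (c : ℂ) * w) ∈ A))
    (hI : Inv v A)
    (hconst : ∀ᵐ w : ℂ, ‖w‖ < 1 →
      volume {x | x ∈ PP v ∧ (x, w) ∉ A} = 0 ∨ volume {x | x ∈ PP v ∧ (x, w) ∈ A} = 0)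
    {i j k l : Fin n} (hij : IsSide v i j) (hkl : IsSide v k l)
    (hirr : ∀ m : ℕ, 0 < m → (((v j - v i) / (v l - v k)) ^ m).im ≠ 0) :
    volume (A ∩ DD v) = 0 ∨ volume (DD v \ A) = 0 := by
  have hd : ∀ᵐ w : ℂ, w ∈ Phi v A ∨ volume {x | x ∈ PP v ∧ (x, w) ∈ A} = 0 := by
    apply ae_of_ae_ball _ hconst
    intro z r hr
    have e1 : {x | x ∈ PP v ∧ (x, z) ∉ A} = {x | x ∈ PP v ∧ (x, (r : ℂ) * z) ∉ A} := by
      ext x
      simp only [mem_ofPred_eq]
      rw [hcone x z r hr]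
    have e2 : {x | x ∈ PP v ∧ (x, z) ∈ A} = {x | x ∈ PP v ∧ (x, (r : ℂ) * z) ∈ A} := by
      ext x
      simp only [mem_ofPred_eq]
      rw [hcone x z r hr]
    rw [e1, e2]
  have hΦm : MeasurableSet (Phi v A) := measurableSet_Phi hA
  have hΦc : ∀ z : ℂ, ∀ r : ℝ, 0 < r → (z ∈ Phi v A ↔ (r : ℂ) * z ∈ Phi v A) := by
    intro z r hr
    have e1 : {x | x ∈ PP v ∧ (x, z) ∉ A} = {x | x ∈ PP v ∧ (x, (r : ℂ) * z) ∉ A} := by
      ext x
      simp only [mem_ofPred_eq]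
      rw [hcone x z r hr]
    simp only [Phi, mem_ofPred_eq]
    rw [e1]
  have hne := v_sub_ne hv hij.1
  have hne' := v_sub_ne hv hkl.1
  set a := v j - v i with ha
  set a' := v l - v k with ha'
  have hca : conj a ≠ 0 := by simpa using hne
  have hca' : conj a' ≠ 0 := by simpa using hne'
  set c : ℂ := a' / conj a' * (conj a / a) with hc
  have hcw : ∀ w : ℂ, rl a' (rl a w) = c * w := by
    intro w
    simp only [rl, map_mul, map_div₀, conj_conj, hc]
    ring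
  have hcn : ‖c‖ = 1 := by
    have h1 : ‖a‖ ≠ 0 := by simpa using hne
    have h2 : ‖a'‖ ≠ 0 := by simpa using hne'
    rw [hc, norm_mul, norm_div, norm_div, RCLike.norm_conj, RCLike.norm_conj]
    field_simp
  have hinv : ∀ᵐ w : ℂ, (w ∈ Phi v A ↔ c * w ∈ Phi v A) := by
    have h1 := Phi_refl hn hv hI hd hij
    have h2 := (mp_rl hne).quasiMeasurePreserving.ae (Phi_refl hn hv hI hd hkl)
    filter_upwards [h1, h2] with w g1 g2
    rw [← ha] at g1
    rw [← ha', hcw] at g2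
    exact g1.trans g2
  have hord : ∀ m : ℕ, 0 < m → c ^ m ≠ 1 := by
    intro m hm h
    apply hirr m hm
    have hz : (a / a') ≠ 0 := div_ne_zero hne hne'
    have h1 : c = conj (a / a') / (a / a') := by
      rw [hc, map_div₀]; field_simp
    rw [h1, div_pow, div_eq_one_iff_eq (pow_ne_zero _ hz), ← map_pow] at h
    exact Complex.conj_eq_iff_im.1 h
  have hDDm := measurableSet_DD (v := v)
  rcases rot_ergodic hΦm hΦc hcn hord hinv with h | h
  · left
    apply null_of_slices (hA.inter hDDm)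
    have h1 : ∀ᵐ w : ℂ, w ∉ Phi v A := measure_eq_zero_iff_ae_notMem.1 h
    filter_upwards [h1, hd] with w g1 g2
    rcases g2 with g2 | g2
    · exact absurd g2 g1
    · refine measure_mono_null ?_ g2
      rintro x ⟨hx1, hx2⟩
      exact ⟨(mem_DD.1 hx2).1, hx1⟩
  · right
    apply null_of_slices (hDDm.diff hA)
    have h1 : ∀ᵐ w : ℂ, w ∉ (Phi v A)ᶜ := measure_eq_zero_iff_ae_notMem.1 h
    filter_upwards [h1] with w g1
    have g2 : w ∈ Phi v A := by simpa using g1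
    refine measure_mono_null ?_ g2
    rintro x ⟨hx1, hx2⟩
    exact ⟨(mem_DD.1 hx1).1, hx2⟩

end Pool.Agent.Lib.Bil
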