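import Pool.Agent.Lib.MP_7bc51d_an.LemE
import Pool.Agent.Lib.MP_7bc51d_an.Final

set_option autoImplicit false

namespace Pool.Agent.Lib.Bil

open Complex MeasureTheory Set Filter
open scoped ComplexConjugate Topology ENNReal

variable {n : ℕ} {v : Fin n → ℂ}

theorem LCv_01 {F : ℂ → ℝ → ℝ} (h01 : ∀ w q, F w q = 0 ∨ F w q = 1) {w : ℂ} {Q d : ℝ}
    (hd : LCv F w Q d) : d = 0 ∨ d = 1 := by
  obtain ⟨ε, hε, hc⟩ := hd
  by_contra hcon
  push Not at hcon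
  have : ∀ᵐ q : ℝ, q ∉ Metric.ball Q ε := by
    filter_upwards [hc] with q hq hmem
    rw [Metric.mem_ball, Real.dist_eq] at hmem
    have h3 := hq hmem
    rcases h01 w q with h4 | h4
    · exact hcon.1 (by rw [← h3, h4])
    · exact hcon.2 (by rw [← h3, h4])
  have h5 := measure_eq_zero_iff_ae_notMem.2 this
  exact (Metric.measure_ball_pos volume Q hε).ne' h5

/-- Heights in the range where the line function is not locally constant are countable. -/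
theorem countable_NT {F : ℂ → ℝ → ℝ} {w : ℂ} (hw : w ≠ 0) {M : ℝ≥0∞} (hM : M < ⊤)
    (h : ∀ S : Finset ℝ, (∀ Q ∈ S, ¬ LC F w Q) →
      ENNReal.ofReal (‖w‖ ^ 2 / 2) * ∑ Q ∈ S, len v w Q ≤ M) :
    Set.Countable {Q : ℝ | (∃ x ∈ PP v, cr w x = Q) ∧ ¬ LC F w Q} := by
  have hnw : 0 < ‖w‖ := norm_pos_iff.2 hw
  have hsub : {Q : ℝ | (∃ x ∈ PP v, cr w x = Q) ∧ ¬ LC F w Q} ⊆
      ⋃ N : ℕ, {Q : ℝ | ((N : ℝ≥0∞))⁻¹ ≤ len v w Q ∧ ¬ LC F w Q} := by
    rintro Q ⟨⟨x, hx, rfl⟩, hQ⟩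
    obtain ⟨N, hN⟩ := ENNReal.exists_inv_nat_lt (height_mem hw hx)
    exact mem_iUnion.2 ⟨N, hN.le, hQ⟩
  refine Set.Countable.mono hsub (Set.countable_iUnion (fun N => Set.Finite.countable ?_))
  by_contra hinf
  have hc : ENNReal.ofReal (‖w‖ ^ 2 / 2) * ((N : ℝ≥0∞))⁻¹ ≠ 0 := by
    rw [mul_ne_zero_iff]
    constructor
    · rw [ne_eq, ENNReal.ofReal_eq_zero, not_le]; positivity
    · exact ENNReal.inv_ne_zero.2 (ENNReal.natCast_ne_top N)
  obtain ⟨m, hm⟩ := ENNReal.exists_nat_mul_gt hc hM.ne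
  obtain ⟨S, hS, hcard⟩ := Set.Infinite.exists_subset_card_eq hinf m
  have h1 := h S (fun Q hQ => (hS hQ).2)
  have h2 : (m : ℝ≥0∞) * ((N : ℝ≥0∞))⁻¹ ≤ ∑ Q ∈ S, len v w Q := by
    rw [← hcard, ← nsmul_eq_mul, ← Finset.sum_const]
    exact Finset.sum_le_sum (fun Q hQ => (hS hQ).1)
  have h3 : (m : ℝ≥0∞) * (ENNReal.ofReal (‖w‖ ^ 2 / 2) * ((N : ℝ≥0∞))⁻¹) ≤ M := by
    refine le_trans ?_ h1
    rw [mul_left_comm]
    gcongr
  exact absurd (hm.trans_le h3) (lt_irrefl _)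

theorem null_of_labels (hn : 3 ≤ n) (hv : ConvexIndependent ℝ v) {A : Set (ℂ × ℂ)}
    (hA : MeasurableSet A) (hI : Inv v A) (hch : ∀ᵐ w, ChordAt v A w) (hP : SPer v A)
    (e : Fin n → ℂ) (he : ∀ k, e k ≠ 0)
    (hlab : ∀ k, ∀ᵐ w : ℂ, NE (FA v A) (v k) (e k) w 0) : volume (A ∩ DD v) = 0 := by
  obtain ⟨M, hMm, hMfin, hM⟩ := exists_M hA hch hP
  have hMlt : ∀ᵐ w : ℂ, w ∈ Metric.ball (0 : ℂ) 1 → M w < ⊤ := by
    rw [← ae_restrict_iff' Metric.isOpen_ball.measurableSet]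
    exact ae_lt_top hMm hMfin.ne
  have h01 : ∀ w q, FA v A w q = 0 ∨ FA v A w q = 1 := fun w q => FA_zero_or_one A w q
  have hE := lemma_E hn hv (ae_goodDir hn hv hI hch) (one_ne_zero) e he hlab
  have h0 : ∀ᵐ w : ℂ, w ≠ 0 := by simp [ae_iff]
  apply null_of_slices (hA.inter measurableSet_DD)
  filter_upwards [hM, hMlt, hE, h0, FA_ae hch] with w g1 g2 g3 g4 g5
  by_cases hw : w ∈ Metric.ball (0 : ℂ) 1
  · have hcount := countable_NT (v := v) g4 (g2 hw) g1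
    have hZ : volume {Q : ℝ | (∃ x ∈ PP v, cr w x = Q) ∧ FA v A w Q ≠ 0} = 0 := by
      have hsub : {Q : ℝ | (∃ x ∈ PP v, cr w x = Q) ∧ FA v A w Q ≠ 0} ⊆
          {Q : ℝ | (∃ x ∈ PP v, cr w x = Q) ∧ ¬ LC (FA v A) w Q} ∪
          {Q : ℝ | ((∃ x ∈ PP v, cr w x = Q) ∧ FA v A w Q ≠ 0) ∧ LC (FA v A) w Q} := by
        rintro Q hQ
        by_cases hL : LC (FA v A) w Q
        · exact Or.inr ⟨hQ, hL⟩
        · exact Or.inl ⟨hQ.1, hL⟩
      refine measure_mono_null hsub (measure_union_null (hcount.measure_zero _) ?_)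
      apply measure_null_of_locally_null
      rintro Q ⟨⟨⟨x, hx, rfl⟩, hQ⟩, c, hc⟩
      have hc0 : c = 0 := by
        rcases LCv_01 h01 hc with h | h
        · exact h
        · subst h
          exact absurd hc (g3 x hx)
      subst hc0
      obtain ⟨ε, hε, hce⟩ := hc
      refine ⟨Metric.ball (cr w x) ε ∩ {Q : ℝ | ((∃ x ∈ PP v, cr w x = Q) ∧ FA v A w Q ≠ 0) ∧
        LC (FA v A) w Q}, inter_mem (mem_nhdsWithin_of_mem_nhds (Metric.ball_mem_nhds _ hε))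
          self_mem_nhdsWithin, ?_⟩
      rw [measure_eq_zero_iff_ae_notMem]
      filter_upwards [hce] with q hq hmem
      have h1 := hmem.1
      rw [Metric.mem_ball, Real.dist_eq] at h1
      exact hmem.2.1.2 (hq h1)
    rw [measure_eq_zero_iff_ae_notMem]
    filter_upwards [ae_height g4 (measure_eq_zero_iff_ae_notMem.1 hZ), g5] with x k1 k2 k3
    have hxP := (mem_DD.1 k3.2).1
    apply k1
    refine ⟨⟨x, hxP, rfl⟩, ?_⟩
    have hxA : (x, w) ∈ A := k3.1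
    rw [k2 hxP, indicator_of_mem hxA]
    exact one_ne_zero
  · convert measure_empty (μ := (volume : Measure ℂ)) using 2
    ext x
    simp only [mem_preimage, mem_inter_iff, mem_empty_iff_false, iff_false]
    rintro ⟨_, h2⟩
    apply hw
    rw [Metric.mem_ball, dist_zero_right]
    exact (mem_DD.1 h2).2

theorem label_of_set (hn : 3 ≤ n) (hv : ConvexIndependent ℝ v) {A : Set (ℂ × ℂ)}
    (hA : MeasurableSet A)
    (hcone : ∀ x w : ℂ, ∀ c : ℝ, 0 < c → ((x, w) ∈ A ↔ (x, (c : ℂ) * w) ∈ A))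
    (hI : Inv v A) (hch : ∀ᵐ w, ChordAt v A w)
    {p k q : Fin n} (hkq : IsSide v k q) (hpk : IsSide v p k)
    (hLC : ∀ᵐ θ : ℂ, (Out v k θ ∨ Out v k (-θ)) → LC (FA v A) θ (cr θ (v k)))
    (hirr : ∀ m : ℕ, 0 < m → (((v q - v k) / (v p - v k)) ^ m).im ≠ 0) :
    (∀ᵐ w : ℂ, NE (FA v A) (v k) (v q - v k) w 0) ∨
      (∀ᵐ w : ℂ, NE (FA v A) (v k) (v q - v k) w 1) := by
  have h2 : SymAt (FA v A) (v k) (v p - v k) := by
    have h3 := (symAt_FA hn hv hI hch hpk).flip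
    rw [add_sub_cancel, neg_sub] at h3
    exact h3
  exact label hn hv (LF_FA hA) (fun w q => FA_zero_or_one A w q)
    (fun r hr w Q => FA_cone hcone hr w Q) hkq hpk (symAt_FA hn hv hI hch hkq) h2 hLC hirr

/-- At most `n` atoms. -/
theorem atoms (hn : 3 ≤ n) (hv : ConvexIndependent ℝ v)
    (hirr : ∀ p k q : Fin n, IsSide v k q → IsSide v p k →
      ∀ m : ℕ, 0 < m → (((v q - v k) / (v p - v k)) ^ m).im ≠ 0)
    (A : Fin (n + 1) → Set (ℂ × ℂ)) (hA : ∀ j, MeasurableSet (A j))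
    (hcone : ∀ j, ∀ x w : ℂ, ∀ c : ℝ, 0 < c → ((x, w) ∈ A j ↔ (x, (c : ℂ) * w) ∈ A j))
    (hI : ∀ j, Inv v (A j)) (hch : ∀ j, ∀ᵐ w, ChordAt v (A j) w) (hP : ∀ j, SPer v (A j))
    (hdisj : ∀ i j, i ≠ j → volume (A i ∩ A j ∩ DD v) = 0) :
    ∃ j, volume (A j ∩ DD v) = 0 := by
  by_contra hcon
  push Not at hcon
  have hprev : ∀ k : Fin n, ∃ p, IsSide v p k := by
    intro k
    obtain ⟨p, hp⟩ := (nxt_bijective hn hv).2 k
    exact ⟨p, by have := nxt_side hn hv p; rwa [hp] at this⟩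
  have hk : ∀ j, ∃ k : Fin n, ∀ᵐ w : ℂ, NE (FA v (A j)) (v k) (v (nxt hn hv k) - v k) w 1 := by
    intro j
    by_contra hno
    rw [not_exists] at hno
    apply hcon j
    refine null_of_labels hn hv (hA j) (hI j) (hch j) (hP j)
      (fun k => v (nxt hn hv k) - v k) (fun k => v_sub_ne hv (nxt_side hn hv k).1) ?_
    intro k
    obtain ⟨p, hp⟩ := hprev k
    have hLC : ∀ᵐ θ : ℂ, (Out v k θ ∨ Out v k (-θ)) → LC (FA v (A j)) θ (cr θ (v k)) := by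
      filter_upwards [vertex_LC hn hv (hA j) (hcone j) (hI j) (hch j) (hP j) k,
        vertex_LC_neg hn hv (hA j) (hcone j) (hI j) (hch j) (hP j) k] with θ h1 h2 h3
      rcases h3 with h3 | h3
      · exact h1 h3
      · exact h2 h3
    rcases label_of_set hn hv (hA j) (hcone j) (hI j) (hch j) (nxt_side hn hv k) hp hLC
      (hirr p k _ (nxt_side hn hv k) hp) with h | h
    · exact h
    · exact absurd h (hno k)
  choose k hk using hk
  obtain ⟨i, j, hij, heq⟩ := Fintype.exists_ne_map_eq_of_card_lt k (by simp)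
  have h1 := hk i
  have h2 := hk j
  rw [← heq] at h2
  exact label_disjoint hn hv (hA i) (hA j) (hch i) (hch j) (hdisj i j hij)
    (nxt_side hn hv (k i)) h1 h2

end Pool.Agent.Lib.Bil
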