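import Pool.Agent.Lib.MP_7bc51d_an.Traj2

set_option autoImplicit false

namespace Pool.Agent.Lib.Bil

open Complex MeasureTheory Set Filter
open scoped ComplexConjugate Topology ENNReal

variable {n : ℕ} {v : Fin n → ℂ}

theorem OO_subset (h : ℝ) (u : List (Option (Fin n × Fin n))) {p : ℂ × ℂ} (hp : p ∈ OO v h u) :
    p.1 ∈ PP v := by
  cases u with
  | nil => exact hp
  | cons c u => exact fst_mem_of_mem_stepSet hp.1

theorem exists_gap (f : ℕ → ℝ) (hf : StrictMono f) (N : ℕ) :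
    ∃ η : ℝ, 0 < η ∧ ∀ i < N, η < f (i + 1) - f i := by
  induction N with
  | zero => exact ⟨1, one_pos, fun i hi => absurd hi (Nat.not_lt_zero i)⟩
  | succ N ih =>
    obtain ⟨η, h1, h2⟩ := ih
    have h3 : 0 < f (N + 1) - f N := sub_pos.2 (hf (Nat.lt_succ_self N))
    refine ⟨min η ((f (N + 1) - f N) / 2), lt_min h1 (by linarith), fun i hi => ?_⟩
    rcases Nat.lt_succ_iff_lt_or_eq.1 hi with h4 | rfl
    · exact lt_of_le_of_lt (min_le_left _ _) (h2 i h4)
    · exact lt_of_le_of_lt (min_le_right _ _) (by linarith)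

theorem good_chord (hn : 3 ≤ n) (hv : ConvexIndependent ℝ v) {x w : ℂ} (hw : w ≠ 0)
    (hfree : FwdFree v x w) {a₁ : ℝ} (ha₁ : 0 < a₁)
    (hmem : ∀ s : ℝ, -a₁ ≤ s → s ≤ a₁ → x + (s : ℂ) * w ∈ PP v) {t : ℝ} (ht : 0 < t) :
    ∃ m₀ : ℕ, ∀ m : ℕ, m₀ ≤ m → 0 < m ∧ ∃ E : Set ℝ, IsCompact E ∧ E ⊆ Icc (-a₁) a₁ ∧
      ENNReal.ofReal a₁ ≤ volume E ∧ ∃ r : ℝ, 0 < r ∧ ∀ a ∈ E,
        ∃ u : List (Option (Fin n × Fin n)), u.length = m ∧
          Metric.ball (x + (a : ℂ) * w, w) r ⊆ OO v (t / m) u := by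
  obtain ⟨a, ha0, haT, haT', hg, hT⟩ := exists_arcs hn hv hw hfree ha₁ hmem
  have hmono : StrictMono (fun k => (a k).T') := by
    apply strictMono_nat_of_lt_succ
    intro k
    have := (a (k + 1)).lt
    rw [hT] at this
    exact this
  obtain ⟨N, hN⟩ := times_unbounded hn hv hfree a hg hT (t + a₁)
  obtain ⟨η, hη, hη2⟩ := exists_gap _ hmono N
  obtain ⟨m₀, hm₀⟩ := exists_nat_gt (t / η)
  refine ⟨m₀, fun m hm => ?_⟩
  have hmR : t / η < m := hm₀.trans_le (by exact_mod_cast hm)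
  have hmpos : (0 : ℝ) < m := lt_trans (by positivity) hmR
  have hmpos' : 0 < m := by exact_mod_cast hmpos
  have hh : 0 < t / m := by positivity
  have hmh : (m : ℝ) * (t / m) = t := by field_simp
  have hhη : t / m < η := by
    rw [div_lt_iff₀ hη] at hmR
    rw [div_lt_iff₀ hmpos]
    linarith
  refine ⟨hmpos', ?_⟩
  -- exceptional times
  set Z : Set ℝ := (fun q : ℕ × ℕ => (a q.2).T' - q.1 * (t / m)) '' (Iic m ×ˢ Iic N) with hZ
  have hZfin : Z.Finite := ((finite_Iic m).prod (finite_Iic N)).image _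
  have hZ0 : volume Z = 0 := hZfin.measure_zero volume
  have hGm : MeasurableSet (Ioo (-a₁) a₁ \ Z) := measurableSet_Ioo.diff hZfin.measurableSet
  have hGv : ENNReal.ofReal a₁ < volume (Ioo (-a₁) a₁ \ Z) := by
    rw [measure_sdiff_null hZ0, Real.volume_Ioo]
    rw [ENNReal.ofReal_lt_ofReal_iff (by linarith)]
    linarith
  obtain ⟨E, hEG, hEc, hEv⟩ := hGm.exists_lt_isCompact hGv
  have hEsub : E ⊆ Icc (-a₁) a₁ := fun s hs => Ioo_subset_Icc_self (hEG hs).1
  refine ⟨E, hEc, hEsub, hEv.le, ?_⟩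
  have hcov : ∀ s ∈ E, ∃ u : List (Option (Fin n × Fin n)), u.length = m ∧
      (x + (s : ℂ) * w, w) ∈ OO v (t / m) u := by
    intro s hs
    obtain ⟨⟨hs1, hs2⟩, hsZ⟩ := hEG hs
    have := word_along a hg hT (h := t / m) m 0 s (by rw [haT]; exact hs1)
      (lt_of_lt_of_le hs2 haT') ?_ ?_ hh
    · rw [ha0] at this
      exact this
    · intro j hj i hcon
      rcases le_or_gt i N with hi | hi
      · apply hsZ
        refine ⟨(j, i), ⟨hj, hi⟩, ?_⟩
        simp only
        rw [← hcon]; ring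
      · have h1 : (a N).T' < (a i).T' := hmono hi
        have h2 : (j : ℝ) * (t / m) ≤ m * (t / m) := by
          have : (j : ℝ) ≤ m := by exact_mod_cast hj
          gcongr
        rw [hmh] at h2
        linarith
    · intro i hi
      rw [hmh] at hi
      have h1 : (a i).T' < (a N).T' := by linarith
      have h2 : i < N := hmono.lt_iff_lt.1 h1
      exact hhη.trans (hη2 i h2)
  have hE' : IsCompact ((fun s : ℝ => (x + (s : ℂ) * w, w)) '' E) :=
    hEc.image (by fun_prop)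
  obtain ⟨r, hr, hr2⟩ := lebesgue_number_lemma_of_metric (ι := {u : List (Option (Fin n × Fin n)) //
      u.length = m}) (c := fun u => OO v (t / m) u.1) hE' (fun u => isOpen_OO _ _) (by
    rintro _ ⟨s, hs, rfl⟩
    obtain ⟨u, hu1, hu2⟩ := hcov s hs
    exact mem_iUnion.2 ⟨⟨u, hu1⟩, hu2⟩)
  refine ⟨r, hr, fun s hs => ?_⟩
  obtain ⟨⟨u, hu1⟩, hu2⟩ := hr2 _ ⟨s, hs, rfl⟩
  exact ⟨u, hu1, hu2⟩

/-- One dimensional lower bound for the variation of a set near a non-trivial point. -/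
theorem one_dim {S : Set ℝ} (hS : MeasurableSet S) {q₀ : ℝ}
    (h1 : volume (Ioo (-q₀) q₀ ∩ S) ≠ 0) (h2 : volume (Ioo (-q₀) q₀ \ S) ≠ 0) :
    ∀ᶠ ρ in 𝓝[>] (0 : ℝ), ENNReal.ofReal (ρ / 2) ≤
      volume {q | q ∈ Ioo (-q₀) q₀ ∧ ¬ (q ∈ S ↔ q - ρ ∈ S)} := by
  set χ : ℝ → ℝ := S.indicator 1 with hχ
  have hloc : LocallyIntegrable χ volume := by
    apply LocallyIntegrable.indicator _ hS
    exact (continuous_const (y := (1 : ℝ))).locallyIntegrable
  have hae := LocallyIntegrable.ae_hasDerivAt_integral hloc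
  obtain ⟨q1, ⟨hq1I, hq1S⟩, hq1⟩ : ∃ q, q ∈ Ioo (-q₀) q₀ ∩ S ∧
      ∀ c, HasDerivAt (fun x => ∫ t in c..x, χ t) (χ q) q := by
    by_contra hcon
    push Not at hcon
    apply h1
    apply measure_mono_null _ hae
    intro q hq
    obtain ⟨c, hc⟩ := hcon q hq
    intro hall
    exact hc (hall c)
  obtain ⟨q2, ⟨hq2I, hq2S⟩, hq2⟩ : ∃ q, q ∈ Ioo (-q₀) q₀ \ S ∧
      ∀ c, HasDerivAt (fun x => ∫ t in c..x, χ t) (χ q) q := by
    by_contra hcon
    push Not at hcon
    apply h2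
    apply measure_mono_null _ hae
    intro q hq
    obtain ⟨c, hc⟩ := hcon q hq
    intro hall
    exact hc (hall c)
  have hd1 := hq1 0
  have hd2 := hq2 0
  rw [hχ, indicator_of_mem hq1S, Pi.one_apply, ← hχ] at hd1
  rw [hχ, indicator_of_notMem hq2S, ← hχ] at hd2
  have hii : ∀ a b : ℝ, IntervalIntegrable χ volume a b := fun a b =>
    (hloc.integrableOn_isCompact isCompact_uIcc).intervalIntegrable
  set g : ℝ → ℝ := fun ρ => (∫ t in (0 : ℝ)..(q1 - ρ), χ t) - ∫ t in (0 : ℝ)..(q2 - ρ), χ t with hg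
  have hgd : HasDerivAt g (-1) 0 := by
    have e1 : HasDerivAt (fun ρ : ℝ => q1 - ρ) (-1) 0 := by
      simpa using (hasDerivAt_id (0 : ℝ)).const_sub q1
    have e2 : HasDerivAt (fun ρ : ℝ => q2 - ρ) (-1) 0 := by
      simpa using (hasDerivAt_id (0 : ℝ)).const_sub q2
    have f1 := HasDerivAt.comp (0 : ℝ) (h := fun ρ : ℝ => q1 - ρ)
      (h₂ := fun x => ∫ t in (0 : ℝ)..x, χ t) (h₂' := 1) (by simpa using hd1) e1
    have f2 := HasDerivAt.comp (0 : ℝ) (h := fun ρ : ℝ => q2 - ρ)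
      (h₂ := fun x => ∫ t in (0 : ℝ)..x, χ t) (h₂' := 0) (by simpa using hd2) e2
    have f3 := f1.sub f2
    have f4 : (1 : ℝ) * -1 - 0 * -1 = -1 := by norm_num
    rw [f4] at f3
    exact f3
  have hslope := (hasDerivAt_iff_tendsto_slope.1 hgd).mono_left
    (nhdsWithin_mono (0 : ℝ) (fun x (hx : 0 < x) => ne_of_gt hx) : 𝓝[>] (0 : ℝ) ≤ 𝓝[≠] 0)
  have hev := hslope.eventually (gt_mem_nhds (show (-1 : ℝ) < -1 / 2 by norm_num))
  filter_upwards [hev, self_mem_nhdsWithin] with ρ hρ hρ0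
  have hρ0' : 0 < ρ := hρ0
  rw [slope_def_field, sub_zero, div_lt_iff₀ hρ0'] at hρ
  have hgρ : g ρ - g 0 = ∫ q in q2..q1, (χ (q - ρ) - χ q) := by
    rw [intervalIntegral.integral_sub _ (hii _ _), intervalIntegral.integral_comp_sub_right]
    · rw [hg]
      simp only [sub_zero]
      rw [intervalIntegral.integral_interval_sub_left (hii _ _) (hii _ _),
        intervalIntegral.integral_interval_sub_left (hii _ _) (hii _ _)]
    · have := (hii (q2 - ρ) (q1 - ρ)).comp_sub_right ρ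
      simpa using this
  set D : Set ℝ := {q | q ∈ Ioo (-q₀) q₀ ∧ ¬ (q ∈ S ↔ q - ρ ∈ S)} with hD
  have hDm : MeasurableSet D := by
    have h3 : MeasurableSet {q : ℝ | q - ρ ∈ S} := hS.preimage (measurable_id.sub_const ρ)
    have : D = Ioo (-q₀) q₀ ∩ ((S \ {q : ℝ | q - ρ ∈ S}) ∪ ({q : ℝ | q - ρ ∈ S} \ S)) := by
      ext q
      simp only [hD, mem_inter_iff, mem_union, Set.mem_sdiff, mem_ofPred_eq]
      tauto
    rw [this]
    exact measurableSet_Ioo.inter ((hS.diff h3).union (h3.diff hS))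
  have hDfin : volume D < ⊤ := by
    refine lt_of_le_of_lt (measure_mono (fun q hq => hq.1) : volume D ≤ volume (Ioo (-q₀) q₀)) ?_
    exact measure_Ioo_lt_top
  have hbound : |g ρ - g 0| ≤ (volume D).toReal := by
    rw [hgρ]
    have h3 := intervalIntegral.norm_integral_le_integral_norm_uIoc
      (f := fun q => χ (q - ρ) - χ q) (a := q2) (b := q1) (μ := volume)
    rw [Real.norm_eq_abs] at h3
    refine h3.trans ?_
    have h4 : ∫ q in uIoc q2 q1, ‖χ (q - ρ) - χ q‖ ≤ ∫ q in uIoc q2 q1, D.indicator 1 q := by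
      apply setIntegral_mono_on
      · have := ((hii (q2 - ρ) (q1 - ρ)).comp_sub_right ρ)
        have h5 : IntervalIntegrable (fun q => χ (q - ρ) - χ q) volume q2 q1 := by
          refine IntervalIntegrable.sub ?_ (hii _ _)
          simpa using this
        exact (intervalIntegrable_iff.1 h5).norm
      · apply Integrable.indicator _ hDm
        exact (integrableOn_const (C := (1 : ℝ)) (by simp))
      · exact measurableSet_uIoc
      · intro q hq
        have hqI : q ∈ Ioo (-q₀) q₀ := by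
          rw [uIoc, mem_Ioc] at hq
          constructor
          · exact lt_of_le_of_lt (le_min hq2I.1.le hq1I.1.le) hq.1
          · exact lt_of_le_of_lt hq.2 (max_lt hq2I.2 hq1I.2)
        by_cases hqD : q ∈ D
        · rw [indicator_of_mem hqD, Pi.one_apply, Real.norm_eq_abs, hχ]
          by_cases c1 : q - ρ ∈ S <;> by_cases c2 : q ∈ S <;> simp [c1, c2]
        · rw [indicator_of_notMem hqD]
          have hiff : q ∈ S ↔ q - ρ ∈ S := by
            by_contra hcon
            exact hqD ⟨hqI, hcon⟩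
          rw [hχ]
          by_cases c1 : q - ρ ∈ S
          · have c2 := hiff.2 c1
            simp [c1, c2]
          · have c2 : q ∉ S := fun h => c1 (hiff.1 h)
            simp [c1, c2]
    refine h4.trans ?_
    rw [integral_indicator_one hDm, Measure.real]
    apply ENNReal.toReal_mono hDfin.ne
    exact Measure.restrict_apply_le _ _
  have hge : ρ / 2 ≤ |g ρ - g 0| := by
    rw [abs_of_neg (by linarith)]
    linarith
  rw [ENNReal.ofReal_le_iff_le_toReal hDfin.ne]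
  exact hge.trans hbound

end Pool.Agent.Lib.Bil
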