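import Pool.Agent.Lib.MP_7bc51d_an.Mink

set_option autoImplicit false

namespace Pool.Agent.Lib.Bil

open Complex MeasureTheory Set Filter
open scoped ComplexConjugate Topology ENNReal

variable {n : ℕ} {v : Fin n → ℂ}

/-- Value of the boundary point of the side `(i,j)` on the line of height `Q` in direction `w`. -/
noncomputable def bpt (v : Fin n → ℂ) (w : ℂ) (i j : Fin n) (Q : ℝ) : ℂ :=
  v i + (((Q - cr w (v i)) / (cr w (v j) - cr w (v i)) : ℝ) : ℂ) * (v j - v i)

/-- Sign with which the side `(i,j)` is crossed. -/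
noncomputable def sgn (v : Fin n → ℂ) (w : ℂ) (i j : Fin n) (Q : ℝ) : ℝ :=
  (Ioo (cr w (v i)) (cr w (v j))).indicator 1 Q - (Ioo (cr w (v j)) (cr w (v i))).indicator 1 Q

theorem exit_data (hn : 3 ≤ n) (hv : ConvexIndependent ℝ v) {x w : ℂ} (hw : w ≠ 0)
    (hx : x ∈ PP v) (hQ : ∀ k, cr w (v k) ≠ cr w x) :
    ∃ (τ : ℝ) (i : Fin n), 0 < τ ∧ (∀ s : ℝ, 0 ≤ s → (x + (s : ℂ) * w ∈ PP v ↔ s < τ)) ∧
      cr w (v i) < cr w x ∧ cr w x < cr w (v (nxt hn hv i)) ∧
      bpt v w i (nxt hn hv i) (cr w x) = x + (τ : ℂ) * w ∧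
      ∀ i', cr w (v i') < cr w x → cr w x < cr w (v (nxt hn hv i')) → i' = i := by
  obtain ⟨τ, hτ, hK, hP, hlt⟩ := exists_exit x w hx hw
  have hvert : x + (τ : ℂ) * w ∉ Set.range v := by
    rintro ⟨k, hk⟩
    apply hQ k
    rw [hk, cr_add_right, cr_smul_right, cr_self, mul_zero, add_zero]
  obtain ⟨i, j, hij, s, hs0, hs1, e1⟩ := exists_side hn hv hK hP hvert
  have hj : j = nxt hn hv i := next_unique hij (nxt_side hn hv i)
  have hout : cr (v j - v i) w < 0 := by
    have h1 := hij.cr_pos hv hx
    have h2 : x - v i = (s : ℂ) * (v j - v i) - (τ : ℂ) * w := by linear_combination e1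
    rw [h2, cr_sub_right, cr_smul_right, cr_smul_right, cr_self] at h1
    by_contra hcon
    push Not at hcon
    nlinarith
  have hpos : 0 < cr w (v j) - cr w (v i) := by
    rw [cr_swap, cr_sub_right] at hout
    linarith
  have hQs : cr w x = cr w (v i) + s * (cr w (v j) - cr w (v i)) := by
    have h1 : cr w (x + (τ : ℂ) * w) = cr w x := by
      rw [cr_add_right, cr_smul_right, cr_self, mul_zero, add_zero]
    rw [← h1, e1, cr_add_right, cr_smul_right, cr_sub_right]
  have hlt1 : cr w (v i) < cr w x := by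
    rw [hQs]; nlinarith
  have hlt2 : cr w x < cr w (v j) := by
    rw [hQs]; nlinarith
  refine ⟨τ, i, hτ, ?_, hlt1, by rw [← hj]; exact hlt2, ?_, ?_⟩
  · intro s' hs'
    constructor
    · intro hmem
      by_contra hcon
      push Not at hcon
      apply hP
      have hs'0 : 0 < s' := lt_of_lt_of_le hτ hcon
      have hmem2 := convex_PP (v := v) hx hmem (a := 1 - τ / s') (b := τ / s')
        (by rw [sub_nonneg, div_le_one hs'0]; exact hcon) (by positivity) (by ring)
      convert hmem2 using 1
      simp only [real_smul]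
      have h5 : ((τ / s' : ℝ) : ℂ) * s' = τ := by
        rw [← ofReal_mul]; congr 1; field_simp
      have h6 : ((1 - τ / s' : ℝ) : ℂ) = 1 - ((τ / s' : ℝ) : ℂ) := by
        rw [ofReal_sub, ofReal_one]
      rw [h6]
      linear_combination (-w) * h5
    · intro h
      exact hlt s' hs' h
  · rw [← hj, bpt, e1]
    have h3 : (cr w x - cr w (v i)) / (cr w (v j) - cr w (v i)) = s := by
      rw [hQs]; field_simp; ring
    rw [h3]
  · intro i' h1 h2
    have h3 := exit_unique hv (nxt_side hn hv i') hij (x := x) (w := w)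
      (by rw [cr_sub_right]; linarith) (by rw [cr_sub_right]; linarith)
      (by rw [cr_sub_right]; linarith) (by rw [cr_sub_right]; linarith)
    exact h3.1

theorem bpt_neg (w : ℂ) (i j : Fin n) (Q : ℝ) : bpt v (-w) i j (-Q) = bpt v w i j Q := by
  unfold bpt
  rw [cr_neg_left, cr_neg_left]
  congr 3
  rw [← neg_div_neg_eq]
  congr 1 <;> ring

/-- A line crossing a side crosses the polygon. -/
theorem cross_of_side (hn : 3 ≤ n) (hv : ConvexIndependent ℝ v) {x w : ℂ} {i j : Fin n}
    (hij : IsSide v i j)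
    (h : (cr w (v i) < cr w x ∧ cr w x < cr w (v j)) ∨ (cr w (v j) < cr w x ∧ cr w x < cr w (v i))) :
    ∃ s : ℝ, x + (s : ℂ) * w ∈ PP v := by
  have hw : w ≠ 0 := by
    rintro rfl
    simp only [cr_zero_left] at h
    rcases h with h | h <;> linarith [h.1]
  set D := cr w (v j) - cr w (v i) with hD
  have hD0 : D ≠ 0 := by
    rcases h with h | h
    · have : 0 < D := by rw [hD]; linarith
      exact this.ne'
    · have : D < 0 := by rw [hD]; linarith
      exact this.ne
  set t := (cr w x - cr w (v i)) / D with ht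
  have ht0 : 0 < t ∧ t < 1 := by
    rcases h with h | h
    · have hDp : 0 < D := by rw [hD]; linarith
      refine ⟨div_pos (by linarith) hDp, ?_⟩
      rw [ht, div_lt_one hDp, hD]; linarith
    · have hDn : D < 0 := by rw [hD]; linarith
      refine ⟨div_pos_of_neg_of_neg (by linarith) hDn, ?_⟩
      rw [ht, div_lt_one_of_neg hDn, hD]; linarith
  set b := v i + (t : ℂ) * (v j - v i) with hb
  have hbQ : cr w (b - x) = 0 := by
    rw [cr_sub_right, hb, cr_add_right, cr_smul_right, cr_sub_right, ← hD, ht]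
    field_simp
    ring
  obtain ⟨s₀, hs₀⟩ := (cr_eq_zero_iff hw).1 hbQ
  have hcw : cr (v j - v i) w = - D := by rw [cr_swap, cr_sub_right]
  rcases lt_or_gt_of_ne hD0 with hDn | hDp
  · obtain ⟨ε, hε, h1⟩ := inward hn hv hij ht0.1 ht0.2 (u := w) (by rw [hcw]; linarith)
    refine ⟨s₀ + ε, ?_⟩
    have := h1 ε hε le_rfl
    rw [← hb] at this
    convert this using 1
    push_cast
    linear_combination -hs₀
  · obtain ⟨ε, hε, h1⟩ := inward hn hv hij ht0.1 ht0.2 (u := -w)
      (by rw [cr_neg_right, hcw]; linarith)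
    refine ⟨s₀ - ε, ?_⟩
    have := h1 ε hε le_rfl
    rw [← hb] at this
    convert this using 1
    push_cast
    linear_combination -hs₀

/-- Integration along a chord. -/
theorem chord_integral (hn : 3 ≤ n) (hv : ConvexIndependent ℝ v) {x w : ℂ} (hw : w ≠ 0)
    (hQ : ∀ k, cr w (v k) ≠ cr w x) {K k : ℂ → ℝ}
    (hK : ∀ (y : ℂ) (s : ℝ), K (y + (s : ℂ) * w) - K y = ∫ s' in (0 : ℝ)..s, k (y + (s' : ℂ) * w)) :
    ∫ s in {s : ℝ | x + (s : ℂ) * w ∈ PP v}, k (x + (s : ℂ) * w) =
      ∑ i, sgn v w i (nxt hn hv i) (cr w x) * K (bpt v w i (nxt hn hv i) (cr w x)) := by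
  by_cases hne : ∃ s : ℝ, x + (s : ℂ) * w ∈ PP v
  · obtain ⟨s₀, hs₀⟩ := hne
    set x₀ := x + (s₀ : ℂ) * w with hx₀
    have hcr : cr w x₀ = cr w x := by
      rw [hx₀, cr_add_right, cr_smul_right, cr_self, mul_zero, add_zero]
    obtain ⟨τ, i, hτ, h1, h2, h3, h4, h5⟩ := exit_data hn hv hw hs₀ (by rw [hcr]; exact hQ)
    obtain ⟨τ', i', hτ', h1', h2', h3', h4', h5'⟩ := exit_data hn hv (neg_ne_zero.2 hw) hs₀
      (by
        intro k
        rw [cr_neg_left, cr_neg_left, hcr]
        exact fun h => hQ k (neg_injective h))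
    rw [cr_neg_left, cr_neg_left] at h2' h3'
    rw [cr_neg_left, bpt_neg] at h4'
    rw [hcr] at h2 h3 h4 h5 h2' h3' h4'
    -- the chord is an interval
    have hset : {s : ℝ | x + (s : ℂ) * w ∈ PP v} = Ioo (s₀ - τ') (s₀ + τ) := by
      ext s
      simp only [mem_ofPred_eq, mem_Ioo]
      rcases le_or_gt s₀ s with h | h
      · have e1 : x + (s : ℂ) * w = x₀ + ((s - s₀ : ℝ) : ℂ) * w := by
          rw [hx₀]; push_cast; ring
        rw [e1, h1 (s - s₀) (by linarith)]
        constructor
        · intro h6; constructor <;> linarith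
        · intro h6; linarith [h6.2]
      · have e1 : x + (s : ℂ) * w = x₀ + ((s₀ - s : ℝ) : ℂ) * (-w) := by
          rw [hx₀]; push_cast; ring
        rw [e1, h1' (s₀ - s) (by linarith)]
        constructor
        · intro h6; constructor <;> linarith
        · intro h6; linarith [h6.1]
    have hint : ∫ s in {s : ℝ | x + (s : ℂ) * w ∈ PP v}, k (x + (s : ℂ) * w) =
        K (x₀ + (τ : ℂ) * w) - K (x₀ + (τ' : ℂ) * (-w)) := by
      rw [hset, ← integral_Ioc_eq_integral_Ioo,
        ← intervalIntegral.integral_of_le (by linarith : s₀ - τ' ≤ s₀ + τ)]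
      have e1 := hK (x₀ + (τ' : ℂ) * (-w)) (τ + τ')
      have e2 : x₀ + (τ' : ℂ) * (-w) + ((τ + τ' : ℝ) : ℂ) * w = x₀ + (τ : ℂ) * w := by
        push_cast; ring
      rw [e2] at e1
      rw [e1]
      have e3 := intervalIntegral.integral_comp_add_right (a := 0) (b := τ + τ')
        (fun s => k (x + (s : ℂ) * w)) (s₀ - τ')
      have e4 : (0 : ℝ) + (s₀ - τ') = s₀ - τ' := by ring
      have e5 : τ + τ' + (s₀ - τ') = s₀ + τ := by ring
      rw [e4, e5] at e3
      rw [← e3]
      apply intervalIntegral.integral_congr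
      intro s _
      simp only
      congr 1
      rw [hx₀]; push_cast; ring
    rw [hint]
    have hii' : i ≠ i' := by
      rintro rfl
      linarith
    have hsum : ∑ l, sgn v w l (nxt hn hv l) (cr w x) * K (bpt v w l (nxt hn hv l) (cr w x)) =
        ∑ l, ((if l = i then K (x₀ + (τ : ℂ) * w) else 0) -
          (if l = i' then K (x₀ + (τ' : ℂ) * (-w)) else 0)) := by
      apply Finset.sum_congr rfl
      intro l _
      unfold sgn
      by_cases hl1 : cr w (v l) < cr w x ∧ cr w x < cr w (v (nxt hn hv l))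
      · have hli := h5 l hl1.1 hl1.2
        have hli' : l ≠ i' := by rw [hli]; exact hii'
        rw [indicator_of_mem (show cr w x ∈ Ioo (cr w (v l)) (cr w (v (nxt hn hv l))) from hl1),
          indicator_of_notMem (show cr w x ∉ Ioo (cr w (v (nxt hn hv l))) (cr w (v l)) from
            fun h => by linarith [h.1, h.2, hl1.1, hl1.2]), if_pos hli, if_neg hli', hli, h4]
        simp
      · have hli : l ≠ i := by
          rintro rfl
          exact hl1 ⟨h2, h3⟩
        rw [indicator_of_notMem (show cr w x ∉ Ioo (cr w (v l)) (cr w (v (nxt hn hv l))) from hl1),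
          if_neg hli]
        by_cases hl2 : cr w (v (nxt hn hv l)) < cr w x ∧ cr w x < cr w (v l)
        · have hli' : l = i' := by
            apply h5' l
            · rw [cr_neg_left, cr_neg_left, hcr]; linarith [hl2.2]
            · rw [cr_neg_left, cr_neg_left, hcr]; linarith [hl2.1]
          rw [indicator_of_mem (show cr w x ∈ Ioo (cr w (v (nxt hn hv l))) (cr w (v l)) from hl2),
            if_pos hli', hli', h4']
          simp
        · have hli' : l ≠ i' := by
            rintro rfl
            apply hl2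
            constructor <;> linarith
          rw [indicator_of_notMem (show cr w x ∉ Ioo (cr w (v (nxt hn hv l))) (cr w (v l)) from hl2),
            if_neg hli']
          simp
    rw [hsum, Finset.sum_sub_distrib, Finset.sum_ite_eq', Finset.sum_ite_eq']
    simp
  · have hset : {s : ℝ | x + (s : ℂ) * w ∈ PP v} = ∅ := by
      ext s
      simp only [mem_ofPred_eq, mem_empty_iff_false, iff_false]
      exact fun h => hne ⟨s, h⟩
    rw [hset, setIntegral_empty]
    symm
    apply Finset.sum_eq_zero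
    intro l _
    have h1 : cr w x ∉ Ioo (cr w (v l)) (cr w (v (nxt hn hv l))) := fun h =>
      hne (cross_of_side hn hv (nxt_side hn hv l) (Or.inl h))
    have h2 : cr w x ∉ Ioo (cr w (v (nxt hn hv l))) (cr w (v l)) := fun h =>
      hne (cross_of_side hn hv (nxt_side hn hv l) (Or.inr h))
    unfold sgn
    rw [indicator_of_notMem h1, indicator_of_notMem h2]
    simp

end Pool.Agent.Lib.Bil
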