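import Pool.Agent.Lib.MP_7bc51d_an.Moments

set_option autoImplicit false

namespace Pool.Agent.Lib.Bil

open Complex MeasureTheory Set Filter
open scoped ComplexConjugate Topology ENNReal Real

/-- unit vector of angle `θ` -/
noncomputable def ut (θ : ℝ) : ℂ := (Real.cos θ : ℂ) + (Real.sin θ : ℂ) * I

theorem ut_re (θ : ℝ) : (ut θ).re = Real.cos θ := by
  simp only [ut, add_re, mul_re, ofReal_re, ofReal_im, I_re, I_im]; ring
theorem ut_im (θ : ℝ) : (ut θ).im = Real.sin θ := by
  simp only [ut, add_im, mul_im, ofReal_re, ofReal_im, I_re, I_im]; ring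

theorem polar_hom (d : ℕ) {g : ℂ → ℝ}
    (hg : ∀ r : ℝ, 0 < r → ∀ w, g ((r : ℂ) * w) = r ^ d * g w) :
    ∫ w in BV, g w = (1 / ((d : ℝ) + 2)) * ∫ θ in Ioo (-π) π, g (ut θ) := by
  rw [← integral_indicator measurableSet_ball, ← Complex.integral_comp_polarCoord_symm]
  have h1 : ∫ p in polarCoord.target, p.1 • (BV.indicator g) (Complex.polarCoord.symm p) =
      ∫ p in Ioi (0 : ℝ) ×ˢ Ioo (-π) π, ((Iio (1 : ℝ)).indicator (fun r => r ^ (d + 1)) p.1) *
        g (ut p.2) := by
    rw [polarCoord_target]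
    apply setIntegral_congr_fun (measurableSet_Ioi.prod measurableSet_Ioo)
    intro p hp
    have hp0 : 0 < p.1 := hp.1
    simp only [smul_eq_mul]
    have h2 : Complex.polarCoord.symm p = (p.1 : ℂ) * ut p.2 := by
      rw [Complex.polarCoord_symm_apply, ut]
    have h3 : ‖Complex.polarCoord.symm p‖ = p.1 := by
      rw [Complex.norm_polarCoord_symm, abs_of_pos hp0]
    by_cases h4 : p.1 < 1
    · rw [indicator_of_mem (show p.1 ∈ Iio (1 : ℝ) from h4), indicator_of_mem, h2, hg _ hp0]
      · ring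
      · rw [mem_ball_zero_iff, h3]; exact h4
    · rw [indicator_of_notMem (show p.1 ∉ Iio (1 : ℝ) from h4), indicator_of_notMem]
      · ring
      · rw [mem_ball_zero_iff, h3]; exact h4
  rw [h1]
  have h5 := setIntegral_prod_mul (μ := (volume : Measure ℝ)) (ν := (volume : Measure ℝ))
    (fun r : ℝ => (Iio (1 : ℝ)).indicator (fun r => r ^ (d + 1)) r) (fun θ => g (ut θ))
    (Ioi (0 : ℝ)) (Ioo (-π) π)
  rw [← Measure.volume_eq_prod] at h5
  rw [h5]
  congr 1
  rw [setIntegral_indicator measurableSet_Iio]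
  have h6 : Ioi (0 : ℝ) ∩ Iio 1 = Ioo 0 1 := by ext; simp
  rw [h6, ← integral_Ioc_eq_integral_Ioo, ← intervalIntegral.integral_of_le zero_le_one,
    integral_pow]
  push_cast
  simp
  ring_nf

theorem hom_ind {S : Set ℂ} (hc : ∀ w : ℂ, ∀ c : ℝ, 0 < c → (w ∈ S ↔ (c : ℂ) * w ∈ S)) {r : ℝ}
    (hr : 0 < r) (w : ℂ) : S.indicator (1 : ℂ → ℝ) ((r : ℂ) * w) = S.indicator 1 w := by
  by_cases h : w ∈ S
  · rw [indicator_of_mem h, indicator_of_mem ((hc w r hr).1 h)]; rfl
  · rw [indicator_of_notMem h, indicator_of_notMem (fun h2 => h ((hc w r hr).2 h2))]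

theorem vol_cone {S : Set ℂ} (hS : MeasurableSet S)
    (hc : ∀ w : ℂ, ∀ c : ℝ, 0 < c → (w ∈ S ↔ (c : ℂ) * w ∈ S)) :
    (volume (S ∩ BV)).toReal = (1 / 2) * ∫ θ in Ioo (-π) π, S.indicator (1 : ℂ → ℝ) (ut θ) := by
  have h := polar_hom 0 (g := S.indicator 1) (fun r hr w => by rw [hom_ind hc hr]; ring)
  have h2 : ∫ w in BV, S.indicator (1 : ℂ → ℝ) w = (volume (S ∩ BV)).toReal := by
    rw [setIntegral_indicator hS, inter_comm]
    simp [Measure.real]
  rw [← h2, h]
  norm_num

theorem bathtub {T : Set ℝ} (hT : MeasurableSet T) (γ : ℝ) :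
    ∫ θ in Ioo (-π) π, T.indicator (1 : ℝ → ℝ) θ * Real.cos (2 * θ - γ) ≤
      2 * Real.sin ((∫ θ in Ioo (-π) π, T.indicator (1 : ℝ → ℝ) θ) / 2) := by
  have hpi := Real.pi_pos
  set Θ := ∫ θ in Ioo (-π) π, T.indicator (1 : ℝ → ℝ) θ with hΘ
  set β := Θ / 2 with hβ
  have hIfin : volume (Ioo (-π) π) ≠ ⊤ := measure_Ioo_lt_top.ne
  have hind : IntegrableOn (T.indicator (1 : ℝ → ℝ)) (Ioo (-π) π) := by
    have h1 : IntegrableOn (fun _ : ℝ => (1 : ℝ)) (Ioo (-π) π) := integrableOn_const hIfin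
    exact Integrable.indicator h1 hT
  have hΘ0 : 0 ≤ Θ := integral_nonneg (fun θ => indicator_nonneg (fun _ _ => zero_le_one) θ)
  have hΘ1 : Θ ≤ 2 * π := by
    have h1 : Θ ≤ ∫ θ in Ioo (-π) π, (1 : ℝ) := by
      apply setIntegral_mono hind (integrableOn_const hIfin)
      intro θ
      exact indicator_le_self' (fun _ _ => zero_le_one) θ
    rw [setIntegral_const, smul_eq_mul, mul_one, Measure.real, Real.volume_Ioo,
      ENNReal.toReal_ofReal (by linarith)] at h1
    linarith
  have hβ0 : 0 ≤ β := by positivity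
  have hβ1 : β ≤ π := by rw [hβ]; linarith
  set f : ℝ → ℝ := fun φ => max (Real.cos (2 * φ) - Real.cos β) 0 with hf
  have hfc : Continuous f := by rw [hf]; fun_prop
  -- the integral of the positive part over a period
  have hper : ∫ φ in (-(π / 2))..(π / 2), f φ = Real.sin β - β * Real.cos β := by
    have s1 : ∫ φ in (-(π / 2))..(-(β / 2)), f φ = 0 := by
      rw [intervalIntegral.integral_congr (g := fun _ => 0)]
      · simp
      · intro φ hφ
        rw [uIcc_of_le (by linarith)] at hφ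
        simp only [hf]
        apply max_eq_right
        have : Real.cos (2 * φ) = Real.cos (-(2 * φ)) := (Real.cos_neg _).symm
        rw [this]
        have := Real.cos_le_cos_of_nonneg_of_le_pi hβ0 (by linarith [hφ.1] : -(2 * φ) ≤ π)
          (by linarith [hφ.2])
        linarith
    have s3 : ∫ φ in (β / 2)..(π / 2), f φ = 0 := by
      rw [intervalIntegral.integral_congr (g := fun _ => 0)]
      · simp
      · intro φ hφ
        rw [uIcc_of_le (by linarith)] at hφ
        simp only [hf]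
        apply max_eq_right
        have := Real.cos_le_cos_of_nonneg_of_le_pi hβ0 (by linarith [hφ.2] : 2 * φ ≤ π)
          (by linarith [hφ.1])
        linarith
    have s2 : ∫ φ in (-(β / 2))..(β / 2), f φ = Real.sin β - β * Real.cos β := by
      rw [intervalIntegral.integral_congr (g := fun φ => Real.cos (2 * φ) - Real.cos β)]
      · rw [intervalIntegral.integral_sub]
        · have h1 := intervalIntegral.integral_comp_mul_left (a := -(β / 2)) (b := β / 2)
            (fun x => Real.cos x) (two_ne_zero (α := ℝ))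
          rw [h1, integral_cos, intervalIntegral.integral_const]
          have e1 : (2 : ℝ) * (β / 2) = β := by ring
          have e2 : (2 : ℝ) * (-(β / 2)) = -β := by ring
          rw [e1, e2, Real.sin_neg]
          simp only [smul_eq_mul]
          ring
        · apply Continuous.intervalIntegrable; fun_prop
        · exact intervalIntegrable_const
      · intro φ hφ
        rw [uIcc_of_le (by linarith)] at hφ
        simp only [hf]
        apply max_eq_left
        have h1 : Real.cos (2 * φ) = Real.cos |2 * φ| := (Real.cos_abs _).symm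
        rw [h1]
        have h2 : |2 * φ| ≤ β := by
          rw [abs_le]; constructor <;> linarith [hφ.1, hφ.2]
        have := Real.cos_le_cos_of_nonneg_of_le_pi (abs_nonneg _) hβ1 h2
        linarith
    have ii : ∀ a b : ℝ, IntervalIntegrable f volume a b := fun a b => hfc.intervalIntegrable a b
    rw [← intervalIntegral.integral_add_adjacent_intervals (ii _ (-(β / 2))) (ii _ _),
      ← intervalIntegral.integral_add_adjacent_intervals (ii (-(β / 2)) (β / 2)) (ii _ _),
      s1, s2, s3]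
    ring
  set h : ℝ → ℝ := fun θ => max (Real.cos (2 * θ - γ) - Real.cos β) 0 with hh
  have hhc : Continuous h := by rw [hh]; fun_prop
  have hhp : Function.Periodic h π := by
    intro θ
    simp only [hh]
    have : 2 * (θ + π) - γ = (2 * θ - γ) + 2 * π := by ring
    rw [this, Real.cos_add_two_pi]
  have hshift : ∫ θ in (γ / 2 - π / 2)..(γ / 2 - π / 2 + π), h θ = Real.sin β - β * Real.cos β := by
    rw [← hper]
    have h1 := intervalIntegral.integral_comp_add_right (a := -(π / 2)) (b := π / 2) h (γ / 2)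
    have e1 : -(π / 2) + γ / 2 = γ / 2 - π / 2 := by ring
    have e2 : π / 2 + γ / 2 = γ / 2 - π / 2 + π := by ring
    rw [e1, e2] at h1
    rw [← h1]
    apply intervalIntegral.integral_congr
    intro φ _
    simp only [hh, hf]
    congr 3
    ring
  have hfull : ∫ θ in (-π)..π, h θ = 2 * (Real.sin β - β * Real.cos β) := by
    have ii : ∀ a b : ℝ, IntervalIntegrable h volume a b := fun a b => hhc.intervalIntegrable a b
    rw [← intervalIntegral.integral_add_adjacent_intervals (ii (-π) 0) (ii 0 π)]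
    have h1 := hhp.intervalIntegral_add_eq (-π) (γ / 2 - π / 2)
    have h2 := hhp.intervalIntegral_add_eq 0 (γ / 2 - π / 2)
    rw [neg_add_cancel] at h1
    rw [zero_add] at h2
    rw [h1, h2, hshift]
    ring
  have hmono : ∫ θ in Ioo (-π) π, (T.indicator (1 : ℝ → ℝ) θ * Real.cos (2 * θ - γ) -
      Real.cos β * T.indicator (1 : ℝ → ℝ) θ) ≤ ∫ θ in Ioo (-π) π, h θ := by
    apply setIntegral_mono
    · refine Integrable.sub ?_ (hind.const_mul _)
      refine Integrable.mul_bdd (c := 1) hind ?_ ?_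
      · apply Continuous.aestronglyMeasurable; fun_prop
      · exact Eventually.of_forall (fun θ => by
          rw [Real.norm_eq_abs]; exact Real.abs_cos_le_one _)
    · exact (hhc.continuousOn.integrableOn_Icc (μ := volume)).mono_set Ioo_subset_Icc_self
    · intro θ
      simp only [hh]
      by_cases hθ : θ ∈ T
      · rw [indicator_of_mem hθ]
        simp
      · rw [indicator_of_notMem hθ]
        simp
  have hint : IntegrableOn (fun θ => T.indicator (1 : ℝ → ℝ) θ * Real.cos (2 * θ - γ))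
      (Ioo (-π) π) := by
    refine Integrable.mul_bdd (c := 1) hind ?_ ?_
    · apply Continuous.aestronglyMeasurable; fun_prop
    · exact Eventually.of_forall (fun θ => by
        rw [Real.norm_eq_abs]; exact Real.abs_cos_le_one _)
  rw [integral_sub hint (hind.const_mul _), integral_const_mul, ← hΘ,
    ← integral_Ioc_eq_integral_Ioo (f := h), ← intervalIntegral.integral_of_le (by linarith),
    hfull] at hmono
  have : Θ = 2 * β := by rw [hβ]; ring
  rw [this] at hmono
  linarith

theorem bathtub_sq {T : Set ℝ} (hT : MeasurableSet T) :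
    (∫ θ in Ioo (-π) π, T.indicator (1 : ℝ → ℝ) θ * Real.cos (2 * θ)) ^ 2 +
      (∫ θ in Ioo (-π) π, T.indicator (1 : ℝ → ℝ) θ * Real.sin (2 * θ)) ^ 2 ≤
      4 * Real.sin ((∫ θ in Ioo (-π) π, T.indicator (1 : ℝ → ℝ) θ) / 2) ^ 2 := by
  set C := ∫ θ in Ioo (-π) π, T.indicator (1 : ℝ → ℝ) θ * Real.cos (2 * θ) with hC
  set S := ∫ θ in Ioo (-π) π, T.indicator (1 : ℝ → ℝ) θ * Real.sin (2 * θ) with hS
  have hIfin : volume (Ioo (-π) π) ≠ ⊤ := measure_Ioo_lt_top.ne
  have hind : IntegrableOn (T.indicator (1 : ℝ → ℝ)) (Ioo (-π) π) := by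
    have h1 : IntegrableOn (fun _ : ℝ => (1 : ℝ)) (Ioo (-π) π) := integrableOn_const hIfin
    exact Integrable.indicator h1 hT
  have i1 : IntegrableOn (fun θ => T.indicator (1 : ℝ → ℝ) θ * Real.cos (2 * θ)) (Ioo (-π) π) := by
    refine Integrable.mul_bdd (c := 1) hind ?_ ?_
    · apply Continuous.aestronglyMeasurable; fun_prop
    · exact Eventually.of_forall (fun θ => by
        rw [Real.norm_eq_abs]; exact Real.abs_cos_le_one _)
  have i2 : IntegrableOn (fun θ => T.indicator (1 : ℝ → ℝ) θ * Real.sin (2 * θ)) (Ioo (-π) π) := by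
    refine Integrable.mul_bdd (c := 1) hind ?_ ?_
    · apply Continuous.aestronglyMeasurable; fun_prop
    · exact Eventually.of_forall (fun θ => by
        rw [Real.norm_eq_abs]; exact Real.abs_sin_le_one _)
  set z : ℂ := ⟨C, S⟩ with hz
  have h1 := bathtub hT (arg z)
  have h2 : ∫ θ in Ioo (-π) π, T.indicator (1 : ℝ → ℝ) θ * Real.cos (2 * θ - arg z) = ‖z‖ := by
    have e1 : ∀ θ : ℝ, T.indicator (1 : ℝ → ℝ) θ * Real.cos (2 * θ - arg z) =
        Real.cos (arg z) * (T.indicator (1 : ℝ → ℝ) θ * Real.cos (2 * θ)) +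
        Real.sin (arg z) * (T.indicator (1 : ℝ → ℝ) θ * Real.sin (2 * θ)) := by
      intro θ
      rw [Real.cos_sub]; ring
    simp_rw [e1]
    rw [integral_add (i1.const_mul _) (i2.const_mul _), integral_const_mul, integral_const_mul,
      ← hC, ← hS]
    have e2 := Complex.norm_mul_cos_arg z
    have e3 := Complex.norm_mul_sin_arg z
    have e4 : z.re = C := rfl
    have e5 : z.im = S := rfl
    rw [← e4, ← e5, ← e2, ← e3]
    have := Real.cos_sq_add_sin_sq (arg z)
    linear_combination ‖z‖ * this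
  rw [h2] at h1
  have h3 : C ^ 2 + S ^ 2 = ‖z‖ ^ 2 := by
    rw [← Complex.normSq_eq_norm_sq, Complex.normSq_apply]
    simp only [hz]; ring
  rw [h3]
  have h0 := norm_nonneg z
  nlinarith

/-- Moments of a cone. -/
theorem cone_moments {S : Set ℂ} (hS : MeasurableSet S)
    (hc : ∀ w : ℂ, ∀ c : ℝ, 0 < c → (w ∈ S ↔ (c : ℂ) * w ∈ S)) {α : ℝ}
    (hα : α = (volume (S ∩ BV)).toReal / π) :
    (∫ w in BV, S.indicator (1 : ℂ → ℝ) w * p20 w) + (∫ w in BV, S.indicator (1 : ℂ → ℝ) w * p02 w) =
        π * α / 2 ∧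
    (π ^ 2 * α ^ 2 - Real.sin (π * α) ^ 2) / 4 ≤
      4 * ((∫ w in BV, S.indicator (1 : ℂ → ℝ) w * p20 w) *
        (∫ w in BV, S.indicator (1 : ℂ → ℝ) w * p02 w) -
        (∫ w in BV, S.indicator (1 : ℂ → ℝ) w * p11 w) ^ 2) := by
  have hpi := Real.pi_pos
  set T : Set ℝ := {θ | ut θ ∈ S} with hT
  have hutm : Measurable ut := by
    unfold ut
    apply Continuous.measurable
    fun_prop
  have hTm : MeasurableSet T := hS.preimage hutm
  have hST : ∀ θ, S.indicator (1 : ℂ → ℝ) (ut θ) = T.indicator (1 : ℝ → ℝ) θ := by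
    intro θ
    by_cases h : ut θ ∈ S
    · rw [indicator_of_mem h, indicator_of_mem (show θ ∈ T from h)]; rfl
    · rw [indicator_of_notMem h, indicator_of_notMem (show θ ∉ T from h)]
  set Θ := ∫ θ in Ioo (-π) π, T.indicator (1 : ℝ → ℝ) θ with hΘ
  set C := ∫ θ in Ioo (-π) π, T.indicator (1 : ℝ → ℝ) θ * Real.cos (2 * θ) with hC
  set Z := ∫ θ in Ioo (-π) π, T.indicator (1 : ℝ → ℝ) θ * Real.sin (2 * θ) with hZ
  have hvol := vol_cone hS hc
  simp_rw [hST] at hvol
  rw [← hΘ] at hvol
  have hΘα : Θ = 2 * (π * α) := by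
    rw [hα, hvol]; field_simp
  have hIfin : volume (Ioo (-π) π) ≠ ⊤ := measure_Ioo_lt_top.ne
  have hind : IntegrableOn (T.indicator (1 : ℝ → ℝ)) (Ioo (-π) π) := by
    have h1 : IntegrableOn (fun _ : ℝ => (1 : ℝ)) (Ioo (-π) π) := integrableOn_const hIfin
    exact Integrable.indicator h1 hTm
  have i1 : IntegrableOn (fun θ => T.indicator (1 : ℝ → ℝ) θ * Real.cos (2 * θ)) (Ioo (-π) π) := by
    refine Integrable.mul_bdd (c := 1) hind ?_ ?_
    · apply Continuous.aestronglyMeasurable; fun_prop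
    · exact Eventually.of_forall (fun θ => by
        rw [Real.norm_eq_abs]; exact Real.abs_cos_le_one _)
  have h20 : ∫ w in BV, S.indicator (1 : ℂ → ℝ) w * p20 w = (Θ + C) / 8 := by
    have h := polar_hom 2 (g := fun w => S.indicator 1 w * p20 w) (fun r hr w => by
      rw [hom_ind hc hr]; simp only [p20, mul_re, ofReal_re, ofReal_im]; ring)
    rw [h]
    have e1 : ∀ θ : ℝ, S.indicator (1 : ℂ → ℝ) (ut θ) * p20 (ut θ) =
        (1 / 2) * (T.indicator (1 : ℝ → ℝ) θ + T.indicator (1 : ℝ → ℝ) θ * Real.cos (2 * θ)) := by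
      intro θ
      rw [hST]; simp only [p20, ut_re]
      rw [Real.cos_two_mul]; ring
    simp_rw [e1]
    rw [integral_const_mul, integral_add hind i1, ← hΘ, ← hC]
    push_cast
    ring
  have h02 : ∫ w in BV, S.indicator (1 : ℂ → ℝ) w * p02 w = (Θ - C) / 8 := by
    have h := polar_hom 2 (g := fun w => S.indicator 1 w * p02 w) (fun r hr w => by
      rw [hom_ind hc hr]; simp only [p02, mul_im, ofReal_re, ofReal_im]; ring)
    rw [h]
    have e1 : ∀ θ : ℝ, S.indicator (1 : ℂ → ℝ) (ut θ) * p02 (ut θ) =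
        (1 / 2) * (T.indicator (1 : ℝ → ℝ) θ - T.indicator (1 : ℝ → ℝ) θ * Real.cos (2 * θ)) := by
      intro θ
      rw [hST]; simp only [p02, ut_im]
      rw [Real.cos_two_mul, Real.sin_sq]; ring
    simp_rw [e1]
    rw [integral_const_mul, integral_sub hind i1, ← hΘ, ← hC]
    push_cast
    ring
  have h11 : ∫ w in BV, S.indicator (1 : ℂ → ℝ) w * p11 w = Z / 8 := by
    have h := polar_hom 2 (g := fun w => S.indicator 1 w * p11 w) (fun r hr w => by
      rw [hom_ind hc hr]; simp only [p11, mul_re, mul_im, ofReal_re, ofReal_im]; ring)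
    rw [h]
    have e1 : ∀ θ : ℝ, S.indicator (1 : ℂ → ℝ) (ut θ) * p11 (ut θ) =
        (1 / 2) * (T.indicator (1 : ℝ → ℝ) θ * Real.sin (2 * θ)) := by
      intro θ
      rw [hST]; simp only [p11, ut_re, ut_im]
      rw [Real.sin_two_mul]; ring
    simp_rw [e1]
    rw [integral_const_mul, ← hZ]
    push_cast
    ring
  have hb := bathtub_sq hTm
  rw [← hΘ, ← hC, ← hZ] at hb
  have e1 : Θ / 2 = π * α := by rw [hΘα]; ring
  rw [e1] at hb
  rw [h20, h02, h11, hΘα]
  constructor
  · ring
  · nlinarith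

end Pool.Agent.Lib.Bil
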