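import Pool.Agent.Lib.MP_7bc51d_an.Atoms

set_option autoImplicit false

namespace Pool.Agent.Lib.Bil

open Complex MeasureTheory Set Filter
open scoped ComplexConjugate Topology ENNReal

variable {n : ℕ} {v : Fin n → ℂ}

/-- A property of the height, valid at almost every point of an open set, holds at almost every
height of the open set. -/
theorem ae_heights_open {U : Set ℂ} (hU : IsOpen U) {w : ℂ} (hw : w ≠ 0) {p : ℝ → Prop}
    (h : ∀ᵐ x : ℂ, x ∈ U → p (cr w x)) : ∀ᵐ Q : ℝ, (∃ x ∈ U, cr w x = Q) → p Q := by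
  filter_upwards [ae_chi hw h] with Q hQ hx
  obtain ⟨x, hx, rfl⟩ := hx
  by_contra hcon
  have hopen : IsOpen {s : ℝ | bs w (cr w x) + (s : ℂ) * w ∈ U} :=
    hU.preimage (by fun_prop)
  have hne : volume {s : ℝ | bs w (cr w x) + (s : ℂ) * w ∈ U} ≠ 0 := by
    refine (hopen.measure_pos volume ⟨dt w x / (w.re ^ 2 + w.im ^ 2), ?_⟩).ne'
    change bs w (cr w x) + ((dt w x / (w.re ^ 2 + w.im ^ 2) : ℝ) : ℂ) * w ∈ U
    rw [bs_eq hw]
    exact hx
  apply hne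
  rw [measure_eq_zero_iff_ae_notMem]
  filter_upwards [hQ] with s hs hmem
  have := hs hmem
  rw [cr_add_right, cr_bs hw, cr_smul_right, cr_self, mul_zero, add_zero] at this
  exact hcon this

/-- Heights of an open set form an open set. -/
theorem heights_open {U : Set ℂ} (hU : IsOpen U) {w x : ℂ} (hw : w ≠ 0) (hx : x ∈ U) :
    ∃ ε : ℝ, 0 < ε ∧ ∀ q : ℝ, |q - cr w x| < ε → ∃ y ∈ U, cr w y = q := by
  have hopen : IsOpen {q : ℝ | x + bs w (q - cr w x) ∈ U} :=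
    hU.preimage (by unfold bs; fun_prop)
  obtain ⟨ε, hε, hb⟩ := Metric.isOpen_iff.1 hopen (cr w x) (by
    change x + bs w (cr w x - cr w x) ∈ U
    have : bs w (cr w x - cr w x) = 0 := by unfold bs; simp
    rw [this, add_zero]
    exact hx)
  refine ⟨ε, hε, fun q hq => ⟨x + bs w (q - cr w x), hb ?_, ?_⟩⟩
  · rw [Metric.mem_ball, Real.dist_eq]; exact hq
  · rw [cr_add_right, cr_bs hw]; ring

theorem LCv_of_open {F : ℂ → ℝ → ℝ} {U : Set ℂ} (hU : IsOpen U) {w x : ℂ} (hw : w ≠ 0)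
    (hx : x ∈ U) {c : ℝ} (h : ∀ᵐ y : ℂ, y ∈ U → F w (cr w y) = c) : LCv F w (cr w x) c := by
  obtain ⟨ε, hε, h1⟩ := heights_open hU hw hx
  refine ⟨ε, hε, ?_⟩
  filter_upwards [ae_heights_open hU hw (p := fun q => F w q = c) h] with q hq h2
  exact hq (h1 q h2)

/-- line functions of a difference of sets -/
theorem FA_rel {A B C : Set (ℂ × ℂ)} (hA : ∀ᵐ w, ChordAt v A w) (hB : ∀ᵐ w, ChordAt v B w)
    (hC : ∀ᵐ w, ChordAt v C w) (h : ∀ p, p ∈ C ↔ p ∈ A ∧ p ∉ B) :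
    ∀ᵐ w : ℂ, ∀ᵐ Q : ℝ, (∃ x ∈ PP v, cr w x = Q) →
      FA v C w Q = FA v A w Q * (1 - FA v B w Q) := by
  have h0 : ∀ᵐ w : ℂ, w ≠ 0 := by simp [ae_iff]
  filter_upwards [FA_ae hA, FA_ae hB, FA_ae hC, h0] with w g1 g2 g3 g4
  apply ae_heights_open isOpen_PP g4 (p := fun Q => FA v C w Q = FA v A w Q * (1 - FA v B w Q))
  filter_upwards [g1, g2, g3] with x k1 k2 k3 k4
  rw [k1 k4, k2 k4, k3 k4]
  by_cases hxA : (x, w) ∈ A
  · by_cases hxB : (x, w) ∈ B
    · have hxC : (x, w) ∉ C := fun hc => ((h _).1 hc).2 hxB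
      rw [indicator_of_mem hxA, indicator_of_mem hxB, indicator_of_notMem hxC]
      simp
    · have hxC : (x, w) ∈ C := (h _).2 ⟨hxA, hxB⟩
      rw [indicator_of_mem hxA, indicator_of_notMem hxB, indicator_of_mem hxC]
      simp
  · have hxC : (x, w) ∉ C := fun hc => hxA ((h _).1 hc).1
    rw [indicator_of_notMem hxA, indicator_of_notMem hxC]
    simp

/-- the invariance hypothesis for functions -/
def HypF (v : Fin n → ℂ) (f : ℂ × ℂ → ℝ) (p : ℂ × ℂ) : Prop :=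
  p.1 ∈ interior (convexHull ℝ (Set.range v)) → p.2 ≠ 0 →
    ∀ τ : ℝ, 0 < τ →
      p.1 + (τ : ℂ) * p.2 ∈ frontier (convexHull ℝ (Set.range v)) →
      (∀ s : ℝ, 0 ≤ s → s < τ → f p = f (p.1 + (s : ℂ) * p.2, p.2)) ∧
      (p.1 + (τ : ℂ) * p.2 ∉ Set.range v →
        ∀ i j : Fin n, i ≠ j → p.1 + (τ : ℂ) * p.2 ∈ segment ℝ (v i) (v j) →
          ∀ σ : ℝ, 0 < σ →
            p.1 + (τ : ℂ) * p.2 + (σ : ℂ) *
                ((v j - v i) / (starRingEnd ℂ) (v j - v i) * (starRingEnd ℂ) p.2)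
              ∈ frontier (convexHull ℝ (Set.range v)) →
            ∀ r : ℝ, 0 < r → r < σ →
              f p =
                f (p.1 + (τ : ℂ) * p.2 + (r : ℂ) *
                    ((v j - v i) / (starRingEnd ℂ) (v j - v i) * (starRingEnd ℂ) p.2),
                  (v j - v i) / (starRingEnd ℂ) (v j - v i) * (starRingEnd ℂ) p.2))

theorem HypF.hypAt {f : ℂ × ℂ → ℝ} {p : ℂ × ℂ} (h : HypF v f p) (U : Set ℝ) :
    HypAt v (f ⁻¹' U) p := by
  intro h1 h2 τ hτ h3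
  obtain ⟨k1, k2⟩ := h h1 h2 τ hτ h3
  refine ⟨fun s hs hs2 => ?_, fun h4 i j hij h5 σ hσ h6 r hr hr2 => ?_⟩
  · rw [mem_preimage, mem_preimage, k1 s hs hs2]
  · rw [mem_preimage, mem_preimage, k2 h4 i j hij h5 σ hσ h6 r hr hr2]

/-- near the vertices -/
theorem out_height {k : Fin n} {θ : ℂ} (h : Out v k θ ∨ Out v k (-θ)) :
    ∃ x ∈ PP v, cr θ x = cr θ (v k) := by
  rcases h with ⟨ε, hε, h⟩ | ⟨ε, hε, h⟩
  · refine ⟨_, h ε hε le_rfl, ?_⟩
    rw [cr_add_right, cr_smul_right, cr_self]; ring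
  · refine ⟨_, h ε hε le_rfl, ?_⟩
    rw [cr_add_right, cr_smul_right, cr_neg_right, cr_self]; ring

theorem LC_diff {A B C : Set (ℂ × ℂ)} {w x : ℂ} (hw : w ≠ 0) (hx : x ∈ PP v)
    (hrel : ∀ᵐ Q : ℝ, (∃ x ∈ PP v, cr w x = Q) → FA v C w Q = FA v A w Q * (1 - FA v B w Q))
    (hA : LC (FA v A) w (cr w x)) (hB : LC (FA v B) w (cr w x)) : LC (FA v C) w (cr w x) := by
  obtain ⟨a, εa, ha, ha2⟩ := hA
  obtain ⟨b, εb, hb, hb2⟩ := hB
  obtain ⟨ε, hε, h1⟩ := heights_open isOpen_PP hw hx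
  refine ⟨a * (1 - b), min ε (min εa εb), lt_min hε (lt_min ha hb), ?_⟩
  filter_upwards [hrel, ha2, hb2] with q k1 k2 k3 k4
  rw [k1 (h1 q (k4.trans_le (min_le_left _ _))),
    k2 (k4.trans_le ((min_le_right _ _).trans (min_le_left _ _))),
    k3 (k4.trans_le ((min_le_right _ _).trans (min_le_right _ _)))]

/-- a strictly increasing tuple in a dense set -/
theorem exists_tuple {D : Set ℝ} (hD : Dense D) {a b : ℝ} (hab : a < b) (m : ℕ) :
    ∃ τ : Fin (m + 1) → D, StrictMono τ ∧ ∀ i, a < τ i ∧ (τ i : ℝ) < b := by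
  set h : ℝ := (b - a) / (m + 1) with hh
  have hh0 : 0 < h := by rw [hh]; apply div_pos (by linarith); positivity
  have hmh : ((m : ℝ) + 1) * h = b - a := by rw [hh]; field_simp
  have h1 : ∀ i : Fin (m + 1), ∃ t ∈ D, a + i * h < t ∧ t < a + (i + 1) * h := by
    intro i
    obtain ⟨t, ht, ht2⟩ := hD.exists_between (show a + i * h < a + (i + 1) * h by nlinarith)
    exact ⟨t, ht, ht2.1, ht2.2⟩
  choose t ht1 ht2 ht3 using h1
  have hle : ∀ i j : ℕ, i + 1 ≤ j → a + ((i : ℝ) + 1) * h ≤ a + (j : ℝ) * h := by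
    intro i j hij
    have : ((i : ℝ) + 1) ≤ j := by exact_mod_cast hij
    have := mul_le_mul_of_nonneg_right this hh0.le
    linarith
  refine ⟨fun i => ⟨t i, ht1 i⟩, ?_, fun i => ⟨?_, ?_⟩⟩
  · intro i j hij
    change t i < t j
    have h2 : (i : ℕ) + 1 ≤ (j : ℕ) := hij
    have := hle _ _ h2
    have h3 := ht3 i
    have h4 := ht2 j
    linarith
  · have h2 := ht2 i
    have h3 : (0 : ℝ) ≤ (i : ℕ) * h := by positivity
    change a < t i
    linarith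
  · have h2 := ht3 i
    have h3 : ((i : ℕ) : ℝ) + 1 ≤ (m : ℝ) + 1 := by
      have : (i : ℕ) ≤ m := by have := i.2; omega
      have : ((i : ℕ) : ℝ) ≤ m := by exact_mod_cast this
      linarith
    have h4 := mul_le_mul_of_nonneg_right h3 hh0.le
    change t i < b
    linarith

end Pool.Agent.Lib.Bil
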