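import Pool.Agent.Lib.MP_7bc51d_an.Cont

set_option autoImplicit false

namespace Pool.Agent.Lib.Bil

open Complex MeasureTheory Set Filter
open scoped ComplexConjugate Topology ENNReal

variable {n : ℕ} {v : Fin n → ℂ}

/-- The slices of the function are continuous for almost every direction. -/
def ContSl (v : Fin n → ℂ) (f : ℂ × ℂ → ℝ) (w : ℂ) : Prop :=
  ∃ g : ℂ → ℝ, ContinuousOn g (PP v) ∧ ∀ᵐ x : ℂ, x ∈ PP v → f (x, w) = g x

/-- value of the level set near a point -/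
theorem LCv_level {f : ℂ × ℂ → ℝ} {U : Set ℝ} (hU : IsOpen U) {S : Set ℝ} {c : ℝ}
    (hUS : ∀ t ∈ U, indicator S (fun _ => (1 : ℝ)) t = c)
    {w x : ℂ} (hw : w ≠ 0) {g : ℂ → ℝ} (hg : ContinuousOn g (PP v))
    (hfg : ∀ᵐ x : ℂ, x ∈ PP v → f (x, w) = g x)
    (hFA : ∀ᵐ x : ℂ, x ∈ PP v →
      FA v (f ⁻¹' S) w (cr w x) = indicator (f ⁻¹' S) (fun _ => (1 : ℝ)) (x, w))
    (hx : x ∈ PP v) (hgx : g x ∈ U) : LCv (FA v (f ⁻¹' S)) w (cr w x) c := by
  have ho : IsOpen (PP v ∩ g ⁻¹' U) := hg.isOpen_inter_preimage isOpen_PP hU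
  apply LCv_of_open ho hw ⟨hx, hgx⟩
  filter_upwards [hfg, hFA] with y k1 k2 k3
  rw [k2 k3.1, ← hUS _ k3.2, ← k1 k3.1]
  rfl

theorem bad_countable {f : ℂ × ℂ → ℝ} (hf : Measurable f)
    (H : ∀ᵐ p ∂(volume : Measure (ℂ × ℂ)), HypF v f p) (hc : ∀ᵐ w : ℂ, ContSl v f w)
    (k : Fin n) :
    Set.Countable {t : ℝ | 0 < volume {θ : ℂ | (Out v k θ ∨ Out v k (-θ)) ∧
      ¬ LC (FA v (f ⁻¹' (Ioi t))) θ (cr θ (v k))}} := by
  apply Measure.countable_meas_pos_of_disjoint_iUnion₀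
  · intro t
    apply MeasurableSet.nullMeasurableSet
    have h1 : MeasurableSet {θ : ℂ | Out v k θ} := (isOpen_Out k).measurableSet
    have h2 : MeasurableSet {θ : ℂ | Out v k (-θ)} := h1.preimage measurable_neg
    refine (h1.union h2).inter ?_
    exact ((meas_height (v k)) (measurableSet_LC (LF_FA (hf measurableSet_Ioi))
      (fun w q => FA_zero_or_one _ w q))).compl
  · intro t t' htt'
    have h0 : ∀ᵐ w : ℂ, w ≠ 0 := by simp [ae_iff]
    have hA : ∀ s : ℝ, ∀ᵐ w, ChordAt v (f ⁻¹' (Ioi s)) w := by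
      intro s
      exact chord_of_hyp (by filter_upwards [H] with p hp using hp.hypAt _)
    have key : ∀ s : ℝ, ∀ᵐ w : ℂ, ∀ x ∈ PP v, ∀ g : ℂ → ℝ, ContinuousOn g (PP v) →
        (∀ᵐ x : ℂ, x ∈ PP v → f (x, w) = g x) → g x ≠ s →
        LC (FA v (f ⁻¹' (Ioi s))) w (cr w x) := by
      intro s
      filter_upwards [h0, FA_ae (hA s)] with w g0 g1 x hx g hg hfg hne
      rcases lt_or_gt_of_ne hne with h | h
      · refine ⟨0, LCv_level (U := Iio s) isOpen_Iio ?_ g0 hg hfg g1 hx h⟩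
        intro t ht
        exact indicator_of_notMem (fun h5 => lt_asymm (mem_Iio.1 ht) (mem_Ioi.1 h5)) _
      · refine ⟨1, LCv_level (U := Ioi s) isOpen_Ioi ?_ g0 hg hfg g1 hx h⟩
        intro t ht
        rw [indicator_of_mem ht]
    change volume (_ ∩ _) = 0
    rw [measure_eq_zero_iff_ae_notMem]
    filter_upwards [key t, key t', hc] with θ k1 k2 k3 hmem
    obtain ⟨g, hg, hfg⟩ := k3
    obtain ⟨⟨hout, hn1⟩, _, hn2⟩ := hmem
    obtain ⟨x, hx, hxe⟩ := out_height hout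
    rw [← hxe] at hn1 hn2
    have e1 : g x = t := by
      by_contra hcon
      exact hn1 (k1 x hx g hg hfg hcon)
    have e2 : g x = t' := by
      by_contra hcon
      exact hn2 (k2 x hx g hg hfg hcon)
    exact htt' (e1.symm.trans e2)

/-- There is a countable dense set of values such that some member of every tuple is never attained
on an interval. -/
theorem tuples (hn : 3 ≤ n) (hv : ConvexIndependent ℝ v)
    (hirr : ∀ p k q : Fin n, IsSide v k q → IsSide v p k →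
      ∀ m : ℕ, 0 < m → (((v q - v k) / (v p - v k)) ^ m).im ≠ 0)
    {f : ℂ × ℂ → ℝ} (hf : Measurable f)
    (hcone : ∀ x w : ℂ, ∀ c : ℝ, 0 < c → f (x, w) = f (x, (c : ℂ) * w))
    (H : ∀ᵐ p ∂(volume : Measure (ℂ × ℂ)), HypF v f p)
    (τ : Fin (n + 1 + 1) → ℝ) (hτ : StrictMono τ)
    (hgood : ∀ i, ∀ k : Fin n, volume {θ : ℂ | (Out v k θ ∨ Out v k (-θ)) ∧
      ¬ LC (FA v (f ⁻¹' (Ioi (τ i)))) θ (cr θ (v k))} = 0) :
    ∀ᵐ w : ℂ, ∃ i : Fin (n + 1), ∀ x ∈ PP v,
      ¬ LCv (FA v (f ⁻¹' (Ioc (τ i.castSucc) (τ i.succ)))) w (cr w x) 1 := by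
  have h0 : ∀ᵐ w : ℂ, w ≠ 0 := by simp [ae_iff]
  have hHyp : ∀ S : Set ℝ, ∀ᵐ p ∂(volume : Measure (ℂ × ℂ)), HypAt v (f ⁻¹' S) p := by
    intro S
    filter_upwards [H] with p hp using hp.hypAt _
  have hInv : ∀ S : Set ℝ, Inv v (f ⁻¹' S) := fun S => inv_of_hyp hv (hHyp S)
  have hCh : ∀ S : Set ℝ, ∀ᵐ w, ChordAt v (f ⁻¹' S) w := fun S => chord_of_hyp (hHyp S)
  have hcone' : ∀ S : Set ℝ, ∀ x w : ℂ, ∀ c : ℝ, 0 < c →
      ((x, w) ∈ f ⁻¹' S ↔ (x, (c : ℂ) * w) ∈ f ⁻¹' S) := by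
    intro S x w c hc
    rw [mem_preimage, mem_preimage, hcone x w c hc]
  set B : Fin (n + 1) → Set (ℂ × ℂ) := fun i => f ⁻¹' (Ioc (τ i.castSucc) (τ i.succ)) with hB
  have hBm : ∀ i, MeasurableSet (B i) := fun i => hf measurableSet_Ioc
  have hprev : ∀ k : Fin n, ∃ p, IsSide v p k := by
    intro k
    obtain ⟨p, hp⟩ := (nxt_bijective hn hv).2 k
    exact ⟨p, by have := nxt_side hn hv p; rwa [hp] at this⟩
  have hlab : ∀ i k, (∀ᵐ w : ℂ, NE (FA v (B i)) (v k) (v (nxt hn hv k) - v k) w 0) ∨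
      (∀ᵐ w : ℂ, NE (FA v (B i)) (v k) (v (nxt hn hv k) - v k) w 1) := by
    intro i k
    obtain ⟨p, hp⟩ := hprev k
    refine label_of_set hn hv (hBm i) (hcone' _) (hInv _) (hCh _) (nxt_side hn hv k) hp ?_
      (hirr p k _ (nxt_side hn hv k) hp)
    have hrel := FA_rel (hCh (Ioi (τ i.castSucc))) (hCh (Ioi (τ i.succ)))
      (hCh (Ioc (τ i.castSucc) (τ i.succ))) (fun p => by
        simp only [mem_preimage, mem_Ioc, mem_Ioi, not_lt])
    filter_upwards [h0, hrel, measure_eq_zero_iff_ae_notMem.1 (hgood i.castSucc k),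
      measure_eq_zero_iff_ae_notMem.1 (hgood i.succ k)] with θ g0 g1 g2 g3 hout
    have m1 : LC (FA v (f ⁻¹' (Ioi (τ i.castSucc)))) θ (cr θ (v k)) := by
      by_contra hcon
      exact g2 ⟨hout, hcon⟩
    have m2 : LC (FA v (f ⁻¹' (Ioi (τ i.succ)))) θ (cr θ (v k)) := by
      by_contra hcon
      exact g3 ⟨hout, hcon⟩
    obtain ⟨x, hx, hxe⟩ := out_height hout
    rw [← hxe] at m1 m2 ⊢
    exact LC_diff g0 hx g1 m1 m2
  have hex : ∃ i, ∀ k, ∀ᵐ w : ℂ, NE (FA v (B i)) (v k) (v (nxt hn hv k) - v k) w 0 := by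
    by_contra hcon
    push Not at hcon
    have hk : ∀ i, ∃ k : Fin n, ∀ᵐ w : ℂ, NE (FA v (B i)) (v k) (v (nxt hn hv k) - v k) w 1 := by
      intro i
      obtain ⟨k, hk⟩ := hcon i
      rcases hlab i k with h | h
      · exfalso
        have := h.and_frequently hk
        obtain ⟨w, h1, h2⟩ := this.exists
        exact h2 h1
      · exact ⟨k, h⟩
    choose k hk using hk
    obtain ⟨i, j, hij, heq⟩ := Fintype.exists_ne_map_eq_of_card_lt k (by simp)
    have h1 := hk i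
    have h2 := hk j
    rw [← heq] at h2
    refine label_disjoint hn hv (hBm i) (hBm j) (hCh _) (hCh _) ?_
      (nxt_side hn hv (k i)) h1 h2
    have hdis : B i ∩ B j = ∅ := by
      ext p
      simp only [hB, mem_inter_iff, mem_preimage, mem_Ioc, mem_empty_iff_false, iff_false]
      rintro ⟨⟨a1, a2⟩, a3, a4⟩
      rcases lt_or_gt_of_ne hij with h | h
      · have : τ i.succ ≤ τ j.castSucc := hτ.monotone (by
          rw [Fin.le_def, Fin.val_succ, Fin.val_castSucc]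
          exact h)
        linarith
      · have : τ j.succ ≤ τ i.castSucc := hτ.monotone (by
          rw [Fin.le_def, Fin.val_succ, Fin.val_castSucc]
          exact h)
        linarith
    rw [hdis, empty_inter, measure_empty]
  obtain ⟨i, hi⟩ := hex
  have hE := lemma_E hn hv (ae_goodDir hn hv (hInv _) (hCh (Ioc (τ i.castSucc) (τ i.succ))))
    (one_ne_zero) (fun k => v (nxt hn hv k) - v k)
    (fun k => v_sub_ne hv (nxt_side hn hv k).1) hi
  filter_upwards [hE] with w hw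
  exact ⟨i, hw⟩

theorem slices_const (hn : 3 ≤ n) (hv : ConvexIndependent ℝ v)
    (hirr : ∀ p k q : Fin n, IsSide v k q → IsSide v p k →
      ∀ m : ℕ, 0 < m → (((v q - v k) / (v p - v k)) ^ m).im ≠ 0)
    {f : ℂ × ℂ → ℝ} (hf : Measurable f)
    (hcone : ∀ x w : ℂ, ∀ c : ℝ, 0 < c → f (x, w) = f (x, (c : ℂ) * w))
    (H : ∀ᵐ p ∂(volume : Measure (ℂ × ℂ)), HypF v f p) (hc : ∀ᵐ w : ℂ, ContSl v f w) :
    ∀ᵐ w : ℂ, ∃ c : ℝ, ∀ᵐ x : ℂ, x ∈ PP v → f (x, w) = c := by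
  have h0 : ∀ᵐ w : ℂ, w ≠ 0 := by simp [ae_iff]
  have hCh : ∀ S : Set ℝ, ∀ᵐ w, ChordAt v (f ⁻¹' S) w := fun S =>
    chord_of_hyp (by filter_upwards [H] with p hp using hp.hypAt _)
  set Bad : Set ℝ := ⋃ k : Fin n, {t : ℝ | 0 < volume {θ : ℂ | (Out v k θ ∨ Out v k (-θ)) ∧
      ¬ LC (FA v (f ⁻¹' (Ioi t))) θ (cr θ (v k))}} with hBad
  have hBc : Bad.Countable := countable_iUnion (fun k => bad_countable hf H hc k)
  obtain ⟨D, hDs, hDc, hDd⟩ := (hBc.dense_compl ℝ).exists_countable_dense_subset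
  have hgood : ∀ t ∈ D, ∀ k : Fin n, volume {θ : ℂ | (Out v k θ ∨ Out v k (-θ)) ∧
      ¬ LC (FA v (f ⁻¹' (Ioi t))) θ (cr θ (v k))} = 0 := by
    intro t ht k
    by_contra hcon
    exact hDs ht (mem_iUnion.2 ⟨k, pos_iff_ne_zero.2 hcon⟩)
  have : Countable D := hDc.to_subtype
  have h1 : ∀ᵐ w : ℂ, ∀ τ : Fin (n + 1 + 1) → D, StrictMono τ → ∃ i : Fin (n + 1), ∀ x ∈ PP v,
      ¬ LCv (FA v (f ⁻¹' (Ioc (τ i.castSucc : ℝ) (τ i.succ)))) w (cr w x) 1 := by
    rw [ae_all_iff]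
    intro τ
    by_cases hτ : StrictMono τ
    · filter_upwards [tuples hn hv hirr hf hcone H (fun i => (τ i : ℝ))
        (fun i j hij => hτ hij) (fun i k => hgood _ (τ i).2 k)] with w hw _
      exact hw
    · exact Eventually.of_forall (fun w h => absurd h hτ)
  have h2 : ∀ᵐ w : ℂ, ∀ p : D × D, ∀ᵐ x : ℂ, x ∈ PP v →
      FA v (f ⁻¹' (Ioc (p.1 : ℝ) p.2)) w (cr w x) =
        indicator (f ⁻¹' (Ioc (p.1 : ℝ) p.2)) (fun _ => (1 : ℝ)) (x, w) := by
    rw [ae_all_iff]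
    intro p
    exact FA_ae (hCh _)
  filter_upwards [h0, h1, h2, hc] with w g0 g1 g2 g3
  obtain ⟨g, hg, hfg⟩ := g3
  have hle : ∀ x ∈ PP v, ∀ y ∈ PP v, g y ≤ g x := by
    intro x hx y hy
    by_contra hlt
    push Not at hlt
    obtain ⟨τ, hτ, hab⟩ := exists_tuple hDd hlt (n + 1)
    obtain ⟨i, hi⟩ := g1 τ hτ
    have hlt2 : (τ i.castSucc : ℝ) < τ i.succ := hτ (Fin.castSucc_lt_succ)
    have hpre : IsPreconnected (PP v) := convex_PP.isPreconnected
    have hmid := hpre.intermediate_value hx hy hg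
    obtain ⟨z, hz, hgz⟩ := hmid (show ((τ i.castSucc : ℝ) + τ i.succ) / 2 ∈ Icc (g x) (g y) by
      have a1 := (hab i.castSucc).1
      have a2 := (hab i.succ).2
      have a3 := (hab i.succ).1
      have a4 := (hab i.castSucc).2
      constructor <;> linarith)
    refine hi z hz (LCv_level (U := Ioo (τ i.castSucc : ℝ) (τ i.succ)) isOpen_Ioo ?_ g0 hg hfg
      (g2 (τ i.castSucc, τ i.succ)) hz ?_)
    · intro t ht
      rw [indicator_of_mem (Ioo_subset_Ioc_self ht)]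
    · rw [hgz]
      constructor <;> linarith
  obtain ⟨y, hy⟩ := PP_nonempty hn hv
  refine ⟨g y, ?_⟩
  filter_upwards [hfg] with x hx hxP
  rw [hx hxP]
  exact le_antisymm (hle y hy x hxP) (hle x hxP y hy)

theorem cont_const (hn : 3 ≤ n) (hv : ConvexIndependent ℝ v)
    (hirr : ∀ p k q : Fin n, IsSide v k q → IsSide v p k →
      ∀ m : ℕ, 0 < m → (((v q - v k) / (v p - v k)) ^ m).im ≠ 0)
    {f : ℂ × ℂ → ℝ} (hf : Measurable f)
    (hcone : ∀ x w : ℂ, ∀ c : ℝ, 0 < c → f (x, w) = f (x, (c : ℂ) * w))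
    (H : ∀ᵐ p ∂(volume : Measure (ℂ × ℂ)), HypF v f p) (hc : ∀ᵐ w : ℂ, ContSl v f w) :
    ∃ c : ℝ, ∀ᵐ p : ℂ × ℂ, p ∈ DD v → f p = c := by
  have hsl := slices_const hn hv hirr hf hcone H hc
  have hdich : ∀ U : Set ℝ, MeasurableSet U →
      volume (f ⁻¹' U ∩ DD v) = 0 ∨ volume (DD v \ f ⁻¹' U) = 0 := by
    intro U hU
    obtain ⟨p, hp⟩ := (nxt_bijective hn hv).2 (⟨0, by omega⟩ : Fin n)
    set k : Fin n := ⟨0, by omega⟩ with hk
    have hpk : IsSide v p k := by have := nxt_side hn hv p; rwa [hp] at this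
    have hkq := nxt_side hn hv k
    have hm : MeasurableSet (f ⁻¹' U) := hf hU
    have hHyp : ∀ᵐ p ∂(volume : Measure (ℂ × ℂ)), HypAt v (f ⁻¹' U) p := by
      filter_upwards [H] with p hp using hp.hypAt _
    refine final hn hv hm (fun x w c hc => ?_) (inv_of_hyp hv hHyp) ?_ hkq hpk ?_
    · rw [mem_preimage, mem_preimage, hcone x w c hc]
    · filter_upwards [hsl] with w hw _
      obtain ⟨c, hc⟩ := hw
      by_cases hcU : c ∈ U
      · left
        rw [measure_eq_zero_iff_ae_notMem]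
        filter_upwards [hc] with x hx hmem
        exact hmem.2 (by rw [mem_preimage, hx hmem.1]; exact hcU)
      · right
        rw [measure_eq_zero_iff_ae_notMem]
        filter_upwards [hc] with x hx hmem
        have := hmem.2
        rw [mem_preimage, hx hmem.1] at this
        exact hcU this
    · intro m hm
      have h1 := hirr p k _ hkq hpk m hm
      have e : (v (nxt hn hv k) - v k) / (v k - v p) =
          -((v (nxt hn hv k) - v k) / (v p - v k)) := by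
        rw [← neg_sub (v p) (v k), div_neg]
      rw [e, neg_pow]
      rcases neg_one_pow_eq_or ℂ m with h2 | h2
      · rw [h2, one_mul]; exact h1
      · rw [h2, neg_one_mul, Complex.neg_im]; exact neg_ne_zero.2 h1
  have hex := exists_eventuallyEq_const_of_forall_separating (l := ae (volume.restrict (DD v)))
    (f := f) (p := MeasurableSet) (fun U hU => by
      rcases hdich U hU with h | h
      · right
        rw [Filter.Eventually, mem_ae_iff]
        have : {x | f x ∉ U}ᶜ = f ⁻¹' U := by ext x; simp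
        rw [this, Measure.restrict_apply (hf hU)]
        exact h
      · left
        rw [Filter.Eventually, mem_ae_iff]
        have : {x | f x ∈ U}ᶜ = (f ⁻¹' U)ᶜ := rfl
        rw [this, Measure.restrict_apply (hf hU).compl]
        rw [inter_comm]
        exact h)
  obtain ⟨c, hc⟩ := hex
  exact ⟨c, (ae_restrict_iff' measurableSet_DD).1 hc⟩

end Pool.Agent.Lib.Bil
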