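import Pool.Agent.Lib.MP_7bc51d_an.Strip2

set_option autoImplicit false

namespace Pool.Agent.Lib.Bil

open Complex MeasureTheory Set Filter
open scoped ComplexConjugate Topology ENNReal

variable {n : ℕ} {v : Fin n → ℂ}

theorem cross_after {s : Fin n × Fin n} (hne : v s.2 - v s.1 ≠ 0) {u : ℂ} {Q : ℝ}
    (h1 : cr u (v s.1) < Q) (h2 : Q < cr u (v s.2)) :
    cr (rl (v s.2 - v s.1) u) (v s.2) < rfh v s u Q ∧
      rfh v s u Q < cr (rl (v s.2 - v s.1) u) (v s.1) := by
  have e1 : cr (rl (v s.2 - v s.1) u) (v s.2) =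
      cr (rl (v s.2 - v s.1) u) (v s.1) + cr u (v s.1) - cr u (v s.2) := by
    have h3 : cr (rl (v s.2 - v s.1) u) (v s.2 - v s.1) = - cr u (v s.2 - v s.1) :=
      cr_rl_left hne u
    rw [cr_sub_right, cr_sub_right] at h3
    linarith
  unfold rfh
  constructor
  · rw [e1]; linarith
  · linarith

/-- Codes realised from a vertex are determined by the line they produce. -/
theorem code_unique (hn : 3 ≤ n) (hv : ConvexIndependent ℝ v) {k : Fin n} :
    ∀ (g g' : List (Fin n × Fin n)) (θ θ' : ℂ), Out v k θ → Out v k θ' →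
      Rz v g (v k) θ → Rz v g' (v k) θ' → Lo v g θ = Lo v g' θ' →
      cr (Lo v g θ) (Fo v g (v k)) = cr (Lo v g' θ') (Fo v g' (v k)) → g = g' := by
  intro g
  induction g with
  | nil =>
    intro g' θ θ' h1 h2 h3 h4 h5 h6
    cases g' with
    | nil => rfl
    | cons s' g' =>
      exfalso
      obtain ⟨r1, r2, r3, r4⟩ := h4
      have hne := v_sub_ne hv r2.1
      obtain ⟨c1, c2⟩ := cross_after hne r3 r4
      change θ = rl (v s'.2 - v s'.1) (Lo v g' θ') at h5
      change cr θ (v k) = cr (rl (v s'.2 - v s'.1) (Lo v g' θ')) (RR v s'.1 s'.2 (Fo v g' (v k)))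
        at h6
      rw [rfh_eq s' hne] at h6
      rw [← h5, ← h6] at c1 c2
      exact vertex_not_enter hv h1 r2 c1 c2
  | cons s g ih =>
    intro g' θ θ' h1 h2 h3 h4 h5 h6
    cases g' with
    | nil =>
      exfalso
      obtain ⟨r1, r2, r3, r4⟩ := h3
      have hne := v_sub_ne hv r2.1
      obtain ⟨c1, c2⟩ := cross_after hne r3 r4
      change rl (v s.2 - v s.1) (Lo v g θ) = θ' at h5
      change cr (rl (v s.2 - v s.1) (Lo v g θ)) (RR v s.1 s.2 (Fo v g (v k))) = cr θ' (v k) at h6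
      rw [rfh_eq s hne] at h6
      rw [h5, h6] at c1 c2
      exact vertex_not_enter hv h2 r2 c1 c2
    | cons s' g' =>
      obtain ⟨r1, r2, r3, r4⟩ := h3
      obtain ⟨q1, q2, q3, q4⟩ := h4
      have hne := v_sub_ne hv r2.1
      have hne' := v_sub_ne hv q2.1
      obtain ⟨c1, c2⟩ := cross_after hne r3 r4
      obtain ⟨d1, d2⟩ := cross_after hne' q3 q4
      change rl (v s.2 - v s.1) (Lo v g θ) = rl (v s'.2 - v s'.1) (Lo v g' θ') at h5
      change cr (rl (v s.2 - v s.1) (Lo v g θ)) (RR v s.1 s.2 (Fo v g (v k))) =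
        cr (rl (v s'.2 - v s'.1) (Lo v g' θ')) (RR v s'.1 s'.2 (Fo v g' (v k))) at h6
      rw [rfh_eq s hne, rfh_eq s' hne'] at h6
      rw [← h5, ← h6] at d1 d2
      have hs : s = s' := enter_unique hn hv r2 q2 c1 c2 d1 d2
      subst hs
      have h7 : Lo v g θ = Lo v g' θ' := by
        have := congrArg (rl (v s.2 - v s.1)) h5
        rwa [rl_rl hne, rl_rl hne] at this
      have h8 : cr (Lo v g θ) (Fo v g (v k)) = cr (Lo v g' θ') (Fo v g' (v k)) := by
        unfold rfh at h6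
        rw [h7] at h6 ⊢
        linarith
      rw [ih g' θ θ' h1 h2 r1 q1 h7 h8]

/-- Arcs starting at a vertex. -/
theorem exists_arcs_vertex (hn : 3 ≤ n) (hv : ConvexIndependent ℝ v) {k : Fin n} {θ : ℂ}
    (hθ : θ ≠ 0) (hfree : FwdFree v (v k) θ) (hout : Out v k θ) :
    ∃ a : ℕ → Arc v (v k) θ, (a 0).g = [] ∧ (a 0).T = 0 ∧
      (∀ j, (a (j + 1)).g = (a j).s :: (a j).g) ∧ (∀ j, (a (j + 1)).T = (a j).T') := by
  obtain ⟨ε, hε, hmem⟩ := hout
  obtain ⟨A0, h1, h2⟩ := arc_from hn hv hθ hfree (g := []) (by intro s hs; simp at hs)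
    (T := 0) (τ₀ := ε) hε hε.le (fun τ h1 h2 => hmem τ h1 h2)
  choose nx hnx1 hnx2 using fun a => next_arc hn hv hθ hfree (x := v k) a
  refine ⟨fun k => nx^[k] A0, h1, h2, ?_, ?_⟩
  · intro k
    simp only [Function.iterate_succ', Function.comp]
    exact hnx1 _
  · intro k
    simp only [Function.iterate_succ', Function.comp]
    exact hnx2 _

theorem isOpen_Out (k : Fin n) :
    IsOpen {θ : ℂ | Out v k θ} := by
  have h : {θ : ℂ | Out v k θ} = ⋃ N : ℕ, {θ : ℂ | v k + ((1 / ((N : ℝ) + 1) : ℝ) : ℂ) * θ ∈ PP v} := by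
    ext θ
    simp only [mem_ofPred_eq, mem_iUnion]
    constructor
    · rintro ⟨ε, hε, hmem⟩
      obtain ⟨N, hN⟩ := exists_nat_one_div_lt hε
      exact ⟨N, hmem _ (by positivity) hN.le⟩
    · rintro ⟨N, hN⟩
      refine ⟨1 / ((N : ℝ) + 1), by positivity, fun t ht ht2 => ?_⟩
      rcases eq_or_lt_of_le ht2 with rfl | ht3
      · exact hN
      apply convex_KK.openSegment_self_interior_subset_interior (vert_mem_KK k) hN
      rw [openSegment_eq_image]
      refine ⟨t * ((N : ℝ) + 1), ⟨by positivity, ?_⟩, ?_⟩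
      · rw [lt_div_iff₀ (by positivity)] at ht3; exact ht3
      · simp only [real_smul]
        have hN1 : ((N : ℂ) + 1) ≠ 0 := by
          have : ((N : ℝ) + 1) ≠ 0 := by positivity
          exact_mod_cast this
        push_cast
        field_simp
        ring
  rw [h]
  exact isOpen_iUnion (fun N => isOpen_PP.preimage (by fun_prop))

end Pool.Agent.Lib.Bil
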