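import Pool.Agent.Lib.MP_7bc51d_an.Poly

set_option autoImplicit false

namespace Pool.Agent.Lib.Bil

open Complex MeasureTheory Set
open scoped ComplexConjugate Topology ENNReal

variable {n : ℕ} {v : Fin n → ℂ}

theorem side_point_mem_KK {i j : Fin n} {s : ℝ} (h0 : 0 ≤ s) (h1 : s ≤ 1) :
    v i + (s : ℂ) * (v j - v i) ∈ KK v := by
  have := convex_KK (v := v) (vert_mem_KK i) (vert_mem_KK j) (a := 1 - s) (b := s)
    (by linarith) h0 (by ring)
  convert this using 1
  simp only [real_smul, ofReal_sub, ofReal_one]; ring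

/-- Uniqueness of the exit side. -/
theorem exit_unique (hv : ConvexIndependent ℝ v) {i j k l : Fin n} (hij : IsSide v i j)
    (hkl : IsSide v k l) {x w : ℂ} (h1 : cr w (v i - x) < 0) (h2 : 0 < cr w (v j - x))
    (h3 : cr w (v k - x) < 0) (h4 : 0 < cr w (v l - x)) : i = k ∧ j = l := by
  have hw : w ≠ 0 := by rintro rfl; simp [cr_zero_left] at h2
  have crossing : ∀ {i j : Fin n}, IsSide v i j → cr w (v i - x) < 0 → 0 < cr w (v j - x) →
      ∃ s t : ℝ, 0 < s ∧ s < 1 ∧ v i + (s : ℂ) * (v j - v i) = x + (t : ℂ) * w ∧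
        cr (v j - v i) w < 0 := by
    intro i j _ h1 h2
    have hpos : 0 < cr w (v j - x) - cr w (v i - x) := by linarith
    have ha : cr w (v j - v i) = cr w (v j - x) - cr w (v i - x) := by
      rw [← cr_sub_right]; congr 1; ring
    set s := - cr w (v i - x) / (cr w (v j - x) - cr w (v i - x)) with hs
    have hz : cr w (v i + (s : ℂ) * (v j - v i) - x) = 0 := by
      have : v i + (s : ℂ) * (v j - v i) - x = (v i - x) + (s : ℂ) * (v j - v i) := by ring
      rw [this, cr_add_right, cr_smul_right, ha, hs]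
      field_simp; ring
    obtain ⟨t, ht⟩ := (cr_eq_zero_iff hw).1 hz
    refine ⟨s, t, ?_, ?_, ?_, ?_⟩
    · rw [hs]; apply div_pos <;> linarith
    · rw [hs, div_lt_one hpos]; linarith
    · rw [← ht]; ring
    · rw [cr_swap, ha]; linarith
  obtain ⟨s, t, hs0, hs1, hst, ho⟩ := crossing hij h1 h2
  obtain ⟨s', t', hs0', hs1', hst', ho'⟩ := crossing hkl h3 h4
  have hK1 : v i + (s : ℂ) * (v j - v i) ∈ KK v := side_point_mem_KK hs0.le hs1.le
  have hK2 : v k + (s' : ℂ) * (v l - v k) ∈ KK v := side_point_mem_KK hs0'.le hs1'.le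
  have e1 : t' ≤ t := by
    have := hij.cr_nonneg hK2
    have h5 : v k + (s' : ℂ) * (v l - v k) - v i =
        (s : ℂ) * (v j - v i) + ((t' - t : ℝ) : ℂ) * w := by
      rw [ofReal_sub]; linear_combination hst' - hst
    rw [h5, cr_add_right, cr_smul_right, cr_smul_right, cr_self] at this
    nlinarith
  have e2 : t ≤ t' := by
    have := hkl.cr_nonneg hK1
    have h5 : v i + (s : ℂ) * (v j - v i) - v k =
        (s' : ℂ) * (v l - v k) + ((t - t' : ℝ) : ℂ) * w := by
      rw [ofReal_sub]; linear_combination hst - hst'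
    rw [h5, cr_add_right, cr_smul_right, cr_smul_right, cr_self] at this
    nlinarith
  have e3 : t = t' := le_antisymm e2 e1
  subst e3
  have hcc : v i + (s : ℂ) * (v j - v i) = v k + (s' : ℂ) * (v l - v k) := by rw [hst, hst']
  have hz : (1 - s) * cr (v l - v k) (v i - v k) + s * cr (v l - v k) (v j - v k) = 0 := by
    have h5 : v i + (s : ℂ) * (v j - v i) - v k = (s' : ℂ) * (v l - v k) := by
      rw [hcc]; ring
    have h6 : v i + (s : ℂ) * (v j - v i) - v k =
        ((1 - s : ℝ) : ℂ) * (v i - v k) + (s : ℂ) * (v j - v k) := by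
      rw [ofReal_sub, ofReal_one]; ring
    have h7 : cr (v l - v k) (v i + (s : ℂ) * (v j - v i) - v k) = 0 := by
      rw [h5, cr_smul_right, cr_self, mul_zero]
    rw [h6, cr_add_right, cr_smul_right, cr_smul_right] at h7
    exact h7
  have n1 := hkl.cr_nonneg_vert i
  have n2 := hkl.cr_nonneg_vert j
  have z1 : cr (v l - v k) (v i - v k) = 0 := by
    nlinarith [mul_nonneg (sub_nonneg.2 hs1.le) n1, mul_nonneg hs0.le n2]
  have z2 : cr (v l - v k) (v j - v k) = 0 := by
    nlinarith [mul_nonneg (sub_nonneg.2 hs1.le) n1, mul_nonneg hs0.le n2]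
  have m1 : i = k ∨ i = l := by
    by_contra hcon
    push Not at hcon
    have := hkl.2 i hcon.1 hcon.2
    linarith
  have m2 : j = k ∨ j = l := by
    by_contra hcon
    push Not at hcon
    have := hkl.2 j hcon.1 hcon.2
    linarith
  rcases m1 with m1 | m1
  · rcases m2 with m2 | m2
    · exact absurd (m1.trans m2.symm) hij.1
    · exact ⟨m1, m2⟩
  · exfalso
    rw [m1] at h1
    linarith

/-- The line through an interior point meets the exit side at a positive time. -/
theorem exit_point (hv : ConvexIndependent ℝ v) {i j : Fin n} (hij : IsSide v i j)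
    {x w : ℂ} (hx : x ∈ PP v) (h1 : cr w (v i - x) < 0) (h2 : 0 < cr w (v j - x)) :
    ∃ τ s : ℝ, 0 < τ ∧ 0 < s ∧ s < 1 ∧ x + (τ : ℂ) * w = v i + (s : ℂ) * (v j - v i) ∧
      cr (v j - v i) w < 0 := by
  have hw : w ≠ 0 := by rintro rfl; simp [cr_zero_left] at h2
  have hpos : 0 < cr w (v j - x) - cr w (v i - x) := by linarith
  have ha : cr w (v j - v i) = cr w (v j - x) - cr w (v i - x) := by
    rw [← cr_sub_right]; congr 1; ring
  set s := - cr w (v i - x) / (cr w (v j - x) - cr w (v i - x)) with hs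
  have hz : cr w (v i + (s : ℂ) * (v j - v i) - x) = 0 := by
    have : v i + (s : ℂ) * (v j - v i) - x = (v i - x) + (s : ℂ) * (v j - v i) := by ring
    rw [this, cr_add_right, cr_smul_right, ha, hs]
    field_simp; ring
  obtain ⟨t, ht⟩ := (cr_eq_zero_iff hw).1 hz
  have ho : cr (v j - v i) w < 0 := by rw [cr_swap, ha]; linarith
  refine ⟨t, s, ?_, ?_, ?_, ?_, ho⟩
  · have h3 := hij.cr_pos hv hx
    have h4 : x - v i = (s : ℂ) * (v j - v i) - (t : ℂ) * w := by rw [← ht]; ring
    rw [h4, cr_sub_right, cr_smul_right, cr_smul_right, cr_self] at h3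
    by_contra hcon
    push Not at hcon
    nlinarith
  · rw [hs]; apply div_pos <;> linarith
  · rw [hs, div_lt_one hpos]; linarith
  · rw [← ht]; ring

theorem exists_exit (x w : ℂ) (hx : x ∈ PP v) (hw : w ≠ 0) :
    ∃ τ : ℝ, 0 < τ ∧ x + (τ : ℂ) * w ∈ KK v ∧ x + (τ : ℂ) * w ∉ PP v ∧
      ∀ s : ℝ, 0 ≤ s → s < τ → x + (s : ℂ) * w ∈ PP v := by
  have hcont : Continuous (fun s : ℝ => x + (s : ℂ) * w) := by fun_prop
  set S : Set ℝ := {s | 0 ≤ s ∧ x + (s : ℂ) * w ∉ PP v} with hS
  have hclosed : IsClosed S := by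
    apply IsClosed.inter isClosed_Ici
    exact (isOpen_PP.preimage hcont).isClosed_compl
  have hne : S.Nonempty := by
    obtain ⟨R, hR⟩ := (isBounded_PP (v := v)).subset_ball x
    refine ⟨(|R| + 1) / ‖w‖, by positivity, fun hmem => ?_⟩
    have h1 := hR hmem
    rw [Metric.mem_ball, dist_eq_norm] at h1
    have hw' : ‖w‖ ≠ 0 := by simpa using hw
    have h2 : ‖x + (((|R| + 1) / ‖w‖ : ℝ) : ℂ) * w - x‖ = |R| + 1 := by
      rw [add_sub_cancel_left, norm_mul, norm_real, Real.norm_eq_abs, abs_of_nonneg (by positivity)]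
      field_simp
    rw [h2] at h1
    have := le_abs_self R
    linarith
  have hbdd : BddBelow S := ⟨0, fun s hs => hs.1⟩
  have hmem := hclosed.csInf_mem hne hbdd
  have hlt : ∀ s : ℝ, 0 ≤ s → s < sInf S → x + (s : ℂ) * w ∈ PP v := by
    intro s hs0 hs1
    by_contra hcon
    exact absurd (csInf_le hbdd ⟨hs0, hcon⟩) (not_le.2 hs1)
  have hpos : 0 < sInf S := by
    refine lt_of_le_of_ne hmem.1 (fun h => ?_)
    have := hmem.2
    rw [← h] at this
    simp at this
    exact this hx
  refine ⟨sInf S, hpos, ?_, hmem.2, hlt⟩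
  have hcl : x + ((sInf S : ℝ) : ℂ) * w ∈ closure (PP v) := by
    have h1 : Filter.Tendsto (fun s : ℝ => x + (s : ℂ) * w) (𝓝[<] (sInf S))
        (𝓝 (x + ((sInf S : ℝ) : ℂ) * w)) := (hcont.tendsto _).mono_left nhdsWithin_le_nhds
    refine mem_closure_of_tendsto h1 ?_
    have h2 : ∀ᶠ s in 𝓝[<] (sInf S), 0 < s := by
      apply nhdsWithin_le_nhds
      exact lt_mem_nhds hpos
    filter_upwards [h2, self_mem_nhdsWithin] with s hs0 hs1
    exact hlt s hs0.le hs1
  exact closure_minimal PP_sub_KK isClosed_KK hcl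

/-- Going inwards from a point in the relative interior of a side. -/
theorem inward (hn : 3 ≤ n) (hv : ConvexIndependent ℝ v) {i j : Fin n} (hij : IsSide v i j)
    {s : ℝ} (h0 : 0 < s) (h1 : s < 1) {u : ℂ} (hu : 0 < cr (v j - v i) u) :
    ∃ ε : ℝ, 0 < ε ∧ ∀ t : ℝ, 0 < t → t ≤ ε →
      v i + (s : ℂ) * (v j - v i) + (t : ℂ) * u ∈ PP v := by
  set b := v i + (s : ℂ) * (v j - v i) with hb
  have hbK : b ∈ KK v := side_point_mem_KK h0.le h1.le
  have hbcl : b ∈ closure (PP v) := by
    unfold PP
    rw [convex_KK.closure_interior_eq_closure_of_nonempty_interior (PP_nonempty hn hv)]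
    exact subset_closure hbK
  by_cases hex : ∃ ε : ℝ, 0 < ε ∧ b + (ε : ℂ) * u ∈ PP v
  · obtain ⟨ε, hε, hmem⟩ := hex
    refine ⟨ε, hε, fun t ht0 ht1 => ?_⟩
    rcases eq_or_lt_of_le ht1 with rfl | hlt
    · exact hmem
    · have hseg := convex_PP.openSegment_closure_interior_subset_interior hbcl
        (by rw [isOpen_PP.interior_eq]; exact hmem : b + (ε : ℂ) * u ∈ interior (PP v))
      have : b + (t : ℂ) * u ∈ interior (PP v) := by
        apply hseg
        refine ⟨1 - t / ε, t / ε, ?_, by positivity, by ring, ?_⟩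
        · have : t / ε < 1 := by rw [div_lt_one hε]; exact hlt
          linarith
        · simp only [real_smul]
          have h5 : ((t / ε : ℝ) : ℂ) * ε = t := by
            rw [← ofReal_mul]; congr 1; field_simp
          have h6 : ((1 - t / ε : ℝ) : ℂ) = 1 - ((t / ε : ℝ) : ℂ) := by
            rw [ofReal_sub, ofReal_one]
          rw [h6]
          linear_combination u * h5
      exact interior_subset this
  · exfalso
    push Not at hex
    -- separate the open polygon from the ray
    set T : Set ℂ := {z | ∃ t : ℝ, 0 < t ∧ z = b + (t : ℂ) * u} with hT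
    have hTconv : Convex ℝ T := by
      rintro _ ⟨t1, ht1, rfl⟩ _ ⟨t2, ht2, rfl⟩ p q hp hq hpq
      refine ⟨p * t1 + q * t2, ?_, ?_⟩
      · rcases eq_or_lt_of_le hp with rfl | hp
        · have : q = 1 := by linarith
          subst this; simpa using ht2
        · have := mul_pos hp ht1
          have := mul_nonneg hq ht2.le
          linarith
      · simp only [real_smul, ofReal_add, ofReal_mul]
        have : (p : ℂ) + q = 1 := by rw [← ofReal_add, hpq, ofReal_one]
        linear_combination b * this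
    have hdisj : Disjoint (PP v) T := by
      rw [Set.disjoint_left]
      rintro z hz ⟨t, ht, rfl⟩
      exact hex t ht hz
    obtain ⟨f, c, hfP, hfT⟩ := geometric_hahn_banach_open convex_PP isOpen_PP hTconv hdisj
    have hfx : ∀ x : ℂ, f x = x.re * f 1 + x.im * f I := by
      intro x
      conv_lhs => rw [← re_add_im x, map_add]
      have h1 : ((x.re : ℝ) : ℂ) = (x.re : ℝ) • (1 : ℂ) := by simp
      have h2 : ((x.im : ℝ) : ℂ) * I = (x.im : ℝ) • I := by simp
      rw [h1, h2, map_smul, map_smul]; simp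
    have hfK : ∀ x ∈ KK v, f x ≤ c := by
      intro x hx
      have hxcl : x ∈ closure (PP v) := by
        unfold PP
        rw [convex_KK.closure_interior_eq_closure_of_nonempty_interior (PP_nonempty hn hv)]
        exact subset_closure hx
      exact closure_minimal (fun y hy => (hfP y hy).le) (isClosed_Iic.preimage f.continuous) hxcl
    have hfmul : ∀ (t : ℝ) (z : ℂ), f ((t : ℂ) * z) = t * f z := by
      intro t z
      have : (t : ℂ) * z = t • z := by simp
      rw [this, map_smul]; simp
    -- f b = c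
    have hfb : c ≤ f b := by
      have h5 : Filter.Tendsto (fun t : ℝ => f (b + (t : ℂ) * u)) (𝓝[>] 0) (𝓝 (f b)) := by
        have h6 : Continuous (fun t : ℝ => f (b + (t : ℂ) * u)) := by fun_prop
        have h7 := h6.tendsto 0
        simp only [ofReal_zero, zero_mul, add_zero] at h7
        exact h7.mono_left nhdsWithin_le_nhds
      refine ge_of_tendsto h5 ?_
      filter_upwards [self_mem_nhdsWithin] with t ht
      exact hfT _ ⟨t, ht, rfl⟩
    have hfi := hfK _ (vert_mem_KK (v := v) i)
    have hfj := hfK _ (vert_mem_KK (v := v) j)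
    have hfb2 : f b = (1 - s) * f (v i) + s * f (v j) := by
      have : b = ((1 - s : ℝ) : ℂ) * v i + (s : ℂ) * v j := by
        rw [hb, ofReal_sub, ofReal_one]; ring
      rw [this, map_add, hfmul, hfmul]
    have hfi' : f (v i) = c := by nlinarith
    have hfj' : f (v j) = c := by nlinarith
    have hfb' : f b = c := by rw [hfb2, hfi', hfj']; ring
    -- f is minus a positive multiple of cr
    have hfa : f (v j - v i) = 0 := by rw [map_sub, hfi', hfj']; ring
    obtain ⟨x0, hx0⟩ := PP_nonempty hn hv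
    have hfx0 := hfP x0 hx0
    have hcx0 := hij.cr_pos hv hx0
    have hfu : 0 ≤ f u := by
      have := hfT _ ⟨1, one_pos, rfl⟩
      rw [map_add, hfmul, hfb'] at this
      linarith
    -- linear algebra in the plane
    have hfx0' : f (x0 - v i) < 0 := by rw [map_sub, hfi']; linarith
    have key : f u * cr (v j - v i) (x0 - v i) = f (x0 - v i) * cr (v j - v i) u := by
      rw [hfx] at hfa
      rw [hfx u, hfx (x0 - v i)]
      unfold cr
      linear_combination (u.re * (x0 - v i).im - u.im * (x0 - v i).re) * hfa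
    have l1 : 0 ≤ f u * cr (v j - v i) (x0 - v i) := mul_nonneg hfu hcx0.le
    have l2 : f (x0 - v i) * cr (v j - v i) u < 0 := mul_neg_of_neg_of_pos hfx0' hu
    linarith

end Pool.Agent.Lib.Bil
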