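import Pool.Agent.Lib.MP_7bc51d_an.Local2D

set_option autoImplicit false

namespace Pool.Agent.Lib.Bil

open Complex MeasureTheory Set Filter
open scoped ComplexConjugate Topology ENNReal

variable {n : ℕ} {v : Fin n → ℂ}

/-- Points which have a ball of radius `r` with a common history of length `m`. -/
def WW (v : Fin n → ℂ) (h : ℝ) (m : ℕ) (r : ℝ) : Set (ℂ × ℂ) :=
  {p | ∃ u : List (Option (Fin n × Fin n)), u.length = m ∧ Metric.ball p r ⊆ OO v h u}

theorem isClosed_ball_sub {X : Type*} [PseudoMetricSpace X] (O : Set X) (r : ℝ) :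
    IsClosed {p : X | Metric.ball p r ⊆ O} := by
  rw [← isOpen_compl_iff]
  have : {p : X | Metric.ball p r ⊆ O}ᶜ = ⋃ q ∈ Oᶜ, Metric.ball q r := by
    ext p
    simp only [mem_compl_iff, mem_ofPred_eq, mem_iUnion, Set.not_subset]
    constructor
    · rintro ⟨q, hq1, hq2⟩
      exact ⟨q, hq2, Metric.mem_ball_comm.1 hq1⟩
    · rintro ⟨q, hq1, hq2⟩
      exact ⟨q, Metric.mem_ball_comm.1 hq2, hq1⟩
  rw [this]
  exact isOpen_biUnion (fun q _ => Metric.isOpen_ball)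

theorem measurableSet_WW (h : ℝ) (m : ℕ) (r : ℝ) : MeasurableSet (WW v h m r) := by
  have : WW v h m r = ⋃ u : {u : List (Option (Fin n × Fin n)) // u.length = m},
      {p | Metric.ball p r ⊆ OO v h u.1} := by
    ext p
    simp only [WW, mem_ofPred_eq, mem_iUnion, Subtype.exists, exists_prop]
  rw [this]
  exact MeasurableSet.iUnion (fun u => (isClosed_ball_sub _ r).measurableSet)

/-- The set on which the transverse displacement is seen. -/
def IS (v : Fin n → ℂ) (A : Set (ℂ × ℂ)) (k m l : ℕ) (δ : ℝ) : Set (ℂ × ℂ) :=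
  {p | p ∈ DD v ∧ p ∈ WW v (((k : ℝ) + 1) / m) m (1 / ((l : ℝ) + 1)) ∧
    ¬ (p ∈ A ↔ (p.1 + (((k : ℝ) + 1 : ℝ) : ℂ) * (cexp (I * (-δ : ℝ)) - 1) * p.2, p.2) ∈ A)}

theorem measurableSet_IS {A : Set (ℂ × ℂ)} (hA : MeasurableSet A) (k m l : ℕ) (δ : ℝ) :
    MeasurableSet (IS v A k m l δ) := by
  set f : ℂ × ℂ → ℂ × ℂ := fun p =>
    (p.1 + (((k : ℝ) + 1 : ℝ) : ℂ) * (cexp (I * (-δ : ℝ)) - 1) * p.2, p.2) with hf
  have h1 : MeasurableSet (f ⁻¹' A) :=
    hA.preimage (Continuous.measurable (by rw [hf]; fun_prop))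
  have : IS v A k m l δ = DD v ∩ (WW v (((k : ℝ) + 1) / m) m (1 / ((l : ℝ) + 1)) ∩
      ((A \ f ⁻¹' A) ∪ (f ⁻¹' A \ A))) := by
    ext p
    simp only [IS, mem_inter_iff, mem_union, Set.mem_sdiff, mem_ofPred_eq, mem_preimage, hf]
    tauto
  rw [this]
  exact measurableSet_DD.inter ((measurableSet_WW _ _ _).inter ((hA.diff h1).union (h1.diff hA)))

theorem volume_IS_le (hv : ConvexIndependent ℝ v) {A : Set (ℂ × ℂ)} (hA : MeasurableSet A)
    (hI : Inv v A) (k m l : ℕ) (hm : 0 < m) {δ : ℝ} (h0 : 0 < δ)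
    (hδ : ((k : ℝ) + 1) * δ < 1 / ((l : ℝ) + 1)) :
    volume (IS v A k m l δ) ≤ 3 * volume (BB v A (cexp (I * (-δ : ℝ)))) := by
  set c := cexp (I * (-δ : ℝ)) with hc
  have hcn : ‖c‖ = 1 := by
    rw [hc, mul_comm]; exact norm_exp_ofReal_mul_I _
  have hc1 : ‖c - 1‖ ≤ δ := by
    have := Real.norm_exp_I_mul_ofReal_sub_one_le (x := -δ)
    rwa [Real.norm_eq_abs, abs_neg, abs_of_pos h0] at this
  have hmR : (m : ℝ) ≠ 0 := by exact_mod_cast hm.ne'
  have hmC : (m : ℂ) ≠ 0 := by exact_mod_cast hm.ne'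
  refine le_trans (measure_mono ?_) (core hv hA hI (h := ((k : ℝ) + 1) / m) (by positivity) m hcn)
  rintro p ⟨hpD, ⟨u, hum, hub⟩, hne⟩
  have hmh : (m : ℂ) * ((((k : ℝ) + 1) / m : ℝ) : ℂ) = (((k : ℝ) + 1 : ℝ) : ℂ) := by
    push_cast
    field_simp
  have hp2 := (mem_DD.1 hpD).2
  have hk : (0 : ℝ) ≤ k := Nat.cast_nonneg k
  refine ⟨hpD, ⟨u, hum, hub ?_, hub ?_⟩, ?_⟩
  · rw [Metric.mem_ball, Prod.dist_eq, dist_self]
    apply max_lt (by positivity)
    rw [dist_eq_norm]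
    have : c * p.2 - p.2 = (c - 1) * p.2 := by ring
    simp only
    rw [this, norm_mul]
    calc ‖c - 1‖ * ‖p.2‖ ≤ δ * 1 := by gcongr
      _ ≤ ((k : ℝ) + 1) * δ := by nlinarith
      _ < _ := hδ
  · rw [hmh, Metric.mem_ball, Prod.dist_eq, dist_self]
    refine max_lt ?_ (by positivity)
    simp only
    rw [dist_eq_norm, add_sub_cancel_left, norm_mul, norm_mul, norm_real, Real.norm_eq_abs,
      abs_of_pos (by positivity)]
    calc ((k : ℝ) + 1) * ‖c - 1‖ * ‖p.2‖ ≤ ((k : ℝ) + 1) * δ * 1 := by gcongr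
      _ = ((k : ℝ) + 1) * δ := by ring
      _ < _ := hδ
  · rw [hmh]
    exact hne

/-- The normalised slice measure. -/
noncomputable def II (v : Fin n → ℂ) (A : Set (ℂ × ℂ)) (k m l : ℕ) (δ : ℝ) (w : ℂ) : ℝ≥0∞ :=
  ENNReal.ofReal (1 / δ) * volume ((fun x => (x, w)) ⁻¹' IS v A k m l δ)

theorem measurable_II {A : Set (ℂ × ℂ)} (hA : MeasurableSet A) (k m l : ℕ) (δ : ℝ) :
    Measurable (II v A k m l δ) :=
  (measurable_measure_prodMk_right (measurableSet_IS hA k m l δ)).const_mul _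

theorem lintegral_II (A : Set (ℂ × ℂ)) (hA : MeasurableSet A) (k m l : ℕ) (δ : ℝ) :
    ∫⁻ w, II v A k m l δ w = ENNReal.ofReal (1 / δ) * volume (IS v A k m l δ) := by
  unfold II
  rw [lintegral_const_mul _ (measurable_measure_prodMk_right (measurableSet_IS hA k m l δ)),
    Measure.volume_eq_prod ℂ ℂ, Measure.prod_apply_symm (measurableSet_IS hA k m l δ)]

theorem lintegral_liminf_bound {F : ℕ → ℂ → ℝ≥0∞} (hF : ∀ i, Measurable (F i)) {C : ℝ≥0∞}
    (h : ∀ᶠ i in atTop, ∫⁻ w, F i w ≤ C) : ∫⁻ w, liminf (fun i => F i w) atTop ≤ C := by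
  refine (lintegral_liminf_le hF).trans ?_
  exact liminf_le_of_frequently_le' h.frequently

/-- Iterated lower limits. -/
noncomputable def J3 (v : Fin n → ℂ) (A : Set (ℂ × ℂ)) (δ : ℕ → ℝ) (k m l : ℕ) (w : ℂ) : ℝ≥0∞ :=
  liminf (fun j => II v A k m l (δ j) w) atTop

noncomputable def J2 (v : Fin n → ℂ) (A : Set (ℂ × ℂ)) (δ : ℕ → ℝ) (k m : ℕ) (w : ℂ) : ℝ≥0∞ :=
  liminf (fun l => J3 v A δ k m l w) atTop

noncomputable def J1 (v : Fin n → ℂ) (A : Set (ℂ × ℂ)) (δ : ℕ → ℝ) (k : ℕ) (w : ℂ) : ℝ≥0∞ :=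
  liminf (fun m => J2 v A δ k m w) atTop

noncomputable def J0 (v : Fin n → ℂ) (A : Set (ℂ × ℂ)) (δ : ℕ → ℝ) (w : ℂ) : ℝ≥0∞ :=
  liminf (fun k : ℕ => ENNReal.ofReal (1 / ((k : ℝ) + 1)) * J1 v A δ k w) atTop

theorem J0_ae_zero (hv : ConvexIndependent ℝ v) {A : Set (ℂ × ℂ)} (hA : MeasurableSet A)
    (hI : Inv v A) {C : ℝ} {δ : ℕ → ℝ} (hδ : Tendsto δ atTop (𝓝[>] 0))
    (hB : ∀ j, volume (BB v A (cexp (I * (δ j : ℝ)))) ≤ ENNReal.ofReal (C * δ j)) :
    ∀ᵐ w, J0 v A δ w = 0 := by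
  have hm3 : ∀ k m l, Measurable (J3 v A δ k m l) := fun k m l =>
    Measurable.liminf (fun j => measurable_II hA k m l (δ j))
  have hm2 : ∀ k m, Measurable (J2 v A δ k m) := fun k m => Measurable.liminf (fun l => hm3 k m l)
  have hm1 : ∀ k, Measurable (J1 v A δ k) := fun k => Measurable.liminf (fun m => hm2 k m)
  have hm0' : ∀ k : ℕ, Measurable (fun w => ENNReal.ofReal (1 / ((k : ℝ) + 1)) * J1 v A δ k w) :=
    fun k => (hm1 k).const_mul _
  have hm0 : Measurable (J0 v A δ) := Measurable.liminf hm0'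
  have hδ0 : ∀ᶠ j in atTop, 0 < δ j := hδ.eventually self_mem_nhdsWithin
  have hδ1 : Tendsto δ atTop (𝓝 0) := hδ.mono_right nhdsWithin_le_nhds
  have b3 : ∀ k m l, 0 < m → ∫⁻ w, J3 v A δ k m l w ≤ 3 * ENNReal.ofReal C := by
    intro k m l hm
    apply lintegral_liminf_bound (fun j => measurable_II hA k m l (δ j))
    have h1 : Tendsto (fun j => ((k : ℝ) + 1) * δ j) atTop (𝓝 0) := by
      simpa using hδ1.const_mul ((k : ℝ) + 1)
    have h2 := h1.eventually (gt_mem_nhds (show (0 : ℝ) < 1 / ((l : ℝ) + 1) by positivity))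
    filter_upwards [h2, hδ0] with j hj1 hj2
    rw [lintegral_II A hA]
    have h3 := volume_IS_le hv hA hI k m l hm hj2 hj1
    have h4 : volume (BB v A (cexp (I * (-δ j : ℝ)))) = volume (BB v A (cexp (I * (δ j : ℝ)))) := by
      have h5 : cexp (I * (-δ j : ℝ)) = conj (cexp (I * (δ j : ℝ))) := by
        rw [← Complex.exp_conj]
        congr 1
        simp
      rw [h5]
      apply volume_BB_conj hA
      rw [mul_comm]; exact norm_exp_ofReal_mul_I _
    rw [h4] at h3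
    calc ENNReal.ofReal (1 / δ j) * volume (IS v A k m l (δ j))
        ≤ ENNReal.ofReal (1 / δ j) * (3 * ENNReal.ofReal (C * δ j)) := by
          gcongr
          exact h3.trans (by gcongr; exact hB j)
      _ = 3 * (ENNReal.ofReal (1 / δ j) * ENNReal.ofReal (C * δ j)) := by ring
      _ = 3 * ENNReal.ofReal C := by
          rw [← ENNReal.ofReal_mul (by positivity)]
          congr 2
          field_simp
  have b2 : ∀ k m, 0 < m → ∫⁻ w, J2 v A δ k m w ≤ 3 * ENNReal.ofReal C := fun k m hm =>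
    lintegral_liminf_bound (fun l => hm3 k m l) (Eventually.of_forall (fun l => b3 k m l hm))
  have b1 : ∀ k, ∫⁻ w, J1 v A δ k w ≤ 3 * ENNReal.ofReal C := fun k =>
    lintegral_liminf_bound (fun m => hm2 k m) (by
      filter_upwards [eventually_gt_atTop 0] with m hm
      exact b2 k m hm)
  have b0 : ∫⁻ w, J0 v A δ w = 0 := by
    apply le_antisymm _ zero_le
    refine (lintegral_liminf_le hm0').trans ?_
    have h1 : ∀ k : ℕ, ∫⁻ w, ENNReal.ofReal (1 / ((k : ℝ) + 1)) * J1 v A δ k w ≤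
        ENNReal.ofReal (1 / ((k : ℝ) + 1)) * (3 * ENNReal.ofReal C) := by
      intro k
      rw [lintegral_const_mul _ (hm1 k)]
      gcongr
      exact b1 k
    have h2 : Tendsto (fun k : ℕ => ENNReal.ofReal (1 / ((k : ℝ) + 1)) * (3 * ENNReal.ofReal C))
        atTop (𝓝 0) := by
      have h3 : Tendsto (fun k : ℕ => ENNReal.ofReal (1 / ((k : ℝ) + 1))) atTop (𝓝 0) := by
        have := ENNReal.tendsto_ofReal (tendsto_one_div_add_atTop_nhds_zero_nat (𝕜 := ℝ))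
        simpa using this
      have h4 := ENNReal.Tendsto.mul_const (b := 3 * ENNReal.ofReal C) h3
        (Or.inr (ENNReal.mul_ne_top (by simp) ENNReal.ofReal_ne_top))
      simpa using h4
    calc liminf (fun k : ℕ => ∫⁻ w, ENNReal.ofReal (1 / ((k : ℝ) + 1)) * J1 v A δ k w) atTop
        ≤ liminf (fun k : ℕ => ENNReal.ofReal (1 / ((k : ℝ) + 1)) * (3 * ENNReal.ofReal C)) atTop :=
          liminf_le_liminf (Eventually.of_forall h1)
      _ = 0 := h2.liminf_eq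
  rw [lintegral_eq_zero_iff hm0] at b0
  exact b0

end Pool.Agent.Lib.Bil
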