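import Mathlib

set_option autoImplicit false

namespace Pool.Agent.Lib.Bil

open Complex MeasureTheory Set
open scoped ComplexConjugate Topology ENNReal

/-- Cross product of two complex numbers. -/
def cr (a b : ℂ) : ℝ := a.re * b.im - a.im * b.re

/-- The closed polygon. -/
def KK {n : ℕ} (v : Fin n → ℂ) : Set ℂ := convexHull ℝ (Set.range v)

/-- The open polygon. -/
def PP {n : ℕ} (v : Fin n → ℂ) : Set ℂ := interior (KK v)

/-- `(i,j)` is a counterclockwise side: all other vertices are strictly to the left of the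
directed line from `v i` to `v j`. -/
def IsSide {n : ℕ} (v : Fin n → ℂ) (i j : Fin n) : Prop :=
  i ≠ j ∧ ∀ k, k ≠ i → k ≠ j → 0 < cr (v j - v i) (v k - v i)

/-- Linear reflection in the direction `a`. -/
noncomputable def rl (a w : ℂ) : ℂ := a / conj a * conj w

/-- Affine reflection in the line through `v i`, `v j`. -/
noncomputable def RR {n : ℕ} (v : Fin n → ℂ) (i j : Fin n) (x : ℂ) : ℂ :=
  v i + rl (v j - v i) (x - v i)

section cross

theorem cr_add_right (a b c : ℂ) : cr a (b + c) = cr a b + cr a c := by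
  simp only [cr, add_re, add_im]; ring

theorem cr_sub_right (a b c : ℂ) : cr a (b - c) = cr a b - cr a c := by
  simp only [cr, sub_re, sub_im]; ring

theorem cr_add_left (a b c : ℂ) : cr (a + b) c = cr a c + cr b c := by
  simp only [cr, add_re, add_im]; ring

theorem cr_sub_left (a b c : ℂ) : cr (a - b) c = cr a c - cr b c := by
  simp only [cr, sub_re, sub_im]; ring

theorem cr_neg_right (a b : ℂ) : cr a (-b) = - cr a b := by
  simp only [cr, neg_re, neg_im]; ring

theorem cr_neg_left (a b : ℂ) : cr (-a) b = - cr a b := by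
  simp only [cr, neg_re, neg_im]; ring

theorem cr_smul_right (a b : ℂ) (t : ℝ) : cr a ((t : ℂ) * b) = t * cr a b := by
  simp only [cr, mul_re, mul_im, ofReal_re, ofReal_im]; ring

theorem cr_smul_left (a b : ℂ) (t : ℝ) : cr ((t : ℂ) * a) b = t * cr a b := by
  simp only [cr, mul_re, mul_im, ofReal_re, ofReal_im]; ring

theorem cr_self (a : ℂ) : cr a a = 0 := by simp only [cr]; ring

theorem cr_swap (a b : ℂ) : cr a b = - cr b a := by simp only [cr]; ring

theorem cr_zero_right (a : ℂ) : cr a 0 = 0 := by simp [cr]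

theorem cr_zero_left (a : ℂ) : cr 0 a = 0 := by simp [cr]

theorem continuous_cr : Continuous (fun p : ℂ × ℂ => cr p.1 p.2) := by
  unfold cr; fun_prop

theorem cr_eq_zero_iff {a b : ℂ} (ha : a ≠ 0) : cr a b = 0 ↔ ∃ t : ℝ, b = (t : ℂ) * a := by
  constructor
  · intro h
    refine ⟨(a.re * b.re + a.im * b.im) / (a.re ^ 2 + a.im ^ 2), ?_⟩
    have hpos : 0 < a.re ^ 2 + a.im ^ 2 := by
      have : a.re ≠ 0 ∨ a.im ≠ 0 := by
        by_contra hcon
        push Not at hcon
        exact ha (Complex.ext hcon.1 hcon.2)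
      rcases this with h1 | h1
      · positivity
      · positivity
    unfold cr at h
    apply Complex.ext
    · simp only [mul_re, ofReal_re, ofReal_im]
      field_simp
      linear_combination (-a.im) * h
    · simp only [mul_im, ofReal_re, ofReal_im]
      field_simp
      linear_combination a.re * h
  · rintro ⟨t, rfl⟩
    rw [cr_smul_right, cr_self, mul_zero]

theorem rl_add (a b c : ℂ) : rl a (b + c) = rl a b + rl a c := by
  simp only [rl, map_add]; ring

theorem rl_sub (a b c : ℂ) : rl a (b - c) = rl a b - rl a c := by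
  simp only [rl, map_sub]; ring

theorem rl_smul (a w : ℂ) (t : ℝ) : rl a ((t : ℂ) * w) = (t : ℂ) * rl a w := by
  simp only [rl, map_mul, conj_ofReal]; ring

theorem rl_mul (a c w : ℂ) : rl a (c * w) = conj c * rl a w := by
  simp only [rl, map_mul]; ring

theorem rl_rl {a : ℂ} (ha : a ≠ 0) (w : ℂ) : rl a (rl a w) = w := by
  have h1 : conj a ≠ 0 := by simpa using ha
  simp only [rl, map_mul, map_div₀, conj_conj]
  field_simp

theorem rl_self {a : ℂ} (ha : a ≠ 0) : rl a a = a := by
  have h1 : conj a ≠ 0 := by simpa using ha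
  simp only [rl]; field_simp

theorem norm_rl {a : ℂ} (ha : a ≠ 0) (w : ℂ) : ‖rl a w‖ = ‖w‖ := by
  have h1 : ‖a‖ ≠ 0 := by simpa using ha
  simp only [rl, norm_mul, norm_div, RCLike.norm_conj]
  field_simp

theorem cr_eq_im (a b : ℂ) : cr a b = (conj a * b).im := by
  simp only [cr, mul_im, conj_re, conj_im]; ring

theorem cr_rl {a : ℂ} (ha : a ≠ 0) (b c : ℂ) : cr (rl a b) (rl a c) = - cr b c := by
  have h1 : conj a ≠ 0 := by simpa using ha
  rw [cr_eq_im, cr_eq_im]
  have : conj (rl a b) * rl a c = conj (conj b * c) := by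
    simp only [rl, map_mul, map_div₀, conj_conj]
    field_simp
  rw [this, conj_im]

theorem continuous_rl (a : ℂ) : Continuous (rl a) := by
  unfold rl
  exact continuous_const.mul continuous_conj

end cross

section refl

variable {n : ℕ} (v : Fin n → ℂ)

theorem RR_add (i j : Fin n) (x y : ℂ) :
    RR v i j (x + y) = RR v i j x + rl (v j - v i) y := by
  unfold RR
  rw [add_sub_right_comm, rl_add]; ring

theorem RR_sub (i j : Fin n) (x y : ℂ) :
    RR v i j (x - y) = RR v i j x - rl (v j - v i) y := by
  unfold RR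
  rw [sub_right_comm, rl_sub]; ring

theorem RR_sub_RR (i j : Fin n) (x y : ℂ) :
    RR v i j x - RR v i j y = rl (v j - v i) (x - y) := by
  unfold RR
  rw [add_sub_add_left_eq_sub, ← rl_sub]
  congr 1; ring

theorem RR_RR {i j : Fin n} (h : v j - v i ≠ 0) (x : ℂ) : RR v i j (RR v i j x) = x := by
  unfold RR
  rw [add_sub_cancel_left, rl_rl h]; ring

theorem RR_left (i j : Fin n) : RR v i j (v i) = v i := by
  unfold RR; simp [rl]

theorem RR_right {i j : Fin n} (h : v j - v i ≠ 0) : RR v i j (v j) = v j := by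
  unfold RR; rw [rl_self h]; ring

theorem continuous_RR (i j : Fin n) : Continuous (RR v i j) := by
  unfold RR
  exact continuous_const.add ((continuous_rl _).comp (continuous_id.sub continuous_const))

end refl

end Pool.Agent.Lib.Bil
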