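import Pool.Agent.Lib.MP_7bc51d_an.LocalConst

set_option autoImplicit false

namespace Pool.Agent.Lib.Bil

open Complex MeasureTheory Set Filter
open scoped ComplexConjugate Topology ENNReal

variable {n : ℕ} {v : Fin n → ℂ}

/-! ### time reversal -/

/-- Time reversal of a phase set. -/
def rev (A : Set (ℂ × ℂ)) : Set (ℂ × ℂ) := {p | (p.1, -p.2) ∈ A}

theorem measurableSet_rev {A : Set (ℂ × ℂ)} (hA : MeasurableSet A) : MeasurableSet (rev A) :=
  hA.preimage (Continuous.measurable (by fun_prop) : Measurable (fun p : ℂ × ℂ => (p.1, -p.2)))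

theorem rl_neg (a w : ℂ) : rl a (-w) = - rl a w := by
  simp only [rl, map_neg]; ring

theorem inv_rev (hv : ConvexIndependent ℝ v) {A : Set (ℂ × ℂ)} (hI : Inv v A) :
    Inv v (rev A) := by
  intro h hh
  rw [ae_all_iff]
  intro c
  rcases (stepSet v h c).eq_empty_or_nonempty with hemp | hne
  · refine Eventually.of_forall (fun p hp => ?_)
    rw [hemp] at hp
    exact absurd hp (notMem_empty _)
  have h1 := (mp_neg_snd.comp (mp_stepMap hv h hne)).quasiMeasurePreserving.ae (hI h hh)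
  filter_upwards [h1] with p hp1 hp2
  simp only [Function.comp] at hp1
  match c with
  | none =>
    have h3 := hp1 none (by
      refine ⟨hp2.2, ?_⟩
      change p.1 + (h : ℂ) * p.2 + (h : ℂ) * -p.2 ∈ PP v
      convert hp2.1 using 1
      ring)
    change ((p.1, -p.2) ∈ A ↔ (p.1 + (h : ℂ) * p.2, -p.2) ∈ A)
    change ((p.1 + (h : ℂ) * p.2, -p.2) ∈ A ↔
      (p.1 + (h : ℂ) * p.2 + (h : ℂ) * -p.2, -p.2) ∈ A) at h3
    have e1 : p.1 + (h : ℂ) * p.2 + (h : ℂ) * -p.2 = p.1 := by ring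
    rw [e1] at h3
    exact h3.symm
  | some (i, j) =>
    have hij := hp2.1
    have hne' := v_sub_ne hv hij.1
    have e1 : RR v i j (RR v i j (p.1 + (h : ℂ) * p.2) + (h : ℂ) * -(rl (v j - v i) p.2)) =
        p.1 := by
      have : (h : ℂ) * -(rl (v j - v i) p.2) = rl (v j - v i) (-((h : ℂ) * p.2)) := by
        rw [rl_neg, rl_smul]; ring
      rw [this, ← RR_add, RR_RR v hne']
      ring
    have h3 := hp1 (some (i, j)) (by
      rw [mem_stepSet_some]
      change IsSide v i j ∧ RR v i j (p.1 + (h : ℂ) * p.2) ∈ PP v ∧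
        cr (-(rl (v j - v i) p.2)) (v i - RR v i j (p.1 + (h : ℂ) * p.2)) < 0 ∧
        0 < cr (-(rl (v j - v i) p.2)) (v j - RR v i j (p.1 + (h : ℂ) * p.2)) ∧
        RR v i j (RR v i j (p.1 + (h : ℂ) * p.2) + (h : ℂ) * -(rl (v j - v i) p.2)) ∈ PP v
      refine ⟨hij, hp2.2.2.2.2, ?_, ?_, ?_⟩
      · rw [cr_neg_left, cr_step hv hij i (RR_left v i j), neg_neg]
        exact hp2.2.2.1
      · rw [cr_neg_left, cr_step hv hij j (RR_right v hne'), neg_neg]
        exact hp2.2.2.2.1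
      · rw [e1]; exact hp2.2.1)
    change ((p.1, -p.2) ∈ A ↔ (RR v i j (p.1 + (h : ℂ) * p.2), -(rl (v j - v i) p.2)) ∈ A)
    change ((RR v i j (p.1 + (h : ℂ) * p.2), -(rl (v j - v i) p.2)) ∈ A ↔
      (RR v i j (RR v i j (p.1 + (h : ℂ) * p.2) + (h : ℂ) * -(rl (v j - v i) p.2)),
        rl (v j - v i) (-(rl (v j - v i) p.2))) ∈ A) at h3
    rw [e1, rl_neg, rl_rl hne'] at h3
    exact h3.symm

theorem ae_neg {p : ℂ → Prop} (h : ∀ᵐ w, p w) : ∀ᵐ w, p (-w) := by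
  have := mp_mul (c := -1) (by simp)
  have h2 := this.quasiMeasurePreserving.ae h
  simpa using h2

theorem chord_rev {A : Set (ℂ × ℂ)} (hch : ∀ᵐ w, ChordAt v A w) :
    ∀ᵐ w, ChordAt v (rev A) w := by
  filter_upwards [ae_neg hch] with w hw
  filter_upwards [hw] with x hx hxP s hs
  have := hx hxP (-s) (by
    convert hs using 1
    push_cast; ring)
  change ((x, -w) ∈ A ↔ (x + (s : ℂ) * w, -w) ∈ A)
  convert this using 3
  push_cast; ring

theorem per_rev {A : Set (ℂ × ℂ)} (hA : MeasurableSet A) (hP : Per v A) : Per v (rev A) := by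
  obtain ⟨C, hC⟩ := hP
  refine ⟨C, hC.mono (fun δ hδ => ?_)⟩
  refine le_trans (le_of_eq ?_) hδ
  rw [← mp_neg_snd.measure_preimage (measurableSet_BB hA _).nullMeasurableSet]
  congr 1
  ext p
  simp only [BB, rev, mem_preimage, mem_ofPred_eq, mem_DD, norm_neg, mul_neg]

/-! ### generic directions -/

theorem ae_not_mem_line (d : ℂ) : ∀ᵐ w : ℂ, w ∉ (Submodule.span ℝ {d} : Submodule ℝ ℂ) := by
  have key : volume ((Submodule.span ℝ {d} : Submodule ℝ ℂ) : Set ℂ) = 0 := by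
    apply Measure.addHaar_submodule
    intro h
    have h1 : Module.finrank ℝ (Submodule.span ℝ {d} : Submodule ℝ ℂ) ≤ 1 := by
      have := finrank_span_le_card (R := ℝ) ({d} : Set ℂ)
      simpa using this
    rw [h, finrank_top, Complex.finrank_real_complex] at h1
    omega
  exact measure_eq_zero_iff_ae_notMem.1 key

theorem generic_free : ∀ᵐ w : ℂ, ∀ x : ℂ, FwdFree v x w ∨ FwdFree v x (-w) := by
  have h1 : ∀ᵐ w : ℂ, ∀ (g g' : List (Fin n × Fin n)) (l l' : Fin n),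
      w ∉ (Submodule.span ℝ {Un v g (v l) - Un v g' (v l')} : Submodule ℝ ℂ) := by
    rw [ae_all_iff]; intro g
    rw [ae_all_iff]; intro g'
    rw [ae_all_iff]; intro l
    rw [ae_all_iff]; intro l'
    exact ae_not_mem_line _
  filter_upwards [h1] with w hw x
  by_contra hcon
  push Not at hcon
  obtain ⟨c1, c2⟩ := hcon
  unfold FwdFree at c1 c2
  push Not at c1 c2
  obtain ⟨g, _, l, τ, hτ, e1⟩ := c1
  obtain ⟨g', _, l', τ', hτ', e2⟩ := c2
  apply hw g g' l l'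
  rw [Submodule.mem_span_singleton]
  refine ⟨(τ + τ')⁻¹, ?_⟩
  rw [← e1, ← e2, real_smul]
  have h2 : x + (τ : ℂ) * w - (x + (τ' : ℂ) * -w) = ((τ + τ' : ℝ) : ℂ) * w := by
    push_cast; ring
  rw [h2, ← mul_assoc, ← ofReal_mul, inv_mul_cancel₀ (by positivity), ofReal_one, one_mul]

/-! ### from local to global -/

theorem global_of_local {A : Set (ℂ × ℂ)} {w : ℂ} (h : ∀ x ∈ PP v, LocConst A x w) :
    volume {x | x ∈ PP v ∧ (x, w) ∉ A} = 0 ∨ volume {x | x ∈ PP v ∧ (x, w) ∈ A} = 0 := by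
  set u1 : Set ℂ := {x | ∃ U ∈ 𝓝 x, ∀ᵐ y : ℂ, y ∈ U → (y, w) ∈ A} with hu1
  set u0 : Set ℂ := {x | ∃ U ∈ 𝓝 x, ∀ᵐ y : ℂ, y ∈ U → (y, w) ∉ A} with hu0
  have o1 : IsOpen u1 := by
    rw [isOpen_iff_mem_nhds]
    rintro x ⟨U, hU, hUa⟩
    filter_upwards [eventually_mem_nhds_iff.2 hU] with y hy
    exact ⟨U, hy, hUa⟩
  have o0 : IsOpen u0 := by
    rw [isOpen_iff_mem_nhds]
    rintro x ⟨U, hU, hUa⟩
    filter_upwards [eventually_mem_nhds_iff.2 hU] with y hy
    exact ⟨U, hy, hUa⟩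
  have hcov : PP v ⊆ u1 ∪ u0 := by
    intro x hx
    obtain ⟨U, hU, h1 | h1⟩ := h x hx
    · exact Or.inl ⟨U, hU, h1⟩
    · exact Or.inr ⟨U, hU, h1⟩
  have hdisj : ¬ (PP v ∩ (u1 ∩ u0)).Nonempty := by
    rintro ⟨x, _, ⟨U, hU, hUa⟩, ⟨V, hV, hVa⟩⟩
    have h1 : 0 < volume (U ∩ V) := Measure.measure_pos_of_mem_nhds volume (inter_mem hU hV)
    apply h1.ne'
    have h2 : ∀ᵐ y : ℂ, y ∉ U ∩ V := by
      filter_upwards [hUa, hVa] with y h3 h4 h5
      exact h4 h5.2 (h3 h5.1)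
    exact measure_eq_zero_iff_ae_notMem.2 h2
  have hconn : IsPreconnected (PP v) := convex_PP.isPreconnected
  by_cases c1 : (PP v ∩ u1).Nonempty
  · by_cases c0 : (PP v ∩ u0).Nonempty
    · exact absurd (hconn u1 u0 o1 o0 hcov c1 c0) hdisj
    · left
      apply measure_null_of_locally_null
      rintro x ⟨hx, _⟩
      have hx1 : x ∈ u1 := by
        rcases hcov hx with h1 | h1
        · exact h1
        · exact absurd ⟨x, hx, h1⟩ c0
      obtain ⟨U, hU, hUa⟩ := hx1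
      refine ⟨U ∩ {x | x ∈ PP v ∧ (x, w) ∉ A}, ?_, ?_⟩
      · exact inter_mem (mem_nhdsWithin_of_mem_nhds hU) self_mem_nhdsWithin
      · rw [measure_eq_zero_iff_ae_notMem]
        filter_upwards [hUa] with y h3 h4
        exact h4.2.2 (h3 h4.1)
  · right
    apply measure_null_of_locally_null
    rintro x ⟨hx, _⟩
    have hx1 : x ∈ u0 := by
      rcases hcov hx with h1 | h1
      · exact absurd ⟨x, hx, h1⟩ c1
      · exact h1
    obtain ⟨U, hU, hUa⟩ := hx1
    refine ⟨U ∩ {x | x ∈ PP v ∧ (x, w) ∈ A}, ?_, ?_⟩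
    · exact inter_mem (mem_nhdsWithin_of_mem_nhds hU) self_mem_nhdsWithin
    · rw [measure_eq_zero_iff_ae_notMem]
      filter_upwards [hUa] with y h3 h4
      exact (h3 h4.1) h4.2.2

theorem slice_const (hn : 3 ≤ n) (hv : ConvexIndependent ℝ v) {A : Set (ℂ × ℂ)}
    (hA : MeasurableSet A) (hI : Inv v A) (hch : ∀ᵐ w, ChordAt v A w) (hP : Per v A) :
    ∀ᵐ w : ℂ, ‖w‖ < 1 →
      volume {x | x ∈ PP v ∧ (x, w) ∉ A} = 0 ∨ volume {x | x ∈ PP v ∧ (x, w) ∈ A} = 0 := by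
  have h1 := local_const hn hv hA hI hch hP
  have h2 := ae_neg (local_const hn hv (measurableSet_rev hA) (inv_rev hv hI) (chord_rev hch)
    (per_rev hA hP))
  have h3 : ∀ᵐ w : ℂ, w ≠ 0 := by simp [ae_iff]
  filter_upwards [h1, h2, h3, generic_free (v := v)] with w g1 g2 g3 g4 hw1
  apply global_of_local
  intro x hx
  rcases g4 x with h5 | h5
  · exact g1 g3 hw1 x hx h5
  · obtain ⟨U, hU, h6⟩ := g2 (neg_ne_zero.2 g3) (by rwa [norm_neg]) x hx h5
    refine ⟨U, hU, ?_⟩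
    simpa [rev] using h6

end Pool.Agent.Lib.Bil
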