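import Pool.Agent.Lib.MP_7bc51d_an.ChordInt

set_option autoImplicit false

namespace Pool.Agent.Lib.Bil

open Complex MeasureTheory Set Filter
open scoped ComplexConjugate Topology ENNReal

variable {n : ℕ} {v : Fin n → ℂ}

/-- Rotated coordinates. -/
noncomputable def eta (e : ℂ) (z : ℝ × ℝ) : ℂ := e * ((z.1 : ℂ) + (z.2 : ℂ) * I)

theorem mp_eta {e : ℂ} (he : ‖e‖ = 1) : MeasurePreserving (eta e) volume volume := by
  have h1 := Complex.volume_preserving_equiv_real_prod.symm
  have h2 := (mp_mul he).comp h1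
  have h3 : eta e = (fun w => e * w) ∘ Complex.measurableEquivRealProd.symm := by
    funext z
    simp only [Function.comp, eta]
    congr 1
    rw [Complex.measurableEquivRealProd_symm_apply]
    apply Complex.ext <;> simp
  rw [h3]
  exact h2

theorem sgn_integral {a b : ℝ} {g : ℝ → ℝ} :
    ∫ Q, ((Ioo a b).indicator 1 Q - (Ioo b a).indicator 1 Q) * g Q = ∫ Q in a..b, g Q := by
  rcases le_total a b with h | h
  · rw [Ioo_eq_empty (not_lt.2 h), intervalIntegral.integral_of_le h,
      integral_Ioc_eq_integral_Ioo, ← integral_indicator measurableSet_Ioo]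
    apply integral_congr_ae
    refine Eventually.of_forall (fun Q => ?_)
    by_cases hQ : Q ∈ Ioo a b
    · simp [hQ]
    · simp [hQ]
  · rw [Ioo_eq_empty (not_lt.2 h), intervalIntegral.integral_of_ge h,
      integral_Ioc_eq_integral_Ioo, ← integral_indicator measurableSet_Ioo, ← integral_neg]
    apply integral_congr_ae
    refine Eventually.of_forall (fun Q => ?_)
    by_cases hQ : Q ∈ Ioo b a
    · simp [hQ]
    · simp [hQ]

theorem sgn_integrable {a b : ℝ} {F g : ℝ → ℝ} (hF : Measurable F) (hFb : ∀ Q, |F Q| ≤ 1)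
    (hg : Continuous g) :
    Integrable (fun Q => ((Ioo a b).indicator 1 Q - (Ioo b a).indicator 1 Q) * (F Q * g Q)) := by
  have key : ∀ a b : ℝ, Integrable (fun Q => (Ioo a b).indicator (fun Q => F Q * g Q) Q) := by
    intro a b
    rw [integrable_indicator_iff measurableSet_Ioo]
    have h1 : IntegrableOn g (Ioo a b) :=
      (hg.continuousOn.integrableOn_Icc (μ := volume)).mono_set Ioo_subset_Icc_self
    refine Integrable.bdd_mul (c := 1) h1 hF.aestronglyMeasurable ?_
    exact Eventually.of_forall (fun Q => by rw [Real.norm_eq_abs]; exact hFb Q)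
  have := (key a b).sub (key b a)
  refine this.congr (Eventually.of_forall (fun Q => ?_))
  simp only [Pi.sub_apply, indicator]
  split_ifs <;> simp

/-- Green's formula for the convex polygon, in a fixed direction. -/
theorem green (hn : 3 ≤ n) (hv : ConvexIndependent ℝ v) {w : ℂ} (hw : w ≠ 0)
    (hgen : ∀ i, cr w (v (nxt hn hv i)) ≠ cr w (v i)) {F : ℝ → ℝ} (hF : Measurable F)
    (hFb : ∀ Q, |F Q| ≤ 1) {K k : ℂ → ℝ} (hKc : Continuous K) (hk : Measurable k) {C : ℝ}
    (hkb : ∀ y ∈ PP v, |k y| ≤ C)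
    (hK : ∀ (y : ℂ) (s : ℝ), K (y + (s : ℂ) * w) - K y = ∫ s' in (0 : ℝ)..s, k (y + (s' : ℂ) * w)) :
    ∫ x in PP v, F (cr w x) * k x =
      ∑ i, ∫ τ in (0 : ℝ)..1, F (cr w (v i + (τ : ℂ) * (v (nxt hn hv i) - v i))) *
        K (v i + (τ : ℂ) * (v (nxt hn hv i) - v i)) * cr w (v (nxt hn hv i) - v i) := by
  have hnw : 0 < ‖w‖ := norm_pos_iff.2 hw
  set e : ℂ := w / (‖w‖ : ℂ) with he
  have he1 : ‖e‖ = 1 := by
    rw [he, norm_div, norm_real, norm_norm, div_self hnw.ne']
  have hwe : w = (‖w‖ : ℂ) * e := by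
    rw [he]
    have : (‖w‖ : ℂ) ≠ 0 := by exact_mod_cast hnw.ne'
    field_simp
  have hcre : ∀ z : ℝ × ℝ, cr w (eta e z) = ‖w‖ * z.2 := by
    intro z
    have h1 : cr w (eta e z) = ‖w‖ * cr e (e * ((z.1 : ℂ) + (z.2 : ℂ) * I)) := by
      conv_lhs => rw [hwe]
      rw [cr_smul_left, eta]
    rw [h1, cr_eq_im, ← mul_assoc, ← Complex.normSq_eq_conj_mul_self, Complex.normSq_eq_norm_sq, he1]
    simp
  -- Fubini
  set g : ℂ → ℝ := (PP v).indicator (fun x => F (cr w x) * k x) with hg
  have hcw : Measurable (fun x : ℂ => cr w x) := by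
    apply Continuous.measurable; unfold cr; fun_prop
  have hgi : Integrable g := by
    rw [hg, integrable_indicator_iff isOpen_PP.measurableSet]
    have h1 : IntegrableOn (fun _ : ℂ => C) (PP v) :=
      integrableOn_const (isBounded_PP.measure_lt_top.ne)
    refine Integrable.mono' h1 ((hF.comp hcw).mul hk).aestronglyMeasurable ?_
    rw [ae_restrict_iff' isOpen_PP.measurableSet]
    refine Eventually.of_forall (fun x hx => ?_)
    rw [norm_mul, Real.norm_eq_abs, Real.norm_eq_abs]
    have h2 := hFb (cr w x)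
    have h3 := hkb x hx
    calc |F (cr w x)| * |k x| ≤ 1 * C := by gcongr
      _ = C := one_mul C
  have hmp := mp_eta he1
  have hemb : MeasurableEmbedding (eta e) := by
    have h1 : MeasurableEmbedding (Complex.measurableEquivRealProd.symm : ℝ × ℝ → ℂ) :=
      Complex.measurableEquivRealProd.symm.measurableEmbedding
    have h2 : MeasurableEmbedding (fun z : ℂ => e * z) :=
      (mulEquiv e he1).toHomeomorph.measurableEmbedding
    have h3 := h2.comp h1
    convert h3 using 1
    funext z
    simp only [Function.comp, eta]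
    congr 1
    rw [Complex.measurableEquivRealProd_symm_apply]
    apply Complex.ext <;> simp
  have hgi2 : Integrable (fun z : ℝ × ℝ => g (eta e z)) ((volume : Measure ℝ).prod volume) := by
    exact (hmp.integrable_comp hgi.aestronglyMeasurable).2 hgi
  have s1 : ∫ x in PP v, F (cr w x) * k x = ∫ p : ℝ, ∫ s : ℝ, g (eta e (s, p)) := by
    rw [← integral_indicator isOpen_PP.measurableSet, ← hg, ← hmp.integral_comp hemb g]
    exact integral_prod_symm _ hgi2
  -- the inner integral
  have s2 : ∀ᵐ p : ℝ, ∫ s : ℝ, g (eta e (s, p)) = ‖w‖ *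
      (F (‖w‖ * p) * ∑ i, sgn v w i (nxt hn hv i) (‖w‖ * p) *
        K (bpt v w i (nxt hn hv i) (‖w‖ * p))) := by
    have hfin : ∀ᵐ p : ℝ, ∀ l, p ≠ cr w (v l) / ‖w‖ := by
      rw [ae_all_iff]; intro l
      simp [ae_iff, measure_singleton]
    filter_upwards [hfin] with p hp
    set xp : ℂ := e * ((p : ℂ) * I) with hxp
    have hxpQ : cr w xp = ‖w‖ * p := by
      have := hcre (0, p)
      simp only [eta, ofReal_zero, zero_add] at this
      exact this
    have h1 := chord_integral hn hv hw (x := xp) (fun l => by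
      rw [hxpQ]
      intro h
      apply hp l
      rw [h]; field_simp) hK
    rw [hxpQ] at h1
    rw [← h1]
    have hSm : MeasurableSet {s : ℝ | xp + (s : ℂ) * w ∈ PP v} :=
      (isOpen_PP.preimage (by fun_prop : Continuous (fun s : ℝ => xp + (s : ℂ) * w))).measurableSet
    rw [← integral_indicator hSm, ← integral_const_mul]
    have h2 := Measure.integral_comp_mul_left (fun s => g (eta e (s, p))) ‖w‖
    rw [abs_of_pos (inv_pos.2 hnw), smul_eq_mul] at h2
    have h3 : ∫ s : ℝ, g (eta e (s, p)) = ‖w‖ * ∫ s : ℝ, g (eta e (‖w‖ * s, p)) := by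
      rw [h2]; field_simp
    rw [h3]
    congr 1
    apply integral_congr_ae
    refine Eventually.of_forall (fun s => ?_)
    have h4 : eta e (‖w‖ * s, p) = xp + (s : ℂ) * w := by
      simp only [eta, hxp]
      push_cast
      linear_combination (-(s : ℂ)) * hwe
    have h5 : cr w (xp + (s : ℂ) * w) = ‖w‖ * p := by
      rw [cr_add_right, cr_smul_right, cr_self, mul_zero, add_zero, hxpQ]
    simp only
    rw [h4, hg]
    by_cases hmem : xp + (s : ℂ) * w ∈ PP v
    · rw [indicator_of_mem hmem, indicator_of_mem (show s ∈ {s : ℝ | xp + (s : ℂ) * w ∈ PP v} from hmem), h5]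
    · rw [indicator_of_notMem hmem,
        indicator_of_notMem (show s ∉ {s : ℝ | xp + (s : ℂ) * w ∈ PP v} from hmem), mul_zero]
  rw [s1, integral_congr_ae s2, integral_const_mul]
  have s3 := Measure.integral_comp_mul_left (fun Q => F Q * ∑ i, sgn v w i (nxt hn hv i) Q *
        K (bpt v w i (nxt hn hv i) Q)) ‖w‖
  rw [abs_of_pos (inv_pos.2 hnw), smul_eq_mul] at s3
  rw [s3, ← mul_assoc, mul_inv_cancel₀ hnw.ne', one_mul]
  have hbc : ∀ i, Continuous (fun Q => K (bpt v w i (nxt hn hv i) Q)) := by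
    intro i
    apply hKc.comp
    unfold bpt
    fun_prop
  have s4 : ∫ Q, F Q * ∑ i, sgn v w i (nxt hn hv i) Q * K (bpt v w i (nxt hn hv i) Q) =
      ∑ i, ∫ Q, sgn v w i (nxt hn hv i) Q * (F Q * K (bpt v w i (nxt hn hv i) Q)) := by
    rw [← integral_finsetSum]
    · apply integral_congr_ae
      refine Eventually.of_forall (fun Q => ?_)
      simp only
      rw [Finset.mul_sum]
      exact Finset.sum_congr rfl (fun i _ => by ring)
    · intro i _
      exact sgn_integrable hF hFb (hbc i)
  rw [s4]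
  apply Finset.sum_congr rfl
  intro i _
  have s5 : ∫ Q, sgn v w i (nxt hn hv i) Q * (F Q * K (bpt v w i (nxt hn hv i) Q)) =
      ∫ Q in (cr w (v i))..(cr w (v (nxt hn hv i))), F Q * K (bpt v w i (nxt hn hv i) Q) :=
    sgn_integral
  rw [s5]
  set D := cr w (v (nxt hn hv i)) - cr w (v i) with hD
  have hD0 : D ≠ 0 := sub_ne_zero.2 (hgen i)
  have s6 := intervalIntegral.mul_integral_comp_mul_add (a := 0) (b := 1)
    (f := fun Q => F Q * K (bpt v w i (nxt hn hv i) Q)) D (cr w (v i))
  have e1 : D * 0 + cr w (v i) = cr w (v i) := by ring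
  have e2 : D * 1 + cr w (v i) = cr w (v (nxt hn hv i)) := by rw [hD]; ring
  rw [e1, e2] at s6
  rw [← s6, ← intervalIntegral.integral_const_mul]
  apply intervalIntegral.integral_congr
  intro τ _
  simp only
  have e3 : cr w (v i + (τ : ℂ) * (v (nxt hn hv i) - v i)) = D * τ + cr w (v i) := by
    rw [cr_add_right, cr_smul_right, cr_sub_right]; ring
  have e4 : bpt v w i (nxt hn hv i) (D * τ + cr w (v i)) =
      v i + (τ : ℂ) * (v (nxt hn hv i) - v i) := by
    unfold bpt
    rw [← hD]
    have : (D * τ + cr w (v i) - cr w (v i)) / D = τ := by field_simp; ring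
    rw [this]
  rw [e3, e4, cr_sub_right, ← hD]
  ring

end Pool.Agent.Lib.Bil
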