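import Pool.Agent.Lib.MP_7bc51d_an.VertexLC3

set_option autoImplicit false

namespace Pool.Agent.Lib.Bil

open Complex MeasureTheory Set Filter
open scoped ComplexConjugate Topology ENNReal

variable {n : ℕ} {v : Fin n → ℂ}

/-- The line function in direction `w` is constant along the beginning of the ray from `a` in
direction `e`. -/
def NE (F : ℂ → ℝ → ℝ) (a e w : ℂ) (c : ℝ) : Prop :=
  ∃ ε : ℝ, 0 < ε ∧ ∀ᵐ τ : ℝ, 0 < τ → τ < ε → F w (cr w (a + (τ : ℂ) * e)) = c

theorem rl_neg_left (a w : ℂ) : rl (-a) w = rl a w := by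
  unfold rl
  rw [map_neg, neg_div_neg_eq]

theorem SymAt.flip {F : ℂ → ℝ → ℝ} {a e : ℂ} (h : SymAt F a e) : SymAt F (a + e) (-e) := by
  unfold SymAt at h ⊢
  filter_upwards [h] with w hw
  have hmp : MeasurePreserving (fun q : ℝ => 1 - q) volume volume :=
    Measure.measurePreserving_sub_left volume 1
  filter_upwards [hmp.quasiMeasurePreserving.ae hw] with τ hτ hτI
  have h1 := hτ ⟨by linarith [hτI.2], by linarith [hτI.1]⟩
  have e1 : a + e + (τ : ℂ) * -e = a + ((1 - τ : ℝ) : ℂ) * e := by push_cast; ring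
  rw [e1, rl_neg_left]
  exact h1

theorem NE_refl {F : ℂ → ℝ → ℝ} {a e : ℂ} (h : SymAt F a e) :
    ∀ᵐ w : ℂ, ∀ c, (NE F a e w c ↔ NE F a e (rl e w) c) := by
  unfold SymAt at h
  filter_upwards [h] with w hw c
  constructor
  · rintro ⟨ε, hε, h1⟩
    refine ⟨min ε 1, lt_min hε one_pos, ?_⟩
    filter_upwards [h1, hw] with τ h2 h3 h4 h5
    rw [h3 ⟨h4, h5.trans_le (min_le_right _ _)⟩]
    exact h2 h4 (h5.trans_le (min_le_left _ _))
  · rintro ⟨ε, hε, h1⟩
    refine ⟨min ε 1, lt_min hε one_pos, ?_⟩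
    filter_upwards [h1, hw] with τ h2 h3 h4 h5
    rw [← h3 ⟨h4, h5.trans_le (min_le_right _ _)⟩]
    exact h2 h4 (h5.trans_le (min_le_left _ _))

theorem NE_unique {F : ℂ → ℝ → ℝ} {a e w : ℂ} {c c' : ℝ} (h : NE F a e w c)
    (h' : NE F a e w c') : c = c' := by
  obtain ⟨ε, hε, h1⟩ := h
  obtain ⟨ε', hε', h2⟩ := h'
  by_contra hne
  have h3 : ∀ᵐ τ : ℝ, τ ∉ Ioo 0 (min ε ε') := by
    filter_upwards [h1, h2] with τ g1 g2 g3
    apply hne
    rw [← g1 g3.1 (g3.2.trans_le (min_le_left _ _)), ← g2 g3.1 (g3.2.trans_le (min_le_right _ _))]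
  have h4 := measure_eq_zero_iff_ae_notMem.2 h3
  rw [Real.volume_Ioo, ENNReal.ofReal_eq_zero] at h4
  have := lt_min hε hε'
  linarith

theorem qmp_affine {a b : ℝ} (hb : b ≠ 0) :
    Measure.QuasiMeasurePreserving (fun τ : ℝ => a + τ * b) volume volume := by
  have h1 := (measurePreserving_add_left volume a).quasiMeasurePreserving.comp (qmp_scale hb)
  convert h1 using 1
  funext τ
  simp only [Function.comp]
  ring

theorem NE_of_LCv {F : ℂ → ℝ → ℝ} {a e w : ℂ} {c : ℝ} (hwe : cr w e ≠ 0)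
    (h : LCv F w (cr w a) c) : NE F a e w c := by
  obtain ⟨ε, hε, h1⟩ := h
  have habs : 0 < |cr w e| := abs_pos.2 hwe
  refine ⟨ε / |cr w e|, by positivity, ?_⟩
  filter_upwards [(qmp_affine (a := cr w a) hwe).ae h1] with τ h2 h3 h4
  rw [cr_add_right, cr_smul_right]
  apply h2
  rw [add_sub_cancel_left, abs_mul, abs_of_pos h3]
  rwa [lt_div_iff₀ habs] at h4

/-- rays on the same side give the same value -/
theorem NE_same {F : ℂ → ℝ → ℝ} {a e e' w : ℂ} {c : ℝ} {r : ℝ} (hr : 0 < r)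
    (he : cr w e' = r * cr w e) (h : NE F a e w c) : NE F a e' w c := by
  obtain ⟨ε, hε, h1⟩ := h
  refine ⟨ε / r, by positivity, ?_⟩
  filter_upwards [(qmp_scale hr.ne').ae h1] with τ h2 h3 h4
  rw [lt_div_iff₀ hr, mul_comm] at h4
  have h5 := h2 (by positivity) h4
  rw [cr_add_right, cr_smul_right] at h5 ⊢
  rw [he]
  rw [show τ * (r * cr w e) = r * τ * cr w e by ring]
  exact h5

theorem out_of_cone (hn : 3 ≤ n) {p k q : Fin n}
    (hkq : IsSide v k q) (hpk : IsSide v p k) {w : ℂ} (h1 : cr w (v q - v k) < 0)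
    (h2 : 0 < cr w (v p - v k)) : Out v k w := by
  set e1 := v q - v k with he1
  set e2 := v p - v k with he2
  have hpq : p ≠ q := by
    rintro rfl
    exact not_both_sides hn hkq hpk
  have hD : 0 < cr e1 e2 := hkq.2 p hpk.1 hpq
  -- the open triangle
  set U : Set ℂ := {y | 0 < cr e1 (y - v k) ∧ 0 < cr (y - v k) e2 ∧
    cr e1 (y - v k) + cr (y - v k) e2 < cr e1 e2} with hU
  have hUo : IsOpen U := by
    have c1 : Continuous (fun y : ℂ => cr e1 (y - v k)) := by unfold cr; fun_prop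
    have c2 : Continuous (fun y : ℂ => cr (y - v k) e2) := by unfold cr; fun_prop
    exact (isOpen_lt continuous_const c1).inter ((isOpen_lt continuous_const c2).inter
      (isOpen_lt (c1.add c2) continuous_const))
  have hUK : U ⊆ KK v := by
    rintro y ⟨y1, y2, y3⟩
    -- barycentric coordinates
    set α := cr (y - v k) e2 / cr e1 e2 with hα
    set β := cr e1 (y - v k) / cr e1 e2 with hβ
    have hα0 : 0 < α := div_pos y2 hD
    have hβ0 : 0 < β := div_pos y1 hD
    have hαβ : α + β < 1 := by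
      rw [hα, hβ, ← add_div, div_lt_one hD]
      linarith
    have hid : ((cr e1 e2 : ℝ) : ℂ) * (y - v k) =
        ((cr (y - v k) e2 : ℝ) : ℂ) * e1 + ((cr e1 (y - v k) : ℝ) : ℂ) * e2 := by
      apply Complex.ext
      · simp only [cr, add_re, mul_re, ofReal_re, ofReal_im]; ring
      · simp only [cr, add_im, mul_im, ofReal_re, ofReal_im]; ring
    have hdec : y - v k = (α : ℂ) * e1 + (β : ℂ) * e2 := by
      have hDc : ((cr e1 e2 : ℝ) : ℂ) ≠ 0 := by exact_mod_cast hD.ne'
      rw [hα, hβ, ofReal_div, ofReal_div]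
      field_simp
      linear_combination hid
    have hy : y = ((1 - α - β : ℝ) : ℂ) * v k + (α : ℂ) * v q + (β : ℂ) * v p := by
      have e1' : (α : ℂ) * e1 = (α : ℂ) * v q - (α : ℂ) * v k := by rw [he1]; ring
      have e2' : (β : ℂ) * e2 = (β : ℂ) * v p - (β : ℂ) * v k := by rw [he2]; ring
      rw [e1', e2'] at hdec
      push_cast
      linear_combination hdec
    have hc := convex_KK (v := v)
    have hs : (α + β) ≠ 0 := by positivity
    have hmid : ((α / (α + β) : ℝ) : ℂ) * v q + ((β / (α + β) : ℝ) : ℂ) * v p ∈ KK v := by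
      have := hc (vert_mem_KK q) (vert_mem_KK p) (a := α / (α + β)) (b := β / (α + β))
        (by positivity) (by positivity) (by field_simp)
      simpa only [real_smul] using this
    have := hc (vert_mem_KK k) hmid (a := 1 - α - β) (b := α + β) (by linarith) (by positivity)
      (by ring)
    simp only [real_smul] at this
    rw [hy]
    convert this using 1
    have h3 : ((α + β : ℝ) : ℂ) * ((α / (α + β) : ℝ) : ℂ) = α := by
      rw [← ofReal_mul]; congr 1; field_simp
    have h4 : ((α + β : ℝ) : ℂ) * ((β / (α + β) : ℝ) : ℂ) = β := by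
      rw [← ofReal_mul]; congr 1; field_simp
    rw [mul_add, ← mul_assoc, ← mul_assoc, h3, h4]
    ring
  have hUP : U ⊆ PP v := interior_maximal hUK hUo
  -- small multiples of `w`
  have hpos1 : 0 < cr e1 w := by rw [cr_swap]; linarith
  refine ⟨cr e1 e2 / (2 * (cr e1 w + cr w e2)), by positivity, fun t ht ht2 => hUP ?_⟩
  have e : v k + (t : ℂ) * w - v k = (t : ℂ) * w := by ring
  rw [le_div_iff₀ (by positivity)] at ht2
  refine ⟨?_, ?_, ?_⟩
  · rw [e, cr_smul_right]; positivity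
  · rw [e, cr_smul_left]; positivity
  · rw [e, cr_smul_right, cr_smul_left]
    nlinarith

theorem ae_cr_ne (e : ℂ) (he : e ≠ 0) : ∀ᵐ w : ℂ, cr w e ≠ 0 := by
  filter_upwards [ae_not_mem_line e] with w hw h
  apply hw
  rw [cr_swap, neg_eq_zero] at h
  obtain ⟨t, ht⟩ := (cr_eq_zero_iff he).1 h
  rw [Submodule.mem_span_singleton]
  exact ⟨t, by rw [real_smul]; exact ht.symm⟩

/-- Matching of the two sides at a vertex. -/
theorem NE_match (hn : 3 ≤ n) (hv : ConvexIndependent ℝ v) {F : ℂ → ℝ → ℝ} {p k q : Fin n}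
    (hkq : IsSide v k q) (hpk : IsSide v p k)
    (hLC : ∀ᵐ θ : ℂ, (Out v k θ ∨ Out v k (-θ)) → LC F θ (cr θ (v k))) :
    ∀ᵐ w : ℂ, ∀ c, (NE F (v k) (v q - v k) w c ↔ NE F (v k) (v p - v k) w c) := by
  have hne1 := v_sub_ne hv hkq.1
  have hne2 := v_sub_ne hv (Ne.symm hpk.1)
  filter_upwards [hLC, ae_cr_ne _ hne1, ae_cr_ne _ hne2] with w h1 h2 h3 c
  have hLCcase : LC F w (cr w (v k)) →
      (NE F (v k) (v q - v k) w c ↔ NE F (v k) (v p - v k) w c) := by
    rintro ⟨c₀, hc₀⟩
    have g1 := NE_of_LCv h2 hc₀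
    have g2 := NE_of_LCv h3 hc₀
    constructor
    · intro h; rw [NE_unique h g1]; exact g2
    · intro h; rw [NE_unique h g2]; exact g1
  rcases lt_or_gt_of_ne h2 with s1 | s1 <;> rcases lt_or_gt_of_ne h3 with s2 | s2
  · -- same side
    have e1 : cr w (v p - v k) = (cr w (v p - v k) / cr w (v q - v k)) * cr w (v q - v k) := by
      field_simp
    have e2 : cr w (v q - v k) = (cr w (v q - v k) / cr w (v p - v k)) * cr w (v p - v k) := by
      field_simp
    exact ⟨fun h => NE_same (div_pos_of_neg_of_neg s2 s1) e1 h,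
      fun h => NE_same (div_pos_of_neg_of_neg s1 s2) e2 h⟩
  · exact hLCcase (h1 (Or.inl (out_of_cone hn hkq hpk s1 s2)))
  · refine hLCcase (h1 (Or.inr (out_of_cone hn hkq hpk ?_ ?_)))
    · rw [cr_neg_left]; linarith
    · rw [cr_neg_left]; linarith
  · have e1 : cr w (v p - v k) = (cr w (v p - v k) / cr w (v q - v k)) * cr w (v q - v k) := by
      field_simp
    have e2 : cr w (v q - v k) = (cr w (v q - v k) / cr w (v p - v k)) * cr w (v p - v k) := by
      field_simp
    exact ⟨fun h => NE_same (div_pos s2 s1) e1 h, fun h => NE_same (div_pos s1 s2) e2 h⟩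

end Pool.Agent.Lib.Bil
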