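import Pool.Agent.Lib.MP_7bc51d_an.Label

set_option autoImplicit false

namespace Pool.Agent.Lib.Bil

open Complex MeasureTheory Set Filter
open scoped ComplexConjugate Topology ENNReal

variable {n : ℕ} {v : Fin n → ℂ}

theorem measurableSet_NE {F : ℂ → ℝ → ℝ} (hF : LF F) (a e : ℂ) (c : ℝ) :
    MeasurableSet {w : ℂ | NE F a e w c} := by
  have h1 : ∀ N : ℕ, MeasurableSet {w : ℂ |
      volume {τ : ℝ | 0 < τ ∧ τ < 1 / ((N : ℝ) + 1) ∧ F w (cr w (a + (τ : ℂ) * e)) ≠ c} = 0} := by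
    intro N
    have hS : MeasurableSet {z : ℂ × ℝ | 0 < z.2 ∧ z.2 < 1 / ((N : ℝ) + 1) ∧
        F z.1 (cr z.1 (a + (z.2 : ℂ) * e)) ≠ c} := by
      have a1 : Measurable (fun z : ℂ × ℝ => (z.1, cr z.1 (a + (z.2 : ℂ) * e))) := by
        have : Continuous (fun z : ℂ × ℝ => (z.1, cr z.1 (a + (z.2 : ℂ) * e))) := by
          unfold cr; fun_prop
        exact this.measurable
      have a2 : Measurable (fun z : ℂ × ℝ => F z.1 (cr z.1 (a + (z.2 : ℂ) * e))) :=
        Measurable.comp (g := fun p : ℂ × ℝ => F p.1 p.2) hF.meas a1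
      exact (measurableSet_lt measurable_const measurable_snd).inter
        ((measurableSet_lt measurable_snd measurable_const).inter
          ((a2 (measurableSet_singleton c)).compl))
    have h2 := measurable_measure_prodMk_left (ν := (volume : Measure ℝ)) hS
    exact h2 (measurableSet_singleton 0)
  have h2 : {w : ℂ | NE F a e w c} = ⋃ N : ℕ, {w : ℂ |
      volume {τ : ℝ | 0 < τ ∧ τ < 1 / ((N : ℝ) + 1) ∧ F w (cr w (a + (τ : ℂ) * e)) ≠ c} = 0} := by
    ext w
    simp only [mem_ofPred_eq, mem_iUnion]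
    constructor
    · rintro ⟨ε, hε, hc⟩
      obtain ⟨N, hN⟩ := exists_nat_one_div_lt hε
      refine ⟨N, ?_⟩
      rw [measure_eq_zero_iff_ae_notMem]
      filter_upwards [hc] with τ hτ hmem
      exact hmem.2.2 (hτ hmem.1 (hmem.2.1.trans hN))
    · rintro ⟨N, h⟩
      refine ⟨1 / ((N : ℝ) + 1), by positivity, ?_⟩
      filter_upwards [measure_eq_zero_iff_ae_notMem.1 h] with τ h1 h2 h3
      by_contra hcon
      exact h1 ⟨h2, h3, hcon⟩
  rw [h2]
  exact MeasurableSet.iUnion h1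

theorem NE_cone {F : ℂ → ℝ → ℝ}
    (hcF : ∀ r : ℝ, 0 < r → ∀ (w : ℂ) (Q : ℝ), F ((r : ℂ) * w) (r * Q) = F w Q) (a e w : ℂ)
    {r : ℝ} (hr : 0 < r) (c : ℝ) : NE F a e w c ↔ NE F a e ((r : ℂ) * w) c := by
  unfold NE
  simp_rw [cr_smul_left, hcF r hr]

/-- Rotation invariance of the values at a vertex. -/
theorem NE_rot (hn : 3 ≤ n) (hv : ConvexIndependent ℝ v) {F : ℂ → ℝ → ℝ} {p k q : Fin n}
    (hkq : IsSide v k q) (hpk : IsSide v p k)
    (hS1 : SymAt F (v k) (v q - v k)) (hS2 : SymAt F (v k) (v p - v k))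
    (hLC : ∀ᵐ θ : ℂ, (Out v k θ ∨ Out v k (-θ)) → LC F θ (cr θ (v k))) {c₀ : ℂ}
    (hc₀ : ∀ w : ℂ, rl (v p - v k) (rl (v q - v k) w) = c₀ * w) :
    ∀ᵐ w : ℂ, ∀ c, (NE F (v k) (v q - v k) w c ↔ NE F (v k) (v q - v k) (c₀ * w) c) := by
  have hne1 := v_sub_ne hv hkq.1
  have hne2 := v_sub_ne hv (Ne.symm hpk.1)
  have hmp : MeasurePreserving (fun w : ℂ => c₀ * w) volume volume := by
    have := (mp_rl hne2).comp (mp_rl hne1)
    convert this using 1
    funext w
    exact (hc₀ w).symm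
  have h1 := NE_refl hS1
  have h2 := (mp_rl hne1).quasiMeasurePreserving.ae (NE_match hn hv hkq hpk hLC)
  have h3 := (mp_rl hne1).quasiMeasurePreserving.ae (NE_refl hS2)
  have h4 := hmp.quasiMeasurePreserving.ae (NE_match hn hv hkq hpk hLC)
  filter_upwards [h1, h2, h3, h4] with w g1 g2 g3 g4 c
  rw [g1 c, g2 c, g3 c, hc₀, ← g4 c]

theorem exists_Out (hn : 3 ≤ n) (hv : ConvexIndependent ℝ v) (k : Fin n) :
    volume {θ : ℂ | Out v k θ} ≠ 0 := by
  obtain ⟨y, hy⟩ := PP_nonempty hn hv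
  have hmem : Out v k (y - v k) := by
    refine ⟨1, one_pos, fun t ht ht2 => ?_⟩
    rcases eq_or_lt_of_le ht2 with rfl | ht3
    · simpa using hy
    apply convex_KK.openSegment_self_interior_subset_interior (vert_mem_KK k) hy
    rw [openSegment_eq_image]
    refine ⟨t, ⟨ht, ht3⟩, ?_⟩
    simp only [real_smul]
    push_cast
    ring
  exact ((isOpen_Out (v := v) k).measure_pos volume ⟨_, hmem⟩).ne'

theorem label (hn : 3 ≤ n) (hv : ConvexIndependent ℝ v) {F : ℂ → ℝ → ℝ} (hF : LF F)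
    (h01 : ∀ w q, F w q = 0 ∨ F w q = 1)
    (hcF : ∀ r : ℝ, 0 < r → ∀ (w : ℂ) (Q : ℝ), F ((r : ℂ) * w) (r * Q) = F w Q)
    {p k q : Fin n} (hkq : IsSide v k q) (hpk : IsSide v p k)
    (hS1 : SymAt F (v k) (v q - v k)) (hS2 : SymAt F (v k) (v p - v k))
    (hLC : ∀ᵐ θ : ℂ, (Out v k θ ∨ Out v k (-θ)) → LC F θ (cr θ (v k)))
    (hirr : ∀ m : ℕ, 0 < m → (((v q - v k) / (v p - v k)) ^ m).im ≠ 0) :
    (∀ᵐ w : ℂ, NE F (v k) (v q - v k) w 0) ∨ (∀ᵐ w : ℂ, NE F (v k) (v q - v k) w 1) := by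
  have hne := v_sub_ne hv hkq.1
  have hne' := v_sub_ne hv (Ne.symm hpk.1)
  have hrot := fun (c₀ : ℂ) (h : ∀ w : ℂ, rl (v p - v k) (rl (v q - v k) w) = c₀ * w) =>
    NE_rot hn hv hkq hpk hS1 hS2 hLC h
  set a := v q - v k with ha
  set a' := v p - v k with ha'
  have hca : conj a ≠ 0 := by simpa using hne
  have hca' : conj a' ≠ 0 := by simpa using hne'
  set c : ℂ := a' / conj a' * (conj a / a) with hc
  have hcw : ∀ w : ℂ, rl a' (rl a w) = c * w := by
    intro w
    simp only [rl, map_mul, map_div₀, conj_conj, hc]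
    ring
  have hcn : ‖c‖ = 1 := by
    have h1 : ‖a‖ ≠ 0 := by simpa using hne
    have h2 : ‖a'‖ ≠ 0 := by simpa using hne'
    rw [hc, norm_mul, norm_div, norm_div, RCLike.norm_conj, RCLike.norm_conj]
    field_simp
  have hinv := hrot c hcw
  have hord : ∀ m : ℕ, 0 < m → c ^ m ≠ 1 := by
    intro m hm h
    apply hirr m hm
    have hz : (a / a') ≠ 0 := div_ne_zero hne hne'
    have h1 : c = conj (a / a') / (a / a') := by
      rw [hc, map_div₀]; field_simp
    rw [h1, div_pow, div_eq_one_iff_eq (pow_ne_zero _ hz), ← map_pow] at h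
    exact Complex.conj_eq_iff_im.1 h
  have hdich : ∀ d : ℝ, volume {w : ℂ | NE F (v k) a w d} = 0 ∨
      volume {w : ℂ | NE F (v k) a w d}ᶜ = 0 := by
    intro d
    refine rot_ergodic (measurableSet_NE hF _ _ _) (fun z r hr => NE_cone hcF _ _ _ hr d) hcn
      hord ?_
    filter_upwards [hinv] with w hw
    exact hw d
  rcases hdich 0 with h0 | h0
  · rcases hdich 1 with h1 | h1
    · exfalso
      apply exists_Out hn hv k
      rw [measure_eq_zero_iff_ae_notMem]
      filter_upwards [hLC, measure_eq_zero_iff_ae_notMem.1 h0, measure_eq_zero_iff_ae_notMem.1 h1,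
        ae_cr_ne a hne] with w g1 g2 g3 g4 g5
      obtain ⟨d, hd⟩ := g1 (Or.inl g5)
      have g6 := NE_of_LCv g4 hd
      have hd01 : d = 0 ∨ d = 1 := by
        obtain ⟨ε, hε, hc⟩ := hd
        by_contra hcon
        push Not at hcon
        have : ∀ᵐ q : ℝ, q ∉ Metric.ball (cr w (v k)) ε := by
          filter_upwards [hc] with q hq hmem
          rw [Metric.mem_ball, Real.dist_eq] at hmem
          have h3 := hq hmem
          rcases h01 w q with h4 | h4
          · exact hcon.1 (by rw [← h3, h4])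
          · exact hcon.2 (by rw [← h3, h4])
        have h5 := measure_eq_zero_iff_ae_notMem.2 this
        exact (Metric.measure_ball_pos volume (cr w (v k)) hε).ne' h5
      rcases hd01 with rfl | rfl
      · exact g2 g6
      · exact g3 g6
    · right
      filter_upwards [measure_eq_zero_iff_ae_notMem.1 h1] with w hw
      simpa using hw
  · left
    filter_upwards [measure_eq_zero_iff_ae_notMem.1 h0] with w hw
    simpa using hw

end Pool.Agent.Lib.Bil
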