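import Pool.Agent.Lib.MP_7bc51d_an.Label2

set_option autoImplicit false

namespace Pool.Agent.Lib.Bil

open Complex MeasureTheory Set Filter
open scoped ComplexConjugate Topology ENNReal

variable {n : ℕ} {v : Fin n → ℂ}

/-- Transport of a strip of constancy until it contains a vertex. -/
theorem strip_transport (hv : ConvexIndependent ℝ v) {F : ℂ → ℝ → ℝ} {w x : ℂ} {ε c : ℝ}
    (hgood : GoodDir v F w) (h0 : ∀ᵐ q : ℝ, |q - cr w x| < ε → F w q = c) :
    ∀ g : List (Fin n × Fin n), Rz v g x w →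
      (∀ᵐ q : ℝ, |q - cr (Lo v g w) (Fo v g x)| < ε → F (Lo v g w) q = c) ∨
      ∃ g' : List (Fin n × Fin n), ∃ l, Rz v g' x w ∧ |cr (Lo v g' w) (v l - Fo v g' x)| < ε ∧
        ∀ᵐ q : ℝ, |q - cr (Lo v g' w) (Fo v g' x)| < ε → F (Lo v g' w) q = c := by
  intro g
  induction g with
  | nil => intro _; left; exact h0
  | cons s g ih =>
    rintro ⟨h1, h2, h3, h4⟩
    rcases ih h1 with h5 | h5
    · by_cases hl : ∃ l, |cr (Lo v g w) (v l - Fo v g x)| < ε
      · obtain ⟨l, hl⟩ := hl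
        exact Or.inr ⟨g, l, h1, hl, h5⟩
      · left
        push Not at hl
        have k1 := hl s.1
        have k2 := hl s.2
        rw [cr_sub_right] at k1 k2
        have e1 : cr (Lo v g w) (v s.1) + ε ≤ cr (Lo v g w) (Fo v g x) := by
          rw [abs_of_neg (by linarith)] at k1
          linarith
        have e2 : cr (Lo v g w) (Fo v g x) + ε ≤ cr (Lo v g w) (v s.2) := by
          rw [abs_of_pos (by linarith)] at k2
          linarith
        have h6 := interval_reflect (hgood g h1.val s h2) e1 e2 h5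
        rw [← rfh_eq s (v_sub_ne hv h2.1)] at h6
        exact h6
    · exact Or.inr h5

/-- If all vertices have the value `c₀`, no other value is attained on an interval. -/
theorem lemma_E (hn : 3 ≤ n) (hv : ConvexIndependent ℝ v) {F : ℂ → ℝ → ℝ}
    (hgood : ∀ᵐ w : ℂ, GoodDir v F w) {c₀ c : ℝ} (hc : c ≠ c₀) (e : Fin n → ℂ)
    (he : ∀ k, e k ≠ 0) (hlab : ∀ k, ∀ᵐ w : ℂ, NE F (v k) (e k) w c₀) :
    ∀ᵐ w : ℂ, ∀ x ∈ PP v, ¬ LCv F w (cr w x) c := by
  have hall : ∀ᵐ w : ℂ, ∀ k : Fin n, NE F (v k) (e k) w c₀ ∧ cr w (e k) ≠ 0 := by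
    rw [ae_all_iff]; intro k
    filter_upwards [hlab k, ae_cr_ne _ (he k)] with w h1 h2
    exact ⟨h1, h2⟩
  have h0 : ∀ᵐ w : ℂ, w ≠ 0 := by simp [ae_iff]
  filter_upwards [hgood, ae_Lo hv hall, strip hn hv, h0] with w g1 g2 g3 g4 x hx hLC
  obtain ⟨ε, hε, h1⟩ := hLC
  have hnw : 0 < ‖w‖ := norm_pos_iff.2 g4
  have h2 := g3 x hx (ε / ‖w‖) (by positivity)
  unfold SF at h2
  push Not at h2
  obtain ⟨g, hg, l, hl⟩ := h2
  rw [div_mul_cancel₀ _ hnw.ne'] at hl
  have h3 : ∃ g' : List (Fin n × Fin n), ∃ l, Rz v g' x w ∧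
      |cr (Lo v g' w) (v l - Fo v g' x)| < ε ∧
      ∀ᵐ q : ℝ, |q - cr (Lo v g' w) (Fo v g' x)| < ε → F (Lo v g' w) q = c := by
    rcases strip_transport hv g1 h1 g hg with h4 | h4
    · exact ⟨g, l, hg, hl, h4⟩
    · exact h4
  obtain ⟨g', l', k1, k2, k3⟩ := h3
  rw [cr_sub_right] at k2
  have k4 : LCv F (Lo v g' w) (cr (Lo v g' w) (v l')) c := by
    refine ⟨ε - |cr (Lo v g' w) (v l') - cr (Lo v g' w) (Fo v g' x)|, by linarith, ?_⟩
    filter_upwards [k3] with q h5 h6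
    apply h5
    have h7 := abs_add_le (q - cr (Lo v g' w) (v l'))
      (cr (Lo v g' w) (v l') - cr (Lo v g' w) (Fo v g' x))
    rw [sub_add_sub_cancel] at h7
    linarith
  obtain ⟨m1, m2⟩ := g2 g' k1.val l'
  exact hc (NE_unique (NE_of_LCv m2 k4) m1)

/-- A line through a point of `PP v` meets it in positive length. -/
theorem height_mem {w x : ℂ} (hw : w ≠ 0) (hx : x ∈ PP v) :
    volume {s : ℝ | bs w (cr w x) + (s : ℂ) * w ∈ PP v} ≠ 0 := by
  have hopen : IsOpen {s : ℝ | bs w (cr w x) + (s : ℂ) * w ∈ PP v} :=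
    isOpen_PP.preimage (by fun_prop)
  refine (hopen.measure_pos volume ⟨dt w x / (w.re ^ 2 + w.im ^ 2), ?_⟩).ne'
  change bs w (cr w x) + ((dt w x / (w.re ^ 2 + w.im ^ 2) : ℝ) : ℂ) * w ∈ PP v
  rw [bs_eq hw]
  exact hx

/-- Disjoint sets have disjoint line functions. -/
theorem FA_disjoint {A A' : Set (ℂ × ℂ)} (hA : MeasurableSet A) (hA' : MeasurableSet A')
    (hch : ∀ᵐ w, ChordAt v A w)
    (hch' : ∀ᵐ w, ChordAt v A' w) (h : volume (A ∩ A' ∩ DD v) = 0) :
    ∀ᵐ w : ℂ, ‖w‖ < 1 → ∀ᵐ Q : ℝ, (∃ x ∈ PP v, cr w x = Q) →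
      ¬ (FA v A w Q = 1 ∧ FA v A' w Q = 1) := by
  have h1 : ∀ᵐ w : ℂ, volume {x : ℂ | (x, w) ∈ A ∩ A' ∩ DD v} = 0 := by
    have hm : MeasurableSet (A ∩ A' ∩ DD v) := (hA.inter hA').inter measurableSet_DD
    rw [Measure.volume_eq_prod, Measure.prod_apply_symm hm] at h
    have h2 := (lintegral_eq_zero_iff (measurable_measure_prodMk_right hm)).1 h
    filter_upwards [h2] with w hw
    exact hw
  have h0 : ∀ᵐ w : ℂ, w ≠ 0 := by simp [ae_iff]
  filter_upwards [h1, FA_ae hch, FA_ae hch', h0] with w g1 g2 g3 g4 g5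
  have h2 : ∀ᵐ x : ℂ, x ∈ PP v → ¬ (FA v A w (cr w x) = 1 ∧ FA v A' w (cr w x) = 1) := by
    filter_upwards [measure_eq_zero_iff_ae_notMem.1 g1, g2, g3] with x k1 k2 k3 k4 k5
    apply k1
    rw [k2 k4, k3 k4] at k5
    have m1 : (x, w) ∈ A := by
      by_contra hcon
      rw [indicator_of_notMem hcon] at k5
      exact zero_ne_one k5.1
    have m2 : (x, w) ∈ A' := by
      by_contra hcon
      rw [indicator_of_notMem hcon] at k5
      exact zero_ne_one k5.2
    exact ⟨⟨m1, m2⟩, mem_DD.2 ⟨k4, g5⟩⟩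
  filter_upwards [ae_chi g4 h2] with Q hQ hx hcon
  obtain ⟨x, hx, rfl⟩ := hx
  apply height_mem g4 hx
  rw [measure_eq_zero_iff_ae_notMem]
  filter_upwards [hQ] with s hs hmem
  have := hs hmem
  rw [cr_add_right, cr_bs g4, cr_smul_right, cr_self, mul_zero, add_zero] at this
  exact this hcon

/-- Two almost disjoint sets cannot both have the value `1` at a vertex. -/
theorem label_disjoint (hn : 3 ≤ n) (hv : ConvexIndependent ℝ v) {A A' : Set (ℂ × ℂ)}
    (hA : MeasurableSet A) (hA' : MeasurableSet A') (hch : ∀ᵐ w, ChordAt v A w)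
    (hch' : ∀ᵐ w, ChordAt v A' w) (h : volume (A ∩ A' ∩ DD v) = 0) {k q : Fin n}
    (hkq : IsSide v k q) (h1 : ∀ᵐ w : ℂ, NE (FA v A) (v k) (v q - v k) w 1)
    (h2 : ∀ᵐ w : ℂ, NE (FA v A') (v k) (v q - v k) w 1) : False := by
  have hne := v_sub_ne hv hkq.1
  have h3 := FA_disjoint hA hA' hch hch' h
  have hall : ∀ᵐ w : ℂ, ‖w‖ < 1 → False := by
    filter_upwards [h1, h2, h3, ae_cr_ne _ hne] with w g1 g2 g3 g4 g5
    obtain ⟨ε, hε, e1⟩ := g1
    obtain ⟨ε', hε', e2⟩ := g2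
    have e3 := (qmp_affine (a := cr w (v k)) g4).ae (g3 g5)
    have hmin : 0 < min (min ε ε') 1 := lt_min (lt_min hε hε') one_pos
    have h4 : ∀ᵐ τ : ℝ, τ ∉ Ioo 0 (min (min ε ε') 1) := by
      filter_upwards [e1, e2, e3] with τ k1 k2 k3 hτ
      have t1 : τ < ε := hτ.2.trans_le ((min_le_left _ _).trans (min_le_left _ _))
      have t2 : τ < ε' := hτ.2.trans_le ((min_le_left _ _).trans (min_le_right _ _))
      have t3 : τ < 1 := hτ.2.trans_le (min_le_right _ _)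
      have k4 := k1 hτ.1 t1
      have k5 := k2 hτ.1 t2
      rw [cr_add_right, cr_smul_right] at k4 k5
      refine k3 ?_ ⟨k4, k5⟩
      -- an interior point of the same height
      rcases lt_or_gt_of_ne g4 with h5 | h5
      · have h6 : 0 < cr (v q - v k) w := by rw [cr_swap]; linarith
        obtain ⟨η, hη, hin⟩ := inward hn hv hkq hτ.1 t3 h6
        refine ⟨_, hin η hη le_rfl, ?_⟩
        rw [cr_add_right, cr_add_right, cr_smul_right, cr_smul_right, cr_self]; ring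
      · have h6 : 0 < cr (v q - v k) (-w) := by rw [cr_neg_right, cr_swap]; linarith
        obtain ⟨η, hη, hin⟩ := inward hn hv hkq hτ.1 t3 h6
        refine ⟨_, hin η hη le_rfl, ?_⟩
        rw [cr_add_right, cr_add_right, cr_smul_right, cr_smul_right, cr_neg_right, cr_self]; ring
    have h5 := measure_eq_zero_iff_ae_notMem.2 h4
    rw [Real.volume_Ioo, ENNReal.ofReal_eq_zero] at h5
    linarith
  have h6 : volume (Metric.ball (0 : ℂ) 1) = 0 := by
    rw [measure_eq_zero_iff_ae_notMem]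
    filter_upwards [hall] with w hw hmem
    rw [Metric.mem_ball, dist_zero_right] at hmem
    exact hw hmem
  exact (Metric.measure_ball_pos volume (0 : ℂ) one_pos).ne' h6

end Pool.Agent.Lib.Bil
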