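import Pool.Agent.Lib.MP_7bc51d_an.LineFn

set_option autoImplicit false

namespace Pool.Agent.Lib.Bil

open Complex MeasureTheory Set Filter
open scoped ComplexConjugate Topology ENNReal

variable {n : ℕ} {v : Fin n → ℂ}

/-- Coordinates (height, time) adapted to the direction `w`. -/
noncomputable def chi (w : ℂ) (z : ℝ × ℝ) : ℂ := bs w z.1 + (z.2 : ℂ) * w

theorem normsq_eq (w : ℂ) : w.re ^ 2 + w.im ^ 2 = ‖w‖ ^ 2 := by
  rw [← Complex.normSq_eq_norm_sq, Complex.normSq_apply]; ring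

theorem cr_bs {w : ℂ} (hw : w ≠ 0) (Q : ℝ) : cr w (bs w Q) = Q := by
  have h := (esq_pos hw).ne'
  unfold bs
  rw [cr_smul_right]
  have : cr w (I * w) = w.re ^ 2 + w.im ^ 2 := by
    simp only [cr, mul_re, mul_im, I_re, I_im]; ring
  rw [this]
  field_simp

theorem cr_chi {w : ℂ} (hw : w ≠ 0) (z : ℝ × ℝ) : cr w (chi w z) = z.1 := by
  unfold chi
  rw [cr_add_right, cr_bs hw, cr_smul_right, cr_self, mul_zero, add_zero]

theorem mp_scale {r : ℝ} (hr : 0 < r) :
    MeasurePreserving (fun z : ℝ × ℝ => (r * z.2, r⁻¹ * z.1)) volume volume := by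
  have h1 : MeasurePreserving (Prod.swap : ℝ × ℝ → ℝ × ℝ) volume volume :=
    Measure.measurePreserving_swap
  refine ⟨by fun_prop, ?_⟩
  have h2 : (fun z : ℝ × ℝ => (r * z.2, r⁻¹ * z.1)) =
      Prod.map (fun a => r * a) (fun a => r⁻¹ * a) ∘ Prod.swap := by
    funext z; rfl
  rw [h2, ← Measure.map_map (by fun_prop) (by fun_prop), h1.map_eq, Measure.volume_eq_prod,
    ← Measure.map_prod_map _ _ (by fun_prop) (by fun_prop), Real.map_volume_mul_left hr.ne',
    Real.map_volume_mul_left (inv_pos.2 hr).ne', inv_inv, Measure.prod_smul_left,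
    Measure.prod_smul_right, smul_smul, abs_of_pos hr, abs_of_pos (inv_pos.2 hr),
    ← ENNReal.ofReal_mul (by positivity), inv_mul_cancel₀ hr.ne', ENNReal.ofReal_one, one_smul]

theorem mp_chi {w : ℂ} (hw : w ≠ 0) : MeasurePreserving (chi w) volume volume := by
  have hnw : 0 < ‖w‖ := norm_pos_iff.2 hw
  have he1 : ‖w / (‖w‖ : ℂ)‖ = 1 := by
    rw [norm_div, norm_real, norm_norm, div_self hnw.ne']
  have h : chi w = eta (w / (‖w‖ : ℂ)) ∘ (fun z : ℝ × ℝ => (‖w‖ * z.2, ‖w‖⁻¹ * z.1)) := by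
    funext z
    simp only [chi, bs, eta, Function.comp, normsq_eq]
    have h0 : (‖w‖ : ℂ) ≠ 0 := by exact_mod_cast hnw.ne'
    push_cast
    field_simp
    ring
  rw [h]
  exact (mp_eta he1).comp (mp_scale hnw)

theorem chi_emb {w : ℂ} (hw : w ≠ 0) : MeasurableEmbedding (chi w) := by
  have hc : Continuous (chi w) := by
    unfold chi bs; fun_prop
  refine hc.measurableEmbedding ?_
  intro z z' h
  have h1 : z.1 = z'.1 := by rw [← cr_chi hw z, ← cr_chi hw z', h]
  have h2 : (z.2 : ℂ) * w = (z'.2 : ℂ) * w := by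
    unfold chi at h
    rw [h1] at h
    exact add_left_cancel h
  have h3 : (z.2 : ℂ) = z'.2 := mul_right_cancel₀ hw h2
  exact Prod.ext h1 (by exact_mod_cast h3)

/-- almost every height, almost every time -/
theorem ae_chi {w : ℂ} (hw : w ≠ 0) {p : ℂ → Prop} (h : ∀ᵐ y, p y) :
    ∀ᵐ Q : ℝ, ∀ᵐ s : ℝ, p (bs w Q + (s : ℂ) * w) := by
  have h1 : ∀ᵐ z : ℝ × ℝ ∂((volume : Measure ℝ).prod (volume : Measure ℝ)), p (chi w z) :=
    (mp_chi hw).quasiMeasurePreserving.ae h
  exact Measure.ae_ae_of_ae_prod h1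

/-- a property of the height holding almost everywhere holds at almost every point -/
theorem ae_height {w : ℂ} (hw : w ≠ 0) {p : ℝ → Prop} (h : ∀ᵐ Q, p Q) :
    ∀ᵐ y : ℂ, p (cr w y) := by
  rw [ae_iff] at h ⊢
  have h1 : {y | ¬ p (cr w y)} = chi w '' ({Q | ¬ p Q} ×ˢ univ) := by
    ext y
    constructor
    · intro hy
      refine ⟨(cr w y, dt w y / (w.re ^ 2 + w.im ^ 2)), ⟨hy, mem_univ _⟩, bs_eq hw⟩
    · rintro ⟨z, ⟨hz, _⟩, rfl⟩
      change ¬ p (cr w (chi w z))
      rw [cr_chi hw]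
      exact hz
  rw [h1]
  have h2 := (mp_chi hw).measure_preimage_emb (chi_emb hw) (chi w '' ({Q | ¬ p Q} ×ˢ univ))
  rw [preimage_image_eq _ (chi_emb hw).injective] at h2
  rw [← h2, Measure.volume_eq_prod, Measure.prod_prod, h, zero_mul]

/-- The line function is scale invariant. -/
theorem FA_cone {A : Set (ℂ × ℂ)}
    (hcone : ∀ x w : ℂ, ∀ c : ℝ, 0 < c → ((x, w) ∈ A ↔ (x, (c : ℂ) * w) ∈ A)) {r : ℝ} (hr : 0 < r)
    (w : ℂ) (Q : ℝ) : FA v A ((r : ℂ) * w) (r * Q) = FA v A w Q := by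
  have hb : bs ((r : ℂ) * w) (r * Q) = bs w Q := by
    unfold bs
    have h1 : ((r : ℂ) * w).re = r * w.re := by simp
    have h2 : ((r : ℂ) * w).im = r * w.im := by simp
    rw [h1, h2]
    have h3 : r * Q / ((r * w.re) ^ 2 + (r * w.im) ^ 2) = r⁻¹ * (Q / (w.re ^ 2 + w.im ^ 2)) := by
      have : (r * w.re) ^ 2 + (r * w.im) ^ 2 = r * r * (w.re ^ 2 + w.im ^ 2) := by ring
      rw [this]
      field_simp
    rw [h3]
    push_cast
    have : (r : ℂ) ≠ 0 := by exact_mod_cast hr.ne'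
    field_simp
  have hkey : ((r : ℂ) * w, r * Q) ∈ Lset v A ↔ (w, Q) ∈ Lset v A := by
    unfold Lset
    simp only [mem_ofPred_eq, hb]
    have hset : {s : ℝ | bs w Q + (s : ℂ) * ((r : ℂ) * w) ∈ PP v ∧
        (bs w Q + (s : ℂ) * ((r : ℂ) * w), (r : ℂ) * w) ∉ A} =
        (fun s : ℝ => r * s) ⁻¹' {s : ℝ | bs w Q + (s : ℂ) * w ∈ PP v ∧
        (bs w Q + (s : ℂ) * w, w) ∉ A} := by
      ext s
      simp only [mem_ofPred_eq, mem_preimage]
      have e1 : bs w Q + (s : ℂ) * ((r : ℂ) * w) = bs w Q + ((r * s : ℝ) : ℂ) * w := by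
        push_cast; ring
      rw [e1, ← hcone _ w r hr]
    rw [hset, Real.volume_preimage_mul_left hr.ne']
    simp [hr.ne']
  unfold FA
  by_cases h : (w, Q) ∈ Lset v A
  · rw [indicator_of_mem h, indicator_of_mem (hkey.2 h)]; rfl
  · rw [indicator_of_notMem h, indicator_of_notMem (fun h2 => h (hkey.1 h2))]

theorem FA_zero_or_one (A : Set (ℂ × ℂ)) (w : ℂ) (Q : ℝ) : FA v A w Q = 0 ∨ FA v A w Q = 1 := by
  unfold FA
  by_cases h : (w, Q) ∈ Lset v A
  · right; rw [indicator_of_mem h]; rfl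
  · left; rw [indicator_of_notMem h]

/-- `F w` is almost everywhere equal to `c` near the height `Q`. -/
def LCv (F : ℂ → ℝ → ℝ) (w : ℂ) (Q c : ℝ) : Prop :=
  ∃ ε : ℝ, 0 < ε ∧ ∀ᵐ q : ℝ, |q - Q| < ε → F w q = c

/-- `F w` is almost everywhere constant near the height `Q`. -/
def LC (F : ℂ → ℝ → ℝ) (w : ℂ) (Q : ℝ) : Prop := ∃ c : ℝ, LCv F w Q c

/-- Reflection of heights at the side `(i,j)`. -/
noncomputable def rfh (v : Fin n → ℂ) (s : Fin n × Fin n) (w : ℂ) (Q : ℝ) : ℝ :=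
  cr (rl (v s.2 - v s.1) w) (v s.1) + cr w (v s.1) - Q

theorem rfh_eq (s : Fin n × Fin n) (hne : v s.2 - v s.1 ≠ 0) (w x : ℂ) :
    cr (rl (v s.2 - v s.1) w) (RR v s.1 s.2 x) = rfh v s w (cr w x) := by
  unfold RR rfh
  rw [cr_add_right, cr_rl hne, cr_sub_right]
  ring

/-- The line function is reflected correctly at the side `s` in direction `w`. -/
def SymW (v : Fin n → ℂ) (F : ℂ → ℝ → ℝ) (s : Fin n × Fin n) (w : ℂ) : Prop :=
  ∀ᵐ q : ℝ, cr w (v s.1) < q → q < cr w (v s.2) →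
    F (rl (v s.2 - v s.1) w) (rfh v s w q) = F w q

theorem symW_of_symAt {F : ℂ → ℝ → ℝ} {s : Fin n × Fin n} (hne : v s.2 - v s.1 ≠ 0)
    (hs : SymAt F (v s.1) (v s.2 - v s.1)) : ∀ᵐ w : ℂ, SymW v F s w := by
  unfold SymAt at hs
  filter_upwards [hs] with w hw
  unfold SymW
  set e := v s.2 - v s.1 with he
  rcases le_or_gt (cr w e) 0 with h | h
  · refine Eventually.of_forall (fun q h1 h2 => ?_)
    exfalso
    rw [he, cr_sub_right] at h
    linarith
  · have h1 : ∀ᵐ q : ℝ, (q - cr w (v s.1)) / cr w e ∈ Ioo (0 : ℝ) 1 →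
        F (rl e w) (cr (rl e w) (v s.1 + (((q - cr w (v s.1)) / cr w e : ℝ) : ℂ) * e)) =
          F w (cr w (v s.1 + (((q - cr w (v s.1)) / cr w e : ℝ) : ℂ) * e)) := by
      have hq : Measure.QuasiMeasurePreserving (fun q : ℝ => (q - cr w (v s.1)) / cr w e)
          volume volume := by
        have g1 : Measure.QuasiMeasurePreserving (fun q : ℝ => q - cr w (v s.1)) volume volume :=
          (measurePreserving_sub_right volume (cr w (v s.1))).quasiMeasurePreserving
        have g2 : Measure.QuasiMeasurePreserving (fun q : ℝ => (cr w e)⁻¹ * q) volume volume := by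
          refine ⟨by fun_prop, ?_⟩
          rw [Real.map_volume_mul_left (inv_ne_zero h.ne')]
          exact Measure.smul_absolutelyContinuous
        have g3 := g2.comp g1
        have g4 : (fun q : ℝ => (q - cr w (v s.1)) / cr w e) =
            (fun q : ℝ => (cr w e)⁻¹ * q) ∘ (fun q : ℝ => q - cr w (v s.1)) := by
          funext q
          simp only [Function.comp]
          rw [div_eq_inv_mul]
        rw [g4]
        exact g3
      exact hq.ae hw
    filter_upwards [h1] with q hq h2 h3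
    have hmem : (q - cr w (v s.1)) / cr w e ∈ Ioo (0 : ℝ) 1 := by
      constructor
      · apply div_pos _ h; linarith
      · rw [div_lt_one h, he, cr_sub_right]; linarith
    have h4 := hq hmem
    have e1 : cr w (v s.1 + (((q - cr w (v s.1)) / cr w e : ℝ) : ℂ) * e) = q := by
      rw [cr_add_right, cr_smul_right]
      field_simp
      ring
    have e2 : cr (rl e w) (v s.1 + (((q - cr w (v s.1)) / cr w e : ℝ) : ℂ) * e) = rfh v s w q := by
      rw [cr_add_right, cr_smul_right, cr_rl_left hne]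
      unfold rfh
      rw [← he]
      field_simp
      ring
    rw [e1, e2] at h4
    exact h4

end Pool.Agent.Lib.Bil
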