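import Pool.Agent.Lib.MP_7bc51d_an.Chord

set_option autoImplicit false

namespace Pool.Agent.Lib.Bil

open Complex MeasureTheory Set Filter
open scoped ComplexConjugate Topology ENNReal

variable {n : ℕ} {v : Fin n → ℂ}

/-- Coordinates adapted to the direction `w`. -/
noncomputable def psi (x w : ℂ) (z : ℝ × ℝ) : ℂ := x + w * ((z.1 : ℂ) + (z.2 : ℂ) * I)

theorem continuous_psi (x w : ℂ) : Continuous (psi x w) := by
  unfold psi; fun_prop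

theorem psi_measure {x w : ℂ} (hw : w ≠ 0) :
    ∃ c : ℝ≥0∞, c ≠ 0 ∧ c ≠ ⊤ ∧ ∀ T : Set ℂ, c * volume (psi x w ⁻¹' T) = volume T := by
  set L : ℂ →ₗ[ℝ] ℂ := LinearMap.mulLeft ℝ w with hL
  have hLinj : Function.Injective L := by
    intro a b hab
    rw [hL, LinearMap.mulLeft_apply, LinearMap.mulLeft_apply] at hab
    exact mul_left_cancel₀ hw hab
  have hdet : LinearMap.det L ≠ 0 := by
    have hb : Function.Bijective L := ⟨hLinj, LinearMap.injective_iff_surjective.1 hLinj⟩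
    have := (LinearEquiv.ofBijective L hb).isUnit_det'
    exact this.ne_zero
  have h1 : ∀ T : Set ℂ, volume (L ⁻¹' T) = ENNReal.ofReal |(LinearMap.det L)⁻¹| * volume T :=
    fun T => Measure.addHaar_preimage_linearMap volume hdet T
  have h2 : ∀ T : Set ℂ, volume ((fun y => x + y) ⁻¹' T) = volume T := fun T =>
    measure_preimage_add volume x T
  have h3 : ∀ T : Set ℂ, volume (Complex.measurableEquivRealProd.symm ⁻¹' T) = volume T := fun T =>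
    Complex.volume_preserving_equiv_real_prod.symm.measure_preimage_equiv T
  have h4 : ∀ T : Set ℂ, psi x w ⁻¹' T = Complex.measurableEquivRealProd.symm ⁻¹'
      (L ⁻¹' ((fun y => x + y) ⁻¹' T)) := by
    intro T
    ext z
    simp only [mem_preimage]
    have : psi x w z = x + L (Complex.measurableEquivRealProd.symm z) := by
      rw [hL, LinearMap.mulLeft_apply]
      unfold psi
      congr 2
      rw [Complex.measurableEquivRealProd_symm_apply]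
      apply Complex.ext <;> simp
    rw [this]
  have hpos : 0 < |(LinearMap.det L)⁻¹| := abs_pos.2 (inv_ne_zero hdet)
  refine ⟨(ENNReal.ofReal |(LinearMap.det L)⁻¹|)⁻¹, ?_, ?_, fun T => ?_⟩
  · simp
  · rw [ENNReal.inv_ne_top]
    rwa [ne_eq, ENNReal.ofReal_eq_zero, not_le]
  · rw [h4, h3, h1, h2, ← mul_assoc, ENNReal.inv_mul_cancel, one_mul]
    · rwa [ne_eq, ENNReal.ofReal_eq_zero, not_le]
    · exact ENNReal.ofReal_ne_top

theorem ae_psi {x w : ℂ} (hw : w ≠ 0) {p : ℂ → Prop} (h : ∀ᵐ y, p y) :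
    ∀ᵐ z : ℝ × ℝ, p (psi x w z) := by
  obtain ⟨c, hc0, hc1, hc⟩ := psi_measure (x := x) hw
  rw [ae_iff] at h ⊢
  have := hc {y | ¬ p y}
  rw [h] at this
  rcases mul_eq_zero.1 this with h1 | h1
  · exact absurd h1 hc0
  · exact h1

theorem ae_of_psi {x w : ℂ} (hw : w ≠ 0) {p : ℂ → Prop} (h : ∀ᵐ z : ℝ × ℝ, p (psi x w z)) :
    ∀ᵐ y, p y := by
  obtain ⟨c, hc0, hc1, hc⟩ := psi_measure (x := x) hw
  rw [ae_iff] at h ⊢
  have := hc {y | ¬ p y}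
  rw [← this]
  have h2 : psi x w ⁻¹' {y | ¬ p y} = {z | ¬ p (psi x w z)} := rfl
  rw [h2, h, mul_zero]

theorem two_dim {S : Set (ℝ × ℝ)} (hS : MeasurableSet S) {a₁ a₂ q₁ : ℝ} (ha : 0 < a₁)
    (ha₂ : a₁ < a₂)
    (hch : ∀ᵐ z : ℝ × ℝ, z.1 ∈ Ioo (-a₂) a₂ → z.2 ∈ Ioo (-q₁) q₁ → ∀ a' ∈ Ioo (-a₂) a₂,
      (z ∈ S ↔ (a', z.2) ∈ S)) :
    (∃ q₀ : ℝ, 0 < q₀ ∧ q₀ < q₁ ∧
      ((∀ᵐ z : ℝ × ℝ, z.1 ∈ Ioo (-a₂) a₂ → z.2 ∈ Ioo (-q₀) q₀ → z ∈ S) ∨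
       (∀ᵐ z : ℝ × ℝ, z.1 ∈ Ioo (-a₂) a₂ → z.2 ∈ Ioo (-q₀) q₀ → z ∉ S))) ∨
    ∀ q₀ : ℝ, 0 < q₀ → q₀ < q₁ → ∀ E : Set ℝ, MeasurableSet E → E ⊆ Icc (-a₁) a₁ →
      ∀ᶠ ρ in 𝓝[>] (0 : ℝ), ∀ β : ℝ, |β| < a₂ - a₁ →
        volume E * ENNReal.ofReal (ρ / 2) ≤
          volume {z : ℝ × ℝ | z.1 ∈ E ∧ z.2 ∈ Ioo (-q₀) q₀ ∧
            ¬ (z ∈ S ↔ (z.1 + β, z.2 - ρ) ∈ S)} := by
  have hline : ∀ᵐ q : ℝ, q ∈ Ioo (-q₁) q₁ → ∀ a ∈ Ioo (-a₂) a₂, ∀ a' ∈ Ioo (-a₂) a₂,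
      ((a, q) ∈ S ↔ (a', q) ∈ S) := by
    have h1 : ∀ᵐ z : ℝ × ℝ ∂((volume : Measure ℝ).prod (volume : Measure ℝ)),
        z.2 ∈ Ioo (-a₂) a₂ → z.1 ∈ Ioo (-q₁) q₁ → ∀ a' ∈ Ioo (-a₂) a₂,
        ((z.2, z.1) ∈ S ↔ (a', z.1) ∈ S) := by
      have h0 : MeasurePreserving (Prod.swap : ℝ × ℝ → ℝ × ℝ)
        ((volume : Measure ℝ).prod volume) ((volume : Measure ℝ).prod volume) :=
        Measure.measurePreserving_swap
      exact h0.quasiMeasurePreserving.ae hch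
    have h2 := Measure.ae_ae_of_ae_prod h1
    filter_upwards [h2] with q hq hqI a haI a' haI'
    have hpos : volume (Ioo (-a₂) a₂) ≠ 0 := by
      rw [Real.volume_Ioo, ne_eq, ENNReal.ofReal_eq_zero, not_le]
      linarith
    obtain ⟨b, hbI, hb⟩ : ∃ b ∈ Ioo (-a₂) a₂, ∀ a' ∈ Ioo (-a₂) a₂, ((b, q) ∈ S ↔ (a', q) ∈ S) := by
      by_contra hcon
      push Not at hcon
      apply hpos
      apply measure_mono_null _ hq
      intro b hbI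
      obtain ⟨a', h5, h6⟩ := hcon b hbI
      intro hall
      have := hall hbI hqI a' h5
      tauto
    exact (hb a haI).symm.trans (hb a' haI')
  set Φ : Set ℝ := {q | ((0 : ℝ), q) ∈ S} with hΦ
  have hΦm : MeasurableSet Φ := hS.preimage (Continuous.measurable (by fun_prop))
  have h0I : (0 : ℝ) ∈ Ioo (-a₂) a₂ := ⟨by linarith, by linarith⟩
  have hlineΦ : ∀ᵐ q : ℝ, q ∈ Ioo (-q₁) q₁ → ∀ a ∈ Ioo (-a₂) a₂, ((a, q) ∈ S ↔ q ∈ Φ) := by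
    filter_upwards [hline] with q hq hqI a haI
    exact hq hqI a haI 0 h0I
  have hsnd : ∀ {p : ℝ → Prop}, (∀ᵐ q, p q) → ∀ᵐ z : ℝ × ℝ, p z.2 := by
    intro p hp
    exact Measure.quasiMeasurePreserving_snd.ae hp
  by_cases hcase : ∃ q₀ : ℝ, 0 < q₀ ∧ q₀ < q₁ ∧
      (volume (Ioo (-q₀) q₀ ∩ Φ) = 0 ∨ volume (Ioo (-q₀) q₀ \ Φ) = 0)
  · left
    obtain ⟨q₀, h0, h1, h2⟩ := hcase
    refine ⟨q₀, h0, h1, ?_⟩
    have hsub : ∀ q ∈ Ioo (-q₀) q₀, q ∈ Ioo (-q₁) q₁ := fun q hq =>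
      ⟨by have := hq.1; linarith, by have := hq.2; linarith⟩
    rcases h2 with h2 | h2
    · right
      have h3 : ∀ᵐ q : ℝ, q ∉ Ioo (-q₀) q₀ ∩ Φ := measure_eq_zero_iff_ae_notMem.1 h2
      filter_upwards [hsnd hlineΦ, hsnd h3] with z hz1 hz2 ha hq hzS
      exact hz2 ⟨hq, (hz1 (hsub _ hq) z.1 ha).1 hzS⟩
    · left
      have h3 : ∀ᵐ q : ℝ, q ∉ Ioo (-q₀) q₀ \ Φ := measure_eq_zero_iff_ae_notMem.1 h2
      filter_upwards [hsnd hlineΦ, hsnd h3] with z hz1 hz2 ha hq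
      by_contra hzS
      exact hz2 ⟨hq, fun h => hzS ((hz1 (hsub _ hq) z.1 ha).2 h)⟩
  · right
    push Not at hcase
    intro q₀ h0 h1 E hE hEsub
    obtain ⟨g1, g2⟩ := hcase q₀ h0 h1
    have hsub : ∀ q ∈ Ioo (-q₀) q₀, q ∈ Ioo (-q₁) q₁ := fun q hq =>
      ⟨by have := hq.1; linarith, by have := hq.2; linarith⟩
    have hsmall : ∀ᶠ ρ in 𝓝[>] (0 : ℝ), ρ < q₁ - q₀ :=
      nhdsWithin_le_nhds (gt_mem_nhds (by linarith))
    filter_upwards [one_dim hΦm g1 g2, hsmall, self_mem_nhdsWithin] with ρ hρ1 hρ2 hρ3 β hβ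
    have hρ3' : 0 < ρ := hρ3
    set D : Set ℝ := {q | q ∈ Ioo (-q₀) q₀ ∧ ¬ (q ∈ Φ ↔ q - ρ ∈ Φ)} with hD
    calc volume E * ENNReal.ofReal (ρ / 2) ≤ volume E * volume D := by gcongr
      _ = volume (E ×ˢ D) := by
          rw [Measure.volume_eq_prod, Measure.prod_prod]
      _ ≤ _ := by
          apply measure_mono_ae
          have h5 : ∀ᵐ q : ℝ, q - ρ ∈ Ioo (-q₁) q₁ → ∀ a ∈ Ioo (-a₂) a₂,
              ((a, q - ρ) ∈ S ↔ q - ρ ∈ Φ) :=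
            (measurePreserving_sub_right volume ρ).quasiMeasurePreserving.ae hlineΦ
          filter_upwards [hsnd hlineΦ, hsnd h5] with z hz1 hz2 hz
          obtain ⟨hzE, hzD⟩ := hz
          have hzE' := hEsub hzE
          have hβ' := abs_lt.1 hβ
          refine ⟨hzE, hzD.1, ?_⟩
          have e1 := hz1 (hsub _ hzD.1) z.1 ⟨by linarith [hzE'.1], by linarith [hzE'.2]⟩
          have e2 := hz2 ⟨by linarith [hzD.1.1], by linarith [hzD.1.2]⟩ (z.1 + β)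
            ⟨by linarith [hzE'.1], by linarith [hzE'.2]⟩
          have e3 : z ∈ S ↔ (z.1, z.2) ∈ S := Iff.rfl
          rw [e3, e1, e2]
          exact hzD.2

end Pool.Agent.Lib.Bil
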