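import Pool.Agent.Lib.MP_7bc51d_an.Fatou

set_option autoImplicit false

namespace Pool.Agent.Lib.Bil

open Complex MeasureTheory Set Filter
open scoped ComplexConjugate Topology ENNReal

variable {n : ℕ} {v : Fin n → ℂ}

/-- `A` is invariant along the chords of direction `w`. -/
def ChordAt (v : Fin n → ℂ) (A : Set (ℂ × ℂ)) (w : ℂ) : Prop :=
  ∀ᵐ x : ℂ, x ∈ PP v → ∀ s : ℝ, x + (s : ℂ) * w ∈ PP v →
    ((x, w) ∈ A ↔ (x + (s : ℂ) * w, w) ∈ A)

/-- the slice is almost everywhere constant near `x`. -/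
def LocConst (A : Set (ℂ × ℂ)) (x w : ℂ) : Prop :=
  ∃ U ∈ 𝓝 x, (∀ᵐ y : ℂ, y ∈ U → (y, w) ∈ A) ∨ (∀ᵐ y : ℂ, y ∈ U → (y, w) ∉ A)

theorem lower (hn : 3 ≤ n) (hv : ConvexIndependent ℝ v) {A : Set (ℂ × ℂ)}
    (hA : MeasurableSet A) {δ : ℕ → ℝ} (hδ : Tendsto δ atTop (𝓝[>] 0)) {w : ℂ} (hw : w ≠ 0)
    (hw1 : ‖w‖ < 1) (hch : ChordAt v A w) {x : ℂ} (hx : x ∈ PP v) (hfree : FwdFree v x w) :
    LocConst A x w ∨ ∃ c : ℝ≥0∞, c ≠ 0 ∧ ∀ k : ℕ, c * ENNReal.ofReal ((k : ℝ) + 1) ≤
      J1 v A δ k w := by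
  -- a box inside the polygon
  have hopen : IsOpen (psi x w ⁻¹' PP v) := isOpen_PP.preimage (continuous_psi x w)
  have h0mem : (0 : ℝ × ℝ) ∈ psi x w ⁻¹' PP v := by
    rw [mem_preimage]
    simpa [psi] using hx
  obtain ⟨ε, hε, hεb⟩ := Metric.isOpen_iff.1 hopen 0 h0mem
  set a₂ := ε / 2 with ha₂
  have ha₂0 : 0 < a₂ := by positivity
  have hbox : ∀ z : ℝ × ℝ, z.1 ∈ Icc (-a₂) a₂ → z.2 ∈ Icc (-a₂) a₂ → psi x w z ∈ PP v := by
    intro z h1 h2
    apply hεb
    rw [Metric.mem_ball, dist_zero_right, Prod.norm_def]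
    apply max_lt
    · rw [Real.norm_eq_abs, abs_lt]
      exact ⟨by linarith [h1.1], by linarith [h1.2]⟩
    · rw [Real.norm_eq_abs, abs_lt]
      exact ⟨by linarith [h2.1], by linarith [h2.2]⟩
  set a₁ := a₂ / 2 with ha₁
  have ha₁0 : 0 < a₁ := by positivity
  have ha12 : a₁ < a₂ := by rw [ha₁]; linarith
  have hmem : ∀ s : ℝ, -a₁ ≤ s → s ≤ a₁ → x + (s : ℂ) * w ∈ PP v := by
    intro s h1 h2
    have := hbox (s, 0) ⟨by simp only; linarith, by simp only; linarith⟩
      ⟨by simp only; linarith, by simp only; linarith⟩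
    convert this using 1
    simp [psi, mul_comm]
  set S : Set (ℝ × ℝ) := {z | (psi x w z, w) ∈ A} with hS
  have hSm : MeasurableSet S :=
    hA.preimage ((continuous_psi x w).prodMk continuous_const).measurable
  have hchS : ∀ᵐ z : ℝ × ℝ, z.1 ∈ Ioo (-a₂) a₂ → z.2 ∈ Ioo (-a₂) a₂ → ∀ a' ∈ Ioo (-a₂) a₂,
      (z ∈ S ↔ (a', z.2) ∈ S) := by
    have h1 := ae_psi (x := x) hw hch
    filter_upwards [h1] with z hz hz1 hz2 a' ha'
    have e1 : psi x w z + ((a' - z.1 : ℝ) : ℂ) * w = psi x w (a', z.2) := by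
      simp only [psi, ofReal_sub]; ring
    have := hz (hbox z (Ioo_subset_Icc_self hz1) (Ioo_subset_Icc_self hz2)) (a' - z.1)
      (by rw [e1]; exact hbox (a', z.2) (Ioo_subset_Icc_self ha') (Ioo_subset_Icc_self hz2))
    rw [e1] at this
    exact this
  rcases two_dim hSm ha₁0 ha12 hchS with hleft | hright
  · left
    obtain ⟨q₀, hq0, hq1, hcases⟩ := hleft
    set U : Set ℂ := {y | ((y - x) / w).re ∈ Ioo (-a₂) a₂ ∧ ((y - x) / w).im ∈ Ioo (-q₀) q₀}
      with hU
    have hUo : IsOpen U := by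
      apply IsOpen.inter
      · exact isOpen_Ioo.preimage (f := fun y : ℂ => ((y - x) / w).re) (by fun_prop)
      · exact isOpen_Ioo.preimage (f := fun y : ℂ => ((y - x) / w).im) (by fun_prop)
    have hxU : x ∈ U := by
      simp only [hU, mem_ofPred_eq, sub_self, zero_div, zero_re, zero_im, mem_Ioo]
      exact ⟨⟨by linarith, by linarith⟩, by linarith, by linarith⟩
    have hpsiU : ∀ z : ℝ × ℝ, psi x w z ∈ U → z.1 ∈ Ioo (-a₂) a₂ ∧ z.2 ∈ Ioo (-q₀) q₀ := by
      intro z hz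
      have e1 : (psi x w z - x) / w = (z.1 : ℂ) + (z.2 : ℂ) * I := by
        rw [psi, add_sub_cancel_left, mul_div_cancel_left₀ _ hw]
      simp only [hU, mem_ofPred_eq, e1] at hz
      simpa using hz
    refine ⟨U, hUo.mem_nhds hxU, ?_⟩
    rcases hcases with hc | hc
    · left
      apply ae_of_psi (x := x) hw
      filter_upwards [hc] with z hz hzU
      exact hz (hpsiU z hzU).1 (hpsiU z hzU).2
    · right
      apply ae_of_psi (x := x) hw
      filter_upwards [hc] with z hz hzU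
      exact hz (hpsiU z hzU).1 (hpsiU z hzU).2
  · right
    obtain ⟨c, hc0, hc1, hc⟩ := psi_measure (x := x) hw
    refine ⟨c * ENNReal.ofReal a₁ * ENNReal.ofReal (1 / 4), ?_, ?_⟩
    · apply mul_ne_zero (mul_ne_zero hc0 _)
      · rw [ne_eq, ENNReal.ofReal_eq_zero, not_le]; norm_num
      · rw [ne_eq, ENNReal.ofReal_eq_zero, not_le]; exact ha₁0
    intro k
    have hk : (0 : ℝ) < (k : ℝ) + 1 := by positivity
    obtain ⟨m₀, hm₀⟩ := good_chord hn hv hw hfree ha₁0 hmem hk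
    have hδ0 : ∀ᶠ j in atTop, 0 < δ j := hδ.eventually self_mem_nhdsWithin
    have hδ1 : Tendsto δ atTop (𝓝 0) := hδ.mono_right nhdsWithin_le_nhds
    unfold J1
    apply le_liminf_of_le (by isBoundedDefault)
    filter_upwards [eventually_ge_atTop m₀] with m hm
    obtain ⟨hmpos, E, hEc, hEsub, hEv, r, hr, hEr⟩ := hm₀ m hm
    unfold J2
    apply le_liminf_of_le (by isBoundedDefault)
    obtain ⟨l₀, hl₀⟩ := exists_nat_one_div_lt (show (0 : ℝ) < r / 2 by positivity)
    filter_upwards [eventually_ge_atTop l₀] with l hl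
    have hl2 : 1 / ((l : ℝ) + 1) < r / 2 := by
      refine lt_of_le_of_lt ?_ hl₀
      have : (l₀ : ℝ) ≤ l := by exact_mod_cast hl
      gcongr
    unfold J3
    apply le_liminf_of_le (by isBoundedDefault)
    set q₀ := min (a₂ / 2) (r / 2) with hq₀
    have hq00 : 0 < q₀ := lt_min (by positivity) (by positivity)
    have hq01 : q₀ < a₂ := lt_of_le_of_lt (min_le_left _ _) (by linarith)
    have hev := hright q₀ hq00 hq01 E hEc.measurableSet hEsub
    -- the displacement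
    have hρ : Tendsto (fun j => ((k : ℝ) + 1) * Real.sin (δ j)) atTop (𝓝[>] 0) := by
      apply tendsto_nhdsWithin_iff.2
      constructor
      · have h1 : Continuous (fun y : ℝ => ((k : ℝ) + 1) * Real.sin y) := by fun_prop
        have h2 := (h1.tendsto 0).comp hδ1
        simp only [Function.comp_def, Real.sin_zero, mul_zero] at h2
        exact h2
      · have h3 := hδ1.eventually (gt_mem_nhds Real.pi_pos)
        filter_upwards [hδ0, h3] with j hj1 hj2
        exact mul_pos hk (Real.sin_pos_of_pos_of_lt_pi hj1 hj2)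
    have hβ : ∀ᶠ j in atTop, |((k : ℝ) + 1) * (Real.cos (δ j) - 1)| < a₂ - a₁ := by
      have h1 : Continuous (fun y : ℝ => |((k : ℝ) + 1) * (Real.cos y - 1)|) := by fun_prop
      have h2 := (h1.tendsto 0).comp hδ1
      simp only [Function.comp_def, Real.cos_zero, sub_self, mul_zero, abs_zero] at h2
      exact h2.eventually (gt_mem_nhds (sub_pos.2 ha12))
    have hpi := hδ1.eventually (gt_mem_nhds (show (0 : ℝ) < Real.pi / 2 by positivity))
    filter_upwards [hρ.eventually hev, hβ, hδ0, hpi] with j hj1 hj2 hj3 hj4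
    have hj5 := hj1 _ hj2
    have hsin : δ j / 2 ≤ Real.sin (δ j) := by
      have h1 := Real.mul_le_sin hj3.le hj4.le
      have h2 : (1 : ℝ) / 2 ≤ 2 / Real.pi := by
        rw [div_le_div_iff₀ (by norm_num) Real.pi_pos]
        linarith [Real.pi_le_four]
      nlinarith
    have hsub : {z : ℝ × ℝ | z.1 ∈ E ∧ z.2 ∈ Ioo (-q₀) q₀ ∧
            ¬ (z ∈ S ↔ (z.1 + ((k : ℝ) + 1) * (Real.cos (δ j) - 1),
              z.2 - ((k : ℝ) + 1) * Real.sin (δ j)) ∈ S)} ⊆
        psi x w ⁻¹' ((fun y => (y, w)) ⁻¹' IS v A k m l (δ j)) := by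
      rintro z ⟨hzE, hzq, hzne⟩
      obtain ⟨u, hum, hub⟩ := hEr z.1 hzE
      have hdist : dist (psi x w z) (x + (z.1 : ℂ) * w) < r / 2 := by
        rw [dist_eq_norm]
        have e1 : psi x w z - (x + (z.1 : ℂ) * w) = (z.2 : ℂ) * (I * w) := by
          simp only [psi]; ring
        rw [e1, norm_mul, norm_mul, norm_I, one_mul, norm_real, Real.norm_eq_abs]
        have e2 : |z.2| < q₀ := abs_lt.2 hzq
        have e3 : q₀ ≤ r / 2 := min_le_right _ _
        have e4 : |z.2| * ‖w‖ ≤ |z.2| * 1 := by gcongr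
        linarith
      have hball : Metric.ball (psi x w z, w) (1 / ((l : ℝ) + 1)) ⊆
          Metric.ball (x + (z.1 : ℂ) * w, w) r := by
        apply Metric.ball_subset_ball'
        rw [Prod.dist_eq, dist_self]
        simp only
        rw [max_eq_left dist_nonneg]
        linarith
      have hW : (psi x w z, w) ∈ WW v (((k : ℝ) + 1) / m) m (1 / ((l : ℝ) + 1)) :=
        ⟨u, hum, hball.trans hub⟩
      have hP : psi x w z ∈ PP v := by
        have : (psi x w z, w) ∈ OO v (((k : ℝ) + 1) / m) u :=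
          hball.trans hub (Metric.mem_ball_self (by positivity))
        exact OO_subset _ _ this
      have hshift : psi x w z + (((k : ℝ) + 1 : ℝ) : ℂ) * (cexp (I * (-δ j : ℝ)) - 1) * w =
          psi x w (z.1 + ((k : ℝ) + 1) * (Real.cos (δ j) - 1),
              z.2 - ((k : ℝ) + 1) * Real.sin (δ j)) := by
        have e1 : cexp (I * (-δ j : ℝ)) = (Real.cos (δ j) : ℂ) - (Real.sin (δ j) : ℂ) * I := by
          rw [mul_comm, Complex.exp_mul_I]
          push_cast
          rw [Complex.cos_neg, Complex.sin_neg]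
          ring
        rw [e1]
        simp only [psi]
        push_cast
        ring
      refine ⟨mem_DD.2 ⟨hP, hw1⟩, hW, ?_⟩
      simp only
      rw [hshift]
      exact hzne
    have hkey : c * (ENNReal.ofReal a₁ * ENNReal.ofReal ((((k : ℝ) + 1) * Real.sin (δ j)) / 2)) ≤
        volume ((fun y => (y, w)) ⁻¹' IS v A k m l (δ j)) := by
      rw [← hc]
      gcongr
      calc ENNReal.ofReal a₁ * ENNReal.ofReal ((((k : ℝ) + 1) * Real.sin (δ j)) / 2)
          ≤ volume E * ENNReal.ofReal ((((k : ℝ) + 1) * Real.sin (δ j)) / 2) := by gcongr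
        _ ≤ _ := hj5
        _ ≤ _ := measure_mono hsub
    unfold II
    calc c * ENNReal.ofReal a₁ * ENNReal.ofReal (1 / 4) * ENNReal.ofReal ((k : ℝ) + 1)
        = ENNReal.ofReal (1 / δ j) * (c * (ENNReal.ofReal a₁ *
            ENNReal.ofReal ((((k : ℝ) + 1) * (δ j / 2)) / 2))) := by
          have e1 : ENNReal.ofReal (1 / 4) * ENNReal.ofReal ((k : ℝ) + 1) =
              ENNReal.ofReal (1 / δ j) * ENNReal.ofReal ((((k : ℝ) + 1) * (δ j / 2)) / 2) := by
            rw [← ENNReal.ofReal_mul (by norm_num), ← ENNReal.ofReal_mul (by positivity)]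
            congr 1
            field_simp
            ring
          rw [mul_assoc (c * ENNReal.ofReal a₁), e1]
          ring
      _ ≤ ENNReal.ofReal (1 / δ j) * (c * (ENNReal.ofReal a₁ *
            ENNReal.ofReal ((((k : ℝ) + 1) * Real.sin (δ j)) / 2))) := by
          gcongr
      _ ≤ _ := by gcongr

theorem locConst_of_J0 (hn : 3 ≤ n) (hv : ConvexIndependent ℝ v) {A : Set (ℂ × ℂ)}
    (hA : MeasurableSet A) {δ : ℕ → ℝ} (hδ : Tendsto δ atTop (𝓝[>] 0)) {w : ℂ} (hw : w ≠ 0)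
    (hw1 : ‖w‖ < 1) (hch : ChordAt v A w) (hJ : J0 v A δ w = 0) {x : ℂ} (hx : x ∈ PP v)
    (hfree : FwdFree v x w) : LocConst A x w := by
  rcases lower hn hv hA hδ hw hw1 hch hx hfree with h | ⟨c, hc0, hc⟩
  · exact h
  · exfalso
    have h1 : c ≤ J0 v A δ w := by
      unfold J0
      apply le_liminf_of_le (by isBoundedDefault)
      refine Eventually.of_forall (fun k => ?_)
      have hk : (0 : ℝ) < (k : ℝ) + 1 := by positivity
      calc c = ENNReal.ofReal (1 / ((k : ℝ) + 1)) * (c * ENNReal.ofReal ((k : ℝ) + 1)) := by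
            rw [mul_left_comm, ← ENNReal.ofReal_mul (by positivity), one_div,
              inv_mul_cancel₀ hk.ne', ENNReal.ofReal_one, mul_one]
        _ ≤ _ := by gcongr; exact hc k
    rw [hJ] at h1
    exact hc0 (le_antisymm h1 zero_le)

/-- Perimeter hypothesis. -/
def Per (v : Fin n → ℂ) (A : Set (ℂ × ℂ)) : Prop :=
  ∃ C : ℝ, ∃ᶠ δ in 𝓝[>] (0 : ℝ), volume (BB v A (cexp (I * (δ : ℝ)))) ≤ ENNReal.ofReal (C * δ)

theorem local_const (hn : 3 ≤ n) (hv : ConvexIndependent ℝ v) {A : Set (ℂ × ℂ)}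
    (hA : MeasurableSet A) (hI : Inv v A) (hch : ∀ᵐ w, ChordAt v A w) (hP : Per v A) :
    ∀ᵐ w : ℂ, w ≠ 0 → ‖w‖ < 1 → ∀ x ∈ PP v, FwdFree v x w → LocConst A x w := by
  obtain ⟨C, hC⟩ := hP
  obtain ⟨δ, hδ, hB⟩ := exists_seq_forall_of_frequently hC
  filter_upwards [J0_ae_zero hv hA hI hδ hB, hch] with w h1 h2 hw hw1 x hx hfree
  exact locConst_of_J0 hn hv hA hδ hw hw1 h2 h1 hx hfree

end Pool.Agent.Lib.Bil
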