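import Pool.Agent.Lib.MP_7bc51d_an.Next

set_option autoImplicit false

namespace Pool.Agent.Lib.Bil

open Complex MeasureTheory Set Filter
open scoped ComplexConjugate Topology ENNReal

variable {n : ℕ} {v : Fin n → ℂ}

/-- Component along `d`. -/
def dt (a b : ℂ) : ℝ := a.re * b.re + a.im * b.im

theorem dt_sub_right (a b c : ℂ) : dt a (b - c) = dt a b - dt a c := by
  simp only [dt, sub_re, sub_im]; ring

theorem dt_smul_right (a b : ℂ) (t : ℝ) : dt a ((t : ℂ) * b) = t * dt a b := by
  simp only [dt, mul_re, mul_im, ofReal_re, ofReal_im]; ring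

theorem cr_dt (d a b : ℂ) : (d.re ^ 2 + d.im ^ 2) * cr a b = dt d a * cr d b - cr d a * dt d b := by
  simp only [dt, cr]; ring

/-- The area form in terms of heights. -/
theorem area_heights {σ : Equiv.Perm (Fin n)} {e : Fin n → ℂ} {d : ℂ}
    (hd : ∀ i, cr d (e i) ≠ 0) {u u' : Fin n → ℂ} {μ μ' : Fin n → ℝ}
    (hu : ∀ i, u (σ i) - u i = (μ i : ℂ) * e i)
    (hu' : ∀ i, u' (σ i) - u' i = (μ' i : ℂ) * e i) :
    (d.re ^ 2 + d.im ^ 2) * ∑ i, cr (u i) (u' (σ i) - u' i) =
      ∑ i, (dt d (e (σ i)) / cr d (e (σ i)) - dt d (e i) / cr d (e i)) *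
        (cr d (u (σ i)) * cr d (u' (σ i))) := by
  set m : Fin n → ℝ := fun i => dt d (e i) / cr d (e i) with hm
  -- slopes
  have hslope : ∀ i, dt d (u (σ i) - u i) = m i * cr d (u (σ i) - u i) := by
    intro i
    rw [hu i, dt_smul_right, cr_smul_right, hm]
    have := hd i
    field_simp
  have hslope' : ∀ i, dt d (u' (σ i) - u' i) = m i * cr d (u' (σ i) - u' i) := by
    intro i
    rw [hu' i, dt_smul_right, cr_smul_right, hm]
    have := hd i
    field_simp
  have h1 : ∀ i, (d.re ^ 2 + d.im ^ 2) * cr (u i) (u' (σ i) - u' i) =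
      (dt d (u i) * cr d (u' (σ i)) - dt d (u i) * cr d (u' i)) -
        m i * (cr d (u i) * cr d (u' (σ i)) - cr d (u i) * cr d (u' i)) := by
    intro i
    rw [cr_dt, hslope' i, cr_sub_right]
    ring
  have h2 : ∀ i, dt d (u (σ i)) = dt d (u i) + m i * (cr d (u (σ i)) - cr d (u i)) := by
    intro i
    have := hslope i
    rw [dt_sub_right, cr_sub_right] at this
    linarith
  have r1 : ∑ i, dt d (u i) * cr d (u' i) = ∑ i, dt d (u (σ i)) * cr d (u' (σ i)) :=
    (Equiv.sum_comp σ (fun i => dt d (u i) * cr d (u' i))).symm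
  have r2 : ∑ i, m i * (cr d (u i) * cr d (u' i)) =
      ∑ i, m (σ i) * (cr d (u (σ i)) * cr d (u' (σ i))) :=
    (Equiv.sum_comp σ (fun i => m i * (cr d (u i) * cr d (u' i)))).symm
  rw [Finset.mul_sum]
  calc ∑ i, (d.re ^ 2 + d.im ^ 2) * cr (u i) (u' (σ i) - u' i)
      = ∑ i, ((dt d (u i) * cr d (u' (σ i)) - dt d (u i) * cr d (u' i)) -
        m i * (cr d (u i) * cr d (u' (σ i)) - cr d (u i) * cr d (u' i))) :=
        Finset.sum_congr rfl (fun i _ => h1 i)
    _ = (∑ i, (dt d (u i) * cr d (u' (σ i)) - m i * (cr d (u i) * cr d (u' (σ i)))) -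
          ∑ i, dt d (u i) * cr d (u' i)) + ∑ i, m i * (cr d (u i) * cr d (u' i)) := by
        rw [← Finset.sum_sub_distrib, ← Finset.sum_add_distrib]
        exact Finset.sum_congr rfl (fun i _ => by ring)
    _ = (∑ i, (dt d (u i) * cr d (u' (σ i)) - m i * (cr d (u i) * cr d (u' (σ i)))) -
          ∑ i, dt d (u (σ i)) * cr d (u' (σ i))) +
            ∑ i, m (σ i) * (cr d (u (σ i)) * cr d (u' (σ i))) := by rw [r1, r2]
    _ = _ := by
        rw [← Finset.sum_sub_distrib, ← Finset.sum_add_distrib]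
        refine Finset.sum_congr rfl (fun i _ => ?_)
        rw [h2 i]
        ring

theorem closure_heights {σ : Equiv.Perm (Fin n)} {e : Fin n → ℂ} {d : ℂ}
    (hd : ∀ i, cr d (e i) ≠ 0) {u : Fin n → ℂ} {μ : Fin n → ℝ}
    (hu : ∀ i, u (σ i) - u i = (μ i : ℂ) * e i) :
    ∑ i, (dt d (e (σ i)) / cr d (e (σ i)) - dt d (e i) / cr d (e i)) * cr d (u (σ i)) = 0 := by
  set m : Fin n → ℝ := fun i => dt d (e i) / cr d (e i) with hm
  have hslope : ∀ i, dt d (u (σ i)) - dt d (u i) = m i * (cr d (u (σ i)) - cr d (u i)) := by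
    intro i
    rw [← dt_sub_right, ← cr_sub_right, hu i, dt_smul_right, cr_smul_right, hm]
    have := hd i
    field_simp
  have r1 : ∑ i, m (σ i) * cr d (u (σ i)) = ∑ i, m i * cr d (u i) :=
    Equiv.sum_comp σ (fun i => m i * cr d (u i))
  have r2 : ∑ i, dt d (u (σ i)) = ∑ i, dt d (u i) := Equiv.sum_comp σ (fun i => dt d (u i))
  calc ∑ i, (m (σ i) - m i) * cr d (u (σ i))
      = ∑ i, m (σ i) * cr d (u (σ i)) - ∑ i, m i * cr d (u (σ i)) := by
        rw [← Finset.sum_sub_distrib]; exact Finset.sum_congr rfl (fun i _ => by ring)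
    _ = - ∑ i, m i * (cr d (u (σ i)) - cr d (u i)) := by
        rw [r1, ← Finset.sum_neg_distrib, ← Finset.sum_sub_distrib]
        exact Finset.sum_congr rfl (fun i _ => by ring)
    _ = - ∑ i, (dt d (u (σ i)) - dt d (u i)) := by
        congr 1
        exact Finset.sum_congr rfl (fun i _ => (hslope i).symm)
    _ = 0 := by rw [Finset.sum_sub_distrib, r2]; ring

/-- Minkowski's inequality for polygons with parallel sides. -/
theorem minkowski (hn : 3 ≤ n) (hv : ConvexIndependent ℝ v) {u : Fin n → ℂ} {μ : Fin n → ℝ}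
    (hu : ∀ i, u (nxt hn hv i) - u i = (μ i : ℂ) * (v (nxt hn hv i) - v i))
    (hpos : 0 ≤ ∑ i, cr (v i) (v (nxt hn hv i) - v i)) :
    (∑ i, cr (v i) (v (nxt hn hv i) - v i)) * (∑ i, cr (u i) (u (nxt hn hv i) - u i)) ≤
      (∑ i, cr (u i) (v (nxt hn hv i) - v i)) ^ 2 ∧
    ∑ i, cr (u i) (v (nxt hn hv i) - v i) = ∑ i, cr (v i) (u (nxt hn hv i) - u i) := by
  set σ : Equiv.Perm (Fin n) := Equiv.ofBijective _ (nxt_bijective hn hv) with hσ
  have hside : ∀ i, IsSide v i (σ i) := fun i => nxt_side hn hv i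
  set e : Fin n → ℂ := fun i => v (σ i) - v i with he
  have he0 : ∀ i, e i ≠ 0 := fun i => v_sub_ne hv (hside i).1
  -- a generic direction
  obtain ⟨d, hd1⟩ : ∃ d : ℂ, ∀ i, d ∉ (Submodule.span ℝ {e i} : Submodule ℝ ℂ) := by
    have hae : ∀ᵐ d : ℂ, ∀ i, d ∉ (Submodule.span ℝ {e i} : Submodule ℝ ℂ) := by
      rw [ae_all_iff]; intro i; exact ae_not_mem_line _
    exact hae.exists
  have hd0 : d ≠ 0 := by
    rintro rfl
    exact hd1 ⟨0, by omega⟩ (Submodule.zero_mem _)
  have hd : ∀ i, cr d (e i) ≠ 0 := by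
    intro i h
    rw [cr_swap, neg_eq_zero] at h
    obtain ⟨t, ht⟩ := (cr_eq_zero_iff (he0 i)).1 h
    apply hd1 i
    rw [Submodule.mem_span_singleton]
    exact ⟨t, by rw [real_smul]; exact ht.symm⟩
  have hD : 0 < d.re ^ 2 + d.im ^ 2 := by
    have : d.re ≠ 0 ∨ d.im ≠ 0 := by
      by_contra hcon
      push Not at hcon
      exact hd0 (Complex.ext hcon.1 hcon.2)
    rcases this with h1 | h1
    · positivity
    · positivity
  have hturn : ∀ i, 0 < cr (e i) (e (σ i)) := by
    intro i
    have h1 : σ (σ i) ≠ i := by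
      intro h
      have h2 := hside (σ i)
      rw [h] at h2
      exact not_both_sides hn (hside i) h2
    have h2 := (hside i).2 (σ (σ i)) h1 (hside (σ i)).1.symm
    have h3 : v (σ (σ i)) - v i = e i + e (σ i) := by simp only [he]; ring
    rw [h3, cr_add_right, cr_self, zero_add] at h2
    exact h2
  have hne : (Finset.univ : Finset (Fin n)).Nonempty := ⟨⟨0, by omega⟩, Finset.mem_univ _⟩
  obtain ⟨t, _, ht⟩ := Finset.exists_max_image Finset.univ (fun r => cr d (v r)) hne
  obtain ⟨b, _, hb⟩ := Finset.exists_min_image Finset.univ (fun r => cr d (v r)) hne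
  have htb : cr d (v b) < cr d (v t) := by
    have h1 := ht (σ b) (Finset.mem_univ _)
    have h2 := hb (σ b) (Finset.mem_univ _)
    have h3 := hd b
    simp only [he, cr_sub_right] at h3
    rcases lt_or_gt_of_ne h3 with h4 | h4
    · linarith
    · linarith
  -- cone property at the vertex `σ i`
  have hcone : ∀ i k, k ≠ σ i → ∃ p q : ℝ, 0 ≤ p ∧ 0 ≤ q ∧ 0 < p + q ∧
      cr (e i) (e (σ i)) * cr d (v k - v (σ i)) = - p * cr d (e i) + q * cr d (e (σ i)) := by
    intro i k hk
    refine ⟨cr (e (σ i)) (v k - v (σ i)), cr (e i) (v k - v (σ i)), ?_, ?_, ?_, ?_⟩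
    · exact (hside (σ i)).cr_nonneg_vert k
    · have h1 := (hside i).cr_nonneg_vert k
      have h2 : v k - v (σ i) = (v k - v i) - e i := by simp only [he]; ring
      rw [h2, cr_sub_right, cr_self, sub_zero]
      exact h1
    · have h1 := (hside (σ i)).cr_nonneg_vert k
      have h2 : 0 ≤ cr (e i) (v k - v (σ i)) := by
        have h1 := (hside i).cr_nonneg_vert k
        have h2 : v k - v (σ i) = (v k - v i) - e i := by simp only [he]; ring
        rw [h2, cr_sub_right, cr_self, sub_zero]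
        exact h1
      by_cases hk2 : k = σ (σ i)
      · have h3 : 0 < cr (e i) (v k - v (σ i)) := by rw [hk2]; exact hturn i
        have : 0 ≤ cr (e (σ i)) (v k - v (σ i)) := h1
        linarith
      · have h3 := (hside (σ i)).2 k hk hk2
        have : 0 < cr (e (σ i)) (v k - v (σ i)) := h3
        linarith
    · unfold cr; ring
  set c : Fin n → ℝ := fun i => dt d (e (σ i)) / cr d (e (σ i)) - dt d (e i) / cr d (e i) with hc
  have hcsign : ∀ i, σ i ≠ t → σ i ≠ b → c i ≤ 0 := by
    intro i hit hib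
    have h1 : c i = - ((d.re ^ 2 + d.im ^ 2) * cr (e i) (e (σ i))) /
        (cr d (e i) * cr d (e (σ i))) := by
      rw [cr_dt, hc]
      have := hd i
      have := hd (σ i)
      simp only
      field_simp
      ring
    have h2 : 0 < cr d (e i) * cr d (e (σ i)) := by
      rcases lt_or_gt_of_ne (hd i) with h3 | h3 <;> rcases lt_or_gt_of_ne (hd (σ i)) with h4 | h4
      · exact mul_pos_of_neg_of_neg h3 h4
      · -- local minimum
        exfalso
        apply hib
        by_contra hne'
        obtain ⟨p, q, hp, hq, hpq, heq⟩ := hcone i b (Ne.symm hib)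
        have h5 : 0 < - p * cr d (e i) + q * cr d (e (σ i)) := by
          rcases eq_or_lt_of_le hp with h6 | h6
          · rw [← h6] at hpq ⊢
            have : 0 < q := by linarith
            have := mul_pos this h4
            linarith
          · have h7 := mul_pos h6 (neg_pos.2 h3)
            have h8 := mul_nonneg hq h4.le
            linarith
        rw [← heq] at h5
        have h6 := pos_of_mul_pos_right h5 (hturn i).le
        rw [cr_sub_right] at h6
        have h7 := hb (σ i) (Finset.mem_univ _)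
        linarith
      · exfalso
        apply hit
        by_contra hne'
        obtain ⟨p, q, hp, hq, hpq, heq⟩ := hcone i t (Ne.symm hit)
        have h5 : - p * cr d (e i) + q * cr d (e (σ i)) < 0 := by
          rcases eq_or_lt_of_le hp with h6 | h6
          · rw [← h6] at hpq ⊢
            have : 0 < q := by linarith
            have := mul_pos this (neg_pos.2 h4)
            linarith
          · have h7 := mul_pos h6 h3
            have h8 := mul_nonneg hq (neg_pos.2 h4).le
            linarith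
        rw [← heq] at h5
        have h6 : cr d (v t - v (σ i)) < 0 := by
          by_contra hcon
          push Not at hcon
          have := mul_nonneg (hturn i).le hcon
          linarith
        rw [cr_sub_right] at h6
        have h7 := ht (σ i) (Finset.mem_univ _)
        linarith
      · exact mul_pos h3 h4
    rw [h1]
    apply div_nonpos_of_nonpos_of_nonneg _ h2.le
    have := mul_pos hD (hturn i)
    linarith
  have hsumc : ∑ i, c i = 0 := by
    have : ∑ i, dt d (e (σ i)) / cr d (e (σ i)) = ∑ i, dt d (e i) / cr d (e i) :=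
      Equiv.sum_comp σ (fun i => dt d (e i) / cr d (e i))
    rw [hc]
    simp only
    rw [Finset.sum_sub_distrib, this, sub_self]
  -- negativity
  have hneg : ∀ (w : Fin n → ℂ) (ν : Fin n → ℝ), (∀ i, w (σ i) - w i = (ν i : ℂ) * e i) →
      cr d (w t) = cr d (w b) → ∑ i, cr (w i) (w (σ i) - w i) ≤ 0 := by
    intro w ν hw hwtb
    have h1 := area_heights hd hw hw
    have h2 := closure_heights hd hw
    have h3 : ∑ i, c i * (cr d (w (σ i)) * cr d (w (σ i))) =
        ∑ i, c i * (cr d (w (σ i)) - cr d (w b)) ^ 2 := by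
      have : ∑ i, c i * (cr d (w (σ i)) - cr d (w b)) ^ 2 =
          ∑ i, c i * (cr d (w (σ i)) * cr d (w (σ i))) -
            2 * cr d (w b) * ∑ i, c i * cr d (w (σ i)) + cr d (w b) ^ 2 * ∑ i, c i := by
        rw [Finset.mul_sum, Finset.mul_sum, ← Finset.sum_sub_distrib, ← Finset.sum_add_distrib]
        exact Finset.sum_congr rfl (fun i _ => by ring)
      rw [this, hsumc, h2]
      ring
    have h4 : ∑ i, c i * (cr d (w (σ i)) - cr d (w b)) ^ 2 ≤ 0 := by
      apply Finset.sum_nonpos
      intro i _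
      by_cases hit : σ i = t
      · rw [hit, hwtb, sub_self]; simp
      · by_cases hib : σ i = b
        · rw [hib, sub_self]; simp
        · exact mul_nonpos_of_nonpos_of_nonneg (hcsign i hit hib) (sq_nonneg _)
    rw [← h3] at h4
    have h5 : (d.re ^ 2 + d.im ^ 2) * ∑ i, cr (w i) (w (σ i) - w i) ≤ 0 := by
      rw [h1]; exact h4
    by_contra hcon
    push Not at hcon
    have := mul_pos hD hcon
    linarith
  have hv1 : ∀ i, v (σ i) - v i = ((1 : ℝ) : ℂ) * e i := by intro i; simp [he]
  have hsymm : ∑ i, cr (u i) (v (σ i) - v i) = ∑ i, cr (v i) (u (σ i) - u i) := by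
    have h1 := area_heights hd hu hv1
    have h2 := area_heights hd hv1 hu
    have h3 : (d.re ^ 2 + d.im ^ 2) * ∑ i, cr (u i) (v (σ i) - v i) =
        (d.re ^ 2 + d.im ^ 2) * ∑ i, cr (v i) (u (σ i) - u i) := by
      rw [h1, h2]
      exact Finset.sum_congr rfl (fun i _ => by ring)
    exact mul_left_cancel₀ hD.ne' h3
  refine ⟨?_, hsymm⟩
  change (∑ i, cr (v i) (v (σ i) - v i)) * (∑ i, cr (u i) (u (σ i) - u i)) ≤
      (∑ i, cr (u i) (v (σ i) - v i)) ^ 2
  set T : ℝ := (cr d (u t) - cr d (u b)) / (cr d (v t) - cr d (v b)) with hT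
  have hw := hneg (fun i => u i - (T : ℂ) * v i) (fun i => μ i - T) (by
    intro i
    have := hu i
    change u (σ i) - u i = (μ i : ℂ) * e i at this
    simp only [ofReal_sub]
    have h2 : v (σ i) - v i = e i := rfl
    linear_combination this - (T : ℂ) * h2) (by
    simp only [cr_sub_right, cr_smul_right]
    have h1 : cr d (v t) - cr d (v b) ≠ 0 := (sub_pos.2 htb).ne'
    have h2 : T * (cr d (v t) - cr d (v b)) = cr d (u t) - cr d (u b) := by
      rw [hT]
      field_simp
    linarith)
  set Qvv := ∑ i, cr (v i) (v (σ i) - v i) with hQvv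
  set Quu := ∑ i, cr (u i) (u (σ i) - u i) with hQuu
  set Quv := ∑ i, cr (u i) (v (σ i) - v i) with hQuv
  have hexp : ∑ i, cr (u i - (T : ℂ) * v i) (u (σ i) - (T : ℂ) * v (σ i) - (u i - (T : ℂ) * v i)) =
      Quu - 2 * T * Quv + T ^ 2 * Qvv := by
    have h1 : ∀ i, cr (u i - (T : ℂ) * v i) (u (σ i) - (T : ℂ) * v (σ i) - (u i - (T : ℂ) * v i)) =
        cr (u i) (u (σ i) - u i) - T * cr (u i) (v (σ i) - v i) - T * cr (v i) (u (σ i) - u i) +
          T ^ 2 * cr (v i) (v (σ i) - v i) := by
      intro i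
      simp only [cr, sub_re, sub_im, mul_re, mul_im, ofReal_re, ofReal_im]
      ring
    rw [Finset.sum_congr rfl (fun i _ => h1 i), Finset.sum_add_distrib, Finset.sum_sub_distrib,
      Finset.sum_sub_distrib, ← Finset.mul_sum, ← Finset.mul_sum, ← Finset.mul_sum, ← hsymm]
    ring
  rw [hexp] at hw
  have hpos' : 0 ≤ Qvv := hpos
  nlinarith [mul_nonneg hpos' (neg_nonneg.2 hw), sq_nonneg (Quv - T * Qvv)]

end Pool.Agent.Lib.Bil
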