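import Pool.Agent.Lib.MP_7bc51d_an.Pairing

set_option autoImplicit false

namespace Pool.Agent.Lib.Bil

open Complex MeasureTheory Set Filter
open scoped ComplexConjugate Topology ENNReal

variable {n : ℕ} {v : Fin n → ℂ}

/-- Angular moments of a line function. -/
noncomputable def mo (F : ℂ → ℝ → ℝ) (φ : ℂ → ℝ) (x : ℂ) : ℝ := ∫ w in BV, F w (cr w x) * φ w

def p20 (w : ℂ) : ℝ := w.re ^ 2
def p11 (w : ℂ) : ℝ := w.re * w.im
def p02 (w : ℂ) : ℝ := w.im ^ 2

theorem p20_meas : Measurable p20 := by
  apply Continuous.measurable; unfold p20; fun_prop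
theorem p11_meas : Measurable p11 := by
  apply Continuous.measurable; unfold p11; fun_prop
theorem p02_meas : Measurable p02 := by
  apply Continuous.measurable; unfold p02; fun_prop

theorem sq_sum_lt {w : ℂ} (hw : w ∈ BV) : w.re ^ 2 + w.im ^ 2 < 1 := by
  have h := norm_lt_of_BV hw
  have h2 : ‖w‖ ^ 2 = w.re ^ 2 + w.im ^ 2 := by
    rw [← Complex.normSq_eq_norm_sq, Complex.normSq_apply]; ring
  rw [← h2]
  have := norm_nonneg w
  nlinarith

theorem p20_abs {w : ℂ} (hw : w ∈ BV) : |p20 w| ≤ 1 := by
  have := sq_sum_lt hw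
  unfold p20
  rw [abs_of_nonneg (sq_nonneg _)]
  nlinarith [sq_nonneg w.im]
theorem p02_abs {w : ℂ} (hw : w ∈ BV) : |p02 w| ≤ 1 := by
  have := sq_sum_lt hw
  unfold p02
  rw [abs_of_nonneg (sq_nonneg _)]
  nlinarith [sq_nonneg w.re]
theorem p11_abs {w : ℂ} (hw : w ∈ BV) : |p11 w| ≤ 1 := by
  have := sq_sum_lt hw
  unfold p11
  rw [abs_le]
  constructor
  · nlinarith [sq_nonneg (w.re + w.im), sq_nonneg (w.re - w.im)]
  · nlinarith [sq_nonneg (w.re + w.im), sq_nonneg (w.re - w.im)]

theorem mo_intOn {F : ℂ → ℝ → ℝ} (hF : LF F) {φ : ℂ → ℝ} (hφ : Measurable φ)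
    (hb : ∀ w ∈ BV, |φ w| ≤ 1) (x : ℂ) : IntegrableOn (fun w => F w (cr w x) * φ w) BV := by
  refine intOn_ball ((F_meas_x hF x).mul hφ) (C := 1 * 1) ?_
  intro w hw
  rw [abs_mul]
  have h1 := hF.bd w (cr w x)
  have h2 := hb w hw
  gcongr

theorem mo_meas {F : ℂ → ℝ → ℝ} (hF : LF F) {φ : ℂ → ℝ} (hφ : Measurable φ) :
    Measurable (mo F φ) := by
  unfold mo
  have h1 : Measurable (fun z : ℂ × ℂ => F z.2 (cr z.2 z.1) * φ z.2) := by
    have hc1 : Measurable (fun z : ℂ × ℂ => cr z.2 z.1) := by
      apply Continuous.measurable; unfold cr; fun_prop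
    exact (hF.meas.comp (measurable_snd.prodMk hc1)).mul (hφ.comp measurable_snd)
  have h2 : StronglyMeasurable (Function.uncurry
      (fun (x : ℂ) (w : ℂ) => F w (cr w x) * φ w)) := h1.stronglyMeasurable
  exact h2.integral_prod_right.measurable

theorem mo_abs {F : ℂ → ℝ → ℝ} (hF : LF F) {φ : ℂ → ℝ}
    (hb : ∀ w ∈ BV, |φ w| ≤ 1) (x : ℂ) : |mo F φ x| ≤ (volume BV).toReal := by
  unfold mo
  rw [← Real.norm_eq_abs]
  have h := norm_setIntegral_le_of_norm_le_const (μ := (volume : Measure ℂ)) (s := BV)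
    (f := fun w' => F w' (cr w' x) * φ w') (C := 1) measure_ball_lt_top ?_
  · rw [one_mul] at h
    exact h
  · intro w' hw
    rw [norm_mul, Real.norm_eq_abs, Real.norm_eq_abs]
    have h1 := hF.bd w' (cr w' x)
    have h2 := hb w' hw
    calc |F w' (cr w' x)| * |φ w'| ≤ 1 * 1 := by gcongr
      _ = 1 := one_mul _

theorem kk_eq {F : ℂ → ℝ → ℝ} (hF : LF F) (x w : ℂ) :
    kk F x w = w.im ^ 2 * mo F p20 x - 2 * (w.re * w.im) * mo F p11 x + w.re ^ 2 * mo F p02 x := by
  unfold kk mo
  rw [← integral_const_mul, ← integral_const_mul, ← integral_const_mul, ← integral_sub,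
    ← integral_add]
  · apply integral_congr_ae
    refine Eventually.of_forall (fun w' => ?_)
    simp only [cr, p20, p11, p02]
    ring
  · exact ((mo_intOn hF p20_meas (fun _ h => p20_abs h) x).const_mul _).sub
      ((mo_intOn hF p11_meas (fun _ h => p11_abs h) x).const_mul _)
  · exact (mo_intOn hF p02_meas (fun _ h => p02_abs h) x).const_mul _
  · exact (mo_intOn hF p20_meas (fun _ h => p20_abs h) x).const_mul _
  · exact (mo_intOn hF p11_meas (fun _ h => p11_abs h) x).const_mul _

theorem XX_moments {F F' : ℂ → ℝ → ℝ} (hF : LF F) (hF' : LF F') :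
    XX v F F' = ∫ x in PP v, (mo F p02 x * mo F' p20 x - 2 * (mo F p11 x * mo F' p11 x) +
      mo F p20 x * mo F' p02 x) := by
  have hfin1 : IsFiniteMeasure ((volume : Measure ℂ).restrict BV) := by
    constructor
    rw [Measure.restrict_apply_univ]
    exact measure_ball_lt_top
  have hfin2 : IsFiniteMeasure ((volume : Measure ℂ).restrict (PP v)) := by
    constructor
    rw [Measure.restrict_apply_univ]
    exact isBounded_PP.measure_lt_top
  unfold XX
  rw [integral_integral_swap]
  · apply integral_congr_ae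
    refine Eventually.of_forall (fun x => ?_)
    simp only
    have h1 : ∀ w, F w (cr w x) * kk F' x w = mo F' p20 x * (F w (cr w x) * p02 w) -
        2 * mo F' p11 x * (F w (cr w x) * p11 w) + mo F' p02 x * (F w (cr w x) * p20 w) := by
      intro w
      rw [kk_eq hF']
      simp only [p20, p11, p02]
      ring
    simp_rw [h1]
    rw [integral_add, integral_sub, integral_const_mul, integral_const_mul, integral_const_mul]
    · simp only [mo]; ring
    · exact (mo_intOn hF p02_meas (fun _ h => p02_abs h) x).const_mul _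
    · exact (mo_intOn hF p11_meas (fun _ h => p11_abs h) x).const_mul _
    · exact ((mo_intOn hF p02_meas (fun _ h => p02_abs h) x).const_mul _).sub
        ((mo_intOn hF p11_meas (fun _ h => p11_abs h) x).const_mul _)
    · exact (mo_intOn hF p20_meas (fun _ h => p20_abs h) x).const_mul _
  · have h2 : Measurable (fun z : ℂ × ℂ => F z.1 (cr z.1 z.2) * kk F' z.2 z.1) := by
      have hc1 : Measurable (fun z : ℂ × ℂ => cr z.1 z.2) := by
        apply Continuous.measurable; unfold cr; fun_prop
      exact (hF.meas.comp (measurable_fst.prodMk hc1)).mul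
        ((kk_meas hF').comp (measurable_snd.prodMk measurable_fst))
    have h3 : Integrable (fun _ : ℂ × ℂ => (volume BV).toReal)
        ((volume.restrict BV).prod (volume.restrict (PP v))) := integrable_const _
    refine Integrable.mono' h3 h2.aestronglyMeasurable ?_
    have h4 : ∀ᵐ z ∂((volume : Measure ℂ).restrict BV).prod ((volume : Measure ℂ).restrict (PP v)),
        z.1 ∈ BV := by
      have h5 : ∀ᵐ w' ∂((volume : Measure ℂ).restrict BV), w' ∈ BV :=
        ae_restrict_mem measurableSet_ball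
      exact Measure.quasiMeasurePreserving_fst.ae h5
    filter_upwards [h4] with z hz
    have hw1 := (norm_lt_of_BV hz).le
    have hw0 := norm_nonneg z.1
    simp only [Function.uncurry]
    rw [norm_mul, Real.norm_eq_abs, Real.norm_eq_abs]
    have h1 := hF.bd z.1 (cr z.1 z.2)
    have h2 : |kk F' z.2 z.1| ≤ (volume BV).toReal := by
      refine (kk_abs hF' _ _).trans ?_
      have : ‖z.1‖ ^ 2 ≤ 1 := by nlinarith
      calc (volume BV).toReal * ‖z.1‖ ^ 2 ≤ (volume BV).toReal * 1 := by gcongr
        _ = _ := mul_one _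
    calc |F z.1 (cr z.1 z.2)| * |kk F' z.2 z.1| ≤ 1 * (volume BV).toReal := by gcongr
      _ = _ := one_mul _

/-- the constant line function -/
def one1 : ℂ → ℝ → ℝ := fun _ _ => 1

theorem LF_one : LF one1 where
  meas := measurable_const
  bd := fun _ _ => by simp [one1]

theorem sym_one (a e : ℂ) : SymAt one1 a e :=
  Eventually.of_forall (fun _ => Eventually.of_forall (fun _ _ => rfl))

/-- second moment of the ball -/
noncomputable def MM : ℝ := ∫ w in BV, p20 w

theorem int_p11 : ∫ w in BV, p11 w = 0 := by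
  apply antisym_integral (e := 1) one_ne_zero
  refine Eventually.of_forall (fun w => ?_)
  simp [rl, p11]

theorem int_p20 : IntegrableOn p20 BV := intOn_ball p20_meas (C := 1) (fun _ h => p20_abs h)
theorem int_p02 : IntegrableOn p02 BV := intOn_ball p02_meas (C := 1) (fun _ h => p02_abs h)
theorem int_p11' : IntegrableOn p11 BV := intOn_ball p11_meas (C := 1) (fun _ h => p11_abs h)

theorem int_p02_eq : ∫ w in BV, p02 w = MM := by
  have h : ∫ w in BV, (p20 w - p02 w) = 0 := by
    have he : (1 + I : ℂ) ≠ 0 := by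
      intro h
      have := congrArg Complex.re h
      simp at this
    apply antisym_integral he
    refine Eventually.of_forall (fun w => ?_)
    have h1 : rl (1 + I) w = I * conj w := by
      unfold rl
      have h2 : conj (1 + I) ≠ 0 := (map_ne_zero _).2 he
      have h3 : (1 + I : ℂ) / conj (1 + I) = I := by
        rw [div_eq_iff h2]
        simp only [map_add, map_one, conj_I]
        linear_combination (1 : ℂ) * I_mul_I
      rw [h3]
    rw [h1]
    simp only [p20, p02, mul_re, mul_im, I_re, I_im, conj_re, conj_im]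
    ring
  rw [integral_sub int_p20 int_p02] at h
  unfold MM
  linarith

theorem mo_one (φ : ℂ → ℝ) (x : ℂ) : mo one1 φ x = ∫ w in BV, φ w := by
  unfold mo one1
  simp only [one_mul]

theorem Gp_one (w : ℂ) (Q : ℝ) : Gp one1 w Q = Q := by
  unfold Gp one1
  simp

theorem Pt_one (x : ℂ) : Pt one1 x = (MM : ℂ) * x := by
  have h1 : Ki one1 x I = - MM * x.re := by
    unfold Ki
    have : ∀ w, Gp one1 w (cr w x) * dt I w = x.im * p11 w - x.re * p02 w := by
      intro w
      rw [Gp_one]
      simp only [cr, dt, I_re, I_im, p11, p02]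
      ring
    simp_rw [this]
    rw [integral_sub (int_p11'.const_mul _) (int_p02.const_mul _), integral_const_mul,
      integral_const_mul, int_p11, int_p02_eq]
    ring
  have h2 : Ki one1 x 1 = MM * x.im := by
    unfold Ki
    have : ∀ w, Gp one1 w (cr w x) * dt 1 w = x.im * p20 w - x.re * p11 w := by
      intro w
      rw [Gp_one]
      simp only [cr, dt, one_re, one_im, p11, p20]
      ring
    simp_rw [this]
    rw [integral_sub (int_p20.const_mul _) (int_p11'.const_mul _), integral_const_mul,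
      integral_const_mul, int_p11]
    unfold MM
    ring
  unfold Pt
  rw [h1, h2]
  apply Complex.ext
  · simp only [mul_re, ofReal_re, ofReal_im]; ring
  · simp only [mul_im, ofReal_re, ofReal_im]; ring

theorem MM_nonneg : 0 ≤ MM := by
  unfold MM
  exact integral_nonneg (fun w => by unfold p20; positivity)

/-- The stress inequality, multiplied by the square of the second moment of the ball. -/
theorem stress_ineq (hn : 3 ≤ n) (hv : ConvexIndependent ℝ v) {F : ℂ → ℝ → ℝ} (hF : LF F)
    (hs : ∀ i, SymAt F (v i) (v (nxt hn hv i) - v i)) (hM : MM ≠ 0) :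
    4 * (volume (PP v)).toReal * ∫ x in PP v, (mo F p20 x * mo F p02 x - (mo F p11 x) ^ 2) ≤
      (∫ x in PP v, (mo F p20 x + mo F p02 x)) ^ 2 := by
  have ho : ∀ i, SymAt one1 (v i) (v (nxt hn hv i) - v i) := fun i => sym_one _ _
  have x11 := pairing hn hv LF_one LF_one ho ho
  have xF1 := pairing hn hv hF LF_one hs ho
  have xFF := pairing hn hv hF hF hs hs
  rw [XX_moments LF_one LF_one] at x11
  rw [XX_moments hF LF_one] at xF1
  rw [XX_moments hF hF] at xFF
  have e11 : ∫ x in PP v, (mo one1 p02 x * mo one1 p20 x - 2 * (mo one1 p11 x * mo one1 p11 x) +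
      mo one1 p20 x * mo one1 p02 x) = 2 * MM ^ 2 * (volume (PP v)).toReal := by
    simp only [mo_one, int_p11, int_p02_eq]
    rw [setIntegral_const, smul_eq_mul, Measure.real]
    unfold MM
    ring
  have eF1 : ∫ x in PP v, (mo F p02 x * mo one1 p20 x - 2 * (mo F p11 x * mo one1 p11 x) +
      mo F p20 x * mo one1 p02 x) = MM * ∫ x in PP v, (mo F p20 x + mo F p02 x) := by
    rw [← integral_const_mul]
    apply integral_congr_ae
    refine Eventually.of_forall (fun x => ?_)
    simp only [mo_one, int_p11, int_p02_eq]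
    unfold MM
    ring
  have eFF : ∫ x in PP v, (mo F p02 x * mo F p20 x - 2 * (mo F p11 x * mo F p11 x) +
      mo F p20 x * mo F p02 x) = 2 * ∫ x in PP v, (mo F p20 x * mo F p02 x - (mo F p11 x) ^ 2) := by
    rw [← integral_const_mul]
    apply integral_congr_ae
    refine Eventually.of_forall (fun x => ?_)
    simp only
    ring
  rw [e11] at x11
  rw [eF1] at xF1
  rw [eFF] at xFF
  have hPt : ∀ i, Pt one1 (v i) = (MM : ℂ) * v i := fun i => Pt_one _
  have s11 : ∑ i, cr (Pt one1 (v i)) (Pt one1 (v (nxt hn hv i)) - Pt one1 (v i)) =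
      MM ^ 2 * ∑ i, cr (v i) (v (nxt hn hv i) - v i) := by
    rw [Finset.mul_sum]
    apply Finset.sum_congr rfl
    intro i _
    rw [hPt, hPt, ← mul_sub, cr_smul_left, cr_smul_right]
    ring
  have sF1 : ∑ i, cr (Pt one1 (v i)) (Pt F (v (nxt hn hv i)) - Pt F (v i)) =
      MM * ∑ i, cr (v i) (Pt F (v (nxt hn hv i)) - Pt F (v i)) := by
    rw [Finset.mul_sum]
    apply Finset.sum_congr rfl
    intro i _
    rw [hPt, cr_smul_left]
  rw [s11] at x11
  rw [sF1] at xF1
  have hM2 : 0 < MM ^ 2 := by positivity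
  have hvol : 0 ≤ (volume (PP v)).toReal := ENNReal.toReal_nonneg
  have hS : ∑ i, cr (v i) (v (nxt hn hv i) - v i) = 2 * (volume (PP v)).toReal := by
    have : MM ^ 2 * (∑ i, cr (v i) (v (nxt hn hv i) - v i) - 2 * (volume (PP v)).toReal) = 0 := by
      rw [mul_sub, ← x11]; ring
    have := (mul_eq_zero.1 this).resolve_left hM2.ne'
    linarith
  have hne : ∀ i, v (nxt hn hv i) - v i ≠ 0 := fun i => v_sub_ne hv (nxt_side hn hv i).ne
  have hu : ∀ i, Pt F (v (nxt hn hv i)) - Pt F (v i) =
      (mu F (v i) (v (nxt hn hv i) - v i) : ℂ) * (v (nxt hn hv i) - v i) := by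
    intro i
    have := Pt_side hF (hne i) (hs i)
    rwa [add_sub_cancel] at this
  obtain ⟨m1, m2⟩ := minkowski hn hv (u := fun i => Pt F (v i))
    (μ := fun i => mu F (v i) (v (nxt hn hv i) - v i)) hu (by rw [hS]; positivity)
  rw [m2] at m1
  have h5 : ∑ i, cr (v i) (Pt F (v (nxt hn hv i)) - Pt F (v i)) =
      ∫ x in PP v, (mo F p20 x + mo F p02 x) := by
    have : MM * (∑ i, cr (v i) (Pt F (v (nxt hn hv i)) - Pt F (v i)) -
        ∫ x in PP v, (mo F p20 x + mo F p02 x)) = 0 := by
      rw [mul_sub, ← xF1]; ring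
    have := (mul_eq_zero.1 this).resolve_left hM
    linarith
  rw [h5, hS, ← xFF] at m1
  linarith

end Pool.Agent.Lib.Bil
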