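import Pool.Agent.Lib.MP_7bc51d_an.Symm
import Pool.Agent.Lib.MP_7bc51d_an.Global

set_option autoImplicit false

namespace Pool.Agent.Lib.Bil

open Complex MeasureTheory Set Filter
open scoped ComplexConjugate Topology ENNReal

variable {n : ℕ} {v : Fin n → ℂ}

theorem esq_pos {e : ℂ} (he : e ≠ 0) : 0 < e.re ^ 2 + e.im ^ 2 := by
  have : e.re ≠ 0 ∨ e.im ≠ 0 := by
    by_contra hcon
    push Not at hcon
    exact he (Complex.ext hcon.1 hcon.2)
  rcases this with h | h <;> positivity

theorem continuous_dt (e : ℂ) : Continuous (fun z : ℂ => dt e z) := by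
  unfold dt; fun_prop

theorem ii_mul {F : ℂ → ℝ → ℝ} (hF : LF F) (a e w : ℂ) {d : ℝ → ℝ} (hd : Continuous d) :
    IntervalIntegrable (fun τ : ℝ => F w (cr w (a + (τ : ℂ) * e)) * d τ) volume 0 1 := by
  have h1 : IntervalIntegrable d volume 0 1 := hd.intervalIntegrable _ _
  refine h1.mono_fun ?_ ?_
  · have hc1 : Measurable (fun τ : ℝ => cr w (a + (τ : ℂ) * e)) := by
      apply Continuous.measurable; unfold cr; fun_prop
    exact (((hF.meas2 w).comp hc1).mul hd.measurable).aestronglyMeasurable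
  · refine Eventually.of_forall (fun τ => ?_)
    simp only [norm_mul]
    have := hF.bd w (cr w (a + (τ : ℂ) * e))
    rw [← Real.norm_eq_abs] at this
    calc ‖F w (cr w (a + (τ : ℂ) * e))‖ * ‖d τ‖ ≤ 1 * ‖d τ‖ := by gcongr
      _ = ‖d τ‖ := one_mul _

/-- The side integral of a symmetric line function against a potential. -/
theorem side_pairing {F F' : ℂ → ℝ → ℝ} (hF : LF F) (hF' : LF F') {a e : ℂ} (he : e ≠ 0)
    (hs : SymAt F a e) (hs' : SymAt F' a e) :
    IntegrableOn (fun w => ∫ τ in (0 : ℝ)..1, F w (cr w (a + (τ : ℂ) * e)) *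
        dt w (Pt F' (a + (τ : ℂ) * e)) * cr w e) BV ∧
    ∫ w in BV, ∫ τ in (0 : ℝ)..1, F w (cr w (a + (τ : ℂ) * e)) *
        dt w (Pt F' (a + (τ : ℂ) * e)) * cr w e = cr (Pt F' a) (Pt F (a + e) - Pt F a) := by
  set E : ℝ := e.re ^ 2 + e.im ^ 2 with hE
  have hEpos : 0 < E := esq_pos he
  set c0 : ℝ := cr e (Pt F' a) with hc0
  set d : ℝ → ℝ := fun τ => dt e (Pt F' (a + (τ : ℂ) * e)) with hd
  have hdc : Continuous d := by
    have h1 : Continuous (fun τ : ℝ => Pt F' (a + (τ : ℂ) * e)) :=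
      (Pt_cont hF').comp (by fun_prop)
    exact (continuous_dt e).comp h1
  set D : ℂ → ℝ := fun w => ∫ τ in (0 : ℝ)..1, F w (cr w (a + (τ : ℂ) * e)) * d τ with hD
  -- pointwise formula
  have hpt : ∀ w, ∫ τ in (0 : ℝ)..1, F w (cr w (a + (τ : ℂ) * e)) *
        dt w (Pt F' (a + (τ : ℂ) * e)) * cr w e =
      (D w * dt e w * cr w e - c0 * (Sm F a e 1 w * (cr w e) ^ 2)) / E := by
    intro w
    rw [hD, Sm]
    simp only
    rw [eq_div_iff hEpos.ne', ← intervalIntegral.integral_mul_const,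
      ← intervalIntegral.integral_mul_const, ← intervalIntegral.integral_mul_const,
      ← intervalIntegral.integral_mul_const, ← intervalIntegral.integral_const_mul,
      ← intervalIntegral.integral_sub]
    · apply intervalIntegral.integral_congr
      intro τ hτ
      rw [uIcc_of_le zero_le_one] at hτ
      have h1 := cr_Pt_side hF' he hs' hτ
      simp only
      have h2 : E * dt w (Pt F' (a + (τ : ℂ) * e)) =
          dt e w * d τ - cr w e * c0 := by
        rw [hc0, ← h1, hd, hE]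
        simp only [dt, cr]
        ring
      linear_combination (F w (cr w (a + (τ : ℂ) * e)) * cr w e) * h2
    · exact ((ii_mul hF a e w hdc).mul_const _).mul_const _
    · have := ii_mul hF a e w (d := fun _ => 1) continuous_const
      simp only [mul_one] at this
      exact (this.mul_const _).const_mul _
  -- integrability of the two pieces
  have hDm : Measurable D := by
    have h0 : D = fun w => ∫ τ in Ioc (0 : ℝ) 1, F w (cr w (a + (τ : ℂ) * e)) * d τ := by
      funext w
      rw [hD]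
      simp only
      rw [intervalIntegral.integral_of_le zero_le_one]
    rw [h0]
    have h1 : Measurable (fun z : ℂ × ℝ => F z.1 (cr z.1 (a + (z.2 : ℂ) * e)) * d z.2) := by
      have hc1 : Measurable (fun z : ℂ × ℝ => cr z.1 (a + (z.2 : ℂ) * e)) := by
        apply Continuous.measurable; unfold cr; fun_prop
      exact (hF.meas.comp (measurable_fst.prodMk hc1)).mul (hdc.measurable.comp measurable_snd)
    have h2 : StronglyMeasurable (Function.uncurry
        (fun (w : ℂ) (τ : ℝ) => F w (cr w (a + (τ : ℂ) * e)) * d τ)) := h1.stronglyMeasurable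
    exact h2.integral_prod_right.measurable
  obtain ⟨M, hM⟩ : ∃ M : ℝ, ∀ τ ∈ Icc (0 : ℝ) 1, ‖d τ‖ ≤ M :=
    isCompact_Icc.exists_bound_of_continuousOn hdc.continuousOn
  have hM0 : 0 ≤ M := (norm_nonneg _).trans (hM 0 ⟨le_rfl, zero_le_one⟩)
  have hDb : ∀ w, |D w| ≤ M := by
    intro w
    rw [hD, ← Real.norm_eq_abs]
    have := intervalIntegral.norm_integral_le_of_norm_le_const (a := 0) (b := 1)
      (f := fun τ : ℝ => F w (cr w (a + (τ : ℂ) * e)) * d τ) (C := M) (by
        intro τ hτ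
        rw [uIoc_of_le zero_le_one] at hτ
        rw [norm_mul]
        have h1 := hM τ ⟨hτ.1.le, hτ.2⟩
        have h2 := hF.bd w (cr w (a + (τ : ℂ) * e))
        rw [← Real.norm_eq_abs] at h2
        calc _ ≤ 1 * M := by gcongr
          _ = M := one_mul _)
    simpa using this
  have hi1 : IntegrableOn (fun w => D w * dt e w * cr w e) BV := by
    refine intOn_ball ((hDm.mul (meas_dt e)).mul (meas_cr_left e)) (C := M * ‖e‖ * ‖e‖) ?_
    intro w hw
    have hw1 := (norm_lt_of_BV hw).le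
    rw [abs_mul, abs_mul]
    have h1 := hDb w
    have h2 : |dt e w| ≤ ‖e‖ := by
      refine (abs_dt_le e w).trans ?_
      calc ‖e‖ * ‖w‖ ≤ ‖e‖ * 1 := by gcongr
        _ = ‖e‖ := mul_one _
    have h3 : |cr w e| ≤ ‖e‖ := by
      refine (abs_cr_le w e).trans ?_
      calc ‖w‖ * ‖e‖ ≤ 1 * ‖e‖ := by gcongr
        _ = ‖e‖ := one_mul _
    gcongr
  have hi2 : IntegrableOn (fun w => c0 * (Sm F a e 1 w * (cr w e) ^ 2)) BV := by
    refine Integrable.const_mul ?_ _
    refine intOn_ball ((Sm_meas hF a e).mul ((meas_cr_left e).pow_const 2)) (C := 1 * ‖e‖ ^ 2) ?_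
    intro w hw
    have hw1 := (norm_lt_of_BV hw).le
    rw [abs_mul, abs_pow]
    have h1 := Sm_abs hF a e w (t := 1) ⟨zero_le_one, le_rfl⟩
    have h3 : |cr w e| ≤ ‖e‖ := by
      refine (abs_cr_le w e).trans ?_
      calc ‖w‖ * ‖e‖ ≤ 1 * ‖e‖ := by gcongr
        _ = ‖e‖ := one_mul _
    gcongr
  simp_rw [hpt]
  refine ⟨(hi1.sub hi2).div_const _, ?_⟩
  rw [integral_div, integral_sub hi1 hi2, integral_const_mul]
  have hz : ∫ w in BV, D w * dt e w * cr w e = 0 := by
    apply antisym_integral he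
    filter_upwards [hs] with w hw
    rw [cr_rl_left he, dt_rl he]
    have : D (rl e w) = D w := by
      rw [hD]
      simp only
      apply intervalIntegral.integral_congr_ae
      have h1 : ∀ᵐ τ : ℝ, τ ≠ 1 := by simp [ae_iff, measure_singleton]
      filter_upwards [hw, h1] with τ h2 h3 hτ
      rw [uIoc_of_le zero_le_one] at hτ
      rw [h2 ⟨hτ.1, lt_of_le_of_ne hτ.2 h3⟩]
    rw [this]
    ring
  rw [hz, Pt_side hF he hs, cr_smul_right, cr_swap, ← hc0, mu, ← hE]
  ring

/-- The pairing of two line functions. -/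
noncomputable def XX (v : Fin n → ℂ) (F F' : ℂ → ℝ → ℝ) : ℝ :=
  ∫ w in BV, ∫ x in PP v, F w (cr w x) * kk F' x w

theorem pairing (hn : 3 ≤ n) (hv : ConvexIndependent ℝ v) {F F' : ℂ → ℝ → ℝ} (hF : LF F)
    (hF' : LF F') (hs : ∀ i, SymAt F (v i) (v (nxt hn hv i) - v i))
    (hs' : ∀ i, SymAt F' (v i) (v (nxt hn hv i) - v i)) :
    XX v F F' = ∑ i, cr (Pt F' (v i)) (Pt F (v (nxt hn hv i)) - Pt F (v i)) := by
  have hgen : ∀ᵐ w : ℂ, ∀ i, w ∉ (Submodule.span ℝ {v (nxt hn hv i) - v i} : Submodule ℝ ℂ) := by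
    rw [ae_all_iff]; intro i
    exact ae_not_mem_line _
  have hne : ∀ i, v (nxt hn hv i) - v i ≠ 0 := fun i => v_sub_ne hv (nxt_side hn hv i).ne
  unfold XX
  have h1 : ∀ᵐ w : ℂ, ∫ x in PP v, F w (cr w x) * kk F' x w =
      ∑ i, ∫ τ in (0 : ℝ)..1, F w (cr w (v i + (τ : ℂ) * (v (nxt hn hv i) - v i))) *
        dt w (Pt F' (v i + (τ : ℂ) * (v (nxt hn hv i) - v i))) * cr w (v (nxt hn hv i) - v i) := by
    filter_upwards [hgen] with w hw
    have hw0 : w ≠ 0 := by
      rintro rfl
      have i0 : Fin n := ⟨0, by omega⟩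
      exact hw i0 (Submodule.zero_mem _)
    refine green hn hv hw0 ?_ (hF.meas2 w) (hF.bd w) (K := fun y => dt w (Pt F' y))
      (k := fun y => kk F' y w) ?_ ?_ (C := (volume BV).toReal * ‖w‖ ^ 2) ?_ ?_
    · intro i hcon
      have h2 : cr w (v (nxt hn hv i) - v i) = 0 := by rw [cr_sub_right, hcon, sub_self]
      rw [cr_swap, neg_eq_zero] at h2
      obtain ⟨t, ht⟩ := (cr_eq_zero_iff (hne i)).1 h2
      apply hw i
      rw [Submodule.mem_span_singleton]
      exact ⟨t, by rw [real_smul, ht]⟩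
    · exact (continuous_dt w).comp (Pt_cont hF')
    · exact (kk_meas hF').comp (measurable_id.prodMk measurable_const)
    · intro y _
      exact kk_abs hF' y w
    · intro y s
      exact dt_Pt_deriv hF' w y s
  rw [integral_congr_ae (ae_restrict_of_ae h1), integral_finsetSum]
  · apply Finset.sum_congr rfl
    intro i _
    have h2 := (side_pairing hF hF' (hne i) (hs i) (hs' i)).2
    rw [add_sub_cancel] at h2
    exact h2
  · intro i _
    exact (side_pairing hF hF' (hne i) (hs i) (hs' i)).1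

end Pool.Agent.Lib.Bil
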