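import Pool.Agent.Lib.MP_7bc51d_an.Green

set_option autoImplicit false

namespace Pool.Agent.Lib.Bil

open Complex MeasureTheory Set Filter
open scoped ComplexConjugate Topology ENNReal

variable {n : ℕ} {v : Fin n → ℂ}

/-- Unit ball of velocities. -/
abbrev BV : Set ℂ := Metric.ball (0 : ℂ) 1

/-- A jointly measurable function of lines bounded by one. -/
structure LF (F : ℂ → ℝ → ℝ) : Prop where
  meas : Measurable (fun p : ℂ × ℝ => F p.1 p.2)
  bd : ∀ w Q, |F w Q| ≤ 1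

/-- Primitive of `F w`. -/
noncomputable def Gp (F : ℂ → ℝ → ℝ) (w : ℂ) (Q : ℝ) : ℝ := Q * ∫ t in Ioc (0 : ℝ) 1, F w (Q * t)

theorem LF.meas2 {F : ℂ → ℝ → ℝ} (hF : LF F) (w : ℂ) : Measurable (F w) :=
  hF.meas.comp (measurable_prodMk_left (x := w))

theorem LF.ii {F : ℂ → ℝ → ℝ} (hF : LF F) (w : ℂ) (a b : ℝ) :
    IntervalIntegrable (F w) volume a b := by
  have h1 : IntervalIntegrable (fun _ : ℝ => (1 : ℝ)) volume a b := intervalIntegrable_const
  refine h1.mono_fun (hF.meas2 w).aestronglyMeasurable ?_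
  refine Eventually.of_forall (fun Q => ?_)
  simp only [Real.norm_eq_abs, abs_one]
  exact hF.bd w Q

theorem Gp_eq {F : ℂ → ℝ → ℝ} (w : ℂ) (Q : ℝ) : Gp F w Q = ∫ q in (0 : ℝ)..Q, F w q := by
  have h := intervalIntegral.mul_integral_comp_mul_left (a := 0) (b := 1) (f := F w) Q
  rw [mul_zero, mul_one] at h
  rw [← h, intervalIntegral.integral_of_le zero_le_one, Gp]

theorem Gp_sub {F : ℂ → ℝ → ℝ} (hF : LF F) (w : ℂ) (Q Q' : ℝ) :
    Gp F w Q' - Gp F w Q = ∫ q in Q..Q', F w q := by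
  rw [Gp_eq, Gp_eq]
  exact intervalIntegral.integral_interval_sub_left (hF.ii w _ _) (hF.ii w _ _)

theorem Gp_add {F : ℂ → ℝ → ℝ} (hF : LF F) (w : ℂ) (Q c s : ℝ) :
    Gp F w (Q + s * c) - Gp F w Q = ∫ s' in (0 : ℝ)..s, F w (Q + s' * c) * c := by
  rw [Gp_sub hF]
  have h := intervalIntegral.mul_integral_comp_mul_add (a := 0) (b := s) (f := F w) c Q
  have e1 : c * 0 + Q = Q := by ring
  have e2 : c * s + Q = Q + s * c := by ring
  rw [e1, e2] at h
  rw [← h, ← intervalIntegral.integral_const_mul]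
  apply intervalIntegral.integral_congr
  intro t _
  simp only
  rw [mul_comm]
  congr 2
  ring

theorem Gp_lip {F : ℂ → ℝ → ℝ} (hF : LF F) (w : ℂ) (Q Q' : ℝ) :
    |Gp F w Q' - Gp F w Q| ≤ |Q' - Q| := by
  rw [Gp_sub hF, ← Real.norm_eq_abs]
  have := intervalIntegral.norm_integral_le_of_norm_le_const (a := Q) (b := Q') (f := F w) (C := 1)
    (fun q _ => by rw [Real.norm_eq_abs]; exact hF.bd w q)
  rwa [one_mul] at this

theorem Gp_abs {F : ℂ → ℝ → ℝ} (hF : LF F) (w : ℂ) (Q : ℝ) : |Gp F w Q| ≤ |Q| := by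
  have h := Gp_lip hF w 0 Q
  have h0 : Gp F w 0 = 0 := by simp [Gp]
  rwa [h0, sub_zero, sub_zero] at h

theorem meas_cr_left (x : ℂ) : Measurable (fun w : ℂ => cr w x) := by
  apply Continuous.measurable; unfold cr; fun_prop

theorem meas_cr_right (w : ℂ) : Measurable (fun x : ℂ => cr w x) := by
  apply Continuous.measurable; unfold cr; fun_prop

theorem Gp_meas {F : ℂ → ℝ → ℝ} (hF : LF F) : Measurable (fun p : ℂ × ℝ => Gp F p.1 p.2) := by
  unfold Gp
  refine measurable_snd.mul ?_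
  have h1 : Measurable (fun z : (ℂ × ℝ) × ℝ => F z.1.1 (z.1.2 * z.2)) :=
    hF.meas.comp (measurable_fst.fst.prodMk (measurable_fst.snd.mul measurable_snd))
  have h2 : StronglyMeasurable (Function.uncurry (fun (p : ℂ × ℝ) (t : ℝ) => F p.1 (p.2 * t))) :=
    h1.stronglyMeasurable
  exact h2.integral_prod_right.measurable

theorem Gp_meas_x {F : ℂ → ℝ → ℝ} (hF : LF F) (x : ℂ) :
    Measurable (fun w : ℂ => Gp F w (cr w x)) :=
  (Gp_meas hF).comp (measurable_id.prodMk (meas_cr_left x))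

theorem F_meas_x {F : ℂ → ℝ → ℝ} (hF : LF F) (x : ℂ) :
    Measurable (fun w : ℂ => F w (cr w x)) :=
  hF.meas.comp (measurable_id.prodMk (meas_cr_left x))

theorem abs_cr_le (a b : ℂ) : |cr a b| ≤ ‖a‖ * ‖b‖ := by
  rw [cr_eq_im]
  calc |(conj a * b).im| ≤ ‖conj a * b‖ := abs_im_le_norm _
    _ = ‖a‖ * ‖b‖ := by rw [norm_mul, RCLike.norm_conj]

theorem abs_dt_le (a b : ℂ) : |dt a b| ≤ ‖a‖ * ‖b‖ := by
  have : dt a b = (conj a * b).re := by
    simp only [dt, mul_re, conj_re, conj_im]; ring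
  rw [this]
  calc |(conj a * b).re| ≤ ‖conj a * b‖ := abs_re_le_norm _
    _ = ‖a‖ * ‖b‖ := by rw [norm_mul, RCLike.norm_conj]

theorem intOn_ball {g : ℂ → ℝ} (hg : Measurable g) {C : ℝ} (hb : ∀ w ∈ BV, |g w| ≤ C) :
    IntegrableOn g BV := by
  have h1 : IntegrableOn (fun _ : ℂ => C) BV :=
    integrableOn_const (measure_ball_lt_top.ne)
  refine Integrable.mono' h1 hg.aestronglyMeasurable ?_
  rw [ae_restrict_iff' measurableSet_ball]
  exact Eventually.of_forall (fun w hw => by rw [Real.norm_eq_abs]; exact hb w hw)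

theorem norm_lt_of_BV {w : ℂ} (hw : w ∈ BV) : ‖w‖ < 1 := by
  simpa using hw

/-- The potential tested against a linear functional of the velocity. -/
noncomputable def Ki (F : ℂ → ℝ → ℝ) (x ξ : ℂ) : ℝ := ∫ w in BV, Gp F w (cr w x) * dt ξ w

theorem meas_dt (ξ : ℂ) : Measurable (fun w : ℂ => dt ξ w) := by
  apply Continuous.measurable; unfold dt; fun_prop

theorem Ki_intOn {F : ℂ → ℝ → ℝ} (hF : LF F) (x ξ : ℂ) :
    IntegrableOn (fun w => Gp F w (cr w x) * dt ξ w) BV := by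
  refine intOn_ball ((Gp_meas_x hF x).mul (meas_dt ξ)) (C := ‖x‖ * ‖ξ‖) ?_
  intro w hw
  have hw1 := (norm_lt_of_BV hw).le
  rw [abs_mul]
  have h1 : |Gp F w (cr w x)| ≤ ‖x‖ := by
    refine (Gp_abs hF w _).trans ((abs_cr_le w x).trans ?_)
    calc ‖w‖ * ‖x‖ ≤ 1 * ‖x‖ := by gcongr
      _ = ‖x‖ := one_mul _
  have h2 : |dt ξ w| ≤ ‖ξ‖ := by
    refine (abs_dt_le ξ w).trans ?_
    calc ‖ξ‖ * ‖w‖ ≤ ‖ξ‖ * 1 := by gcongr
      _ = ‖ξ‖ := mul_one _
  gcongr

/-- The potential of `F`. -/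
noncomputable def Pt (F : ℂ → ℝ → ℝ) (x : ℂ) : ℂ := ⟨-Ki F x I, Ki F x 1⟩

theorem Ki_lin {F : ℂ → ℝ → ℝ} (hF : LF F) (x ξ : ℂ) :
    Ki F x ξ = ξ.re * Ki F x 1 + ξ.im * Ki F x I := by
  unfold Ki
  rw [← integral_const_mul, ← integral_const_mul, ← integral_add]
  · apply integral_congr_ae
    refine Eventually.of_forall (fun w => ?_)
    simp only [dt, one_re, one_im, I_re, I_im]
    ring
  · exact (Ki_intOn hF x 1).const_mul _
  · exact (Ki_intOn hF x I).const_mul _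

theorem dt_Pt {F : ℂ → ℝ → ℝ} (hF : LF F) (x w : ℂ) :
    dt w (Pt F x) = ∫ w' in BV, Gp F w' (cr w' x) * cr w' w := by
  have h := Ki_lin hF x ⟨w.im, -w.re⟩
  have h2 : Ki F x ⟨w.im, -w.re⟩ = ∫ w' in BV, Gp F w' (cr w' x) * cr w' w := by
    unfold Ki
    apply integral_congr_ae
    refine Eventually.of_forall (fun w' => ?_)
    simp only [dt, cr]
    ring
  rw [← h2, h]
  simp only [dt, Pt]
  ring

theorem cr_Pt {F : ℂ → ℝ → ℝ} (hF : LF F) (x e : ℂ) :
    cr e (Pt F x) = ∫ w' in BV, Gp F w' (cr w' x) * dt e w' := by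
  have h := Ki_lin hF x e
  have h2 : Ki F x e = ∫ w' in BV, Gp F w' (cr w' x) * dt e w' := rfl
  rw [← h2, h]
  simp only [cr, Pt]
  ring

theorem Ki_lip {F : ℂ → ℝ → ℝ} (hF : LF F) (x y ξ : ℂ) :
    |Ki F y ξ - Ki F x ξ| ≤ (volume BV).toReal * (‖y - x‖ * ‖ξ‖) := by
  unfold Ki
  rw [← integral_sub (Ki_intOn hF y ξ) (Ki_intOn hF x ξ), ← Real.norm_eq_abs]
  have h := norm_setIntegral_le_of_norm_le_const (μ := (volume : Measure ℂ)) (s := BV)
    (f := fun w => Gp F w (cr w y) * dt ξ w - Gp F w (cr w x) * dt ξ w)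
    (C := ‖y - x‖ * ‖ξ‖) measure_ball_lt_top ?_
  · rw [mul_comm]
    exact h
  · intro w hw
    have hw1 := (norm_lt_of_BV hw).le
    rw [← sub_mul, norm_mul, Real.norm_eq_abs, Real.norm_eq_abs]
    have h1 : |Gp F w (cr w y) - Gp F w (cr w x)| ≤ ‖y - x‖ := by
      refine (Gp_lip hF w _ _).trans ?_
      rw [← cr_sub_right]
      refine (abs_cr_le w _).trans ?_
      calc ‖w‖ * ‖y - x‖ ≤ 1 * ‖y - x‖ := by gcongr
        _ = _ := one_mul _
    have h2 : |dt ξ w| ≤ ‖ξ‖ := by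
      refine (abs_dt_le ξ w).trans ?_
      calc ‖ξ‖ * ‖w‖ ≤ ‖ξ‖ * 1 := by gcongr
        _ = ‖ξ‖ := mul_one _
    gcongr

theorem Ki_cont {F : ℂ → ℝ → ℝ} (hF : LF F) (ξ : ℂ) : Continuous (fun x => Ki F x ξ) := by
  have h : LipschitzWith (Real.toNNReal ((volume BV).toReal * ‖ξ‖)) (fun x => Ki F x ξ) := by
    apply LipschitzWith.of_dist_le_mul
    intro x y
    rw [Real.dist_eq, dist_eq_norm, Real.coe_toNNReal _ (by positivity)]
    have := Ki_lip hF y x ξ
    calc |Ki F x ξ - Ki F y ξ| ≤ _ := this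
      _ = _ := by ring
  exact h.continuous

theorem Pt_cont {F : ℂ → ℝ → ℝ} (hF : LF F) : Continuous (Pt F) := by
  have h : Pt F = fun x => ((-Ki F x I : ℝ) : ℂ) + ((Ki F x 1 : ℝ) : ℂ) * I := by
    funext x
    apply Complex.ext <;> simp [Pt]
  rw [h]
  have h1 := Ki_cont hF 1
  have h2 := Ki_cont hF I
  fun_prop

/-- Second directional derivative of the potential. -/
noncomputable def kk (F : ℂ → ℝ → ℝ) (x w : ℂ) : ℝ := ∫ w' in BV, F w' (cr w' x) * (cr w' w) ^ 2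

theorem kk_meas {F : ℂ → ℝ → ℝ} (hF : LF F) : Measurable (fun p : ℂ × ℂ => kk F p.1 p.2) := by
  unfold kk
  have h1 : Measurable (fun z : (ℂ × ℂ) × ℂ => F z.2 (cr z.2 z.1.1) * (cr z.2 z.1.2) ^ 2) := by
    have hc1 : Measurable (fun z : (ℂ × ℂ) × ℂ => cr z.2 z.1.1) := by
      apply Continuous.measurable; unfold cr; fun_prop
    have hc2 : Measurable (fun z : (ℂ × ℂ) × ℂ => cr z.2 z.1.2) := by
      apply Continuous.measurable; unfold cr; fun_prop
    exact (hF.meas.comp (measurable_snd.prodMk hc1)).mul (hc2.pow_const 2)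
  have h2 : StronglyMeasurable (Function.uncurry
      (fun (p : ℂ × ℂ) (w' : ℂ) => F w' (cr w' p.1) * (cr w' p.2) ^ 2)) :=
    h1.stronglyMeasurable
  exact h2.integral_prod_right.measurable

theorem kk_abs {F : ℂ → ℝ → ℝ} (hF : LF F) (x w : ℂ) :
    |kk F x w| ≤ (volume BV).toReal * ‖w‖ ^ 2 := by
  unfold kk
  rw [← Real.norm_eq_abs]
  have h := norm_setIntegral_le_of_norm_le_const (μ := (volume : Measure ℂ)) (s := BV)
    (f := fun w' => F w' (cr w' x) * (cr w' w) ^ 2)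
    (C := ‖w‖ ^ 2) measure_ball_lt_top ?_
  · rw [mul_comm]
    exact h
  · intro w' hw
    have hw1 := (norm_lt_of_BV hw).le
    rw [norm_mul, norm_pow, Real.norm_eq_abs, Real.norm_eq_abs]
    have h1 := hF.bd w' (cr w' x)
    have h2 : |cr w' w| ≤ ‖w‖ := by
      refine (abs_cr_le w' w).trans ?_
      calc ‖w'‖ * ‖w‖ ≤ 1 * ‖w‖ := by gcongr
        _ = ‖w‖ := one_mul _
    calc |F w' (cr w' x)| * |cr w' w| ^ 2 ≤ 1 * ‖w‖ ^ 2 := by gcongr
      _ = ‖w‖ ^ 2 := one_mul _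

/-- The potential is a second primitive of `kk`. -/
theorem dt_Pt_deriv {F : ℂ → ℝ → ℝ} (hF : LF F) (w y : ℂ) (s : ℝ) :
    dt w (Pt F (y + (s : ℂ) * w)) - dt w (Pt F y) =
      ∫ s' in (0 : ℝ)..s, kk F (y + (s' : ℂ) * w) w := by
  rw [dt_Pt hF, dt_Pt hF, ← integral_sub]
  · have h1 : ∀ w' : ℂ, Gp F w' (cr w' (y + (s : ℂ) * w)) * cr w' w - Gp F w' (cr w' y) * cr w' w =
        ∫ s' in (0 : ℝ)..s, F w' (cr w' (y + (s' : ℂ) * w)) * (cr w' w) ^ 2 := by
      intro w'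
      rw [← sub_mul, cr_add_right, cr_smul_right, Gp_add hF, ← intervalIntegral.integral_mul_const]
      apply intervalIntegral.integral_congr
      intro t _
      simp only
      rw [cr_add_right, cr_smul_right]
      ring
    simp_rw [h1]
    unfold kk
    rw [intervalIntegral_integral_swap]
    have h2 : Measurable (fun z : ℝ × ℂ => F z.2 (cr z.2 (y + (z.1 : ℂ) * w)) * (cr z.2 w) ^ 2) := by
      have hc1 : Measurable (fun z : ℝ × ℂ => cr z.2 (y + (z.1 : ℂ) * w)) := by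
        apply Continuous.measurable; unfold cr; fun_prop
      have hc2 : Measurable (fun z : ℝ × ℂ => cr z.2 w) := by
        apply Continuous.measurable; unfold cr; fun_prop
      exact (hF.meas.comp (measurable_snd.prodMk hc1)).mul (hc2.pow_const 2)
    have h3 : Integrable (fun _ : ℝ × ℂ => ‖w‖ ^ 2)
        ((volume.restrict (uIoc 0 s)).prod (volume.restrict BV)) := by
      have : IsFiniteMeasure ((volume : Measure ℝ).restrict (uIoc 0 s)) := by
        constructor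
        rw [Measure.restrict_apply_univ]
        exact measure_Ioc_lt_top
      have : IsFiniteMeasure ((volume : Measure ℂ).restrict BV) := by
        constructor
        rw [Measure.restrict_apply_univ]
        exact measure_ball_lt_top
      exact integrable_const _
    refine Integrable.mono' h3 h2.aestronglyMeasurable ?_
    have h4 : ∀ᵐ z ∂((volume : Measure ℝ).restrict (uIoc 0 s)).prod ((volume : Measure ℂ).restrict BV),
        z.2 ∈ BV := by
      have h5 : ∀ᵐ w' ∂((volume : Measure ℂ).restrict BV), w' ∈ BV :=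
        ae_restrict_mem measurableSet_ball
      exact Measure.quasiMeasurePreserving_snd.ae h5
    filter_upwards [h4] with z hz
    have hw1 := (norm_lt_of_BV hz).le
    simp only [Function.uncurry]
    rw [norm_mul, norm_pow, Real.norm_eq_abs, Real.norm_eq_abs]
    have h1 := hF.bd z.2 (cr z.2 (y + (z.1 : ℂ) * w))
    have h2 : |cr z.2 w| ≤ ‖w‖ := by
      refine (abs_cr_le z.2 w).trans ?_
      calc ‖z.2‖ * ‖w‖ ≤ 1 * ‖w‖ := by gcongr
        _ = ‖w‖ := one_mul _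
    calc |F z.2 (cr z.2 (y + (z.1 : ℂ) * w))| * |cr z.2 w| ^ 2 ≤ 1 * ‖w‖ ^ 2 := by gcongr
      _ = ‖w‖ ^ 2 := one_mul _
  · have := Ki_intOn hF (y + (s : ℂ) * w) ⟨w.im, -w.re⟩
    refine this.congr (Eventually.of_forall (fun w' => ?_))
    simp only [dt, cr]
    ring
  · have := Ki_intOn hF y ⟨w.im, -w.re⟩
    refine this.congr (Eventually.of_forall (fun w' => ?_))
    simp only [dt, cr]
    ring

end Pool.Agent.Lib.Bil
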