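import Pool.Agent.Lib.MP_7bc51d_an.Distinct

set_option autoImplicit false

namespace Pool.Agent.Lib.Bil

open Complex MeasureTheory Set Filter
open scoped ComplexConjugate Topology ENNReal

variable {n : ℕ} {v : Fin n → ℂ}

/-- Length (in time) of the chord of direction `w` and height `Q`. -/
noncomputable def len (v : Fin n → ℂ) (w : ℂ) (Q : ℝ) : ℝ≥0∞ :=
  volume {s : ℝ | bs w Q + (s : ℂ) * w ∈ PP v}

theorem meas_bs_line : Measurable (fun z : (ℂ × ℝ) × ℝ => bs z.1.1 z.1.2 + (z.2 : ℂ) * z.1.1) := by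
  unfold bs
  have h1 : Measurable (fun z : (ℂ × ℝ) × ℝ => z.1.1) := measurable_fst.fst
  have h2 : Measurable (fun z : (ℂ × ℝ) × ℝ => z.1.2) := measurable_fst.snd
  have h3 : Measurable (fun z : (ℂ × ℝ) × ℝ => z.1.1.re) := measurable_re.comp h1
  have h4 : Measurable (fun z : (ℂ × ℝ) × ℝ => z.1.1.im) := measurable_im.comp h1
  have h5 : Measurable (fun z : (ℂ × ℝ) × ℝ => z.1.2 / (z.1.1.re ^ 2 + z.1.1.im ^ 2)) :=
    h2.div ((h3.pow_const 2).add (h4.pow_const 2))
  exact ((measurable_ofReal.comp h5).mul (measurable_const.mul h1)).add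
    ((measurable_ofReal.comp measurable_snd).mul h1)

theorem measurable_len : Measurable (fun p : ℂ × ℝ => len v p.1 p.2) := by
  have hS : MeasurableSet {z : (ℂ × ℝ) × ℝ | bs z.1.1 z.1.2 + (z.2 : ℂ) * z.1.1 ∈ PP v} :=
    isOpen_PP.measurableSet.preimage meas_bs_line
  exact measurable_measure_prodMk_left (ν := (volume : Measure ℝ)) hS

theorem len_eq {w : ℂ} (hw : w ≠ 0) (y : ℂ) :
    len v w (cr w y) = volume {s : ℝ | y + (s : ℂ) * w ∈ PP v} := by
  set c : ℝ := dt w y / (w.re ^ 2 + w.im ^ 2) with hc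
  have h1 := bs_eq (w := w) (x := y) hw
  rw [← hc] at h1
  have h2 : {s : ℝ | y + (s : ℂ) * w ∈ PP v} =
      (fun s : ℝ => s + c) ⁻¹' {s : ℝ | bs w (cr w y) + (s : ℂ) * w ∈ PP v} := by
    ext s
    simp only [mem_ofPred_eq, mem_preimage]
    have e : bs w (cr w y) + ((s + c : ℝ) : ℂ) * w = y + (s : ℂ) * w := by
      push_cast
      linear_combination h1
    rw [e]
  unfold len
  rw [h2, measure_preimage_add_right]

theorem len_arc {x w : ℂ} (hv : ConvexIndependent ℝ v) (hw : w ≠ 0) (a : Arc v x w) :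
    ENNReal.ofReal (a.T' - a.T) ≤ len v (Lo v a.g w) (cr (Lo v a.g w) (Fo v a.g x)) := by
  have hu : Lo v a.g w ≠ 0 := by
    intro h
    have := norm_Lo hv a.valid w
    rw [h, norm_zero] at this
    exact hw (norm_eq_zero.1 this.symm)
  rw [len_eq hu, ← Real.volume_Ioo]
  apply measure_mono
  rintro τ ⟨h1, h2⟩
  have := a.mem τ h1 h2
  rw [Fo_add, Lo_smul] at this
  exact this

/-- Phase points separated from their transverse translate. -/
def TD (v : Fin n → ℂ) (A : Set (ℂ × ℂ)) (ρ : ℝ) : Set (ℂ × ℂ) :=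
  {p | p.1 ∈ PP v ∧ p.1 + (ρ : ℂ) * (I * p.2) ∈ PP v ∧
    ¬ (p ∈ A ↔ (p.1 + (ρ : ℂ) * (I * p.2), p.2) ∈ A)}

theorem measurableSet_TD {A : Set (ℂ × ℂ)} (hA : MeasurableSet A) (ρ : ℝ) :
    MeasurableSet (TD v A ρ) := by
  have hc : Continuous (fun p : ℂ × ℂ => p.1 + (ρ : ℂ) * (I * p.2)) := by fun_prop
  have hc2 : Continuous (fun p : ℂ × ℂ => (p.1 + (ρ : ℂ) * (I * p.2), p.2)) := by fun_prop
  have h1 : MeasurableSet ((fun p : ℂ × ℂ => (p.1 + (ρ : ℂ) * (I * p.2), p.2)) ⁻¹' A) :=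
    hA.preimage hc2.measurable
  have h2 : TD v A ρ = (Prod.fst ⁻¹' PP v) ∩ ((fun p : ℂ × ℂ => p.1 + (ρ : ℂ) * (I * p.2)) ⁻¹' PP v) ∩
      ((A \ (fun p : ℂ × ℂ => (p.1 + (ρ : ℂ) * (I * p.2), p.2)) ⁻¹' A) ∪
        ((fun p : ℂ × ℂ => (p.1 + (ρ : ℂ) * (I * p.2), p.2)) ⁻¹' A \ A)) := by
    ext p
    simp only [TD, mem_ofPred_eq, mem_inter_iff, mem_union, Set.mem_sdiff, mem_preimage]
    tauto
  rw [h2]
  exact ((isOpen_PP.measurableSet.preimage measurable_fst).inter
    (isOpen_PP.measurableSet.preimage hc.measurable)).inter ((hA.diff h1).union (h1.diff hA))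

theorem chi_shift {w : ℂ} (hw : w ≠ 0) (ρ q s : ℝ) :
    chi w (q, s) + (ρ : ℂ) * (I * w) = chi w (q + ρ * ‖w‖ ^ 2, s) := by
  unfold chi bs
  rw [normsq_eq]
  have h0 : (‖w‖ : ℂ) ≠ 0 := by
    have : ‖w‖ ≠ 0 := norm_ne_zero_iff.2 hw
    exact_mod_cast this
  push_cast
  field_simp
  ring

theorem exists_sep (S : Finset ℝ) : ∃ ε : ℝ, 0 < ε ∧ ∀ Q ∈ S, ∀ Q' ∈ S, Q ≠ Q' → 2 * ε < |Q - Q'| := by
  classical
  induction S using Finset.induction_on with
  | empty => exact ⟨1, one_pos, by simp⟩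
  | insert a S ha ih =>
    obtain ⟨ε, hε, h⟩ := ih
    have h2 : ∃ ε' : ℝ, 0 < ε' ∧ ∀ Q ∈ S, 2 * ε' < |Q - a| := by
      clear h
      induction S using Finset.induction_on with
      | empty => exact ⟨1, one_pos, by simp⟩
      | insert b S hb ih2 =>
        obtain ⟨ε', hε', h'⟩ := ih2 (fun h => ha (Finset.mem_insert_of_mem h))
        have hba : 0 < |b - a| := by
          rw [abs_pos, sub_ne_zero]
          rintro rfl
          exact ha (Finset.mem_insert_self _ _)
        refine ⟨min ε' (|b - a| / 4), lt_min hε' (by positivity), ?_⟩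
        intro Q hQ
        rcases Finset.mem_insert.1 hQ with rfl | hQ
        · have := min_le_right ε' (|Q - a| / 4)
          linarith
        · have := min_le_left ε' (|b - a| / 4)
          have := h' Q hQ
          linarith
    obtain ⟨ε', hε', h'⟩ := h2
    refine ⟨min ε ε', lt_min hε hε', ?_⟩
    have m1 := min_le_left ε ε'
    have m2 := min_le_right ε ε'
    intro Q hQ Q' hQ' hne
    rcases Finset.mem_insert.1 hQ with h1 | h1
    · rcases Finset.mem_insert.1 hQ' with h2 | h2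
      · exact absurd (h1.trans h2.symm) hne
      · have := h' Q' h2
        rw [h1, abs_sub_comm]
        linarith
    · rcases Finset.mem_insert.1 hQ' with h2 | h2
      · have := h' Q h1
        rw [h2]
        linarith
      · have := h Q h1 Q' h2 hne
        linarith

/-- At a non constancy height the line function changes on a large set. -/
theorem nt_lower {F : ℂ → ℝ → ℝ} (hF : LF F) (h01 : ∀ w q, F w q = 0 ∨ F w q = 1) {w : ℂ} {Q : ℝ}
    (hQ : ¬ LC F w Q) {ε : ℝ} (hε : 0 < ε) :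
    ∀ᶠ δ in 𝓝[>] (0 : ℝ), ENNReal.ofReal (δ / 2) ≤
      volume {q : ℝ | |q - Q| < ε ∧ F w q ≠ F w (q + δ)} := by
  set S : Set ℝ := {q | F w (Q - q) = 1} with hS
  have hSm : MeasurableSet S := by
    have h1 : Measurable (fun q : ℝ => F w (Q - q)) := (hF.meas2 w).comp (by fun_prop)
    exact h1 (measurableSet_singleton 1)
  have hmp : MeasurePreserving (fun q : ℝ => Q - q) volume volume :=
    Measure.measurePreserving_sub_left volume Q
  have h1 : volume (Ioo (-ε) ε ∩ S) ≠ 0 := by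
    intro h0
    apply hQ
    refine ⟨0, ε, hε, ?_⟩
    have h2 : ∀ᵐ q : ℝ, q ∉ Ioo (-ε) ε ∩ S := measure_eq_zero_iff_ae_notMem.1 h0
    filter_upwards [hmp.quasiMeasurePreserving.ae h2] with q hq hq2
    rcases h01 w q with h3 | h3
    · exact h3
    · exfalso
      apply hq
      rw [abs_lt] at hq2
      refine ⟨⟨by linarith, by linarith⟩, ?_⟩
      change F w (Q - (Q - q)) = 1
      rw [sub_sub_cancel]; exact h3
  have h2 : volume (Ioo (-ε) ε \ S) ≠ 0 := by
    intro h0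
    apply hQ
    refine ⟨1, ε, hε, ?_⟩
    have h2 : ∀ᵐ q : ℝ, q ∉ Ioo (-ε) ε \ S := measure_eq_zero_iff_ae_notMem.1 h0
    filter_upwards [hmp.quasiMeasurePreserving.ae h2] with q hq hq2
    rcases h01 w q with h3 | h3
    · exfalso
      apply hq
      rw [abs_lt] at hq2
      refine ⟨⟨by linarith, by linarith⟩, ?_⟩
      change ¬ (F w (Q - (Q - q)) = 1)
      rw [sub_sub_cancel, h3]; exact zero_ne_one
    · exact h3
  filter_upwards [one_dim hSm h1 h2] with δ hδ
  refine hδ.trans (le_of_eq ?_)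
  have h3 := hmp.measure_preimage_emb (by
    exact (Homeomorph.subLeft Q).measurableEmbedding) {q : ℝ | |q - Q| < ε ∧ F w q ≠ F w (q + δ)}
  rw [← h3]
  congr 1
  ext q
  simp only [mem_ofPred_eq, mem_preimage, hS, mem_Ioo]
  have e1 : Q - q - Q = -q := by ring
  have e2 : Q - q + δ = Q - (q - δ) := by ring
  rw [e1, e2, abs_neg, abs_lt]
  apply and_congr Iff.rfl
  rcases h01 w (Q - q) with h4 | h4 <;> rcases h01 w (Q - (q - δ)) with h5 | h5 <;> rw [h4, h5] <;>
    norm_num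

end Pool.Agent.Lib.Bil
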