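import Pool.Agent.Lib.MP_7bc51d_an.SpatPer

set_option autoImplicit false

namespace Pool.Agent.Lib.Bil

open Complex MeasureTheory Set Filter
open scoped ComplexConjugate Topology ENNReal

variable {n : ℕ} {v : Fin n → ℂ}

theorem fibre_lower {F : ℂ → ℝ → ℝ} (hF : LF F) (h01 : ∀ w q, F w q = 0 ∨ F w q = 1)
    {A : Set (ℂ × ℂ)} (hA : MeasurableSet A) {w : ℂ} (hw : w ≠ 0)
    {S : Finset ℝ} (hS : ∀ Q ∈ S, ¬ LC F w Q) {s : ℝ}
    (hs : ∀ᵐ q : ℝ, chi w (q, s) ∈ PP v → F w q = A.indicator 1 (chi w (q, s), w)) :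
    ∀ᶠ ρ in 𝓝[>] (0 : ℝ),
      ∑ Q ∈ S, {s : ℝ | chi w (Q, s) ∈ PP v}.indicator
        (fun _ => ENNReal.ofReal (‖w‖ ^ 2 / 2)) s ≤
      ENNReal.ofReal (1 / ρ) * volume {q : ℝ | (chi w (q, s), w) ∈ TD v A ρ} := by
  classical
  have hnw : 0 < ‖w‖ := norm_pos_iff.2 hw
  obtain ⟨ε₀, hε₀, hsep⟩ := exists_sep S
  set S' := S.filter (fun Q => chi w (Q, s) ∈ PP v) with hS'
  have hcq : Continuous (fun q : ℝ => chi w (q, s)) := by
    unfold chi bs; fun_prop
  -- a common radius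
  have hrad : ∃ ε : ℝ, 0 < ε ∧ ε ≤ ε₀ ∧ ∀ Q ∈ S', ∀ q : ℝ, |q - Q| < 2 * ε → chi w (q, s) ∈ PP v := by
    have h1 : ∀ Q ∈ S', ∃ ε : ℝ, 0 < ε ∧ ∀ q : ℝ, |q - Q| < 2 * ε → chi w (q, s) ∈ PP v := by
      intro Q hQ
      have hQ2 := (Finset.mem_filter.1 hQ).2
      have h2 : ∀ᶠ q in 𝓝 Q, chi w (q, s) ∈ PP v :=
        hcq.continuousAt.eventually_mem (isOpen_PP.mem_nhds hQ2)
      obtain ⟨ε, hε, h3⟩ := Metric.eventually_nhds_iff.1 h2
      refine ⟨ε / 2, by positivity, fun q hq => h3 ?_⟩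
      rw [Real.dist_eq]
      linarith
    have hgen : ∀ T : Finset ℝ, (∀ Q ∈ T, ∃ ε : ℝ, 0 < ε ∧ ∀ q : ℝ, |q - Q| < 2 * ε →
        chi w (q, s) ∈ PP v) → ∃ ε : ℝ, 0 < ε ∧ ε ≤ ε₀ ∧ ∀ Q ∈ T, ∀ q : ℝ, |q - Q| < 2 * ε →
          chi w (q, s) ∈ PP v := by
      intro T
      induction T using Finset.induction_on with
      | empty => intro _; exact ⟨ε₀, hε₀, le_rfl, by simp⟩
      | insert a T ha ih =>
      intro h1
      obtain ⟨ε, hε, hε2, h2⟩ := ih (fun Q hQ => h1 Q (Finset.mem_insert_of_mem hQ))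
      obtain ⟨ε', hε', h3⟩ := h1 a (Finset.mem_insert_self _ _)
      refine ⟨min ε ε', lt_min hε hε', (min_le_left _ _).trans hε2, ?_⟩
      intro Q hQ q hq
      rcases Finset.mem_insert.1 hQ with h4 | h4
      · subst h4
        exact h3 q (hq.trans_le (by have := min_le_right ε ε'; linarith))
      · exact h2 Q h4 q (hq.trans_le (by have := min_le_left ε ε'; linarith))
    exact hgen S' h1
  obtain ⟨ε, hε, hεε, hmem⟩ := hrad
  -- the scales
  have hscale : Tendsto (fun ρ : ℝ => ρ * ‖w‖ ^ 2) (𝓝[>] 0) (𝓝[>] 0) := by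
    rw [tendsto_nhdsWithin_iff]
    constructor
    · have : Continuous (fun r : ℝ => r * ‖w‖ ^ 2) := by fun_prop
      have h3 := this.tendsto 0
      rw [zero_mul] at h3
      exact h3.mono_left nhdsWithin_le_nhds
    · filter_upwards [self_mem_nhdsWithin] with r hr
      have : (0 : ℝ) < r := hr
      change 0 < r * ‖w‖ ^ 2
      positivity
  have hev : ∀ᶠ ρ in 𝓝[>] (0 : ℝ), ∀ Q ∈ S, ENNReal.ofReal (ρ * ‖w‖ ^ 2 / 2) ≤
      volume {q : ℝ | |q - Q| < ε ∧ F w q ≠ F w (q + ρ * ‖w‖ ^ 2)} := by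
    rw [Filter.eventually_all_finset]
    intro Q hQ
    exact hscale.eventually (nt_lower hF h01 (hS Q hQ) hε)
  have hsmall : ∀ᶠ ρ in 𝓝[>] (0 : ℝ), ρ * ‖w‖ ^ 2 < ε :=
    hscale.eventually (nhdsWithin_le_nhds (Iio_mem_nhds hε))
  filter_upwards [hev, hsmall, self_mem_nhdsWithin] with ρ h1 h2 h3
  have hρ : (0 : ℝ) < ρ := h3
  set δ := ρ * ‖w‖ ^ 2 with hδ
  have hδ0 : 0 < δ := by positivity
  set E : Set ℝ := {q : ℝ | (chi w (q, s), w) ∈ TD v A ρ} with hE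
  have hEm : MeasurableSet E := by
    have : Measurable (fun q : ℝ => (chi w (q, s), w)) := by
      have : Continuous (fun q : ℝ => (chi w (q, s), w)) := hcq.prodMk continuous_const
      exact this.measurable
    exact this (measurableSet_TD hA ρ)
  have hshift : ∀ᵐ q : ℝ, chi w (q + δ, s) ∈ PP v →
      F w (q + δ) = A.indicator 1 (chi w (q + δ, s), w) :=
    (measurePreserving_add_right volume δ).quasiMeasurePreserving.ae hs
  have hkey : ∀ Q ∈ S', ENNReal.ofReal (δ / 2) ≤ volume (E ∩ Ioo (Q - ε) (Q + ε)) := by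
    intro Q hQ
    refine (h1 Q (Finset.mem_filter.1 hQ).1).trans ?_
    apply measure_mono_ae
    filter_upwards [hs, hshift] with q g1 g2 g3
    obtain ⟨g4, g5⟩ := g3
    have g6 := hmem Q hQ q (by linarith)
    have g7 := hmem Q hQ (q + δ) (by
      rw [abs_lt] at g4 ⊢
      constructor <;> linarith)
    have g8 := g1 g6
    have g9 := g2 g7
    refine ⟨⟨g6, ?_, ?_⟩, ?_⟩
    · change chi w (q, s) + (ρ : ℂ) * (I * w) ∈ PP v
      rw [chi_shift hw]; exact g7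
    · change ¬ ((chi w (q, s), w) ∈ A ↔ (chi w (q, s) + (ρ : ℂ) * (I * w), w) ∈ A)
      rw [chi_shift hw, ← hδ]
      intro g10
      apply g5
      rw [g8, g9]
      by_cases g11 : (chi w (q, s), w) ∈ A
      · rw [indicator_of_mem g11, indicator_of_mem (g10.1 g11)]
        rfl
      · rw [indicator_of_notMem g11, indicator_of_notMem (fun h => g11 (g10.2 h))]
    · rw [abs_lt] at g4
      exact ⟨by linarith, by linarith⟩
  have hdisj : (S' : Set ℝ).PairwiseDisjoint (fun Q => E ∩ Ioo (Q - ε) (Q + ε)) := by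
    intro Q hQ Q' hQ' hne
    have h5 := hsep Q (Finset.mem_filter.1 hQ).1 Q' (Finset.mem_filter.1 hQ').1 hne
    apply Set.disjoint_left.2
    rintro q ⟨_, a1, a2⟩ ⟨_, b1, b2⟩
    have : |Q - Q'| < 2 * ε := by rw [abs_lt]; constructor <;> linarith
    linarith
  have hsum : ∑ Q ∈ S', ENNReal.ofReal (δ / 2) ≤ volume E := by
    calc ∑ Q ∈ S', ENNReal.ofReal (δ / 2) ≤ ∑ Q ∈ S', volume (E ∩ Ioo (Q - ε) (Q + ε)) :=
          Finset.sum_le_sum hkey
      _ = volume (⋃ Q ∈ S', E ∩ Ioo (Q - ε) (Q + ε)) :=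
          (measure_biUnion_finset hdisj (fun Q _ => hEm.inter measurableSet_Ioo)).symm
      _ ≤ volume E := measure_mono (iUnion₂_subset (fun Q _ => inter_subset_left))
  have e1 : ∑ Q ∈ S, {s : ℝ | chi w (Q, s) ∈ PP v}.indicator
        (fun _ => ENNReal.ofReal (‖w‖ ^ 2 / 2)) s = ∑ Q ∈ S', ENNReal.ofReal (‖w‖ ^ 2 / 2) := by
    rw [hS', Finset.sum_filter]
    apply Finset.sum_congr rfl
    intro Q _
    simp only [indicator, mem_ofPred_eq]
  have e2 : ∑ Q ∈ S', ENNReal.ofReal (‖w‖ ^ 2 / 2) =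
      ENNReal.ofReal (1 / ρ) * ∑ Q ∈ S', ENNReal.ofReal (δ / 2) := by
    rw [Finset.mul_sum]
    apply Finset.sum_congr rfl
    intro Q _
    rw [← ENNReal.ofReal_mul (by positivity), hδ]
    congr 1
    field_simp
  rw [e1, e2]
  gcongr

theorem slice_lower {F : ℂ → ℝ → ℝ} (hF : LF F) (h01 : ∀ w q, F w q = 0 ∨ F w q = 1)
    {A : Set (ℂ × ℂ)} (hA : MeasurableSet A) {w : ℂ} (hw : w ≠ 0)
    (hFA : ∀ᵐ x : ℂ, x ∈ PP v → F w (cr w x) = A.indicator 1 (x, w))
    {ρ : ℕ → ℝ} (hρ : Tendsto ρ atTop (𝓝[>] 0))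
    {S : Finset ℝ} (hS : ∀ Q ∈ S, ¬ LC F w Q) :
    ENNReal.ofReal (‖w‖ ^ 2 / 2) * ∑ Q ∈ S, len v w Q ≤
      liminf (fun i => ENNReal.ofReal (1 / ρ i) * volume {x : ℂ | (x, w) ∈ TD v A (ρ i)}) atTop := by
  have hD : ∀ i, MeasurableSet {x : ℂ | (x, w) ∈ TD v A (ρ i)} := fun i =>
    (measurableSet_TD hA (ρ i)).preimage (Continuous.measurable (by fun_prop) :
      Measurable (fun x : ℂ => (x, w)))
  have hchim : Measurable (chi w) := (mp_chi hw).measurable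
  -- slices by time
  have h1 : ∀ i, volume {x : ℂ | (x, w) ∈ TD v A (ρ i)} =
      ∫⁻ s : ℝ, volume {q : ℝ | (chi w (q, s), w) ∈ TD v A (ρ i)} := by
    intro i
    rw [← (mp_chi hw).measure_preimage (hD i).nullMeasurableSet, Measure.volume_eq_prod,
      Measure.prod_apply_symm (hchim (hD i))]
    rfl
  have h2 : ∀ᵐ s : ℝ, ∀ᵐ q : ℝ, chi w (q, s) ∈ PP v →
      F w q = A.indicator 1 (chi w (q, s), w) := by
    have g1 : ∀ᵐ z : ℝ × ℝ ∂((volume : Measure ℝ).prod (volume : Measure ℝ)),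
        chi w z ∈ PP v → F w (cr w (chi w z)) = A.indicator 1 (chi w z, w) :=
      (mp_chi hw).quasiMeasurePreserving.ae hFA
    have g2 : MeasurePreserving (Prod.swap : ℝ × ℝ → ℝ × ℝ)
        ((volume : Measure ℝ).prod volume) ((volume : Measure ℝ).prod volume) :=
      Measure.measurePreserving_swap
    have g3 := Measure.ae_ae_of_ae_prod (g2.quasiMeasurePreserving.ae g1)
    filter_upwards [g3] with s hs
    filter_upwards [hs] with q hq
    intro hmem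
    have := hq hmem
    rw [cr_chi hw] at this
    exact this
  have h3 : ENNReal.ofReal (‖w‖ ^ 2 / 2) * ∑ Q ∈ S, len v w Q =
      ∫⁻ s : ℝ, ∑ Q ∈ S, {s : ℝ | chi w (Q, s) ∈ PP v}.indicator
        (fun _ => ENNReal.ofReal (‖w‖ ^ 2 / 2)) s := by
    have hm : ∀ Q : ℝ, MeasurableSet {s : ℝ | chi w (Q, s) ∈ PP v} := by
      intro Q
      have : Continuous (fun s : ℝ => chi w (Q, s)) := by unfold chi bs; fun_prop
      exact isOpen_PP.measurableSet.preimage this.measurable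
    rw [lintegral_finsetSum _ (fun Q _ => measurable_const.indicator (hm Q)), Finset.mul_sum]
    apply Finset.sum_congr rfl
    intro Q _
    rw [lintegral_indicator_const (hm Q)]
    rfl
  rw [h3]
  simp_rw [h1]
  have hm2 : ∀ i, Measurable (fun s : ℝ => ENNReal.ofReal (1 / ρ i) *
      volume {q : ℝ | (chi w (q, s), w) ∈ TD v A (ρ i)}) := by
    intro i
    exact (measurable_measure_prodMk_right (hchim (hD i))).const_mul _
  have h4 : ∀ i, ENNReal.ofReal (1 / ρ i) *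
      ∫⁻ s : ℝ, volume {q : ℝ | (chi w (q, s), w) ∈ TD v A (ρ i)} =
      ∫⁻ s : ℝ, ENNReal.ofReal (1 / ρ i) *
        volume {q : ℝ | (chi w (q, s), w) ∈ TD v A (ρ i)} := by
    intro i
    exact (lintegral_const_mul _ (measurable_measure_prodMk_right (hchim (hD i)))).symm
  simp_rw [h4]
  refine le_trans ?_ (lintegral_liminf_le hm2)
  apply lintegral_mono_ae
  filter_upwards [h2] with s hs
  apply le_liminf_of_le
  · isBoundedDefault
  · exact hρ.eventually (fibre_lower hF h01 hA hw hS hs)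

end Pool.Agent.Lib.Bil
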