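import Pool.Agent.Lib.MP_7bc51d_an.Exit

set_option autoImplicit false

namespace Pool.Agent.Lib.Bil

open Complex MeasureTheory Set
open scoped ComplexConjugate Topology ENNReal

variable {n : ℕ} {v : Fin n → ℂ}

/-- Domain of the time-`h` map on which the collision history is `c`. -/
def stepSet (v : Fin n → ℂ) (h : ℝ) : Option (Fin n × Fin n) → Set (ℂ × ℂ)
  | none => {p | p.1 ∈ PP v ∧ p.1 + (h : ℂ) * p.2 ∈ PP v}
  | some (i, j) => {p | IsSide v i j ∧ p.1 ∈ PP v ∧ cr p.2 (v i - p.1) < 0 ∧
      0 < cr p.2 (v j - p.1) ∧ RR v i j (p.1 + (h : ℂ) * p.2) ∈ PP v}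

/-- The time-`h` map with collision history `c`. -/
noncomputable def stepMap (v : Fin n → ℂ) (h : ℝ) : Option (Fin n × Fin n) → ℂ × ℂ → ℂ × ℂ
  | none, p => (p.1 + (h : ℂ) * p.2, p.2)
  | some (i, j), p => (RR v i j (p.1 + (h : ℂ) * p.2), rl (v j - v i) p.2)

theorem mem_stepSet_none {h : ℝ} {p : ℂ × ℂ} :
    p ∈ stepSet v h none ↔ p.1 ∈ PP v ∧ p.1 + (h : ℂ) * p.2 ∈ PP v := Iff.rfl

theorem mem_stepSet_some {h : ℝ} {i j : Fin n} {p : ℂ × ℂ} :
    p ∈ stepSet v h (some (i, j)) ↔ IsSide v i j ∧ p.1 ∈ PP v ∧ cr p.2 (v i - p.1) < 0 ∧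
      0 < cr p.2 (v j - p.1) ∧ RR v i j (p.1 + (h : ℂ) * p.2) ∈ PP v := Iff.rfl

theorem isOpen_stepSet (h : ℝ) (c : Option (Fin n × Fin n)) : IsOpen (stepSet v h c) := by
  have hc : ∀ k : Fin n, Continuous (fun p : ℂ × ℂ => cr p.2 (v k - p.1)) := by
    intro k
    unfold cr
    fun_prop
  match c with
  | none =>
    have h1 : IsOpen {p : ℂ × ℂ | p.1 ∈ PP v} := isOpen_PP.preimage continuous_fst
    have h2 : IsOpen {p : ℂ × ℂ | p.1 + (h : ℂ) * p.2 ∈ PP v} :=
      isOpen_PP.preimage (by fun_prop)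
    exact h1.inter h2
  | some (i, j) =>
    by_cases hij : IsSide v i j
    · have h1 : IsOpen {p : ℂ × ℂ | p.1 ∈ PP v} := isOpen_PP.preimage continuous_fst
      have h2 : IsOpen {p : ℂ × ℂ | cr p.2 (v i - p.1) < 0} :=
        isOpen_lt (hc i) continuous_const
      have h3 : IsOpen {p : ℂ × ℂ | 0 < cr p.2 (v j - p.1)} :=
        isOpen_lt continuous_const (hc j)
      have h4 : IsOpen {p : ℂ × ℂ | RR v i j (p.1 + (h : ℂ) * p.2) ∈ PP v} :=
        isOpen_PP.preimage ((continuous_RR v i j).comp (by fun_prop))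
      have : stepSet v h (some (i, j)) = {p : ℂ × ℂ | p.1 ∈ PP v} ∩
          ({p : ℂ × ℂ | cr p.2 (v i - p.1) < 0} ∩ ({p : ℂ × ℂ | 0 < cr p.2 (v j - p.1)} ∩
          {p : ℂ × ℂ | RR v i j (p.1 + (h : ℂ) * p.2) ∈ PP v})) := by
        ext p
        rw [mem_stepSet_some]
        exact ⟨fun h => h.2, fun h => ⟨hij, h⟩⟩
      rw [this]
      exact h1.inter (h2.inter (h3.inter h4))
    · have : stepSet v h (some (i, j)) = ∅ := by
        ext p
        rw [mem_stepSet_some]
        exact ⟨fun h => absurd h.1 hij, fun h => absurd h (notMem_empty _)⟩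
      rw [this]
      exact isOpen_empty

theorem continuous_stepMap (h : ℝ) (c : Option (Fin n × Fin n)) :
    Continuous (stepMap v h c) := by
  match c with
  | none =>
    change Continuous (fun p : ℂ × ℂ => (p.1 + (h : ℂ) * p.2, p.2))
    fun_prop
  | some (i, j) =>
    change Continuous (fun p : ℂ × ℂ => (RR v i j (p.1 + (h : ℂ) * p.2), rl (v j - v i) p.2))
    exact ((continuous_RR v i j).comp (by fun_prop)).prodMk ((continuous_rl _).comp continuous_snd)

theorem fst_mem_of_mem_stepSet {h : ℝ} {c : Option (Fin n × Fin n)} {p : ℂ × ℂ}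
    (hp : p ∈ stepSet v h c) : p.1 ∈ PP v := by
  match c with
  | none => exact hp.1
  | some (i, j) => exact hp.2.1

theorem fst_stepMap_mem {h : ℝ} {c : Option (Fin n × Fin n)} {p : ℂ × ℂ}
    (hp : p ∈ stepSet v h c) : (stepMap v h c p).1 ∈ PP v := by
  match c with
  | none => exact hp.2
  | some (i, j) => exact hp.2.2.2.2

theorem norm_snd_stepMap (hv : ConvexIndependent ℝ v) {h : ℝ} {c : Option (Fin n × Fin n)}
    {p : ℂ × ℂ} (hp : p ∈ stepSet v h c) : ‖(stepMap v h c p).2‖ = ‖p.2‖ := by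
  match c with
  | none => rfl
  | some (i, j) => exact norm_rl (v_sub_ne hv hp.1.1) _

/-! ### measure preservation -/

theorem mp_shear (h : ℂ) :
    MeasurePreserving (fun p : ℂ × ℂ => (p.1 + h * p.2, p.2)) volume volume := by
  have h1 : MeasurePreserving (fun p : ℂ × ℂ => (id p.1, p.2 + h * p.1))
      ((volume : Measure ℂ).prod volume) ((volume : Measure ℂ).prod volume) := by
    refine MeasurePreserving.skew_product (MeasurePreserving.id _) (g := fun a b => b + h * a)
      ?_ ?_
    · apply Continuous.measurable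
      change Continuous (fun p : ℂ × ℂ => p.2 + h * p.1)
      fun_prop
    · exact Filter.Eventually.of_forall (fun a => map_add_right_eq_self volume (h * a))
  have h2 : MeasurePreserving (Prod.swap : ℂ × ℂ → ℂ × ℂ) ((volume : Measure ℂ).prod volume)
      ((volume : Measure ℂ).prod volume) := Measure.measurePreserving_swap
  exact (h2.comp h1).comp h2

/-- `rl a` as a linear isometry equivalence. -/
noncomputable def rlEquiv (a : ℂ) (ha : a ≠ 0) : ℂ ≃ₗᵢ[ℝ] ℂ where
  toFun := rl a
  invFun := rl a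
  left_inv := rl_rl ha
  right_inv := rl_rl ha
  map_add' := rl_add a
  map_smul' := fun t w => by
    simp only [real_smul, RingHom.id_apply]
    exact rl_smul a w t
  norm_map' := fun w => norm_rl ha w

theorem mp_rl {a : ℂ} (ha : a ≠ 0) : MeasurePreserving (rl a) volume volume :=
  (rlEquiv a ha).measurePreserving

theorem mp_RR {i j : Fin n} (h : v j - v i ≠ 0) :
    MeasurePreserving (RR v i j) volume volume := by
  have h1 : MeasurePreserving (fun x : ℂ => x - v i) volume volume :=
    measurePreserving_sub_right volume (v i)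
  have h2 : MeasurePreserving (fun x : ℂ => v i + x) volume volume :=
    measurePreserving_add_left volume (v i)
  exact (h2.comp (mp_rl h)).comp h1

theorem mp_stepMap (hv : ConvexIndependent ℝ v) (h : ℝ) {c : Option (Fin n × Fin n)}
    (hc : (stepSet v h c).Nonempty) : MeasurePreserving (stepMap v h c) volume volume := by
  match c with
  | none => exact mp_shear (h : ℂ)
  | some (i, j) =>
    obtain ⟨p, hp⟩ := hc
    have hne := v_sub_ne hv hp.1.1
    exact ((mp_RR hne).prod (mp_rl hne)).comp (mp_shear (h : ℂ))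

/-- Multiplication by a unit complex number as a linear isometry equivalence. -/
noncomputable def mulEquiv (c : ℂ) (hc : ‖c‖ = 1) : ℂ ≃ₗᵢ[ℝ] ℂ where
  toFun := fun w => c * w
  invFun := fun w => conj c * w
  left_inv := fun w => by
    have : conj c * c = 1 := by rw [← Complex.normSq_eq_conj_mul_self, Complex.normSq_eq_norm_sq, hc]; simp
    change conj c * (c * w) = w
    rw [← mul_assoc, this, one_mul]
  right_inv := fun w => by
    have : conj c * c = 1 := by rw [← Complex.normSq_eq_conj_mul_self, Complex.normSq_eq_norm_sq, hc]; simp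
    change c * (conj c * w) = w
    rw [← mul_assoc, mul_comm c, this, one_mul]
  map_add' := fun w w' => mul_add c w w'
  map_smul' := fun t w => by
    simp only [real_smul, RingHom.id_apply]
    ring
  norm_map' := fun w => by
    change ‖c * w‖ = ‖w‖
    rw [norm_mul, hc, one_mul]

theorem mp_mul {c : ℂ} (hc : ‖c‖ = 1) : MeasurePreserving (fun w : ℂ => c * w) volume volume :=
  (mulEquiv c hc).measurePreserving

/-- multiplication of the velocity by a unit complex number -/
theorem mp_rot {c : ℂ} (hc : ‖c‖ = 1) :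
    MeasurePreserving (fun p : ℂ × ℂ => (p.1, c * p.2)) volume volume :=
  (MeasurePreserving.id volume).prod (mp_mul hc)

theorem mp_neg_snd :
    MeasurePreserving (fun p : ℂ × ℂ => (p.1, -p.2)) volume volume := by
  have := mp_rot (c := -1) (by simp)
  simpa using this

/-! ### the images are disjoint -/

/-- Range sets of the steps. -/
def imgSet (v : Fin n → ℂ) (h : ℝ) : Option (Fin n × Fin n) → Set (ℂ × ℂ)
  | none => {p | p.1 ∈ PP v ∧ p.1 - (h : ℂ) * p.2 ∈ PP v}
  | some (i, j) => {p | IsSide v i j ∧ p.1 ∈ PP v ∧ cr p.2 (v j - p.1) < 0 ∧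
      0 < cr p.2 (v i - p.1) ∧ p.1 - (h : ℂ) * p.2 ∉ PP v}

theorem measurableSet_imgSet (h : ℝ) (c : Option (Fin n × Fin n)) :
    MeasurableSet (imgSet v h c) := by
  have hc : ∀ k : Fin n, Continuous (fun p : ℂ × ℂ => cr p.2 (v k - p.1)) := by
    intro k
    unfold cr
    fun_prop
  have h5 : IsOpen {p : ℂ × ℂ | p.1 - (h : ℂ) * p.2 ∈ PP v} :=
    isOpen_PP.preimage (by fun_prop)
  have h1 : IsOpen {p : ℂ × ℂ | p.1 ∈ PP v} := isOpen_PP.preimage continuous_fst
  match c with
  | none =>
    exact (h1.inter h5).measurableSet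
  | some (i, j) =>
    by_cases hij : IsSide v i j
    · have h2 : IsOpen {p : ℂ × ℂ | cr p.2 (v j - p.1) < 0} :=
        isOpen_lt (hc j) continuous_const
      have h3 : IsOpen {p : ℂ × ℂ | 0 < cr p.2 (v i - p.1)} :=
        isOpen_lt continuous_const (hc i)
      have : imgSet v h (some (i, j)) = {p : ℂ × ℂ | p.1 ∈ PP v} ∩
          ({p : ℂ × ℂ | cr p.2 (v j - p.1) < 0} ∩ ({p : ℂ × ℂ | 0 < cr p.2 (v i - p.1)} ∩
          {p : ℂ × ℂ | p.1 - (h : ℂ) * p.2 ∈ PP v}ᶜ)) := by
        ext p
        exact ⟨fun h => h.2, fun h => ⟨hij, h⟩⟩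
      rw [this]
      exact h1.measurableSet.inter (h2.measurableSet.inter (h3.measurableSet.inter
        h5.measurableSet.compl))
    · have : imgSet v h (some (i, j)) = ∅ := by
        ext p
        exact ⟨fun h => absurd h.1 hij, fun h => absurd h (notMem_empty _)⟩
      rw [this]
      exact MeasurableSet.empty

theorem cr_step (hv : ConvexIndependent ℝ v) {i j : Fin n} (hij : IsSide v i j) {h : ℝ}
    {x w : ℂ} (k : Fin n) (hk : RR v i j (v k) = v k) :
    cr (rl (v j - v i) w) (v k - RR v i j (x + (h : ℂ) * w)) = - cr w (v k - x) := by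
  have hne := v_sub_ne hv hij.1
  have h1 : v k - RR v i j (x + (h : ℂ) * w) =
      rl (v j - v i) (v k - x) - rl (v j - v i) ((h : ℂ) * w) := by
    rw [← rl_sub]
    conv_lhs => rw [← hk]
    rw [RR_sub_RR]
    congr 1; ring
  rw [h1, cr_sub_right, cr_rl hne, rl_smul, cr_smul_right, cr_rl hne, cr_self]
  ring

theorem stepMap_mem_imgSet (hv : ConvexIndependent ℝ v) {h : ℝ}
    {c : Option (Fin n × Fin n)} {p : ℂ × ℂ} (hp : p ∈ stepSet v h c) :
    stepMap v h c p ∈ imgSet v h c := by
  match c with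
  | none =>
    refine ⟨hp.2, ?_⟩
    change p.1 + (h : ℂ) * p.2 - (h : ℂ) * p.2 ∈ PP v
    rw [add_sub_cancel_right]; exact hp.1
  | some (i, j) =>
    obtain ⟨hij, hx, h1, h2, h3⟩ := hp
    have hne := v_sub_ne hv hij.1
    refine ⟨hij, h3, ?_, ?_, ?_⟩
    · change cr (rl (v j - v i) p.2) (v j - RR v i j (p.1 + (h : ℂ) * p.2)) < 0
      rw [cr_step hv hij j (RR_right v hne)]
      linarith
    · change 0 < cr (rl (v j - v i) p.2) (v i - RR v i j (p.1 + (h : ℂ) * p.2))
      rw [cr_step hv hij i (RR_left v i j)]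
      linarith
    · change RR v i j (p.1 + (h : ℂ) * p.2) - (h : ℂ) * rl (v j - v i) p.2 ∉ PP v
      intro hmem
      have h4 : RR v i j (p.1 + (h : ℂ) * p.2) - (h : ℂ) * rl (v j - v i) p.2 =
          RR v i j p.1 := by
        rw [← rl_smul, ← RR_sub]; congr 1; ring
      rw [h4] at hmem
      have h5 := hij.cr_pos hv hmem
      have h6 := hij.cr_pos hv hx
      have h7 : RR v i j p.1 - v i = rl (v j - v i) (p.1 - v i) := by
        unfold RR
        rw [add_sub_cancel_left]
      rw [h7] at h5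
      have h8 := cr_rl hne (v j - v i) (p.1 - v i)
      rw [rl_self hne] at h8
      linarith

theorem imgSet_disjoint (hv : ConvexIndependent ℝ v) {h : ℝ}
    {c c' : Option (Fin n × Fin n)} (hcc : c ≠ c') : Disjoint (imgSet v h c) (imgSet v h c') := by
  rw [Set.disjoint_left]
  intro p hp hp'
  match c, c' with
  | none, none => exact hcc rfl
  | none, some (i, j) => exact hp'.2.2.2.2 hp.2
  | some (i, j), none => exact hp.2.2.2.2 hp'.2
  | some (i, j), some (k, l) =>
    have := exit_unique hv hp.1 hp'.1 (x := p.1) (w := -p.2)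
      (by rw [cr_neg_left]; have := hp.2.2.2.1; linarith)
      (by rw [cr_neg_left]; have := hp.2.2.1; linarith)
      (by rw [cr_neg_left]; have := hp'.2.2.2.1; linarith)
      (by rw [cr_neg_left]; have := hp'.2.2.1; linarith)
    rw [this.1, this.2] at hcc
    exact hcc rfl

theorem imgSet_subset {h : ℝ} {c : Option (Fin n × Fin n)} {p : ℂ × ℂ}
    (hp : p ∈ imgSet v h c) : p.1 ∈ PP v := by
  match c with
  | none => exact hp.1
  | some (i, j) => exact hp.2.1

end Pool.Agent.Lib.Bil
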