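import Pool.Agent.Lib.MP_7bc51d_an.Traj

set_option autoImplicit false

namespace Pool.Agent.Lib.Bil

open Complex MeasureTheory Set Filter
open scoped ComplexConjugate Topology ENNReal

variable {n : ℕ} {v : Fin n → ℂ}

/-- The closed segment of the side. -/
theorem isClosed_side (i j : Fin n) :
    IsClosed {y : ℂ | ∃ s : ℝ, 0 ≤ s ∧ s ≤ 1 ∧ y = v i + (s : ℂ) * (v j - v i)} := by
  have h : {y : ℂ | ∃ s : ℝ, 0 ≤ s ∧ s ≤ 1 ∧ y = v i + (s : ℂ) * (v j - v i)} =
      (fun s : ℝ => v i + (s : ℂ) * (v j - v i)) '' Icc 0 1 := by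
    ext y
    simp only [mem_ofPred_eq, mem_image, mem_Icc]
    constructor
    · rintro ⟨s, h0, h1, rfl⟩; exact ⟨s, ⟨h0, h1⟩, rfl⟩
    · rintro ⟨s, ⟨h0, h1⟩, rfl⟩; exact ⟨s, h0, h1, rfl⟩
  rw [h]
  exact (isCompact_Icc.image (by fun_prop)).isClosed

/-- An infinite sequence of arcs has collision times tending to infinity. -/
theorem times_unbounded (hn : 3 ≤ n) (hv : ConvexIndependent ℝ v) {x w : ℂ}
    (hfree : FwdFree v x w) (a : ℕ → Arc v x w)
    (hg : ∀ k, (a (k + 1)).g = (a k).s :: (a k).g) (hT : ∀ k, (a (k + 1)).T = (a k).T')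
    (B : ℝ) : ∃ k, B < (a k).T' := by
  by_contra hcon
  push Not at hcon
  -- monotone convergence
  have hmono : StrictMono (fun k => (a k).T') := by
    apply strictMono_nat_of_lt_succ
    intro k
    have := (a (k + 1)).lt
    rw [hT] at this
    exact this
  have hbdd : BddAbove (Set.range (fun k => (a k).T')) := ⟨B, by rintro _ ⟨k, rfl⟩; exact hcon k⟩
  have hlim := tendsto_atTop_ciSup hmono.monotone hbdd
  set Ts := ⨆ k, (a k).T' with hTs
  have hTspos : 0 < Ts := lt_of_lt_of_le (a 0).pos (le_ciSup hbdd 0)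
  set b : ℕ → ℂ := fun k => Fo v (a k).g (x + ((a k).T' : ℂ) * w) with hb
  have hb1 : ∀ k, dist (b k) (b (k + 1)) ≤ ((a (k + 1)).T' - (a k).T') * ‖w‖ := by
    intro k
    have h1 : b k = Fo v (a (k + 1)).g (x + ((a k).T' : ℂ) * w) := (hit_cons hv (hg k)).symm
    rw [h1, hb, dist_Fo hv (a (k + 1)).valid, dist_eq_norm]
    have h2 : x + ((a k).T' : ℂ) * w - (x + ((a (k + 1)).T' : ℂ) * w) =
        (((a k).T' - (a (k + 1)).T' : ℝ) : ℂ) * w := by
      rw [ofReal_sub]; ring
    rw [h2, norm_mul, norm_real, Real.norm_eq_abs, abs_sub_comm, abs_of_nonneg]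
    have := hmono (Nat.lt_succ_self k)
    simp only at this
    linarith
  have hcau : CauchySeq b := by
    apply cauchySeq_of_dist_le_of_summable _ hb1
    apply Summable.mul_right
    have h1 : ∀ k, 0 ≤ (a (k + 1)).T' - (a k).T' := by
      intro k
      have := hmono (Nat.lt_succ_self k)
      simp only at this
      linarith
    apply summable_of_sum_range_le (c := B - (a 0).T') h1
    intro m
    rw [Finset.sum_range_sub (fun k => (a k).T') m]
    have := hcon m
    linarith
  obtain ⟨bs, hbs⟩ := cauchySeq_tendsto_of_complete hcau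
  -- sides occurring infinitely often
  have hev : ∀ᶠ k in atTop, ∀ s : Fin n × Fin n, (¬ ∃ᶠ k in atTop, (a k).s = s) →
      (a k).s ≠ s := by
    rw [Filter.eventually_all]
    intro s
    by_cases h : ∃ᶠ k in atTop, (a k).s = s
    · exact Filter.Eventually.of_forall (fun k hk => absurd h hk)
    · rw [Filter.not_frequently] at h
      filter_upwards [h] with k hk _
      exact hk
  obtain ⟨k₀, hk₀⟩ := Filter.eventually_atTop.1 hev
  have hinf : ∀ k, k₀ ≤ k → ∃ᶠ k' in atTop, (a k').s = (a k).s := by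
    intro k hk
    by_contra h
    exact hk₀ k hk _ h rfl
  have hside : ∀ k, k₀ ≤ k → ∃ s : ℝ, 0 ≤ s ∧ s ≤ 1 ∧
      bs = v (a k).s.1 + (s : ℂ) * (v (a k).s.2 - v (a k).s.1) := by
    intro k hk
    have hcl := isClosed_side (v := v) (a k).s.1 (a k).s.2
    refine hcl.mem_of_frequently_of_tendsto ?_ hbs
    refine (hinf k hk).mono (fun k' hk' => ?_)
    refine ⟨(a k').sg, (a k').sg0.le, (a k').sg1.le, ?_⟩
    rw [← hk']
    exact (a k').hit
  -- the limit is a vertex
  obtain ⟨l, hl⟩ : bs ∈ Set.range v := by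
    obtain ⟨s, h0, h1, e1⟩ := hside k₀ le_rfl
    obtain ⟨s', h0', h1', e2⟩ := hside (k₀ + 1) (Nat.le_succ _)
    have hne := side_ne hv (hg k₀)
    have := meet_sides hn (a k₀).hs (a (k₀ + 1)).hs (fun h => hne (Prod.ext
      (by rw [Prod.mk.injEq] at h; exact h.1.symm) (by rw [Prod.mk.injEq] at h; exact h.2.symm)))
      (s' := s') h0 h1 (by rw [← e1, ← e2])
    rw [← e1] at this
    exact this
  -- the unfolded vertex is eventually constant
  have hconst : ∀ m, Un v (a (k₀ + m)).g (v l) = Un v (a k₀).g (v l) := by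
    intro m
    induction m with
    | zero => rfl
    | succ m ih =>
      rw [← ih, ← add_assoc, hg]
      change Un v (a (k₀ + m)).g (RR v (a (k₀ + m)).s.1 (a (k₀ + m)).s.2 (v l)) = _
      obtain ⟨s, _, _, e1⟩ := hside (k₀ + m) (Nat.le_add_right _ _)
      rw [hl, e1, RR_line (v_sub_ne hv (a (k₀ + m)).hs.1)]
  apply hfree (a k₀).g (a k₀).valid l Ts hTspos
  have h1 : Tendsto (fun m => dist (x + ((a (k₀ + m)).T' : ℂ) * w) (Un v (a k₀).g (v l)))
      atTop (𝓝 (dist (x + (Ts : ℂ) * w) (Un v (a k₀).g (v l)))) := by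
    have h2 : Tendsto (fun m => (a (k₀ + m)).T') atTop (𝓝 Ts) := by
      have := hlim.comp (tendsto_add_atTop_nat k₀)
      refine this.congr (fun m => ?_)
      simp only [Function.comp, add_comm]
    have h3 : Continuous (fun T : ℝ => dist (x + (T : ℂ) * w) (Un v (a k₀).g (v l))) := by
      fun_prop
    exact (h3.tendsto Ts).comp h2
  have h2 : Tendsto (fun m => dist (x + ((a (k₀ + m)).T' : ℂ) * w) (Un v (a k₀).g (v l)))
      atTop (𝓝 0) := by
    have h3 : ∀ m, dist (x + ((a (k₀ + m)).T' : ℂ) * w) (Un v (a k₀).g (v l)) =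
        dist (b (k₀ + m)) (v l) := by
      intro m
      rw [← hconst m, ← dist_Fo hv (a (k₀ + m)).valid, Fo_Un hv (a (k₀ + m)).valid]
    simp_rw [h3]
    have h4 : Tendsto (fun m => b (k₀ + m)) atTop (𝓝 bs) := by
      have := hbs.comp (tendsto_add_atTop_nat k₀)
      refine this.congr (fun m => ?_)
      simp only [Function.comp, add_comm]
    have h5 := h4.dist (tendsto_const_nhds (x := v l))
    rw [hl, dist_self] at h5
    rw [← hl] at h5
    exact h5
  have := tendsto_nhds_unique h1 h2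
  exact dist_eq_zero.1 this

/-- A sequence of arcs starting from a phase point. -/
theorem exists_arcs (hn : 3 ≤ n) (hv : ConvexIndependent ℝ v) {x w : ℂ} (hw : w ≠ 0)
    (hfree : FwdFree v x w) {a₁ : ℝ} (ha₁ : 0 < a₁)
    (hmem : ∀ s : ℝ, -a₁ ≤ s → s ≤ a₁ → x + (s : ℂ) * w ∈ PP v) :
    ∃ a : ℕ → Arc v x w, (a 0).g = [] ∧ (a 0).T = -a₁ ∧ a₁ ≤ (a 0).T' ∧
      (∀ k, (a (k + 1)).g = (a k).s :: (a k).g) ∧ (∀ k, (a (k + 1)).T = (a k).T') := by
  obtain ⟨A0, h1, h2⟩ := arc_from hn hv hw hfree (g := []) (by intro s hs; simp at hs)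
    (T := -a₁) (τ₀ := a₁) (by linarith) ha₁.le (fun τ h1 h2 => hmem τ h1.le h2)
  choose nx hnx1 hnx2 using fun a => next_arc hn hv hw hfree (x := x) a
  refine ⟨fun k => nx^[k] A0, h1, h2, ?_, ?_, ?_⟩
  · change a₁ ≤ A0.T'
    by_contra hcon
    push Not at hcon
    have h3 := hmem A0.T' (by have := A0.pos; linarith) hcon.le
    have h4 := A0.hit
    rw [h1] at h4
    change x + (A0.T' : ℂ) * w = _ at h4
    rw [h4] at h3
    have h5 := A0.hs.cr_pos hv h3
    rw [add_sub_cancel_left, cr_smul_right, cr_self, mul_zero] at h5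
    exact lt_irrefl _ h5
  · intro k
    simp only [Function.iterate_succ', Function.comp]
    exact hnx1 _
  · intro k
    simp only [Function.iterate_succ', Function.comp]
    exact hnx2 _

/-- Time-`h` words along a sequence of arcs. -/
theorem word_along {x w : ℂ} (a : ℕ → Arc v x w)
    (hg : ∀ k, (a (k + 1)).g = (a k).s :: (a k).g) (hT : ∀ k, (a (k + 1)).T = (a k).T')
    {h : ℝ} (m : ℕ) : ∀ (k : ℕ) (τ : ℝ), (a k).T < τ → τ < (a k).T' →
      (∀ j ≤ m, ∀ i, τ + j * h ≠ (a i).T') →
      (∀ i, (a i).T' < τ + m * h → h < (a (i + 1)).T' - (a i).T') → 0 < h →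
      ∃ u : List (Option (Fin n × Fin n)), u.length = m ∧
        (Fo v (a k).g (x + (τ : ℂ) * w), Lo v (a k).g w) ∈ OO v h u := by
  induction m with
  | zero =>
    intro k τ h1 h2 _ _ _
    exact ⟨[], rfl, (a k).mem τ h1 h2⟩
  | succ m ih =>
    intro k τ h1 h2 h3 h4 hh
    have hne := h3 1 (by omega) k
    rw [Nat.cast_one, one_mul] at hne
    have h3' : ∀ j ≤ m, ∀ i, τ + h + j * h ≠ (a i).T' := by
      intro j hj i
      have := h3 (j + 1) (by omega) i
      push_cast at this
      intro hcon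
      apply this
      rw [← hcon]; ring
    have h4' : ∀ i, (a i).T' < τ + h + m * h → h < (a (i + 1)).T' - (a i).T' := by
      intro i hi
      apply h4 i
      push_cast
      linarith
    have hm0 : 0 ≤ (m : ℝ) * h := by positivity
    rcases lt_or_gt_of_ne hne with hlt | hgt
    · obtain ⟨u, hu1, hu2⟩ := ih k (τ + h) (by linarith) hlt h3' h4' hh
      refine ⟨none :: u, by simp [hu1], ?_, ?_⟩
      · refine ⟨(a k).mem τ h1 h2, ?_⟩
        simp only
        rw [Fo_line]
        exact (a k).mem _ (by linarith) hlt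
      · change (Fo v (a k).g (x + (τ : ℂ) * w) + (h : ℂ) * Lo v (a k).g w, Lo v (a k).g w) ∈ _
        rw [Fo_line]
        exact hu2
    · have hgap := h4 k (by push_cast; linarith)
      obtain ⟨u, hu1, hu2⟩ := ih (k + 1) (τ + h) (by rw [hT]; linarith) (by linarith) h3' h4' hh
      have hFo : Fo v (a (k + 1)).g (x + ((τ + h : ℝ) : ℂ) * w) =
          RR v (a k).s.1 (a k).s.2 (Fo v (a k).g (x + (τ : ℂ) * w) + (h : ℂ) * Lo v (a k).g w) := by
        rw [hg, Fo_line]
        rfl
      have hLo : Lo v (a (k + 1)).g w = rl (v (a k).s.2 - v (a k).s.1) (Lo v (a k).g w) := by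
        rw [hg]; rfl
      have hy : Fo v (a k).g (x + (τ : ℂ) * w) = v (a k).s.1 +
          ((a k).sg : ℂ) * (v (a k).s.2 - v (a k).s.1) - (((a k).T' - τ : ℝ) : ℂ) *
            Lo v (a k).g w := by
        have h5 := Fo_line (v := v) (a k).g x w τ ((a k).T' - τ)
        have h6 : τ + ((a k).T' - τ) = (a k).T' := by ring
        rw [h6, (a k).hit] at h5
        linear_combination h5
      have hout := (a k).out
      rw [cr_swap] at hout
      have hout' : 0 < cr (Lo v (a k).g w) (v (a k).s.2 - v (a k).s.1) := by linarith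
      refine ⟨some ((a k).s.1, (a k).s.2) :: u, by simp [hu1], ?_, ?_⟩
      · rw [mem_stepSet_some]
        refine ⟨(a k).hs, (a k).mem τ h1 h2, ?_, ?_, ?_⟩
        · simp only
          rw [hy]
          have h7 : v (a k).s.1 - (v (a k).s.1 + ((a k).sg : ℂ) * (v (a k).s.2 - v (a k).s.1) -
              (((a k).T' - τ : ℝ) : ℂ) * Lo v (a k).g w) =
              (((a k).T' - τ : ℝ) : ℂ) * Lo v (a k).g w -
                ((a k).sg : ℂ) * (v (a k).s.2 - v (a k).s.1) := by ring
          rw [h7, cr_sub_right, cr_smul_right, cr_smul_right, cr_self]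
          have := mul_pos (a k).sg0 hout'
          linarith
        · simp only
          rw [hy]
          have h7 : v (a k).s.2 - (v (a k).s.1 + ((a k).sg : ℂ) * (v (a k).s.2 - v (a k).s.1) -
              (((a k).T' - τ : ℝ) : ℂ) * Lo v (a k).g w) =
              (((a k).T' - τ : ℝ) : ℂ) * Lo v (a k).g w +
                ((1 - (a k).sg : ℝ) : ℂ) * (v (a k).s.2 - v (a k).s.1) := by
            rw [ofReal_sub 1, ofReal_one]; ring
          rw [h7, cr_add_right, cr_smul_right, cr_smul_right, cr_self]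
          have := mul_pos (sub_pos.2 (a k).sg1) hout'
          linarith
        · simp only
          rw [← hFo]
          exact (a (k + 1)).mem _ (by rw [hT]; linarith) (by linarith)
      · change (RR v (a k).s.1 (a k).s.2
          (Fo v (a k).g (x + (τ : ℂ) * w) + (h : ℂ) * Lo v (a k).g w),
          rl (v (a k).s.2 - v (a k).s.1) (Lo v (a k).g w)) ∈ _
        rw [← hFo, ← hLo]
        exact hu2

end Pool.Agent.Lib.Bil
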