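import Pool.Agent.Lib.MP_7bc51d_an.Code
import Pool.Agent.Lib.MP_7bc51d_an.Traj2
import Pool.Agent.Lib.MP_7bc51d_an.Global

set_option autoImplicit false

namespace Pool.Agent.Lib.Bil

open Complex MeasureTheory Set Filter
open scoped ComplexConjugate Topology ENNReal

variable {n : ℕ} {v : Fin n → ℂ}

/-- All unfolded vertices stay at distance at least `η` from the forward trajectory. -/
def SF (v : Fin n → ℂ) (η : ℝ) (x w : ℂ) : Prop :=
  ∀ g : List (Fin n × Fin n), Rz v g x w → ∀ l, η * ‖w‖ ≤ |cr (Lo v g w) (v l - Fo v g x)|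

theorem SF.mono {η η' : ℝ} {x w : ℂ} (h : SF v η x w) (hη : η' ≤ η) : SF v η' x w := by
  intro g hg l
  have := h g hg l
  have h2 : η' * ‖w‖ ≤ η * ‖w‖ := by gcongr
  linarith

theorem sf_near (hv : ConvexIndependent ℝ v) {η : ℝ} (hη : 0 < η) {x x' w : ℂ} (hw : w ≠ 0)
    (h : SF v η x w) (hx : ‖x' - x‖ ≤ η / 2) : SF v (η / 2) x' w := by
  have hnw : 0 < ‖w‖ := norm_pos_iff.2 hw
  have key : ∀ g : List (Fin n × Fin n), Val v g → ∀ l,
      |cr (Lo v g w) (v l - Fo v g x') - cr (Lo v g w) (v l - Fo v g x)| ≤ η / 2 * ‖w‖ := by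
    intro g hg l
    rw [← cr_sub_right]
    have e1 : v l - Fo v g x' - (v l - Fo v g x) = Lo v g (x - x') := by
      rw [← Fo_sub]; ring
    rw [e1, abs_cr_Lo hv hg]
    have h1 := abs_cr_le w (x - x')
    rw [norm_sub_rev] at h1
    nlinarith
  have hR : ∀ g : List (Fin n × Fin n), Rz v g x' w → Rz v g x w := by
    intro g
    induction g with
    | nil => intro _; trivial
    | cons s g ih =>
      rintro ⟨h1, h2, h3, h4⟩
      have g1 := ih h1
      refine ⟨g1, h2, ?_, ?_⟩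
      · have k1 := key g h1.val s.1
        have k2 := h g g1 s.1
        rw [cr_sub_right, cr_sub_right] at k1
        rw [cr_sub_right] at k2
        rw [abs_le] at k1
        rcases le_abs.1 k2 with k3 | k3
        · nlinarith
        · nlinarith
      · have k1 := key g h1.val s.2
        have k2 := h g g1 s.2
        rw [cr_sub_right, cr_sub_right] at k1
        rw [cr_sub_right] at k2
        rw [abs_le] at k1
        rcases le_abs.1 k2 with k3 | k3
        · nlinarith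
        · nlinarith
  intro g hg l
  have g1 := hR g hg
  have k1 := key g g1.val l
  have k2 := h g g1 l
  have k3 := abs_sub_abs_le_abs_sub (cr (Lo v g w) (v l - Fo v g x)) (cr (Lo v g w) (v l - Fo v g x'))
  rw [abs_sub_comm] at k1
  linarith

/-- Bounds for the distance of the vertices to the folded base point. -/
def Bd (v : Fin n → ℂ) (R : ℝ) : List (Fin n × Fin n) → ℂ → Prop
  | [], _ => True
  | _ :: g, x => Bd v R g x ∧ ∀ l, ‖v l - Fo v g x‖ ≤ R

theorem rz_step (hv : ConvexIndependent ℝ v) {η R : ℝ} {x w w' : ℂ} (hSF : SF v η x w)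
    (h : ‖w' - w‖ * R < η * ‖w‖) : ∀ g : List (Fin n × Fin n), Rz v g x w → Bd v R g x →
      Rz v g x w' := by
  intro g
  induction g with
  | nil => intro _ _; trivial
  | cons s g ih =>
    rintro ⟨h1, h2, h3, h4⟩ ⟨b1, b2⟩
    have key : ∀ l, |cr (Lo v g w') (v l - Fo v g x) - cr (Lo v g w) (v l - Fo v g x)| <
        η * ‖w‖ := by
      intro l
      rw [← cr_sub_left, ← Lo_sub]
      have k1 := abs_cr_le (Lo v g (w' - w)) (v l - Fo v g x)
      rw [norm_Lo hv h1.val] at k1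
      have k2 := b2 l
      have k3 : ‖w' - w‖ * ‖v l - Fo v g x‖ ≤ ‖w' - w‖ * R := by gcongr
      linarith
    refine ⟨ih h1 b1, h2, ?_, ?_⟩
    · have k1 := key s.1
      have k2 := hSF g h1 s.1
      rw [cr_sub_right, cr_sub_right] at k1
      rw [cr_sub_right] at k2
      rw [abs_lt] at k1
      rcases le_abs.1 k2 with k3 | k3
      · nlinarith [norm_nonneg w]
      · nlinarith
    · have k1 := key s.2
      have k2 := hSF g h1 s.2
      rw [cr_sub_right, cr_sub_right] at k1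
      rw [cr_sub_right] at k2
      rw [abs_lt] at k1
      rcases le_abs.1 k2 with k3 | k3
      · nlinarith
      · nlinarith [norm_nonneg w]

theorem arc_cross (x w : ℂ) (a : Arc v x w) :
    cr (Lo v a.g w) (v a.s.1) < cr (Lo v a.g w) (Fo v a.g x) ∧
      cr (Lo v a.g w) (Fo v a.g x) < cr (Lo v a.g w) (v a.s.2) := by
  have h1 := a.hit
  rw [Fo_add, Lo_smul] at h1
  have h2 : cr (Lo v a.g w) (Fo v a.g x) = cr (Lo v a.g w) (v a.s.1) +
      a.sg * cr (Lo v a.g w) (v a.s.2 - v a.s.1) := by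
    have h3 := congrArg (cr (Lo v a.g w)) h1
    rw [cr_add_right, cr_add_right, cr_smul_right, cr_smul_right, cr_self] at h3
    linarith
  have h3 : 0 < cr (Lo v a.g w) (v a.s.2 - v a.s.1) := by
    rw [cr_swap]
    have := a.out
    linarith
  have h4 := cr_sub_right (Lo v a.g w) (v a.s.2) (v a.s.1)
  have h5 := a.sg0
  have h6 := a.sg1
  constructor
  · nlinarith [mul_pos h5 h3]
  · nlinarith [mul_pos (sub_pos.2 h6) h3]

theorem arcs_rz {x w : ℂ} (a : ℕ → Arc v x w) (h0 : (a 0).g = [])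
    (hg : ∀ k, (a (k + 1)).g = (a k).s :: (a k).g) (k : ℕ) : Rz v (a k).g x w := by
  induction k with
  | zero => rw [h0]; trivial
  | succ k ih =>
    rw [hg]
    exact ⟨ih, (a k).hs, (arc_cross x w (a k)).1, (arc_cross x w (a k)).2⟩

theorem arc_bound (hv : ConvexIndependent ℝ v) {x w : ℂ} {D T : ℝ}
    (hD : ∀ y ∈ KK v, ∀ l, ‖v l - y‖ ≤ D)
    (hT : 0 ≤ T) (b : Arc v x w) (hb : b.T ≤ T) (l : Fin n) :
    ‖v l - Fo v b.g x‖ ≤ D + (T + 1) * ‖w‖ := by
  obtain ⟨τ, h1, h2, h3, h4⟩ : ∃ τ : ℝ, b.T < τ ∧ τ < b.T' ∧ 0 < τ ∧ τ ≤ T + 1 := by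
    have q1 := b.pos
    have q2 := b.lt
    have q3 : max 0 b.T < b.T' := max_lt q1 q2
    have q4 : max 0 b.T ≤ T := max_le hT hb
    have q5 : 0 ≤ max 0 b.T := le_max_left _ _
    have q6 : b.T ≤ max 0 b.T := le_max_right _ _
    refine ⟨min ((max 0 b.T + b.T') / 2) (T + 1), ?_, ?_, ?_, min_le_right _ _⟩
    · apply lt_min <;> linarith
    · exact (min_le_left _ _).trans_lt (by linarith)
    · apply lt_min <;> linarith
  have h5 := hD _ (PP_sub_KK (b.mem τ h1 h2)) l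
  have h6 : v l - Fo v b.g x = (v l - Fo v b.g (x + (τ : ℂ) * w)) + (τ : ℂ) * Lo v b.g w := by
    rw [Fo_add, Lo_smul]; ring
  rw [h6]
  refine (norm_add_le _ _).trans ?_
  rw [norm_mul, norm_real, Real.norm_eq_abs, abs_of_pos h3, norm_Lo hv b.valid]
  have : τ * ‖w‖ ≤ (T + 1) * ‖w‖ := by gcongr
  linarith

theorem chain_absurd (hn : 3 ≤ n) (hv : ConvexIndependent ℝ v) {x : ℂ} (hx : x ∈ PP v)
    {η T D : ℝ} (hT : 0 ≤ T) (hD : ∀ y ∈ KK v, ∀ l, ‖v l - y‖ ≤ D) {m : ℕ}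
    (ws : ℕ → ℂ) (hSF : ∀ i < m, SF v η x (ws i)) (hfree : FwdFree v x (ws 0))
    (h0 : ws 0 ≠ 0)
    (hstep : ∀ i < m, ‖ws (i + 1) - ws i‖ * (D + (T + 1) * ‖ws 0‖) < η * ‖ws i‖)
    (hbig : ‖ws m‖ * D ≤ T * |cr (ws m) (ws 0)|) (hpos : 0 < |cr (ws m) (ws 0)|) : False := by
  -- a small chord through `x`
  obtain ⟨a₁, ha₁, hmem⟩ : ∃ a₁ : ℝ, 0 < a₁ ∧ ∀ s : ℝ, -a₁ ≤ s → s ≤ a₁ →
      x + (s : ℂ) * ws 0 ∈ PP v := by
    have hc : Continuous (fun s : ℝ => x + (s : ℂ) * ws 0) := by fun_prop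
    have h1 : ∀ᶠ s : ℝ in 𝓝 0, x + (s : ℂ) * ws 0 ∈ PP v := by
      apply hc.continuousAt.eventually_mem
      simp only [ofReal_zero, zero_mul, add_zero]
      exact isOpen_PP.mem_nhds hx
    obtain ⟨ε, hε, h2⟩ := Metric.eventually_nhds_iff.1 h1
    refine ⟨ε / 2, by positivity, fun s h3 h4 => h2 ?_⟩
    rw [Real.dist_eq, sub_zero, abs_lt]
    constructor <;> linarith
  obtain ⟨a, a1, a2, -, a3, a4⟩ := exists_arcs hn hv h0 hfree ha₁ hmem
  -- the first arc ending after time `T`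
  obtain ⟨k, hk⟩ := times_unbounded hn hv hfree a a3 a4 T
  classical
  have hex : ∃ k, T < (a k).T' := ⟨k, hk⟩
  set K := Nat.find hex with hK
  have hK1 : T < (a K).T' := Nat.find_spec hex
  have hK2 : ∀ j < K, (a j).T' ≤ T := fun j hj => not_lt.1 (Nat.find_min hex hj)
  have hTj : ∀ j ≤ K, (a j).T ≤ T := by
    intro j hj
    rcases Nat.eq_zero_or_pos j with rfl | hj0
    · rw [a2]; linarith
    · obtain ⟨i, rfl⟩ : ∃ i, j = i + 1 := ⟨j - 1, by omega⟩
      rw [a4]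
      exact hK2 i (by omega)
  have hBd : ∀ j ≤ K + 1, Bd v (D + (T + 1) * ‖ws 0‖) (a j).g x := by
    intro j
    induction j with
    | zero => intro _; rw [a1]; trivial
    | succ j ih =>
      intro hj
      rw [a3]
      exact ⟨ih (by omega), arc_bound hv hD hT (a j) (hTj j (by omega))⟩
  have hRz : ∀ i ≤ m, Rz v (a (K + 1)).g x (ws i) := by
    intro i
    induction i with
    | zero => intro _; exact arcs_rz a a1 a3 (K + 1)
    | succ i ih =>
      intro hi
      exact rz_step hv (hSF i (by omega)) (hstep i (by omega)) _ (ih (by omega)) (hBd _ le_rfl)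
  have hm := hRz m le_rfl
  rw [a3] at hm
  obtain ⟨-, -, c1, c2⟩ := hm
  have hval := (a K).valid
  have hT' : 0 < (a K).T' := lt_of_le_of_lt hT hK1
  set g := (a K).g with hg
  set s := (a K).s with hs
  set y0 := Fo v g (x + ((a K).T' : ℂ) * ws 0) with hy0
  have hyK : y0 ∈ KK v := by
    rw [hy0, (a K).hit]
    exact side_point_mem_KK (a K).sg0.le (a K).sg1.le
  have hFo : Fo v g x = y0 - ((a K).T' : ℂ) * Lo v g (ws 0) := by
    rw [hy0, Fo_add, Lo_smul]; ring
  have habs := abs_cr_Lo hv hval (ws m) (ws 0)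
  rw [hFo, cr_sub_right, cr_smul_right] at c1 c2
  have b1 := abs_cr_le (Lo v g (ws m)) (v s.1 - y0)
  have b2 := abs_cr_le (Lo v g (ws m)) (v s.2 - y0)
  rw [norm_Lo hv hval] at b1 b2
  have d1 := hD y0 hyK s.1
  have d2 := hD y0 hyK s.2
  have nn : 0 ≤ ‖ws m‖ := norm_nonneg _
  have b1' : |cr (Lo v g (ws m)) (v s.1 - y0)| ≤ ‖ws m‖ * D := b1.trans (by gcongr)
  have b2' : |cr (Lo v g (ws m)) (v s.2 - y0)| ≤ ‖ws m‖ * D := b2.trans (by gcongr)
  rw [cr_sub_right, abs_le] at b1' b2'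
  have f1 : |(a K).T' * cr (Lo v g (ws m)) (Lo v g (ws 0))| ≤ ‖ws m‖ * D := by
    rw [abs_le]; constructor <;> linarith
  rw [abs_mul, abs_of_pos hT', habs] at f1
  have f2 : T * |cr (ws m) (ws 0)| < (a K).T' * |cr (ws m) (ws 0)| :=
    mul_lt_mul_of_pos_right hK1 hpos
  linarith

theorem ae_fwdFree (x : ℂ) : ∀ᵐ w : ℂ, FwdFree v x w := by
  have h1 : ∀ᵐ w : ℂ, ∀ (g : List (Fin n × Fin n)) (l : Fin n),
      w ∉ (Submodule.span ℝ {Un v g (v l) - x} : Submodule ℝ ℂ) := by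
    rw [ae_all_iff]; intro g
    rw [ae_all_iff]; intro l
    exact ae_not_mem_line _
  filter_upwards [h1] with w hw g _ l τ hτ h
  apply hw g l
  rw [Submodule.mem_span_singleton]
  refine ⟨τ⁻¹, ?_⟩
  rw [← h, add_sub_cancel_left, real_smul, ← mul_assoc, ← ofReal_mul, inv_mul_cancel₀ hτ.ne',
    ofReal_one, one_mul]

end Pool.Agent.Lib.Bil
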