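import Pool.Agent.Lib.MP_7bc51d_an.Strip

set_option autoImplicit false

namespace Pool.Agent.Lib.Bil

open Complex MeasureTheory Set Filter
open scoped ComplexConjugate Topology ENNReal NNReal

variable {n : ℕ} {v : Fin n → ℂ}

/-- Near a density point all small discs of fixed proportion are met. -/
theorem density_meet {S : Set ℂ} {p : ℂ}
    (hp : Tendsto (fun r => volume (S ∩ Metric.closedBall p r) / volume (Metric.closedBall p r))
      (𝓝[>] 0) (𝓝 1)) {κ : ℝ} (hκ : 0 < κ) :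
    ∀ᶠ r : ℝ in 𝓝[>] 0, ∀ c : ℂ, ‖c - p‖ ≤ r → κ ≤ 1 →
      (S ∩ Metric.closedBall c (κ * r)).Nonempty := by
  -- ratio eventually larger than `1 - κ²/4`
  set q : ℝ := 1 - κ ^ 2 / 4 with hq
  have hq1 : ENNReal.ofReal q < 1 := by
    rw [← ENNReal.ofReal_one]
    apply (ENNReal.ofReal_lt_ofReal_iff one_pos).2
    have : 0 < κ ^ 2 := by positivity
    linarith
  have h2 : Tendsto (fun r : ℝ => 2 * r) (𝓝[>] 0) (𝓝[>] 0) := by
    rw [tendsto_nhdsWithin_iff]
    constructor
    · have : Continuous (fun r : ℝ => 2 * r) := by fun_prop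
      have h3 := this.tendsto 0
      rw [mul_zero] at h3
      exact h3.mono_left nhdsWithin_le_nhds
    · filter_upwards [self_mem_nhdsWithin] with r hr
      have : (0 : ℝ) < r := hr
      change 0 < 2 * r
      linarith
  have h3 := (hp.comp h2).eventually (lt_mem_nhds hq1)
  filter_upwards [h3, self_mem_nhdsWithin] with r hr hr0 c hc hκ1
  have hr0' : (0 : ℝ) < r := hr0
  by_contra hemp
  rw [not_nonempty_iff_eq_empty] at hemp
  simp only [Function.comp] at hr
  have hsub : Metric.closedBall c (κ * r) ⊆ Metric.closedBall p (2 * r) := by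
    apply Metric.closedBall_subset_closedBall'
    rw [dist_eq_norm]
    nlinarith
  have hle : volume (S ∩ Metric.closedBall p (2 * r)) ≤
      volume (Metric.closedBall p (2 * r)) - volume (Metric.closedBall c (κ * r)) := by
    rw [← measure_sdiff hsub Metric.isClosed_closedBall.measurableSet.nullMeasurableSet
      (by rw [Complex.volume_closedBall]; exact ENNReal.mul_ne_top
            (ENNReal.pow_ne_top ENNReal.ofReal_ne_top) ENNReal.coe_ne_top)]
    apply measure_mono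
    rintro z ⟨hz1, hz2⟩
    refine ⟨hz2, fun hz3 => ?_⟩
    have : z ∈ S ∩ Metric.closedBall c (κ * r) := ⟨hz1, hz3⟩
    rw [hemp] at this
    exact this
  rw [Complex.volume_closedBall, Complex.volume_closedBall] at hle
  rw [Complex.volume_closedBall] at hr
  -- convert to reals
  have e1 : ENNReal.ofReal (2 * r) ^ 2 * (NNReal.pi : ℝ≥0∞) = ENNReal.ofReal ((2 * r) ^ 2 * Real.pi) := by
    rw [← ENNReal.ofReal_pow (by positivity), ENNReal.ofReal_mul (by positivity)]
    congr 1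
    rw [← NNReal.coe_real_pi, ENNReal.ofReal_coe_nnreal]
  have e2 : ENNReal.ofReal (κ * r) ^ 2 * (NNReal.pi : ℝ≥0∞) = ENNReal.ofReal ((κ * r) ^ 2 * Real.pi) := by
    rw [← ENNReal.ofReal_pow (by positivity), ENNReal.ofReal_mul (by positivity)]
    congr 1
    rw [← NNReal.coe_real_pi, ENNReal.ofReal_coe_nnreal]
  rw [e1, e2, ← ENNReal.ofReal_sub _ (by positivity)] at hle
  rw [e1] at hr
  have hV : 0 < (2 * r) ^ 2 * Real.pi := by positivity
  have e3 : ENNReal.ofReal q * ENNReal.ofReal ((2 * r) ^ 2 * Real.pi) <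
      volume (S ∩ Metric.closedBall p (2 * r)) := by
    rwa [ENNReal.lt_div_iff_mul_lt (Or.inl (ENNReal.ofReal_pos.2 hV).ne')
      (Or.inl ENNReal.ofReal_ne_top)] at hr
  have e4 := e3.trans_le hle
  have hq0 : 0 ≤ q := by
    have : κ ^ 2 ≤ 1 := by nlinarith
    linarith
  rw [← ENNReal.ofReal_mul hq0] at e4
  have e5 := (ENNReal.ofReal_lt_ofReal_iff_of_nonneg (by positivity)).1 e4
  rw [hq] at e5
  have : (1 - κ ^ 2 / 4) * ((2 * r) ^ 2 * Real.pi) =
    (2 * r) ^ 2 * Real.pi - (κ * r) ^ 2 * Real.pi := by ring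
  linarith

theorem exists_D : ∃ D : ℝ, 0 < D ∧ ∀ y ∈ KK v, ∀ l, ‖v l - y‖ ≤ D := by
  obtain ⟨C, hC⟩ := (isCompact_KK (v := v)).isBounded.exists_norm_le
  refine ⟨2 * |C| + 1, by positivity, fun y hy l => ?_⟩
  have h1 := hC y hy
  have h2 := hC (v l) (vert_mem_KK l)
  have h3 := norm_sub_le (v l) y
  have h4 := le_abs_self C
  linarith

theorem sf_null (hn : 3 ≤ n) (hv : ConvexIndependent ℝ v) {x : ℂ} (hx : x ∈ PP v) {η : ℝ}
    (hη : 0 < η) : ∀ᵐ w : ℂ, ¬ SF v η x w := by
  by_contra hcon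
  set S : Set ℂ := {w | SF v η x w ∧ FwdFree v x w} with hS
  have hS0 : volume S ≠ 0 := by
    intro h0
    apply hcon
    have h1 : ∀ᵐ w : ℂ, w ∉ S := measure_eq_zero_iff_ae_notMem.1 h0
    filter_upwards [h1, ae_fwdFree (v := v) x] with w g1 g2 g3
    exact g1 ⟨g3, g2⟩
  have hNB : (ae (volume.restrict S)).NeBot := by
    rw [ae_neBot]
    intro h
    exact hS0 (Measure.restrict_eq_zero.1 h)
  have hne : ∀ᵐ w ∂(volume.restrict S), w ≠ 0 := by
    apply ae_restrict_of_ae
    simp [ae_iff]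
  obtain ⟨p, hp, hp0⟩ :=
    ((Besicovitch.ae_tendsto_measure_inter_div (volume : Measure ℂ) S).and hne).exists
  obtain ⟨D, hD0, hD⟩ := exists_D (v := v)
  set A : ℝ := ‖p‖ with hA
  have hA0 : 0 < A := norm_pos_iff.2 hp0
  -- number of steps
  set K' : ℝ := A * D / 8 + 15 / 4 * D * A + 5 / 32 * A ^ 2 with hK'
  obtain ⟨m, hm⟩ := exists_nat_gt (max 8 (4 * K' / (η * A)))
  have hm8 : (8 : ℝ) < m := (le_max_left _ _).trans_lt hm
  have hmK : 4 * K' / (η * A) < m := (le_max_right _ _).trans_lt hm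
  have hm0 : (0 : ℝ) < m := by linarith
  have hev := density_meet hp (κ := 1 / (m : ℝ)) (by positivity)
  have hsm : ∀ᶠ r : ℝ in 𝓝[>] 0, r < A / 8 :=
    nhdsWithin_le_nhds (Iio_mem_nhds (by positivity))
  obtain ⟨r, hr, hrA, hr0'⟩ := (hev.and (hsm.and self_mem_nhdsWithin)).exists
  have hr0 : (0 : ℝ) < r := hr0'
  have hκ1 : 1 / (m : ℝ) ≤ 1 := by rw [div_le_one hm0]; linarith
  set u : ℂ := I * p / (A : ℂ) with hu
  have hun : ‖u‖ = 1 := by
    rw [hu, norm_div, norm_mul, norm_I, one_mul, norm_real, norm_norm, div_self hA0.ne']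
  have hcen : ∀ i : ℕ, i ≤ m → ‖p + ((i / m * r : ℝ) : ℂ) * u - p‖ ≤ r := by
    intro i hi
    rw [add_sub_cancel_left, norm_mul, hun, mul_one, norm_real, Real.norm_eq_abs,
      abs_of_nonneg (by positivity)]
    have h1 : (i : ℝ) / m ≤ 1 := by rw [div_le_one hm0]; exact_mod_cast hi
    nlinarith
  have hch : ∀ i : ℕ, ∃ w, i ≤ m → (w ∈ S ∧ ‖w - (p + ((i / m * r : ℝ) : ℂ) * u)‖ ≤ r / m) := by
    intro i
    by_cases hi : i ≤ m
    · obtain ⟨w, hw1, hw2⟩ := hr _ (hcen i hi) hκ1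
      refine ⟨w, fun _ => ⟨hw1, ?_⟩⟩
      rw [Metric.mem_closedBall, dist_eq_norm] at hw2
      rw [one_div, inv_mul_eq_div] at hw2
      exact hw2
    · exact ⟨0, fun h => absurd h hi⟩
  choose ws hws using hch
  have hrm : r / m ≤ r / 8 := by gcongr
  have hnorm : ∀ i ≤ m, A - 2 * r ≤ ‖ws i‖ ∧ ‖ws i‖ ≤ A + 2 * r := by
    intro i hi
    have h1 := (hws i hi).2
    have h2 := hcen i hi
    have h3 : ‖ws i - p‖ ≤ 2 * r := by
      have e : ws i - p = (ws i - (p + ((i / m * r : ℝ) : ℂ) * u)) +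
          (p + ((i / m * r : ℝ) : ℂ) * u - p) := by ring
      rw [e]
      refine (norm_add_le _ _).trans ?_
      linarith
    have h4 := norm_sub_norm_le (ws i) p
    have h5 := norm_sub_norm_le p (ws i)
    rw [norm_sub_rev] at h5
    constructor <;> linarith
  have h0m : 0 ≤ m := Nat.zero_le _
  have hstep : ∀ i < m, ‖ws (i + 1) - ws i‖ ≤ 3 * (r / m) := by
    intro i hi
    have h1 := (hws i hi.le).2
    have h2 := (hws (i + 1) hi).2
    have e : ws (i + 1) - ws i = (ws (i + 1) - (p + (((i + 1 : ℕ) / m * r : ℝ) : ℂ) * u)) -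
        (ws i - (p + ((i / m * r : ℝ) : ℂ) * u)) + ((r / m : ℝ) : ℂ) * u := by
      push_cast
      ring
    rw [e]
    refine (norm_add_le _ _).trans ?_
    have h3 : ‖((r / m : ℝ) : ℂ) * u‖ = r / m := by
      rw [norm_mul, hun, mul_one, norm_real, Real.norm_eq_abs, abs_of_nonneg (by positivity)]
    rw [h3]
    have h4 := norm_sub_le (ws (i + 1) - (p + (((i + 1 : ℕ) / m * r : ℝ) : ℂ) * u))
      (ws i - (p + ((i / m * r : ℝ) : ℂ) * u))
    linarith
  -- the total turning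
  have hturn : r * A / 2 ≤ |cr (ws m) (ws 0)| := by
    have h1 := (hws m le_rfl).2
    have h2 := (hws 0 h0m).2
    have hmm : ((m : ℝ) / m * r : ℝ) = r := by rw [div_self hm0.ne', one_mul]
    rw [hmm] at h1
    simp only [Nat.cast_zero, zero_div, zero_mul, ofReal_zero, add_zero] at h2
    set e1 := ws m - (p + (r : ℂ) * u) with he1
    set e0 := ws 0 - p with he0
    have w1 : ws m = p + (r : ℂ) * u + e1 := by rw [he1]; ring
    have w0 : ws 0 = p + e0 := by rw [he0]; ring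
    have hup : cr u p = -A := by
      rw [hu]
      have hsq : p.re ^ 2 + p.im ^ 2 = A ^ 2 := normsq_eq p
      have e : I * p / (A : ℂ) = ((A⁻¹ : ℝ) : ℂ) * (I * p) := by
        push_cast; rw [div_eq_inv_mul]
      rw [e, cr_smul_left]
      have : cr (I * p) p = -(p.re ^ 2 + p.im ^ 2) := by
        simp only [cr, mul_re, mul_im, I_re, I_im]; ring
      rw [this, hsq]
      field_simp
    have hexp : cr (ws m) (ws 0) = cr p e0 + r * (-A) + r * cr u e0 + cr e1 p + cr e1 e0 := by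
      rw [w1, w0, cr_add_left, cr_add_left, cr_smul_left, cr_add_right p, cr_add_right u,
        cr_add_right e1, cr_self, hup]
      ring
    have a1 := abs_cr_le p e0
    have a2 := abs_cr_le u e0
    have a3 := abs_cr_le e1 p
    have a4 := abs_cr_le e1 e0
    rw [hun, one_mul] at a2
    have b0 : ‖e0‖ ≤ r / 8 := h2.trans hrm
    have b1 : ‖e1‖ ≤ r / 8 := h1.trans hrm
    have n0 := norm_nonneg e0
    have n1 := norm_nonneg e1
    have c1 : ‖p‖ * ‖e0‖ ≤ A * (r / 8) := by rw [← hA]; gcongr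
    have c3 : ‖e1‖ * ‖p‖ ≤ (r / 8) * A := by rw [← hA]; gcongr
    have c4 : ‖e1‖ * ‖e0‖ ≤ (r / 8) * (r / 8) := by gcongr
    have c2 : r * ‖e0‖ ≤ r * (r / 8) := by gcongr
    rw [abs_le] at a1 a2 a3 a4
    have d2 : r * cr u e0 ≤ r * (r / 8) := by
      have : r * cr u e0 ≤ r * ‖e0‖ := by gcongr; exact a2.2
      linarith
    have hneg : cr (ws m) (ws 0) ≤ -(r * A / 2) := by
      rw [hexp]
      nlinarith
    rw [abs_of_nonpos (by nlinarith)]
    linarith
  have hn0 := hnorm 0 h0m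
  have hnm := hnorm m le_rfl
  refine chain_absurd hn hv hx (η := η) (T := 3 * D / r) (D := D) (m := m) (by positivity) hD ws
    (fun i hi => (hws i hi.le).1.1) (hws 0 h0m).1.2 ?_ ?_ ?_ ?_
  · rw [← norm_pos_iff]; linarith
  · intro i hi
    have h1 := hstep i hi
    have h2 := hnorm i hi.le
    have h3 : D + (3 * D / r + 1) * ‖ws 0‖ ≤ D + (3 * D / r + 1) * (5 / 4 * A) := by
      have : ‖ws 0‖ ≤ 5 / 4 * A := by linarith
      gcongr
    have h4 : 0 ≤ D + (3 * D / r + 1) * ‖ws 0‖ := by positivity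
    have h5 : ‖ws (i + 1) - ws i‖ * (D + (3 * D / r + 1) * ‖ws 0‖) ≤
        3 * (r / m) * (D + (3 * D / r + 1) * (5 / 4 * A)) := by gcongr
    have h6 : 3 * (r / m) * (D + (3 * D / r + 1) * (5 / 4 * A)) =
        3 / m * (r * D + 15 / 4 * D * A + 5 / 4 * A * r) := by
      field_simp
      ring
    have h7 : r * D + 15 / 4 * D * A + 5 / 4 * A * r ≤ K' := by
      rw [hK']
      have q1 : r * D ≤ A / 8 * D := by gcongr
      have q2 : A * r ≤ A * (A / 8) := by gcongr
      linarith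
    have h8 : 3 / m * (r * D + 15 / 4 * D * A + 5 / 4 * A * r) ≤ 3 / m * K' := by gcongr
    have h9 : 3 / m * K' < η * (3 / 4 * A) := by
      rw [div_lt_iff₀ (by positivity)] at hmK
      have e : 3 / (m : ℝ) * K' = 3 * K' / m := by ring
      rw [e, div_lt_iff₀ hm0]
      linarith
    have h10 : η * (3 / 4 * A) ≤ η * ‖ws i‖ := by
      have : 3 / 4 * A ≤ ‖ws i‖ := by linarith [h2.1]
      gcongr
    linarith
  · have h1 : ‖ws m‖ ≤ 5 / 4 * A := by linarith
    have h2 : ‖ws m‖ * D ≤ 5 / 4 * A * D := by gcongr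
    have h3 : 3 * D / r * (r * A / 2) ≤ 3 * D / r * |cr (ws m) (ws 0)| := by gcongr
    have h4 : 3 * D / r * (r * A / 2) = 3 / 2 * D * A := by field_simp
    have h5 := mul_pos hD0 hA0
    linarith
  · have : 0 < r * A / 2 := by positivity
    linarith

theorem isClosed_SF (η : ℝ) : IsClosed {p : ℂ × ℂ | SF v η p.1 p.2} := by
  have h : {p : ℂ × ℂ | SF v η p.1 p.2} = ⋂ g : List (Fin n × Fin n),
      ({p : ℂ × ℂ | Rz v g p.1 p.2}ᶜ ∪ ⋂ l, {p : ℂ × ℂ | η * ‖p.2‖ ≤
        |cr (Lo v g p.2) (v l - Fo v g p.1)|}) := by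
    ext p
    simp only [SF, mem_ofPred_eq, mem_iInter, mem_union, mem_compl_iff]
    constructor
    · intro h g
      by_cases hg : Rz v g p.1 p.2
      · right; exact h g hg
      · left; exact hg
    · intro h g hg l
      rcases h g with h1 | h1
      · exact absurd hg h1
      · exact h1 l
  rw [h]
  refine isClosed_iInter (fun g => ((isOpen_Rz g).isClosed_compl).union
    (isClosed_iInter (fun l => isClosed_le (by fun_prop) ?_)))
  have hL : Continuous (fun p : ℂ × ℂ => Lo v g p.2) := (continuous_Lo g).comp continuous_snd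
  have hF : Continuous (fun p : ℂ × ℂ => Fo v g p.1) := (continuous_Fo g).comp continuous_fst
  unfold cr
  fun_prop

/-- Strip lemma: for almost every direction every strip is eventually hit by a vertex. -/
theorem strip (hn : 3 ≤ n) (hv : ConvexIndependent ℝ v) :
    ∀ᵐ w : ℂ, ∀ x ∈ PP v, ∀ η : ℝ, 0 < η → ¬ SF v η x w := by
  have h1 : ∀ N : ℕ, ∀ᵐ w : ℂ, ∀ᵐ x : ℂ, x ∈ PP v → ¬ SF v (1 / ((N : ℝ) + 1)) x w := by
    intro N
    have hm : MeasurableSet {p : ℂ × ℂ | p.1 ∈ PP v → ¬ SF v (1 / ((N : ℝ) + 1)) p.1 p.2} := by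
      have : {p : ℂ × ℂ | p.1 ∈ PP v → ¬ SF v (1 / ((N : ℝ) + 1)) p.1 p.2} =
          (Prod.fst ⁻¹' (PP v))ᶜ ∪ {p : ℂ × ℂ | SF v (1 / ((N : ℝ) + 1)) p.1 p.2}ᶜ := by
        ext p
        simp only [mem_ofPred_eq, mem_union, mem_compl_iff, mem_preimage]
        tauto
      rw [this]
      exact ((isOpen_PP.measurableSet.preimage measurable_fst).compl).union
        (isClosed_SF _).measurableSet.compl
    have h2 : ∀ᵐ x : ℂ, ∀ᵐ w : ℂ, x ∈ PP v → ¬ SF v (1 / ((N : ℝ) + 1)) x w := by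
      refine Eventually.of_forall (fun x => ?_)
      by_cases hx : x ∈ PP v
      · filter_upwards [sf_null hn hv hx (η := 1 / ((N : ℝ) + 1)) (by positivity)] with w hw _
        exact hw
      · exact Eventually.of_forall (fun w h => absurd h hx)
    exact (Measure.ae_ae_comm hm).1 h2
  have h0 : ∀ᵐ w : ℂ, w ≠ 0 := by simp [ae_iff]
  rw [← ae_all_iff] at h1
  filter_upwards [h1, h0] with w hw hw0 x hx η hη hSF
  obtain ⟨N, hN⟩ := exists_nat_one_div_lt (show 0 < η / 2 by positivity)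
  have hU : PP v ∩ Metric.ball x (η / 2) ∈ 𝓝 x :=
    inter_mem (isOpen_PP.mem_nhds hx) (Metric.ball_mem_nhds x (by positivity))
  have hpos := Measure.measure_pos_of_mem_nhds volume hU
  apply hpos.ne'
  rw [measure_eq_zero_iff_ae_notMem]
  filter_upwards [hw N] with x' hx' hmem
  apply hx' hmem.1
  refine (sf_near hv hη hw0 hSF ?_).mono hN.le
  have := hmem.2
  rw [Metric.mem_ball, dist_eq_norm] at this
  exact this.le

end Pool.Agent.Lib.Bil
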