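import Pool.Agent.Lib.MP_7bc51d_an.Potential

set_option autoImplicit false

namespace Pool.Agent.Lib.Bil

open Complex MeasureTheory Set Filter
open scoped ComplexConjugate Topology ENNReal

variable {n : ℕ} {v : Fin n → ℂ}

theorem rl_preimage_BV {e : ℂ} (he : e ≠ 0) : rl e ⁻¹' BV = BV := by
  ext w
  simp only [mem_preimage, mem_ball_zero_iff, norm_rl he]

theorem mp_rl_BV {e : ℂ} (he : e ≠ 0) :
    MeasurePreserving (rl e) (volume.restrict BV) (volume.restrict BV) := by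
  have h := (mp_rl he).restrict_preimage (s := BV) measurableSet_ball
  rwa [rl_preimage_BV he] at h

theorem rl_emb {e : ℂ} (he : e ≠ 0) : MeasurableEmbedding (rl e) :=
  (rlEquiv e he).toHomeomorph.measurableEmbedding

theorem rl_integral {e : ℂ} (he : e ≠ 0) (g : ℂ → ℝ) :
    ∫ w in BV, g (rl e w) = ∫ w in BV, g w :=
  (mp_rl_BV he).integral_comp (rl_emb he) g

theorem antisym_integral {e : ℂ} (he : e ≠ 0) {g : ℂ → ℝ} (hg : ∀ᵐ w, g (rl e w) = - g w) :
    ∫ w in BV, g w = 0 := by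
  have h1 := rl_integral he g
  have h2 : ∫ w in BV, g (rl e w) = ∫ w in BV, - g w := by
    apply integral_congr_ae
    exact ae_restrict_of_ae hg
  rw [h2, integral_neg] at h1
  linarith

/-- Reflection symmetry of a line function at the side starting at `a` with edge vector `e`. -/
def SymAt (F : ℂ → ℝ → ℝ) (a e : ℂ) : Prop :=
  ∀ᵐ w : ℂ, ∀ᵐ τ : ℝ, τ ∈ Ioo (0 : ℝ) 1 →
    F (rl e w) (cr (rl e w) (a + (τ : ℂ) * e)) = F w (cr w (a + (τ : ℂ) * e))

/-- Mass of the side up to parameter `t` in direction `w`. -/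
noncomputable def Sm (F : ℂ → ℝ → ℝ) (a e : ℂ) (t : ℝ) (w : ℂ) : ℝ :=
  ∫ τ in (0 : ℝ)..t, F w (cr w (a + (τ : ℂ) * e))

theorem Sm_symm {F : ℂ → ℝ → ℝ} {a e : ℂ} (hs : SymAt F a e) :
    ∀ᵐ w : ℂ, ∀ t ∈ Icc (0 : ℝ) 1, Sm F a e t (rl e w) = Sm F a e t w := by
  filter_upwards [hs] with w hw t ht
  unfold Sm
  apply intervalIntegral.integral_congr_ae
  have h1 : ∀ᵐ τ : ℝ, τ ≠ 1 := by simp [ae_iff, measure_singleton]
  filter_upwards [hw, h1] with τ h2 h3 hτ
  rw [uIoc_of_le ht.1] at hτ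
  exact h2 ⟨hτ.1, lt_of_le_of_ne (hτ.2.trans ht.2) h3⟩

theorem Gp_side {F : ℂ → ℝ → ℝ} (hF : LF F) (a e w : ℂ) (t : ℝ) :
    Gp F w (cr w (a + (t : ℂ) * e)) - Gp F w (cr w a) = Sm F a e t w * cr w e := by
  rw [cr_add_right, cr_smul_right, Gp_add hF, Sm, ← intervalIntegral.integral_mul_const]
  apply intervalIntegral.integral_congr
  intro τ _
  simp only
  rw [cr_add_right, cr_smul_right]

theorem dt_rl {e : ℂ} (he : e ≠ 0) (w : ℂ) : dt e (rl e w) = dt e w := by
  have h1 : ∀ z, dt e z = (conj e * z).re := by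
    intro z; simp only [dt, mul_re, conj_re, conj_im]; ring
  rw [h1, h1]
  have h2 : conj e ≠ 0 := by simpa using he
  have h3 : conj e * rl e w = conj (conj e * w) := by
    simp only [rl, map_mul, conj_conj]
    field_simp
  rw [h3, conj_re]

theorem cr_rl_left {e : ℂ} (he : e ≠ 0) (w : ℂ) : cr (rl e w) e = - cr w e := by
  have := cr_rl he w e
  rwa [rl_self he] at this

theorem Sm_meas {F : ℂ → ℝ → ℝ} (hF : LF F) (a e : ℂ) : Measurable (fun w => Sm F a e 1 w) := by
  have h0 : (fun w => Sm F a e 1 w) =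
      fun w => ∫ τ in Ioc (0 : ℝ) 1, F w (cr w (a + (τ : ℂ) * e)) := by
    funext w
    rw [Sm, intervalIntegral.integral_of_le zero_le_one]
  rw [h0]
  have h1 : Measurable (fun z : ℂ × ℝ => F z.1 (cr z.1 (a + (z.2 : ℂ) * e))) := by
    have hc1 : Measurable (fun z : ℂ × ℝ => cr z.1 (a + (z.2 : ℂ) * e)) := by
      apply Continuous.measurable; unfold cr; fun_prop
    exact hF.meas.comp (measurable_fst.prodMk hc1)
  have h2 : StronglyMeasurable (Function.uncurry
      (fun (w : ℂ) (τ : ℝ) => F w (cr w (a + (τ : ℂ) * e)))) := h1.stronglyMeasurable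
  exact h2.integral_prod_right.measurable

theorem Sm_abs {F : ℂ → ℝ → ℝ} (hF : LF F) (a e w : ℂ) {t : ℝ} (ht : t ∈ Icc (0 : ℝ) 1) :
    |Sm F a e t w| ≤ 1 := by
  unfold Sm
  rw [← Real.norm_eq_abs]
  have := intervalIntegral.norm_integral_le_of_norm_le_const (a := 0) (b := t)
    (f := fun τ : ℝ => F w (cr w (a + (τ : ℂ) * e))) (C := 1)
    (fun q _ => by rw [Real.norm_eq_abs]; exact hF.bd w _)
  rw [one_mul, sub_zero, abs_of_nonneg ht.1] at this
  exact this.trans ht.2

/-- No shear along a side. -/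
theorem cr_Pt_side {F : ℂ → ℝ → ℝ} (hF : LF F) {a e : ℂ} (he : e ≠ 0) (hs : SymAt F a e) {t : ℝ}
    (ht : t ∈ Icc (0 : ℝ) 1) : cr e (Pt F (a + (t : ℂ) * e)) = cr e (Pt F a) := by
  rw [← sub_eq_zero, cr_Pt hF, cr_Pt hF, ← integral_sub]
  · have h1 : ∀ w, Gp F w (cr w (a + (t : ℂ) * e)) * dt e w - Gp F w (cr w a) * dt e w =
        Sm F a e t w * cr w e * dt e w := by
      intro w
      rw [← sub_mul, Gp_side hF]
    simp_rw [h1]
    apply antisym_integral he
    filter_upwards [Sm_symm hs] with w hw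
    rw [hw t ht, cr_rl_left he, dt_rl he]
    ring
  · exact Ki_intOn hF _ _
  · exact Ki_intOn hF _ _

/-- Length of the image of a side under the potential. -/
noncomputable def mu (F : ℂ → ℝ → ℝ) (a e : ℂ) : ℝ :=
  (∫ w in BV, Sm F a e 1 w * (cr w e) ^ 2) / (e.re ^ 2 + e.im ^ 2)

theorem Pt_side {F : ℂ → ℝ → ℝ} (hF : LF F) {a e : ℂ} (he : e ≠ 0) (hs : SymAt F a e) :
    Pt F (a + e) - Pt F a = (mu F a e : ℂ) * e := by
  have h1 := cr_Pt_side hF he hs (t := 1) ⟨zero_le_one, le_rfl⟩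
  rw [ofReal_one, one_mul] at h1
  have h2 : cr e (Pt F (a + e) - Pt F a) = 0 := by rw [cr_sub_right, h1, sub_self]
  have hpos : 0 < e.re ^ 2 + e.im ^ 2 := by
    have : e.re ≠ 0 ∨ e.im ≠ 0 := by
      by_contra hcon
      push Not at hcon
      exact he (Complex.ext hcon.1 hcon.2)
    rcases this with h | h <;> positivity
  have h3 : dt e (Pt F (a + e) - Pt F a) = ∫ w in BV, Sm F a e 1 w * (cr w e) ^ 2 := by
    rw [dt_sub_right, dt_Pt hF, dt_Pt hF, ← integral_sub]
    · apply integral_congr_ae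
      refine Eventually.of_forall (fun w => ?_)
      simp only
      have := Gp_side hF a e w 1
      rw [ofReal_one, one_mul] at this
      rw [← sub_mul, this]
      ring
    · have := Ki_intOn hF (a + e) ⟨e.im, -e.re⟩
      refine this.congr (Eventually.of_forall (fun w' => ?_))
      simp only [dt, cr]
      ring
    · have := Ki_intOn hF a ⟨e.im, -e.re⟩
      refine this.congr (Eventually.of_forall (fun w' => ?_))
      simp only [dt, cr]
      ring
  obtain ⟨t, ht⟩ := (cr_eq_zero_iff he).1 h2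
  rw [ht]
  congr 2
  rw [ht, dt_smul_right] at h3
  unfold mu
  rw [← h3]
  simp only [dt]
  field_simp

end Pool.Agent.Lib.Bil
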