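import Pool.Agent.Lib.MP_7bc51d_an.Cone
import Pool.Agent.Lib.MP_7bc51d_an.LineFn

set_option autoImplicit false

namespace Pool.Agent.Lib.Bil

open Complex MeasureTheory Set Filter
open scoped ComplexConjugate Topology ENNReal Real

variable {n : ℕ} {v : Fin n → ℂ}

/-- The slice of `A` over `x`. -/
def sl (A : Set (ℂ × ℂ)) (x : ℂ) : Set ℂ := {w | (x, w) ∈ A}

/-- Fraction of directions at `x`. -/
noncomputable def frac (A : Set (ℂ × ℂ)) (x : ℂ) : ℝ := (volume (sl A x ∩ BV)).toReal / π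

/-- Moments of the slices. -/
noncomputable def ms (A : Set (ℂ × ℂ)) (φ : ℂ → ℝ) (x : ℂ) : ℝ := ∫ w in sl A x ∩ BV, φ w

theorem measurableSet_sl {A : Set (ℂ × ℂ)} (hA : MeasurableSet A) (x : ℂ) :
    MeasurableSet (sl A x) := hA.preimage measurable_prodMk_left

theorem ms_eq {A : Set (ℂ × ℂ)} (hA : MeasurableSet A) (φ : ℂ → ℝ) (x : ℂ) :
    ms A φ x = ∫ w in BV, (sl A x).indicator (1 : ℂ → ℝ) w * φ w := by
  unfold ms
  have h : ∀ w, (sl A x).indicator (1 : ℂ → ℝ) w * φ w = (sl A x).indicator φ w := by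
    intro w
    by_cases hw : w ∈ sl A x
    · rw [indicator_of_mem hw, indicator_of_mem hw]; simp
    · rw [indicator_of_notMem hw, indicator_of_notMem hw]; simp
  simp_rw [h]
  rw [setIntegral_indicator (measurableSet_sl hA x), inter_comm]

theorem LF_comp_meas {F : ℂ → ℝ → ℝ} (hF : LF F) :
    Measurable (fun z : ℂ × ℂ => F z.1 (cr z.1 z.2)) := by
  have hc1 : Measurable (fun z : ℂ × ℂ => cr z.1 z.2) := by
    apply Continuous.measurable; unfold cr; fun_prop
  exact hF.meas.comp (measurable_fst.prodMk hc1)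

theorem FA_comp_meas {A : Set (ℂ × ℂ)} (hA : MeasurableSet A) :
    Measurable (fun z : ℂ × ℂ => FA v A z.1 (cr z.1 z.2)) := LF_comp_meas (LF_FA hA)

theorem ind_swap_meas {A : Set (ℂ × ℂ)} (hA : MeasurableSet A) :
    Measurable (fun z : ℂ × ℂ => A.indicator (1 : ℂ × ℂ → ℝ) (z.2, z.1)) := by
  have h : Measurable (A.indicator (1 : ℂ × ℂ → ℝ)) := measurable_one.indicator hA
  exact h.comp (measurable_snd.prodMk measurable_fst)

theorem badset_meas {A : Set (ℂ × ℂ)} (hA : MeasurableSet A) :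
    MeasurableSet {z : ℂ × ℂ | z.2 ∈ PP v → FA v A z.1 (cr z.1 z.2) =
      A.indicator (1 : ℂ × ℂ → ℝ) (z.2, z.1)} := by
  have h3 : MeasurableSet {z : ℂ × ℂ | z.2 ∈ PP v} :=
    isOpen_PP.measurableSet.preimage measurable_snd
  have h4 : MeasurableSet {z : ℂ × ℂ | FA v A z.1 (cr z.1 z.2) =
      A.indicator (1 : ℂ × ℂ → ℝ) (z.2, z.1)} :=
    measurableSet_eq_fun (FA_comp_meas hA) (ind_swap_meas hA)
  have h5 : {z : ℂ × ℂ | z.2 ∈ PP v → FA v A z.1 (cr z.1 z.2) =
      A.indicator (1 : ℂ × ℂ → ℝ) (z.2, z.1)} = {z : ℂ × ℂ | z.2 ∈ PP v}ᶜ ∪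
        {z : ℂ × ℂ | FA v A z.1 (cr z.1 z.2) = A.indicator (1 : ℂ × ℂ → ℝ) (z.2, z.1)} := by
    ext z
    simp only [mem_ofPred_eq, mem_union, mem_compl_iff]
    tauto
  rw [h5]
  exact h3.compl.union h4

theorem FA_ae_swap {A : Set (ℂ × ℂ)} (hA : MeasurableSet A) (hch : ∀ᵐ w, ChordAt v A w) :
    ∀ᵐ x, ∀ᵐ w, x ∈ PP v → FA v A w (cr w x) = A.indicator 1 (x, w) := by
  have h := FA_ae hch
  have h2 := Measure.ae_ae_comm (μ := (volume : Measure ℂ)) (ν := (volume : Measure ℂ))
    (p := fun w x : ℂ => x ∈ PP v →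
      FA v A w (cr w x) = A.indicator (1 : ℂ × ℂ → ℝ) (x, w)) (badset_meas hA)
  exact h2.1 h

theorem mo_ms {A : Set (ℂ × ℂ)} (hA : MeasurableSet A) (hch : ∀ᵐ w, ChordAt v A w) :
    ∀ᵐ x, x ∈ PP v → ∀ φ : ℂ → ℝ, mo (FA v A) φ x = ms A φ x := by
  filter_upwards [FA_ae_swap hA hch] with x hx hxP φ
  rw [ms_eq hA]
  unfold mo
  apply integral_congr_ae
  refine ae_restrict_of_ae ?_
  filter_upwards [hx] with w hw
  rw [hw hxP]
  rfl

theorem MM_ne : MM ≠ 0 := by
  have h := vol_cone (S := univ) MeasurableSet.univ (fun _ _ _ => by simp)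
  have h2 := cone_moments (S := univ) MeasurableSet.univ (fun _ _ _ => by simp) rfl
  have h3 : ∀ φ : ℂ → ℝ, ∫ w in BV, (univ : Set ℂ).indicator (1 : ℂ → ℝ) w * φ w = ∫ w in BV, φ w := by
    intro φ
    simp
  have h4 := h2.1
  rw [h3, h3, int_p02_eq, univ_inter] at h4
  change MM + MM = _ at h4
  have h5 : (volume BV).toReal = π := by
    rw [Complex.volume_ball]
    simp
  rw [h5] at h4
  have hpi := Real.pi_pos
  intro h0
  rw [h0] at h4
  have : π * (π / π) / 2 = π / 2 := by field_simp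
  rw [this] at h4
  linarith

/-- The stress inequality for an invariant set. -/
theorem stress_set (hn : 3 ≤ n) (hv : ConvexIndependent ℝ v) {A : Set (ℂ × ℂ)}
    (hA : MeasurableSet A) (hI : Inv v A) (hch : ∀ᵐ w, ChordAt v A w) :
    4 * (volume (PP v)).toReal * ∫ x in PP v, (ms A p20 x * ms A p02 x - (ms A p11 x) ^ 2) ≤
      (∫ x in PP v, (ms A p20 x + ms A p02 x)) ^ 2 := by
  have hs : ∀ i, SymAt (FA v A) (v i) (v (nxt hn hv i) - v i) := fun i =>
    symAt_FA hn hv hI hch (nxt_side hn hv i)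
  have h := stress_ineq hn hv (LF_FA hA) hs MM_ne
  have h1 : ∫ x in PP v, (mo (FA v A) p20 x * mo (FA v A) p02 x - (mo (FA v A) p11 x) ^ 2) =
      ∫ x in PP v, (ms A p20 x * ms A p02 x - (ms A p11 x) ^ 2) := by
    apply setIntegral_congr_ae isOpen_PP.measurableSet
    filter_upwards [mo_ms hA hch] with x hx hxP
    rw [hx hxP, hx hxP, hx hxP]
  have h2 : ∫ x in PP v, (mo (FA v A) p20 x + mo (FA v A) p02 x) =
      ∫ x in PP v, (ms A p20 x + ms A p02 x) := by
    apply setIntegral_congr_ae isOpen_PP.measurableSet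
    filter_upwards [mo_ms hA hch] with x hx hxP
    rw [hx hxP, hx hxP]
  rwa [h1, h2] at h

theorem vol_BV : (volume BV).toReal = π := by
  rw [Complex.volume_ball]
  simp

theorem frac_nonneg (A : Set (ℂ × ℂ)) (x : ℂ) : 0 ≤ frac A x := by
  unfold frac
  have := Real.pi_pos
  positivity

theorem frac_le_one (A : Set (ℂ × ℂ)) (x : ℂ) : frac A x ≤ 1 := by
  unfold frac
  rw [div_le_one Real.pi_pos, ← vol_BV]
  exact ENNReal.toReal_mono measure_ball_lt_top.ne (measure_mono inter_subset_right)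

theorem frac_meas {A : Set (ℂ × ℂ)} (hA : MeasurableSet A) : Measurable (frac A) := by
  unfold frac
  have h1 : MeasurableSet {p : ℂ × ℂ | p ∈ A ∧ p.2 ∈ BV} :=
    hA.inter (measurableSet_ball.preimage measurable_snd)
  have h2 := measurable_measure_prodMk_left (ν := (volume : Measure ℂ)) h1
  exact (h2.ennreal_toReal).div_const _

theorem ms_abs {A : Set (ℂ × ℂ)} {φ : ℂ → ℝ} (hb : ∀ w ∈ BV, |φ w| ≤ 1) (x : ℂ) :
    |ms A φ x| ≤ π := by
  unfold ms
  rw [← Real.norm_eq_abs]
  have hfin : volume (sl A x ∩ BV) < ⊤ := (measure_mono inter_subset_right).trans_lt measure_ball_lt_top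
  have h := norm_setIntegral_le_of_norm_le_const (μ := (volume : Measure ℂ)) (s := sl A x ∩ BV)
    (f := φ) (C := 1) hfin (fun w hw => by rw [Real.norm_eq_abs]; exact hb w hw.2)
  refine h.trans ?_
  rw [one_mul, ← vol_BV, Measure.real]
  exact ENNReal.toReal_mono measure_ball_lt_top.ne (measure_mono inter_subset_right)

theorem ms_meas {A : Set (ℂ × ℂ)} (hA : MeasurableSet A) {φ : ℂ → ℝ} (hφ : Measurable φ) :
    Measurable (ms A φ) := by
  have h0 : ms A φ = fun x => ∫ w in BV, (sl A x).indicator (1 : ℂ → ℝ) w * φ w := by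
    funext x; exact ms_eq hA φ x
  rw [h0]
  have h1 : Measurable (fun z : ℂ × ℂ => A.indicator (1 : ℂ × ℂ → ℝ) z * φ z.2) :=
    (measurable_one.indicator hA).mul (hφ.comp measurable_snd)
  have h2 : StronglyMeasurable (Function.uncurry
      (fun (x : ℂ) (w : ℂ) => (sl A x).indicator (1 : ℂ → ℝ) w * φ w)) := h1.stronglyMeasurable
  exact h2.integral_prod_right.measurable

theorem intOn_PP {g : ℂ → ℝ} (hg : Measurable g) {C : ℝ} (hb : ∀ x, |g x| ≤ C) :
    IntegrableOn g (PP v) := by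
  have h1 : IntegrableOn (fun _ : ℂ => C) (PP v) :=
    integrableOn_const (isBounded_PP.measure_lt_top.ne)
  exact Integrable.mono' h1 hg.aestronglyMeasurable
    (Eventually.of_forall (fun x => by rw [Real.norm_eq_abs]; exact hb x))

/-- Variance bound with the bathtub function. -/
theorem variance_sin (hn : 3 ≤ n) (hv : ConvexIndependent ℝ v) {A : Set (ℂ × ℂ)}
    (hA : MeasurableSet A)
    (hcone : ∀ x w : ℂ, ∀ c : ℝ, 0 < c → ((x, w) ∈ A ↔ (x, (c : ℂ) * w) ∈ A))
    (hI : Inv v A) (hch : ∀ᵐ w, ChordAt v A w) :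
    (volume (PP v)).toReal * ∫ x in PP v, frac A x ^ 2 ≤ (∫ x in PP v, frac A x) ^ 2 +
      (volume (PP v)).toReal / π ^ 2 * ∫ x in PP v, Real.sin (π * frac A x) ^ 2 := by
  have hpi := Real.pi_pos
  have hV : 0 ≤ (volume (PP v)).toReal := ENNReal.toReal_nonneg
  have hst := stress_set hn hv hA hI hch
  have hmom := fun x => cone_moments (measurableSet_sl hA x) (fun w c hc => hcone x w c hc)
    (α := frac A x) rfl
  have e1 : ∫ x in PP v, (ms A p20 x + ms A p02 x) = π / 2 * ∫ x in PP v, frac A x := by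
    rw [← integral_const_mul]
    apply integral_congr_ae
    refine Eventually.of_forall (fun x => ?_)
    simp only
    rw [ms_eq hA, ms_eq hA, (hmom x).1]
    ring
  have hfm := frac_meas hA
  have i2 : IntegrableOn (fun x => frac A x ^ 2) (PP v) := by
    refine intOn_PP (hfm.pow_const 2) (C := 1) (fun x => ?_)
    have h1 := frac_nonneg A x
    have h2 := frac_le_one A x
    rw [abs_of_nonneg (by positivity)]
    nlinarith
  have i3 : IntegrableOn (fun x => Real.sin (π * frac A x) ^ 2) (PP v) := by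
    refine intOn_PP (((Real.continuous_sin.measurable.comp (hfm.const_mul π))).pow_const 2)
      (C := 1) (fun x => ?_)
    rw [abs_of_nonneg (by positivity)]
    have := Real.sin_sq_le_one (π * frac A x)
    exact this
  have e2 : (π ^ 2 * ∫ x in PP v, frac A x ^ 2) / 4 - (∫ x in PP v, Real.sin (π * frac A x) ^ 2) / 4 ≤
      4 * ∫ x in PP v, (ms A p20 x * ms A p02 x - (ms A p11 x) ^ 2) := by
    rw [← integral_const_mul, ← integral_const_mul, ← integral_div, ← integral_div, ← integral_sub]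
    · apply setIntegral_mono
      · exact ((i2.const_mul _).div_const _).sub (i3.div_const _)
      · refine Integrable.const_mul ?_ _
        refine intOn_PP (((ms_meas hA p20_meas).mul (ms_meas hA p02_meas)).sub
          ((ms_meas hA p11_meas).pow_const 2)) (C := π * π + π ^ 2) (fun x => ?_)
        have h1 := ms_abs (A := A) (φ := p20) (fun _ h => p20_abs h) x
        have h2 := ms_abs (A := A) (φ := p02) (fun _ h => p02_abs h) x
        have h3 := ms_abs (A := A) (φ := p11) (fun _ h => p11_abs h) x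
        refine (abs_sub _ _).trans ?_
        rw [abs_mul, abs_pow]
        gcongr
      · intro x
        have h := (hmom x).2
        simp only
        rw [ms_eq hA, ms_eq hA, ms_eq hA]
        linarith
    · exact (i2.const_mul _).div_const _
    · exact i3.div_const _
  rw [e1] at hst
  have e3 : (volume (PP v)).toReal * ((π ^ 2 * ∫ x in PP v, frac A x ^ 2) / 4 -
      (∫ x in PP v, Real.sin (π * frac A x) ^ 2) / 4) ≤ (π / 2 * ∫ x in PP v, frac A x) ^ 2 := by
    refine le_trans (mul_le_mul_of_nonneg_left e2 hV) ?_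
    refine le_trans (le_of_eq ?_) hst
    ring
  have e4 : (volume (PP v)).toReal * ∫ x in PP v, frac A x ^ 2 =
      4 / π ^ 2 * ((volume (PP v)).toReal * ((π ^ 2 * ∫ x in PP v, frac A x ^ 2) / 4 -
      (∫ x in PP v, Real.sin (π * frac A x) ^ 2) / 4)) +
      (volume (PP v)).toReal / π ^ 2 * ∫ x in PP v, Real.sin (π * frac A x) ^ 2 := by
    field_simp
    ring
  have e5 : 4 / π ^ 2 * (π / 2 * ∫ x in PP v, frac A x) ^ 2 = (∫ x in PP v, frac A x) ^ 2 := by
    field_simp
    ring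
  rw [e4, ← e5]
  gcongr

theorem sin_sq_le {t : ℝ} (h0 : 0 ≤ t) (h1 : t ≤ 1) :
    Real.sin (π * t) ^ 2 ≤ 4 * (t * (1 - t)) := by
  have hpi := Real.pi_pos
  have key : ∀ y : ℝ, 0 ≤ y → y ≤ 1 / 2 → (2 * y) ^ 2 ≤ Real.sin (π * y) ^ 2 := by
    intro y hy0 hy1
    have h2 := Real.mul_le_sin (x := π * y) (by positivity) (by nlinarith)
    have h3 : 2 / π * (π * y) = 2 * y := by field_simp
    rw [h3] at h2
    have : 0 ≤ 2 * y := by positivity
    gcongr
  have h5 : Real.sin (π * t) = Real.cos (π * (1 / 2 - t)) := by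
    rw [← Real.cos_pi_div_two_sub]
    congr 1
    ring
  have h6 := Real.cos_sq_add_sin_sq (π * (1 / 2 - t))
  rw [h5]
  rcases le_total t (1 / 2) with h | h
  · have := key (1 / 2 - t) (by linarith) (by linarith)
    nlinarith
  · have h7 := key (t - 1 / 2) (by linarith) (by linarith)
    have h8 : Real.sin (π * (t - 1 / 2)) ^ 2 = Real.sin (π * (1 / 2 - t)) ^ 2 := by
      have : π * (t - 1 / 2) = -(π * (1 / 2 - t)) := by ring
      rw [this, Real.sin_neg]
      ring
    rw [h8] at h7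
    nlinarith

/-- Variance bound. -/
theorem variance_bound (hn : 3 ≤ n) (hv : ConvexIndependent ℝ v) {A : Set (ℂ × ℂ)}
    (hA : MeasurableSet A)
    (hcone : ∀ x w : ℂ, ∀ c : ℝ, 0 < c → ((x, w) ∈ A ↔ (x, (c : ℂ) * w) ∈ A))
    (hI : Inv v A) (hch : ∀ᵐ w, ChordAt v A w) :
    (volume (PP v)).toReal * ∫ x in PP v, frac A x ^ 2 ≤ (∫ x in PP v, frac A x) ^ 2 +
      4 / (π ^ 2 + 4) * ((∫ x in PP v, frac A x) *
        ((volume (PP v)).toReal - ∫ x in PP v, frac A x)) := by
  have hpi := Real.pi_pos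
  have hV : 0 ≤ (volume (PP v)).toReal := ENNReal.toReal_nonneg
  have h := variance_sin hn hv hA hcone hI hch
  have hfm := frac_meas hA
  have i1 : IntegrableOn (fun x => frac A x) (PP v) := by
    refine intOn_PP hfm (C := 1) (fun x => ?_)
    rw [abs_of_nonneg (frac_nonneg A x)]
    exact frac_le_one A x
  have i2 : IntegrableOn (fun x => frac A x ^ 2) (PP v) := by
    refine intOn_PP (hfm.pow_const 2) (C := 1) (fun x => ?_)
    have h1 := frac_nonneg A x
    have h2 := frac_le_one A x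
    rw [abs_of_nonneg (by positivity)]
    nlinarith
  have i3 : IntegrableOn (fun x => Real.sin (π * frac A x) ^ 2) (PP v) := by
    refine intOn_PP (((Real.continuous_sin.measurable.comp (hfm.const_mul π))).pow_const 2)
      (C := 1) (fun x => ?_)
    rw [abs_of_nonneg (by positivity)]
    exact Real.sin_sq_le_one (π * frac A x)
  have h2 : ∫ x in PP v, Real.sin (π * frac A x) ^ 2 ≤
      4 * ((∫ x in PP v, frac A x) - ∫ x in PP v, frac A x ^ 2) := by
    rw [← integral_sub i1 i2, ← integral_const_mul]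
    apply setIntegral_mono i3 ((i1.sub i2).const_mul _)
    intro x
    have := sin_sq_le (frac_nonneg A x) (frac_le_one A x)
    simp only [Pi.sub_apply]
    nlinarith
  set V := (volume (PP v)).toReal with hVdef
  set a1 := ∫ x in PP v, frac A x with ha1
  set a2 := ∫ x in PP v, frac A x ^ 2 with ha2
  have h3 : V * a2 ≤ a1 ^ 2 + V / π ^ 2 * (4 * (a1 - a2)) := by
    refine h.trans ?_
    gcongr
  have h4 : V * a2 * (π ^ 2 + 4) ≤ a1 ^ 2 * (π ^ 2 + 4) + 4 * (a1 * (V - a1)) := by
    have h5 : π ^ 2 * (V * a2) ≤ π ^ 2 * (a1 ^ 2 + V / π ^ 2 * (4 * (a1 - a2))) := by gcongr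
    have h6 : π ^ 2 * (a1 ^ 2 + V / π ^ 2 * (4 * (a1 - a2))) = π ^ 2 * a1 ^ 2 + 4 * V * (a1 - a2) := by
      field_simp
    rw [h6] at h5
    nlinarith
  have hden : 0 < π ^ 2 + 4 := by positivity
  have h7 : a1 ^ 2 + 4 / (π ^ 2 + 4) * (a1 * (V - a1)) =
      (a1 ^ 2 * (π ^ 2 + 4) + 4 * (a1 * (V - a1))) / (π ^ 2 + 4) := by
    field_simp
  rw [h7, le_div_iff₀ hden]
  exact h4

/-- An invariant set avoiding a region. -/
theorem avoid (hn : 3 ≤ n) (hv : ConvexIndependent ℝ v) {A : Set (ℂ × ℂ)}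
    (hA : MeasurableSet A)
    (hcone : ∀ x w : ℂ, ∀ c : ℝ, 0 < c → ((x, w) ∈ A ↔ (x, (c : ℂ) * w) ∈ A))
    (hI : Inv v A) (hch : ∀ᵐ w, ChordAt v A w) {Z : Set ℂ} (hZ : MeasurableSet Z)
    (hZP : Z ⊆ PP v) (hav : volume (A ∩ (Z ×ˢ BV)) = 0) :
    (4 * (volume (PP v)).toReal + π ^ 2 * (volume Z).toReal) * ∫ x in PP v, frac A x ≤
      4 * ((volume (PP v)).toReal - (volume Z).toReal) * (volume (PP v)).toReal := by
  have hpi := Real.pi_pos
  have hfinP : volume (PP v) ≠ ⊤ := isBounded_PP.measure_lt_top.ne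
  have hV : 0 ≤ (volume (PP v)).toReal := ENNReal.toReal_nonneg
  have hZV : (volume Z).toReal ≤ (volume (PP v)).toReal :=
    ENNReal.toReal_mono hfinP (measure_mono hZP)
  have hZ0 : 0 ≤ (volume Z).toReal := ENNReal.toReal_nonneg
  have h := variance_bound hn hv hA hcone hI hch
  have hfm := frac_meas hA
  have i1 : IntegrableOn (fun x => frac A x) (PP v) := by
    refine intOn_PP hfm (C := 1) (fun x => ?_)
    rw [abs_of_nonneg (frac_nonneg A x)]
    exact frac_le_one A x
  have i2 : IntegrableOn (fun x => frac A x ^ 2) (PP v) := by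
    refine intOn_PP (hfm.pow_const 2) (C := 1) (fun x => ?_)
    have h1 := frac_nonneg A x
    have h2 := frac_le_one A x
    rw [abs_of_nonneg (by positivity)]
    nlinarith
  -- the fraction vanishes on `Z`
  have hz : ∀ᵐ x : ℂ, x ∈ Z → frac A x = 0 := by
    have hm : MeasurableSet (A ∩ (Z ×ˢ BV)) := hA.inter (hZ.prod measurableSet_ball)
    rw [Measure.volume_eq_prod, Measure.measure_prod_null hm] at hav
    filter_upwards [hav] with x hx hxZ
    have : sl A x ∩ BV = Prod.mk x ⁻¹' (A ∩ (Z ×ˢ BV)) := by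
      ext w
      simp only [sl, mem_inter_iff, mem_ofPred_eq, mem_preimage, mem_prod]
      tauto
    unfold frac
    rw [this, hx]
    simp
  have hsplit1 : ∫ x in PP v, frac A x = ∫ x in PP v \ Z, frac A x := by
    have : ∫ x in Z, frac A x = 0 := by
      rw [setIntegral_congr_ae hZ (g := fun _ => 0) hz]
      simp
    rw [setIntegral_sdiff hZ i1 hZP, this, sub_zero]
  have hle2 : ∫ x in PP v \ Z, frac A x ^ 2 ≤ ∫ x in PP v, frac A x ^ 2 := by
    apply setIntegral_mono_set i2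
    · exact Eventually.of_forall (fun x => by positivity)
    · exact (Set.sdiff_subset).eventuallyLE
  set a1 := ∫ x in PP v, frac A x with ha1
  set a2 := ∫ x in PP v, frac A x ^ 2 with ha2
  set V := (volume (PP v)).toReal with hVdef
  set b := (volume Z).toReal with hb
  have hvolD : (volume (PP v \ Z)).toReal = V - b := by
    rw [measure_sdiff hZP hZ.nullMeasurableSet (ne_top_of_le_ne_top hfinP (measure_mono hZP)),
      ENNReal.toReal_sub_of_le (measure_mono hZP) hfinP]
  have ha10 : 0 ≤ a1 := integral_nonneg (fun x => frac_nonneg A x)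
  have ha1V : a1 ≤ V := by
    have h1 : a1 ≤ ∫ x in PP v, (1 : ℝ) := by
      apply setIntegral_mono i1 (integrableOn_const hfinP)
      intro x
      exact frac_le_one A x
    rw [setIntegral_const, smul_eq_mul, mul_one, Measure.real] at h1
    exact h1
  -- Cauchy-Schwarz
  have hCS : a1 ^ 2 ≤ (V - b) * a2 := by
    have hq : ∀ t : ℝ, 0 ≤ a2 - 2 * t * a1 + t ^ 2 * (V - b) := by
      intro t
      have h1 : 0 ≤ ∫ x in PP v \ Z, (frac A x - t) ^ 2 := integral_nonneg (fun x => sq_nonneg _)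
      have j1 : IntegrableOn (fun x => frac A x) (PP v \ Z) := i1.mono_set Set.sdiff_subset
      have j2 : IntegrableOn (fun x => frac A x ^ 2) (PP v \ Z) := i2.mono_set Set.sdiff_subset
      have hfinD : volume (PP v \ Z) ≠ ⊤ :=
        ne_top_of_le_ne_top hfinP (measure_mono Set.sdiff_subset)
      have h2 : ∫ x in PP v \ Z, (frac A x - t) ^ 2 =
          (∫ x in PP v \ Z, frac A x ^ 2) - 2 * t * (∫ x in PP v \ Z, frac A x) +
            t ^ 2 * (V - b) := by
        have e1 : ∀ x, (frac A x - t) ^ 2 = frac A x ^ 2 - 2 * t * frac A x + t ^ 2 := by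
          intro x; ring
        simp_rw [e1]
        have j3 : IntegrableOn (fun x => frac A x ^ 2 - 2 * t * frac A x) (PP v \ Z) :=
          Integrable.sub j2 (j1.const_mul _)
        have j4 : IntegrableOn (fun _ : ℂ => t ^ 2) (PP v \ Z) := integrableOn_const hfinD
        rw [integral_add j3 j4, integral_sub j2 (j1.const_mul _), integral_const_mul,
          setIntegral_const, smul_eq_mul, Measure.real, hvolD]
        ring
      rw [h2, ← hsplit1] at h1
      linarith
    rcases eq_or_lt_of_le (sub_nonneg.2 hZV) with h0 | h0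
    · -- `V = b`
      have ha0 : a1 = 0 := by
        by_contra hne
        have h1 := hq ((a2 + 1) / (2 * a1))
        rw [← h0, mul_zero, add_zero] at h1
        have : 2 * ((a2 + 1) / (2 * a1)) * a1 = a2 + 1 := by field_simp
        rw [this] at h1
        linarith
      rw [ha0, ← h0]
      simp
    · have h1 := hq (a1 / (V - b))
      have h2 : a2 - 2 * (a1 / (V - b)) * a1 + (a1 / (V - b)) ^ 2 * (V - b) =
          (a2 * (V - b) - a1 ^ 2) / (V - b) := by
        field_simp
        ring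
      rw [h2] at h1
      have h3 := (div_nonneg_iff.1 h1)
      rcases h3 with ⟨h4, _⟩ | ⟨_, h4⟩
      · linarith
      · linarith
  -- conclusion
  have hVa : V * a2 * (π ^ 2 + 4) ≤ a1 ^ 2 * (π ^ 2 + 4) + 4 * (a1 * (V - a1)) := by
    have hden : 0 < π ^ 2 + 4 := by positivity
    have h7 : a1 ^ 2 + 4 / (π ^ 2 + 4) * (a1 * (V - a1)) =
      (a1 ^ 2 * (π ^ 2 + 4) + 4 * (a1 * (V - a1))) / (π ^ 2 + 4) := by
      field_simp
    rw [h7, le_div_iff₀ hden] at h
    exact h
  rcases eq_or_lt_of_le ha10 with h0 | h0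
  · rw [← h0, mul_zero]
    have : 0 ≤ V - b := sub_nonneg.2 hZV
    positivity
  · have h8 : V * a1 ^ 2 * (π ^ 2 + 4) ≤
        (V - b) * (a1 ^ 2 * (π ^ 2 + 4) + 4 * (a1 * (V - a1))) := by
      calc V * a1 ^ 2 * (π ^ 2 + 4) ≤ V * ((V - b) * a2) * (π ^ 2 + 4) := by gcongr
        _ = (V - b) * (V * a2 * (π ^ 2 + 4)) := by ring
        _ ≤ _ := mul_le_mul_of_nonneg_left hVa (sub_nonneg.2 hZV)
    have h9 : a1 * ((4 * V + π ^ 2 * b) * a1) ≤ a1 * (4 * (V - b) * V) := by nlinarith
    exact le_of_mul_le_mul_left h9 h0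

end Pool.Agent.Lib.Bil
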