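import Pool.Agent.Lib.MP_7bc51d_an.SpatPer2

set_option autoImplicit false

namespace Pool.Agent.Lib.Bil

open Complex MeasureTheory Set Filter
open scoped ComplexConjugate Topology ENNReal

variable {n : ℕ} {v : Fin n → ℂ}

/-- Finite transverse (spatial) perimeter. -/
def SPer (v : Fin n → ℂ) (A : Set (ℂ × ℂ)) : Prop :=
  ∃ C : ℝ, ∃ᶠ ρ : ℝ in 𝓝[>] (0 : ℝ),
    volume (TD v A ρ ∩ {p : ℂ × ℂ | ‖p.2‖ < 1}) ≤ ENNReal.ofReal (C * ρ)

theorem exists_M {A : Set (ℂ × ℂ)} (hA : MeasurableSet A) (hch : ∀ᵐ w, ChordAt v A w)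
    (hP : SPer v A) : ∃ M : ℂ → ℝ≥0∞, Measurable M ∧ ∫⁻ w in Metric.ball (0 : ℂ) 1, M w < ⊤ ∧
      ∀ᵐ w : ℂ, ∀ S : Finset ℝ, (∀ Q ∈ S, ¬ LC (FA v A) w Q) →
        ENNReal.ofReal (‖w‖ ^ 2 / 2) * ∑ Q ∈ S, len v w Q ≤ M w := by
  obtain ⟨C, hC⟩ := hP
  obtain ⟨ρ, hρ, hρC⟩ := exists_seq_forall_of_frequently hC
  have hm : ∀ i, Measurable (fun w : ℂ => ENNReal.ofReal (1 / ρ i) *
      volume {x : ℂ | (x, w) ∈ TD v A (ρ i)}) := fun i =>
    (measurable_measure_prodMk_right (measurableSet_TD hA (ρ i))).const_mul _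
  refine ⟨fun w => liminf (fun i => ENNReal.ofReal (1 / ρ i) *
    volume {x : ℂ | (x, w) ∈ TD v A (ρ i)}) atTop, Measurable.liminf hm, ?_, ?_⟩
  · refine lt_of_le_of_lt (lintegral_liminf_le hm) ?_
    refine lt_of_le_of_lt ?_ (ENNReal.ofReal_lt_top (r := C))
    apply liminf_le_of_frequently_le'
    apply Eventually.frequently
    have hpos : ∀ᶠ i in atTop, 0 < ρ i := hρ.eventually self_mem_nhdsWithin
    filter_upwards [hpos] with i hi
    have hmi : Measurable (fun w : ℂ => volume {x : ℂ | (x, w) ∈ TD v A (ρ i)}) :=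
      measurable_measure_prodMk_right (measurableSet_TD hA (ρ i))
    rw [lintegral_const_mul _ hmi]
    have e1 : ∫⁻ w in Metric.ball (0 : ℂ) 1, volume {x : ℂ | (x, w) ∈ TD v A (ρ i)} =
        volume (TD v A (ρ i) ∩ {p : ℂ × ℂ | ‖p.2‖ < 1}) := by
      have hms : MeasurableSet (TD v A (ρ i) ∩ {p : ℂ × ℂ | ‖p.2‖ < 1}) :=
        (measurableSet_TD hA (ρ i)).inter
          (measurableSet_lt (measurable_snd.norm) measurable_const)
      rw [Measure.volume_eq_prod ℂ ℂ, Measure.prod_apply_symm hms,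
        ← lintegral_indicator Metric.isOpen_ball.measurableSet]
      apply lintegral_congr
      intro w
      by_cases hw : w ∈ Metric.ball (0 : ℂ) 1
      · rw [indicator_of_mem hw]
        congr 1
        ext x
        simp only [mem_ofPred_eq, mem_preimage, mem_inter_iff]
        rw [Metric.mem_ball, dist_zero_right] at hw
        exact ⟨fun h => ⟨h, hw⟩, fun h => h.1⟩
      · rw [indicator_of_notMem hw]
        symm
        rw [measure_eq_zero_iff_ae_notMem]
        refine Eventually.of_forall (fun x hx => hw ?_)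
        rw [Metric.mem_ball, dist_zero_right]
        exact hx.2
    rw [e1]
    calc ENNReal.ofReal (1 / ρ i) * volume (TD v A (ρ i) ∩ {p : ℂ × ℂ | ‖p.2‖ < 1}) ≤
        ENNReal.ofReal (1 / ρ i) * ENNReal.ofReal (C * ρ i) := by gcongr; exact hρC i
      _ = ENNReal.ofReal C := by
        rw [← ENNReal.ofReal_mul (by positivity)]
        congr 1
        field_simp
  · have h0 : ∀ᵐ w : ℂ, w ≠ 0 := by simp [ae_iff]
    filter_upwards [FA_ae hch, h0] with w hw hw0 S hS
    exact slice_lower (LF_FA hA) (fun w q => FA_zero_or_one A w q) hA hw0 hw hρ hS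

theorem Lo_injective (hv : ConvexIndependent ℝ v) {g : List (Fin n × Fin n)} (hg : Val v g) :
    Function.Injective (Lo v g) := by
  intro x y h
  have h1 : Lo v g (x - y) = 0 := by rw [Lo_sub, h, sub_self]
  have h2 := norm_Lo hv hg (x - y)
  rw [h1, norm_zero] at h2
  exact sub_eq_zero.1 (norm_eq_zero.1 h2.symm)

theorem Lo_emb (hv : ConvexIndependent ℝ v) {g : List (Fin n × Fin n)} (hg : Val v g) :
    MeasurableEmbedding (Lo v g) :=
  (continuous_Lo g).measurableEmbedding (Lo_injective hv hg)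

theorem volume_Lo_image (hv : ConvexIndependent ℝ v) {g : List (Fin n × Fin n)} (hg : Val v g)
    (B : Set ℂ) : volume (Lo v g '' B) = volume B := by
  have h := (mp_Lo hv hg).measure_preimage_emb (Lo_emb hv hg) (Lo v g '' B)
  rw [preimage_image_eq _ (Lo_injective hv hg)] at h
  exact h.symm

theorem tsum_arcs {x w : ℂ} (a : ℕ → Arc v x w) (h0 : (a 0).T = 0)
    (hT : ∀ k, (a (k + 1)).T = (a k).T') (hub : ∀ B : ℝ, ∃ k, B < (a k).T') :
    ∑' j, ENNReal.ofReal ((a j).T' - (a j).T) = ⊤ := by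
  by_contra hcon
  set S := (∑' j, ENNReal.ofReal ((a j).T' - (a j).T)).toReal with hS
  obtain ⟨k, hk⟩ := hub S
  have h1 : ∀ m, ∑ j ∈ Finset.range (m + 1), ((a j).T' - (a j).T) = (a m).T' := by
    intro m
    induction m with
    | zero => simp [h0]
    | succ m ih => rw [Finset.sum_range_succ, ih, hT]; ring
  have h2 : ENNReal.ofReal ((a k).T') ≤ ∑' j, ENNReal.ofReal ((a j).T' - (a j).T) := by
    rw [← h1 k, ENNReal.ofReal_sum_of_nonneg (fun j _ => sub_nonneg.2 (a j).lt.le)]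
    exact ENNReal.sum_le_tsum _
  have h3 := (ENNReal.ofReal_le_iff_le_toReal hcon).1 h2
  linarith

/-- Set of heights of local constancy. -/
theorem measurableSet_LC {F : ℂ → ℝ → ℝ} (hF : LF F) (h01 : ∀ w q, F w q = 0 ∨ F w q = 1) :
    MeasurableSet {p : ℂ × ℝ | LC F p.1 p.2} := by
  have h1 : ∀ (c : ℝ) (N : ℕ), MeasurableSet {p : ℂ × ℝ |
      volume {q : ℝ | |q - p.2| < 1 / ((N : ℝ) + 1) ∧ F p.1 q ≠ c} = 0} := by
    intro c N
    have hS : MeasurableSet {z : (ℂ × ℝ) × ℝ | |z.2 - z.1.2| < 1 / ((N : ℝ) + 1) ∧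
        F z.1.1 z.2 ≠ c} := by
      have a1 : Measurable (fun z : (ℂ × ℝ) × ℝ => |z.2 - z.1.2|) := by
        have : Continuous (fun z : (ℂ × ℝ) × ℝ => |z.2 - z.1.2|) := by fun_prop
        exact this.measurable
      have a2 : Measurable (fun z : (ℂ × ℝ) × ℝ => F z.1.1 z.2) :=
        hF.meas.comp (measurable_fst.fst.prodMk measurable_snd)
      exact (measurableSet_lt a1 measurable_const).inter
        ((a2 (measurableSet_singleton c)).compl)
    have h2 := measurable_measure_prodMk_left (ν := (volume : Measure ℝ)) hS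
    exact h2 (measurableSet_singleton 0)
  have h2 : {p : ℂ × ℝ | LC F p.1 p.2} = ⋃ N : ℕ, ({p : ℂ × ℝ |
      volume {q : ℝ | |q - p.2| < 1 / ((N : ℝ) + 1) ∧ F p.1 q ≠ 0} = 0} ∪ {p : ℂ × ℝ |
      volume {q : ℝ | |q - p.2| < 1 / ((N : ℝ) + 1) ∧ F p.1 q ≠ 1} = 0}) := by
    ext p
    simp only [mem_ofPred_eq, mem_iUnion, mem_union]
    constructor
    · rintro ⟨c, ε, hε, hc⟩
      obtain ⟨N, hN⟩ := exists_nat_one_div_lt hε
      refine ⟨N, ?_⟩
      have hc01 : c = 0 ∨ c = 1 := by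
        by_contra hcon
        push Not at hcon
        have : ∀ᵐ q : ℝ, q ∉ Metric.ball p.2 ε := by
          filter_upwards [hc] with q hq hmem
          rw [Metric.mem_ball, Real.dist_eq] at hmem
          have h3 := hq hmem
          rcases h01 p.1 q with h4 | h4
          · exact hcon.1 (by rw [← h3, h4])
          · exact hcon.2 (by rw [← h3, h4])
        have h5 := measure_eq_zero_iff_ae_notMem.2 this
        exact (Metric.measure_ball_pos volume p.2 hε).ne' h5
      rcases hc01 with rfl | rfl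
      · left
        rw [measure_eq_zero_iff_ae_notMem]
        filter_upwards [hc] with q hq hmem
        exact hmem.2 (hq (hmem.1.trans hN))
      · right
        rw [measure_eq_zero_iff_ae_notMem]
        filter_upwards [hc] with q hq hmem
        exact hmem.2 (hq (hmem.1.trans hN))
    · rintro ⟨N, h | h⟩
      · refine ⟨0, 1 / ((N : ℝ) + 1), by positivity, ?_⟩
        filter_upwards [measure_eq_zero_iff_ae_notMem.1 h] with q hq hq2
        by_contra hcon
        exact hq ⟨hq2, hcon⟩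
      · refine ⟨1, 1 / ((N : ℝ) + 1), by positivity, ?_⟩
        filter_upwards [measure_eq_zero_iff_ae_notMem.1 h] with q hq hq2
        by_contra hcon
        exact hq ⟨hq2, hcon⟩
  rw [h2]
  exact MeasurableSet.iUnion (fun N => (h1 0 N).union (h1 1 N))

end Pool.Agent.Lib.Bil
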