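import Pool.Agent.Lib.MP_7bc51d_an.VertexLC

set_option autoImplicit false

namespace Pool.Agent.Lib.Bil

open Complex MeasureTheory Set Filter
open scoped ComplexConjugate Topology ENNReal

variable {n : ℕ} {v : Fin n → ℂ}

/-- The line function is reflected correctly along the whole orbit of the direction. -/
def GoodDir (v : Fin n → ℂ) (F : ℂ → ℝ → ℝ) (w : ℂ) : Prop :=
  ∀ g : List (Fin n × Fin n), Val v g → ∀ s : Fin n × Fin n, IsSide v s.1 s.2 →
    SymW v F s (Lo v g w)

theorem ae_goodDir (hn : 3 ≤ n) (hv : ConvexIndependent ℝ v) {A : Set (ℂ × ℂ)}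
    (hI : Inv v A) (hch : ∀ᵐ w, ChordAt v A w) : ∀ᵐ w : ℂ, GoodDir v (FA v A) w := by
  have h1 : ∀ᵐ w : ℂ, ∀ s : Fin n × Fin n, IsSide v s.1 s.2 → SymW v (FA v A) s w := by
    rw [ae_all_iff]; intro s
    by_cases hs : IsSide v s.1 s.2
    · filter_upwards [symW_of_symAt (v_sub_ne hv hs.1) (symAt_FA hn hv hI hch hs)] with w hw _
      exact hw
    · exact Eventually.of_forall (fun w h => absurd h hs)
  exact ae_Lo hv h1

theorem meas_height (y : ℂ) : Measurable (fun w : ℂ => (w, cr w y)) := by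
  have : Continuous (fun w : ℂ => (w, cr w y)) := by unfold cr; fun_prop
  exact this.measurable

theorem meas_nsq : Measurable (fun w : ℂ => ENNReal.ofReal (‖w‖ ^ 2 / 2)) := by
  have : Continuous (fun w : ℂ => ‖w‖ ^ 2 / 2) := by fun_prop
  exact this.measurable.ennreal_ofReal

theorem meas_len_h (y : ℂ) : Measurable (fun w : ℂ => len v w (cr w y)) :=
  Measurable.comp (g := fun p : ℂ × ℝ => len v p.1 p.2) (f := fun w : ℂ => (w, cr w y))
    (measurable_len (v := v)) (meas_height y)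

theorem meas_len_height (y : ℂ) :
    Measurable (fun w : ℂ => ENNReal.ofReal (‖w‖ ^ 2 / 2) * len v w (cr w y)) :=
  meas_nsq.mul (meas_len_h y)

theorem vertex_LC_ball (hn : 3 ≤ n) (hv : ConvexIndependent ℝ v) {A : Set (ℂ × ℂ)}
    (hA : MeasurableSet A) (hI : Inv v A) (hch : ∀ᵐ w, ChordAt v A w) (hP : SPer v A)
    (k : Fin n) : ∀ᵐ θ : ℂ, ‖θ‖ < 1 → Out v k θ → LC (FA v A) θ (cr θ (v k)) := by
  classical
  obtain ⟨M, hMm, hMfin, hM⟩ := exists_M hA hch hP
  set F := FA v A with hFdef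
  have hF : LF F := LF_FA hA
  have h01 : ∀ w q, F w q = 0 ∨ F w q = 1 := fun w q => FA_zero_or_one A w q
  set Θ : Set ℂ := {θ | ‖θ‖ < 1 ∧ Out v k θ ∧ ¬ LC F θ (cr θ (v k))} with hΘ
  have hΘm : MeasurableSet Θ := by
    refine (measurableSet_lt measurable_norm measurable_const).inter
      ((isOpen_Out k).measurableSet.inter ?_)
    exact ((meas_height (v k)) (measurableSet_LC hF h01)).compl
  set Θg : List (Fin n × Fin n) → Set ℂ := fun g => {θ | θ ∈ Θ ∧ Rz v g (v k) θ} with hΘg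
  have hΘgm : ∀ g, MeasurableSet (Θg g) := by
    intro g
    refine hΘm.inter ?_
    have : IsOpen {θ : ℂ | Rz v g (v k) θ} :=
      (isOpen_Rz (v := v) g).preimage (f := fun θ : ℂ => (v k, θ)) (by fun_prop)
    exact this.measurableSet
  set h : List (Fin n × Fin n) → ℂ → ℝ≥0∞ := fun g w =>
    ENNReal.ofReal (‖w‖ ^ 2 / 2) * len v w (cr w (Fo v g (v k))) with hh
  have hhm : ∀ g, Measurable (h g) := fun g => meas_len_height (Fo v g (v k))
  set t : List (Fin n × Fin n) → ℂ → ℝ≥0∞ := fun g θ => h g (Lo v g θ) with ht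
  have htm : ∀ g, Measurable (t g) := fun g => (hhm g).comp (continuous_Lo g).measurable
  -- change of variables
  have hcv : ∀ g, ∫⁻ θ in Θg g, t g θ = ∫⁻ w, (Lo v g '' Θg g).indicator (h g) w := by
    intro g
    by_cases hg : Val v g
    · have e1 := (mp_Lo hv hg).setLIntegral_comp_emb (Lo_emb hv hg) (h g) (Θg g)
      rw [lintegral_indicator ((Lo_emb hv hg).measurableSet_image' (hΘgm g))]
      exact e1
    · have : Θg g = ∅ := by
        ext θ
        simp only [hΘg, mem_ofPred_eq, mem_empty_iff_false, iff_false]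
        exact fun h => hg h.2.val
      rw [this, image_empty]
      simp
  -- generic directions
  have hgood : ∀ᵐ w : ℂ, ∀ g : List (Fin n × Fin n), Val v g → ∀ θ, Lo v g θ = w →
      GoodDir v F θ := by
    rw [ae_all_iff]; intro g
    by_cases hg : Val v g
    · have h1 : volume (Lo v g '' {θ | ¬ GoodDir v F θ}) = 0 := by
        rw [volume_Lo_image hv hg]
        exact ae_goodDir hn hv hI hch
      filter_upwards [measure_eq_zero_iff_ae_notMem.1 h1] with w hw _ θ hθ
      by_contra hcon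
      exact hw ⟨θ, hcon, hθ⟩
    · exact Eventually.of_forall (fun w h => absurd h hg)
  have hfinite : ∀ G : Finset (List (Fin n × Fin n)),
      ∑ g ∈ G, ∫⁻ θ in Θg g, t g θ ≤ ∫⁻ w in Metric.ball (0 : ℂ) 1, M w := by
    intro G
    simp_rw [hcv]
    have himm : ∀ g, MeasurableSet (Lo v g '' Θg g) := by
      intro g
      by_cases hg : Val v g
      · exact (Lo_emb hv hg).measurableSet_image' (hΘgm g)
      · have : Θg g = ∅ := by
          ext θ
          simp only [hΘg, mem_ofPred_eq, mem_empty_iff_false, iff_false]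
          exact fun h => hg h.2.val
        rw [this, image_empty]
        exact MeasurableSet.empty
    rw [← lintegral_finsetSum _ (fun g _ => (hhm g).indicator (himm g)),
      ← lintegral_indicator Metric.isOpen_ball.measurableSet]
    apply lintegral_mono_ae
    filter_upwards [hM, hgood] with w g1 g2
    set Gw := G.filter (fun g => w ∈ Lo v g '' Θg g) with hGw
    have e1 : ∑ g ∈ G, (Lo v g '' Θg g).indicator (h g) w = ∑ g ∈ Gw, h g w := by
      rw [hGw, Finset.sum_filter]
      apply Finset.sum_congr rfl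
      intro g _
      simp only [indicator]
    rw [e1]
    rcases Gw.eq_empty_or_nonempty with hemp | ⟨g₀, hg₀⟩
    · rw [hemp, Finset.sum_empty]; exact zero_le
    have hnorm : w ∈ Metric.ball (0 : ℂ) 1 := by
      obtain ⟨θ, hθ, hθw⟩ := (Finset.mem_filter.1 hg₀).2
      rw [Metric.mem_ball, dist_zero_right, ← hθw, norm_Lo hv hθ.2.val]
      exact hθ.1.1
    rw [indicator_of_mem hnorm]
    have hinj : Set.InjOn (fun g => cr w (Fo v g (v k))) (Gw : Set (List (Fin n × Fin n))) := by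
      intro g hg g' hg' heq
      obtain ⟨θ, hθ, hθw⟩ := (Finset.mem_filter.1 hg).2
      obtain ⟨θ', hθ', hθw'⟩ := (Finset.mem_filter.1 hg').2
      simp only at heq
      refine code_unique hn hv g g' θ θ' hθ.1.2.1 hθ'.1.2.1 hθ.2 hθ'.2 (hθw.trans hθw'.symm) ?_
      rw [hθw, hθw']
      exact heq
    have e2 : ∑ g ∈ Gw, h g w = ENNReal.ofReal (‖w‖ ^ 2 / 2) *
        ∑ Q ∈ Gw.image (fun g => cr w (Fo v g (v k))), len v w Q := by
      rw [Finset.sum_image hinj, Finset.mul_sum]
    rw [e2]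
    apply g1
    intro Q hQ
    obtain ⟨g, hg, rfl⟩ := Finset.mem_image.1 hQ
    obtain ⟨θ, hθ, hθw⟩ := (Finset.mem_filter.1 hg).2
    intro hLC
    apply hθ.1.2.2
    refine LC_code hv (g2 g hθ.2.val θ hθw) hθ.2 ?_
    rw [hθw]
    exact hLC
  have hts : ∑' g, ∫⁻ θ in Θg g, t g θ ≤ ∫⁻ w in Metric.ball (0 : ℂ) 1, M w := by
    rw [ENNReal.tsum_eq_iSup_sum]
    exact iSup_le hfinite
  have hswap : ∫⁻ θ, ∑' g, (Θg g).indicator (t g) θ = ∑' g, ∫⁻ θ in Θg g, t g θ := by
    rw [lintegral_tsum (fun g => ((htm g).indicator (hΘgm g)).aemeasurable)]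
    congr 1
    funext g
    rw [lintegral_indicator (hΘgm g)]
  have hlt : ∫⁻ θ, ∑' g, (Θg g).indicator (t g) θ ≠ ⊤ := by
    rw [hswap]
    exact (lt_of_le_of_lt hts hMfin).ne
  have hae := ae_lt_top (Measurable.tsum (fun g => (htm g).indicator (hΘgm g))) hlt
  have h0 : ∀ᵐ w : ℂ, w ≠ 0 := by simp [ae_iff]
  filter_upwards [hae, h0, ae_fwdFree (v := v) (v k)] with θ g1 g2 g3 g4 g5
  by_contra hLC
  have hθ : θ ∈ Θ := ⟨g4, g5, hLC⟩
  obtain ⟨a, a1, a2, a3, a4⟩ := exists_arcs_vertex hn hv g2 g3 g5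
  have hinj : Function.Injective (fun j => (a j).g) := by
    have hlen : ∀ j, (a j).g.length = j := by
      intro j
      induction j with
      | zero => rw [a1]; rfl
      | succ j ih => rw [a3, List.length_cons, ih]
    intro j j' hj
    simp only at hj
    rw [← hlen j, ← hlen j', hj]
  apply g1.ne
  have h1 : ∑' j, (Θg (a j).g).indicator (t (a j).g) θ ≤ ∑' g, (Θg g).indicator (t g) θ :=
    ENNReal.tsum_comp_le_tsum_of_injective hinj (fun g => (Θg g).indicator (t g) θ)
  have h2 : ∑' j, ENNReal.ofReal (‖θ‖ ^ 2 / 2) * ENNReal.ofReal ((a j).T' - (a j).T) ≤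
      ∑' j, (Θg (a j).g).indicator (t (a j).g) θ := by
    apply ENNReal.tsum_le_tsum
    intro j
    have hmem : θ ∈ Θg (a j).g := ⟨hθ, arcs_rz a a1 a3 j⟩
    rw [indicator_of_mem hmem]
    simp only [ht, hh]
    rw [norm_Lo hv (a j).valid]
    gcongr
    exact len_arc hv g2 (a j)
  rw [ENNReal.tsum_mul_left, tsum_arcs a a2 a4 (fun B => times_unbounded hn hv g3 a a3 a4 B),
    ENNReal.mul_top] at h2
  · exact top_le_iff.1 (h2.trans h1)
  · have : 0 < ‖θ‖ := norm_pos_iff.2 g2
    rw [ne_eq, ENNReal.ofReal_eq_zero, not_le]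
    positivity

end Pool.Agent.Lib.Bil
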