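import Pool.Agent.Lib.MP_7bc51d_an.VertexLC2
import Pool.Agent.Lib.MP_7bc51d_an.Rot

set_option autoImplicit false

namespace Pool.Agent.Lib.Bil

open Complex MeasureTheory Set Filter
open scoped ComplexConjugate Topology ENNReal

variable {n : ℕ} {v : Fin n → ℂ}

theorem qmp_scale {r : ℝ} (hr : r ≠ 0) :
    Measure.QuasiMeasurePreserving (fun q : ℝ => r * q) volume volume := by
  refine ⟨by fun_prop, ?_⟩
  rw [Real.map_volume_mul_left hr]
  exact Measure.smul_absolutelyContinuous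

theorem LCv_scale {F : ℂ → ℝ → ℝ} {r : ℝ} (hr : 0 < r) {w : ℂ}
    (hF : ∀ Q, F ((r : ℂ) * w) (r * Q) = F w Q) {Q c : ℝ} :
    LCv F w Q c ↔ LCv F ((r : ℂ) * w) (r * Q) c := by
  constructor
  · rintro ⟨ε, hε, h⟩
    refine ⟨r * ε, by positivity, ?_⟩
    filter_upwards [(qmp_scale (inv_ne_zero hr.ne')).ae h] with q hq hq2
    have e1 : q = r * (r⁻¹ * q) := by field_simp
    rw [e1, hF]
    apply hq
    have e2 : r⁻¹ * q - Q = r⁻¹ * (q - r * Q) := by field_simp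
    rw [e2, abs_mul, abs_of_pos (inv_pos.2 hr), inv_mul_lt_iff₀ hr]
    exact hq2
  · rintro ⟨ε, hε, h⟩
    refine ⟨r⁻¹ * ε, by positivity, ?_⟩
    filter_upwards [(qmp_scale hr.ne').ae h] with q hq hq2
    rw [← hF]
    apply hq
    have e2 : r * q - r * Q = r * (q - Q) := by ring
    rw [e2, abs_mul, abs_of_pos hr]
    calc r * |q - Q| < r * (r⁻¹ * ε) := by gcongr
      _ = ε := by field_simp

theorem LC_scale {F : ℂ → ℝ → ℝ} {r : ℝ} (hr : 0 < r) {w : ℂ}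
    (hF : ∀ Q, F ((r : ℂ) * w) (r * Q) = F w Q) {Q : ℝ} :
    LC F w Q ↔ LC F ((r : ℂ) * w) (r * Q) :=
  exists_congr (fun _ => LCv_scale hr hF)

theorem Out_scale {k : Fin n} {r : ℝ} (hr : 0 < r) (θ : ℂ) :
    Out v k θ ↔ Out v k ((r : ℂ) * θ) := by
  constructor
  · rintro ⟨ε, hε, h⟩
    refine ⟨r⁻¹ * ε, by positivity, fun t ht ht2 => ?_⟩
    have e : (t : ℂ) * ((r : ℂ) * θ) = ((t * r : ℝ) : ℂ) * θ := by push_cast; ring
    rw [e]
    apply h _ (by positivity)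
    rw [inv_mul_eq_div, le_div_iff₀ hr] at ht2
    exact ht2
  · rintro ⟨ε, hε, h⟩
    refine ⟨r * ε, by positivity, fun t ht ht2 => ?_⟩
    have h2 := h (r⁻¹ * t) (by positivity) (by rw [inv_mul_le_iff₀ hr]; exact ht2)
    have e : ((r⁻¹ * t : ℝ) : ℂ) * ((r : ℂ) * θ) = (t : ℂ) * θ := by
      have : (r : ℂ) ≠ 0 := by exact_mod_cast hr.ne'
      push_cast
      field_simp
    rw [e] at h2
    exact h2

theorem vertex_LC (hn : 3 ≤ n) (hv : ConvexIndependent ℝ v) {A : Set (ℂ × ℂ)}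
    (hA : MeasurableSet A)
    (hcone : ∀ x w : ℂ, ∀ c : ℝ, 0 < c → ((x, w) ∈ A ↔ (x, (c : ℂ) * w) ∈ A))
    (hI : Inv v A) (hch : ∀ᵐ w, ChordAt v A w) (hP : SPer v A)
    (k : Fin n) : ∀ᵐ θ : ℂ, Out v k θ → LC (FA v A) θ (cr θ (v k)) := by
  apply ae_of_ae_ball _ (vertex_LC_ball hn hv hA hI hch hP k)
  intro z r hr
  rw [← Out_scale hr, cr_smul_left, ← LC_scale hr (fun Q => FA_cone hcone hr z Q)]

theorem FA_rev (A : Set (ℂ × ℂ)) (w : ℂ) (Q : ℝ) : FA v (rev A) w Q = FA v A (-w) (-Q) := by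
  have hb : bs (-w) (-Q) = bs w Q := by
    unfold bs
    simp only [neg_re, neg_im, even_two, Even.neg_pow]
    push_cast
    ring
  have hkey : (w, Q) ∈ Lset v (rev A) ↔ (-w, -Q) ∈ Lset v A := by
    unfold Lset
    simp only [mem_ofPred_eq, hb]
    have hset : {s : ℝ | bs w Q + (s : ℂ) * w ∈ PP v ∧ (bs w Q + (s : ℂ) * w, w) ∉ rev A} =
        Neg.neg ⁻¹' {s : ℝ | bs w Q + (s : ℂ) * -w ∈ PP v ∧ (bs w Q + (s : ℂ) * -w, -w) ∉ A} := by
      ext s
      simp only [mem_ofPred_eq, mem_preimage, rev]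
      have e : ((-s : ℝ) : ℂ) * -w = (s : ℂ) * w := by push_cast; ring
      rw [e]
    rw [hset, Measure.measure_preimage_neg]
  unfold FA
  by_cases h : (w, Q) ∈ Lset v (rev A)
  · rw [indicator_of_mem h, indicator_of_mem (hkey.1 h)]; rfl
  · rw [indicator_of_notMem h, indicator_of_notMem (fun h2 => h (hkey.2 h2))]

theorem LC_rev (A : Set (ℂ × ℂ)) {w : ℂ} {Q : ℝ} (h : LC (FA v (rev A)) w Q) :
    LC (FA v A) (-w) (-Q) := by
  obtain ⟨c, ε, hε, h⟩ := h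
  refine ⟨c, ε, hε, ?_⟩
  filter_upwards [(Measure.measurePreserving_neg (volume : Measure ℝ)).quasiMeasurePreserving.ae h]
    with q hq hq2
  rw [FA_rev, neg_neg] at hq
  apply hq
  have : -q - Q = -(q - -Q) := by ring
  rw [this, abs_neg]
  exact hq2

theorem SPer_rev {A : Set (ℂ × ℂ)} (hA : MeasurableSet A) (hP : SPer v A) : SPer v (rev A) := by
  obtain ⟨C, hC⟩ := hP
  refine ⟨C, hC.mono (fun ρ hρ => le_trans (le_of_eq ?_) hρ)⟩
  have hT : MeasurePreserving (fun p : ℂ × ℂ => (p.1 + (ρ : ℂ) * (I * p.2), -p.2))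
      volume volume := by
    have h1 := mp_neg_snd.comp (mp_shear ((ρ : ℂ) * I))
    convert h1 using 1
    funext p
    simp only [Function.comp]
    refine Prod.ext ?_ rfl
    simp only
    ring
  have hm : MeasurableSet (TD v A ρ ∩ {p : ℂ × ℂ | ‖p.2‖ < 1}) :=
    (measurableSet_TD hA ρ).inter (measurableSet_lt (measurable_snd.norm) measurable_const)
  rw [← hT.measure_preimage hm.nullMeasurableSet]
  congr 1
  ext p
  simp only [TD, rev, mem_preimage, mem_inter_iff, mem_ofPred_eq, norm_neg]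
  have e : p.1 + (ρ : ℂ) * (I * p.2) + (ρ : ℂ) * (I * -p.2) = p.1 := by ring
  rw [e]
  tauto

theorem vertex_LC_neg (hn : 3 ≤ n) (hv : ConvexIndependent ℝ v) {A : Set (ℂ × ℂ)}
    (hA : MeasurableSet A)
    (hcone : ∀ x w : ℂ, ∀ c : ℝ, 0 < c → ((x, w) ∈ A ↔ (x, (c : ℂ) * w) ∈ A))
    (hI : Inv v A) (hch : ∀ᵐ w, ChordAt v A w) (hP : SPer v A)
    (k : Fin n) : ∀ᵐ θ : ℂ, Out v k (-θ) → LC (FA v A) θ (cr θ (v k)) := by
  have hcone' : ∀ x w : ℂ, ∀ c : ℝ, 0 < c → ((x, w) ∈ rev A ↔ (x, (c : ℂ) * w) ∈ rev A) := by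
    intro x w c hc
    change (x, -w) ∈ A ↔ (x, -((c : ℂ) * w)) ∈ A
    rw [hcone x (-w) c hc, mul_neg]
  have h1 := vertex_LC hn hv (measurableSet_rev hA) hcone' (inv_rev hv hI) (chord_rev hch)
    (SPer_rev hA hP) k
  filter_upwards [ae_neg h1] with θ hθ hout
  have h2 := LC_rev A (hθ hout)
  rw [neg_neg, cr_neg_left, neg_neg] at h2
  exact h2

end Pool.Agent.Lib.Bil
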