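import Pool.Agent.Lib.MP_7bc51d_an.Step

set_option autoImplicit false

namespace Pool.Agent.Lib.Bil

open Complex MeasureTheory Set
open scoped ComplexConjugate Topology ENNReal

variable {n : ℕ} {v : Fin n → ℂ}

/-- Points whose history for the first `u.length` time-`h` steps is `u`. -/
def OO (v : Fin n → ℂ) (h : ℝ) : List (Option (Fin n × Fin n)) → Set (ℂ × ℂ)
  | [] => {p | p.1 ∈ PP v}
  | c :: u => {p | p ∈ stepSet v h c ∧ stepMap v h c p ∈ OO v h u}

/-- End point along the word `u`. -/
noncomputable def eM (v : Fin n → ℂ) (h : ℝ) : List (Option (Fin n × Fin n)) → ℂ × ℂ → ℂ × ℂ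
  | [], p => p
  | c :: u, p => eM v h u (stepMap v h c p)

theorem isOpen_OO (h : ℝ) (u : List (Option (Fin n × Fin n))) : IsOpen (OO v h u) := by
  induction u with
  | nil => exact isOpen_PP.preimage continuous_fst
  | cons c u ih =>
    exact (isOpen_stepSet h c).inter (ih.preimage (continuous_stepMap h c))

theorem eM_spec (hv : ConvexIndependent ℝ v) (h : ℝ) (u : List (Option (Fin n × Fin n))) :
    ∀ p ∈ OO v h u, (eM v h u p).1 ∈ PP v ∧ ‖(eM v h u p).2‖ = ‖p.2‖ := by
  induction u with
  | nil => exact fun p hp => ⟨hp, rfl⟩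
  | cons c u ih =>
    intro p hp
    obtain ⟨h1, h2⟩ := ih _ hp.2
    exact ⟨h1, h2.trans (norm_snd_stepMap hv hp.1)⟩

theorem eM_parallel (h : ℝ) (u : List (Option (Fin n × Fin n))) :
    ∀ (p q : ℂ × ℂ) (e : ℂ),
      p.1 + ((u.length : ℂ) * h) * p.2 = q.1 + ((u.length : ℂ) * h) * q.2 →
      p.2 = e * q.2 →
      (eM v h u p).1 = (eM v h u q).1 ∧ ((eM v h u p).2 = e * (eM v h u q).2 ∨
        (eM v h u p).2 = conj e * (eM v h u q).2) := by
  induction u with
  | nil =>
    intro p q e h1 h2
    simp only [List.length_nil, Nat.cast_zero, zero_mul, add_zero] at h1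
    exact ⟨h1, Or.inl h2⟩
  | cons c u ih =>
    intro p q e h1 h2
    rw [List.length_cons] at h1
    push_cast at h1
    match c with
    | none =>
      refine ih (p.1 + (h : ℂ) * p.2, p.2) (q.1 + (h : ℂ) * q.2, q.2) e ?_ h2
      simp only
      linear_combination h1
    | some (i, j) =>
      have h3 := ih (RR v i j (p.1 + (h : ℂ) * p.2), rl (v j - v i) p.2)
        (RR v i j (q.1 + (h : ℂ) * q.2), rl (v j - v i) q.2) (conj e) (by
          simp only
          have hmh : ∀ z : ℂ, ((u.length : ℂ) * h) * rl (v j - v i) z =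
              rl (v j - v i) (((u.length : ℂ) * h) * z) := by
            intro z
            have := rl_smul (v j - v i) z ((u.length : ℝ) * h)
            push_cast at this
            exact this.symm
          rw [hmh, hmh, ← RR_add, ← RR_add]
          congr 1
          linear_combination h1) (by
          simp only
          rw [h2, rl_mul])
      rw [conj_conj] at h3
      exact ⟨h3.1, h3.2.symm⟩

/-- Transfer operator along `m` steps. -/
noncomputable def EE (v : Fin n → ℂ) (h : ℝ) (G : ℂ × ℂ → ℝ≥0∞) : ℕ → ℂ × ℂ → ℝ≥0∞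
  | 0 => G
  | m + 1 => fun p => ∑ c : Option (Fin n × Fin n),
      (stepSet v h c).indicator (fun q => EE v h G m (stepMap v h c q)) p

theorem measurable_EE (h : ℝ) {G : ℂ × ℂ → ℝ≥0∞} (hG : Measurable G) (m : ℕ) :
    Measurable (EE v h G m) := by
  induction m with
  | zero => exact hG
  | succ m ih =>
    apply Finset.measurable_sum
    intro c _
    exact (ih.comp (continuous_stepMap h c).measurable).indicator
      (isOpen_stepSet h c).measurableSet

/-- Phase space (velocities of modulus less than one). -/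
def DD (v : Fin n → ℂ) : Set (ℂ × ℂ) := PP v ×ˢ Metric.ball (0 : ℂ) 1

theorem measurableSet_DD : MeasurableSet (DD v) :=
  (isOpen_PP.prod Metric.isOpen_ball).measurableSet

theorem mem_DD {p : ℂ × ℂ} : p ∈ DD v ↔ p.1 ∈ PP v ∧ ‖p.2‖ < 1 := by
  rw [DD, mem_prod, mem_ball_zero_iff]

theorem volume_DD_lt_top : volume (DD v) < ⊤ := by
  rw [DD, Measure.volume_eq_prod, Measure.prod_prod]
  exact ENNReal.mul_lt_top isBounded_PP.measure_lt_top measure_ball_lt_top

theorem EE_contraction (hv : ConvexIndependent ℝ v) (h : ℝ) {G : ℂ × ℂ → ℝ≥0∞}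
    (hG : Measurable G) (m : ℕ) :
    ∫⁻ p in DD v, EE v h G m p ≤ ∫⁻ p in DD v, G p := by
  induction m with
  | zero => exact le_rfl
  | succ m ih =>
    refine le_trans ?_ ih
    have hF := measurable_EE (v := v) h hG m
    set F := EE v h G m with hFdef
    have h1 : ∫⁻ p in DD v, EE v h G (m + 1) p =
        ∑ c : Option (Fin n × Fin n), ∫⁻ p in DD v,
          (stepSet v h c).indicator (fun q => F (stepMap v h c q)) p := by
      change ∫⁻ p in DD v, ∑ c : Option (Fin n × Fin n),
          (stepSet v h c).indicator (fun q => F (stepMap v h c q)) p = _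
      rw [lintegral_finsetSum]
      intro c _
      exact (hF.comp (continuous_stepMap h c).measurable).indicator
        (isOpen_stepSet h c).measurableSet
    rw [h1]
    have h2 : ∀ c : Option (Fin n × Fin n), ∫⁻ p in DD v,
          (stepSet v h c).indicator (fun q => F (stepMap v h c q)) p ≤
          ∫⁻ p in DD v ∩ imgSet v h c, F p := by
      intro c
      rcases (stepSet v h c).eq_empty_or_nonempty with hemp | hne
      · rw [hemp]; simp
      · have hmp := mp_stepMap hv h hne
        rw [← lintegral_indicator measurableSet_DD,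
          ← lintegral_indicator (measurableSet_DD.inter (measurableSet_imgSet h c)),
          ← hmp.lintegral_comp (hF.indicator (measurableSet_DD.inter (measurableSet_imgSet h c)))]
        apply lintegral_mono
        intro p
        by_cases hp : p ∈ DD v
        · rw [indicator_of_mem hp]
          by_cases hp2 : p ∈ stepSet v h c
          · have hmem : stepMap v h c p ∈ DD v ∩ imgSet v h c := by
              refine ⟨?_, stepMap_mem_imgSet hv hp2⟩
              rw [mem_DD] at hp ⊢
              exact ⟨fst_stepMap_mem hp2, by rw [norm_snd_stepMap hv hp2]; exact hp.2⟩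
            rw [indicator_of_mem hp2]
            simp only
            rw [indicator_of_mem hmem]
          · rw [indicator_of_notMem hp2]; exact zero_le
        · rw [indicator_of_notMem hp]; exact zero_le
    refine (Finset.sum_le_sum (fun c _ => h2 c)).trans ?_
    have h3 : ∑ c : Option (Fin n × Fin n), ∫⁻ p in DD v ∩ imgSet v h c, F p =
        ∫⁻ p in ⋃ c, DD v ∩ imgSet v h c, F p := by
      rw [lintegral_iUnion (fun c => measurableSet_DD.inter (measurableSet_imgSet h c)),
        tsum_fintype]
      intro c c' hcc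
      exact (imgSet_disjoint hv hcc).mono inter_subset_right inter_subset_right
    rw [h3]
    exact lintegral_mono_set (iUnion_subset (fun c => inter_subset_left))

theorem le_EE (h : ℝ) (G : ℂ × ℂ → ℝ≥0∞) (u : List (Option (Fin n × Fin n))) :
    ∀ p ∈ OO v h u, G (eM v h u p) ≤ EE v h G u.length p := by
  induction u with
  | nil => exact fun p _ => le_rfl
  | cons c u ih =>
    intro p hp
    refine (ih _ hp.2).trans ?_
    rw [List.length_cons]
    change _ ≤ ∑ c : Option (Fin n × Fin n),
      (stepSet v h c).indicator (fun q => EE v h G u.length (stepMap v h c q)) p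
    have := Finset.single_le_sum (f := fun c => (stepSet v h c).indicator
      (fun q => EE v h G u.length (stepMap v h c q)) p) (fun _ _ => zero_le) (Finset.mem_univ c)
    refine le_trans ?_ this
    rw [indicator_of_mem hp.1]

/-- One-step invariance. -/
def Inv (v : Fin n → ℂ) (A : Set (ℂ × ℂ)) : Prop :=
  ∀ h : ℝ, 0 < h → ∀ᵐ p ∂(volume : Measure (ℂ × ℂ)),
    ∀ c, p ∈ stepSet v h c → (p ∈ A ↔ stepMap v h c p ∈ A)

theorem inv_word (hv : ConvexIndependent ℝ v) {A : Set (ℂ × ℂ)} (hA : Inv v A) {h : ℝ}
    (hh : 0 < h) : ∀ᵐ p ∂(volume : Measure (ℂ × ℂ)),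
      ∀ u, p ∈ OO v h u → (p ∈ A ↔ eM v h u p ∈ A) := by
  rw [ae_all_iff]
  intro u
  induction u with
  | nil => exact Filter.Eventually.of_forall (fun p _ => Iff.rfl)
  | cons c u ih =>
    rcases (stepSet v h c).eq_empty_or_nonempty with hemp | hne
    · refine Filter.Eventually.of_forall (fun p hp => ?_)
      have := hp.1
      rw [hemp] at this
      exact absurd this (notMem_empty _)
    · have h1 := (mp_stepMap hv h hne).quasiMeasurePreserving.ae ih
      filter_upwards [hA h hh, h1] with p hp1 hp2 hp3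
      exact (hp1 c hp3.1).trans (hp2 hp3.2)

/-- Phase points at which rotating the velocity by `c` changes membership in `A`. -/
def BB (v : Fin n → ℂ) (A : Set (ℂ × ℂ)) (c : ℂ) : Set (ℂ × ℂ) :=
  {p | p ∈ DD v ∧ ¬ (p ∈ A ↔ (p.1, c * p.2) ∈ A)}

theorem measurableSet_BB {A : Set (ℂ × ℂ)} (hA : MeasurableSet A) (c : ℂ) :
    MeasurableSet (BB v A c) := by
  have h1 : MeasurableSet {p : ℂ × ℂ | (p.1, c * p.2) ∈ A} :=
    hA.preimage (Continuous.measurable (by fun_prop))
  have : BB v A c = DD v ∩
      ((A \ {p : ℂ × ℂ | (p.1, c * p.2) ∈ A}) ∪ ({p : ℂ × ℂ | (p.1, c * p.2) ∈ A} \ A)) := by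
    ext p
    simp only [BB, mem_inter_iff, mem_union, mem_sdiff, mem_ofPred_eq]
    tauto
  rw [this]
  exact measurableSet_DD.inter ((hA.diff h1).union (h1.diff hA))

theorem volume_BB_conj {A : Set (ℂ × ℂ)} (hA : MeasurableSet A) {c : ℂ} (hc : ‖c‖ = 1) :
    volume (BB v A (conj c)) = volume (BB v A c) := by
  rw [← (mp_rot hc).measure_preimage (measurableSet_BB hA (conj c)).nullMeasurableSet]
  congr 1
  ext p
  have h1 : conj c * c = 1 := by
    rw [← Complex.normSq_eq_conj_mul_self, Complex.normSq_eq_norm_sq, hc]; simp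
  simp only [BB, mem_preimage, mem_ofPred_eq, mem_DD, norm_mul, hc, one_mul, ← mul_assoc, h1]
  tauto

theorem core (hv : ConvexIndependent ℝ v) {A : Set (ℂ × ℂ)} (hA : MeasurableSet A)
    (hI : Inv v A) {h : ℝ} (hh : 0 < h) (m : ℕ) {c : ℂ} (hc : ‖c‖ = 1) :
    volume {p : ℂ × ℂ | p ∈ DD v ∧
      (∃ u : List (Option (Fin n × Fin n)), u.length = m ∧ (p.1, c * p.2) ∈ OO v h u ∧
        (p.1 + ((m : ℂ) * h) * (c - 1) * p.2, p.2) ∈ OO v h u) ∧
      ¬ (p ∈ A ↔ (p.1 + ((m : ℂ) * h) * (c - 1) * p.2, p.2) ∈ A)} ≤
      3 * volume (BB v A c) := by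
  set S := {p : ℂ × ℂ | p ∈ DD v ∧
      (∃ u : List (Option (Fin n × Fin n)), u.length = m ∧ (p.1, c * p.2) ∈ OO v h u ∧
        (p.1 + ((m : ℂ) * h) * (c - 1) * p.2, p.2) ∈ OO v h u) ∧
      ¬ (p ∈ A ↔ (p.1 + ((m : ℂ) * h) * (c - 1) * p.2, p.2) ∈ A)} with hS
  set G : ℂ × ℂ → ℝ≥0∞ := fun q => (BB v A c).indicator 1 q + (BB v A (conj c)).indicator 1 q
    with hG
  have hGm : Measurable G := by
    apply Measurable.add
    · exact measurable_one.indicator (measurableSet_BB hA c)
    · exact measurable_one.indicator (measurableSet_BB hA (conj c))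
  have hw := inv_word hv hI hh
  have hw1 := (mp_rot hc).quasiMeasurePreserving.ae hw
  have hw2 := (mp_shear (((m : ℂ) * h) * (c - 1))).quasiMeasurePreserving.ae hw
  have hSsub : S ⊆ DD v := fun p hp => hp.1
  set Fm : ℂ × ℂ → ℝ≥0∞ := fun p => (BB v A c).indicator 1 p + EE v h G m (p.1, c * p.2) with hFm
  have hEm : Measurable (fun p : ℂ × ℂ => EE v h G m (p.1, c * p.2)) :=
    (measurable_EE h hGm m).comp (mp_rot hc).measurable
  have hFmm : Measurable Fm := (measurable_one.indicator (measurableSet_BB hA c)).add hEm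
  have key : ∀ᵐ p ∂(volume : Measure (ℂ × ℂ)), p ∈ S → 1 ≤ Fm p := by
    filter_upwards [hw1, hw2] with p hp1 hp2 hpS
    obtain ⟨hpD, ⟨u, hum, hu1, hu2⟩, hne⟩ := hpS
    by_cases hpB : p ∈ BB v A c
    · rw [hFm]
      simp only
      rw [indicator_of_mem hpB]; simp
    · have h0 : p ∈ A ↔ (p.1, c * p.2) ∈ A := by
        by_contra hcon
        exact hpB ⟨hpD, hcon⟩
      have e1 := hp1 u hu1
      have e2 := hp2 u hu2
      have e3 := eM_parallel (v := v) h u (p.1, c * p.2)
        (p.1 + ((m : ℂ) * h) * (c - 1) * p.2, p.2) c (by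
          simp only [hum]
          ring) rfl
      set q1 := eM v h u (p.1, c * p.2) with hq1
      set q2 := eM v h u (p.1 + ((m : ℂ) * h) * (c - 1) * p.2, p.2) with hq2
      have hq1D : q1 ∈ DD v := by
        rw [mem_DD]
        obtain ⟨s1, s2⟩ := eM_spec hv h u _ hu1
        refine ⟨s1, ?_⟩
        rw [hq1, s2]
        simp only [norm_mul, hc, one_mul]
        exact (mem_DD.1 hpD).2
      have hq12 : ¬ (q1 ∈ A ↔ q2 ∈ A) := by
        intro hcon
        apply hne
        rw [h0, e1, hcon]
        exact e2.symm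
      have hcc : conj c * c = 1 := by
        rw [← Complex.normSq_eq_conj_mul_self, Complex.normSq_eq_norm_sq, hc]; simp
      have hGq : 1 ≤ G q1 := by
        rw [hG]
        simp only
        rcases e3.2 with e4 | e4
        · have : q2 = (q1.1, conj c * q1.2) := by
            rw [e4, ← mul_assoc, hcc, one_mul]
            exact Prod.ext e3.1.symm rfl
          have hmem : q1 ∈ BB v A (conj c) := ⟨hq1D, by rw [← this]; exact hq12⟩
          rw [indicator_of_mem hmem]; simp
        · have : q2 = (q1.1, c * q1.2) := by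
            rw [e4, ← mul_assoc, mul_comm c, hcc, one_mul]
            exact Prod.ext e3.1.symm rfl
          have hmem : q1 ∈ BB v A c := ⟨hq1D, by rw [← this]; exact hq12⟩
          rw [indicator_of_mem hmem]; simp
      have h5 := le_EE h G u _ hu1
      rw [hum] at h5
      exact (hGq.trans h5).trans le_add_self
  have hSle : volume S ≤ ∫⁻ p in DD v, Fm p := by
    calc volume S = (volume.restrict (DD v)) S := (Measure.restrict_eq_self _ hSsub).symm
      _ ≤ (volume.restrict (DD v)) {p | 1 ≤ Fm p} := by
          apply measure_mono_ae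
          exact ae_restrict_of_ae key
      _ = 1 * (volume.restrict (DD v)) {p | 1 ≤ Fm p} := (one_mul _).symm
      _ ≤ ∫⁻ p in DD v, Fm p := mul_meas_ge_le_lintegral hFmm 1
  refine hSle.trans ?_
  have i1 : ∫⁻ p in DD v, Fm p = volume (BB v A c) + ∫⁻ p in DD v, EE v h G m (p.1, c * p.2) := by
    rw [hFm, lintegral_add_left (measurable_one.indicator (measurableSet_BB hA c)),
      lintegral_indicator_one (measurableSet_BB hA c), Measure.restrict_eq_self]
    exact fun p hp => hp.1
  have i2 : ∫⁻ p in DD v, EE v h G m (p.1, c * p.2) = ∫⁻ p in DD v, EE v h G m p := by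
    have := (mp_rot hc).setLIntegral_comp_preimage (measurableSet_DD (v := v))
      (measurable_EE (v := v) h hGm m)
    rw [← this]
    congr 2
    ext p
    rw [mem_preimage, mem_DD, mem_DD]
    simp only [norm_mul, hc, one_mul]
  have i3 : ∫⁻ p in DD v, G p = 2 * volume (BB v A c) := by
    rw [hG, lintegral_add_left (measurable_one.indicator (measurableSet_BB hA c)),
      lintegral_indicator_one (measurableSet_BB hA c),
      lintegral_indicator_one (measurableSet_BB hA (conj c)),
      Measure.restrict_eq_self _ (fun p hp => hp.1),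
      Measure.restrict_eq_self _ (fun p hp => hp.1), volume_BB_conj hA hc, two_mul]
  rw [i1, i2]
  calc volume (BB v A c) + ∫⁻ p in DD v, EE v h G m p
      ≤ volume (BB v A c) + 2 * volume (BB v A c) := by
        gcongr
        rw [← i3]
        exact EE_contraction hv h hGm m
    _ = 3 * volume (BB v A c) := by ring

end Pool.Agent.Lib.Bil
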